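import Pool.Agent.R349.LocalMulti
import Pool.Agent.H340R2.LW

/-!
# Values of analytic functions at algebraic points in small balls: a bounded number of bad tuples

The general theorem, in a form which is ready for applications: `shortG`.
-/

set_option autoImplicit false

open MvPolynomial NumberField

namespace Pool.Agent.R349.Gen

section spec
variable {σ : Type} [Fintype σ] [DecidableEq σ]

/-- specialisation of one variable -/
noncomputable def spec {R : Type*} [CommRing R] (j : R →+* ℂ) (x : ℂ) (Q : MvPolynomial (Option σ) R) :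
    MvPolynomial σ ℂ := ∑ u ∈ Q.support, monomial u.some (j (Q.coeff u) * x ^ u none)

theorem spec_eval {R : Type*} [CommRing R] (j : R →+* ℂ) (x : ℂ) (Q : MvPolynomial (Option σ) R)
    (y : σ → ℂ) : aeval y (spec j x Q) = eval₂ j (fun o => o.elim x y) Q := by
  classical
  rw [spec, map_sum, eval₂_eq']
  refine Finset.sum_congr rfl fun u _ => ?_
  rw [aeval_monomial, Finsupp.prod_fintype _ _ (fun _ => pow_zero _), Fintype.prod_option]
  simp only [Algebra.algebraMap_self, RingHom.id_apply, Option.elim_none, Option.elim_some, Finsupp.some_apply]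
  ring

/-- the exponent with given components -/
noncomputable def opt (k : ℕ) (s : σ →₀ ℕ) : Option σ →₀ ℕ :=
  Finsupp.equivFunOnFinite.symm fun o => o.elim k s

theorem opt_some (k : ℕ) (s : σ →₀ ℕ) : (opt k s).some = s := by
  ext i
  simp [opt]

theorem opt_none (k : ℕ) (s : σ →₀ ℕ) : opt k s none = k := by simp [opt]

theorem opt_eta (u : Option σ →₀ ℕ) : opt (u none) u.some = u := by
  ext o
  cases o <;> simp [opt]

theorem spec_coeff {R : Type*} [CommRing R] (j : R →+* ℂ) (x : ℂ) (Q : MvPolynomial (Option σ) R)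
    (d : ℕ) (hd : Q.degreeOf none ≤ d) (s : σ →₀ ℕ) :
    (spec j x Q).coeff s = ∑ k : Fin (d + 1), x ^ (k : ℕ) * j (Q.coeff (opt k s)) := by
  classical
  rw [spec, coeff_sum]
  simp only [coeff_monomial]
  rw [← Finset.sum_filter]
  rw [Fin.sum_univ_eq_sum_range (fun k => x ^ k * j (Q.coeff (opt k s))) (d + 1)]
  have hinj : Set.InjOn (fun k : ℕ => opt k s) (Finset.range (d + 1)) := by
    intro k _ k' _ h
    have := DFunLike.congr_fun h none
    simpa [opt_none] using this
  have h1 : ∑ k ∈ Finset.range (d + 1), x ^ k * j (Q.coeff (opt k s)) =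
      ∑ u ∈ (Finset.range (d + 1)).image (fun k => opt k s), x ^ u none * j (Q.coeff u) := by
    rw [Finset.sum_image hinj]
    refine Finset.sum_congr rfl fun k _ => ?_
    rw [opt_none]
  rw [h1]
  refine (Finset.sum_congr rfl fun u _ => mul_comm _ _).trans (Finset.sum_subset ?_ ?_)
  · intro u hu
    rw [Finset.mem_filter] at hu
    rw [Finset.mem_image]
    refine ⟨u none, Finset.mem_range.2 (Nat.lt_succ_of_le ((monomial_le_degreeOf none hu.1).trans hd)), ?_⟩
    rw [← hu.2, opt_eta]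
  · intro u hu hu'
    rw [Finset.mem_image] at hu
    obtain ⟨k, _, rfl⟩ := hu
    rw [Finset.mem_filter, not_and_or, notMem_support_iff] at hu'
    rcases hu' with h | h
    · rw [h, map_zero, mul_zero]
    · exact absurd (opt_some k s) h

end spec

/-- The polynomials of degree at most `d` in each variable, all of whose coefficients are of the form `∑ ξ_i ι(c_i)`, where
the `c_i` are integers of the number field `F` all of whose conjugates have absolute value at most `H`. -/
def AdmG {σ : Type} {g : ℕ} (F : Type) [Field F] [NumberField F] (ι : F →+* ℂ) (ξ : Fin g → ℂ) (d : ℕ) (H : ℝ)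
    (P : MvPolynomial σ ℂ) : Prop :=
  (∀ j, P.degreeOf j ≤ d) ∧
    ∀ s, ∃ c : Fin g → 𝓞 F, (∀ i (φ : F →+* ℂ), ‖φ (c i)‖ ≤ H) ∧ P.coeff s = ∑ i, ξ i * ι (c i)

/-- The numbers `v` are good: every admissible polynomial takes at them a value which is at least `δ` times each of its
coefficients, and `π` and the numbers `v` satisfy no relation `Q = 0` with a nonzero polynomial `Q` of degree at most `d`
in each variable whose coefficients are integers of `F` with conjugates of absolute value at most `H`. -/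
def GoodG {σ : Type} {g : ℕ} (F : Type) [Field F] [NumberField F] (ι : F →+* ℂ) (ξ : Fin g → ℂ) (d : ℕ) (H δ : ℝ)
    (v : σ → ℂ) : Prop :=
  (∀ P : MvPolynomial σ ℂ, AdmG F ι ξ d H P → ∀ s, δ * ‖P.coeff s‖ ≤ ‖aeval v P‖) ∧
  ∀ Q : MvPolynomial (Option σ) (𝓞 F), Q ≠ 0 → (∀ x, Q.degreeOf x ≤ d) →
    (∀ s (φ : F →+* ℂ), ‖φ ((Q.coeff s : 𝓞 F) : F)‖ ≤ H) →
    eval₂ (ι.comp (algebraMap (𝓞 F) F)) (fun o => o.elim (Real.pi : ℂ) v) Q ≠ 0

/-- nonvanishing of polynomials in `π` over a number field -/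
lemma pi_poly {F : Type} [Field F] [NumberField F] (ι : F →+* ℂ) (N : ℕ) (c : Fin N → F) (k₀ : Fin N) (hk : c k₀ ≠ 0) :
    ∑ k : Fin N, (Real.pi : ℂ) ^ (k : ℕ) * ι (c k) ≠ 0 := by
  classical
  let _ : Algebra F ℂ := ι.toAlgebra
  intro h
  have htr := Pool.Agent.H340R2.LW.transcendental_pi_complex
  apply htr
  have halg : IsAlgebraic F (Real.pi : ℂ) := by
    refine ⟨∑ k : Fin N, Polynomial.monomial (k : ℕ) (c k), ?_, ?_⟩
    · intro h0
      have h1 := congrArg (fun p => Polynomial.coeff p (k₀ : ℕ)) h0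
      simp only [Polynomial.finsetSum_coeff, Polynomial.coeff_monomial, Polynomial.coeff_zero] at h1
      have h2 : ∑ k : Fin N, (if (k : ℕ) = (k₀ : ℕ) then c k else 0) = c k₀ := by
        rw [Finset.sum_eq_single k₀]
        · simp
        · intro b _ hb
          rw [if_neg (fun hh => hb (Fin.ext hh))]
        · intro hh
          exact absurd (Finset.mem_univ _) hh
      rw [h2] at h1
      exact hk h1
    · rw [map_sum, ← h]
      refine Finset.sum_congr rfl fun k _ => ?_
      rw [Polynomial.aeval_monomial, mul_comm]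
      rfl
  exact halg.restrictScalars ℚ

/-- the inequality for the constants `ξ` together with the powers of `π` is enough -/
lemma goodG_of_key {σ : Type} [Fintype σ] [DecidableEq σ] {g : ℕ} (F : Type) [Field F] [NumberField F] (ι : F →+* ℂ)
    (ξ : Fin g → ℂ) (d : ℕ) (H δ : ℝ) (hH : 0 ≤ H) (hδ : 0 < δ) (v : σ → ℂ)
    (key : ∀ P : MvPolynomial σ ℂ,
      AdmG F ι (Fin.append ξ fun k : Fin (d + 1) => (Real.pi : ℂ) ^ (k : ℕ)) d H P → ∀ s,
      δ * ‖P.coeff s‖ ≤ ‖aeval v P‖) : GoodG F ι ξ d H δ v := by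
  refine ⟨?_, ?_⟩
  · intro P hP s
    refine key P ⟨hP.1, fun s' => ?_⟩ s
    obtain ⟨c, hc1, hc2⟩ := hP.2 s'
    refine ⟨Fin.append c 0, fun i φ => ?_, ?_⟩
    · refine Fin.addCases (fun i => ?_) (fun i => ?_) i
      · rw [Fin.append_left]
        exact hc1 i φ
      · rw [Fin.append_right]
        simp only [Pi.zero_apply, map_zero, norm_zero]
        positivity
    · rw [hc2, Fin.sum_univ_add]
      simp [Fin.append_left, Fin.append_right]
  · intro Q hQ0 hQd hQc h0
    have hcoef := spec_coeff (ι.comp (algebraMap (𝓞 F) F)) (Real.pi : ℂ) Q d (hQd none)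
    obtain ⟨u0, hu0⟩ := ne_zero_iff.1 hQ0
    have hP : AdmG F ι (Fin.append ξ fun k : Fin (d + 1) => (Real.pi : ℂ) ^ (k : ℕ)) d H
        (spec (ι.comp (algebraMap (𝓞 F) F)) (Real.pi : ℂ) Q) := by
      refine ⟨fun j => ?_, fun s => ?_⟩
      · rw [degreeOf_le_iff]
        intro s hs
        rw [mem_support_iff, hcoef] at hs
        obtain ⟨k, -, hk⟩ := Finset.exists_ne_zero_of_sum_ne_zero hs
        have h1 : opt (k : ℕ) s ∈ Q.support := by
          rw [mem_support_iff]
          intro h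
          apply hk
          rw [h, map_zero, mul_zero]
        have h2 := (monomial_le_degreeOf (some j) h1).trans (hQd (some j))
        rwa [show opt (k : ℕ) s (some j) = s j by simp [opt]] at h2
      · refine ⟨Fin.append (fun _ => 0) fun k : Fin (d + 1) => Q.coeff (opt (k : ℕ) s), fun i φ => ?_, ?_⟩
        · refine Fin.addCases (fun i => ?_) (fun i => ?_) i
          · rw [Fin.append_left]
            simp only [map_zero, norm_zero]
            positivity
          · rw [Fin.append_right]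
            exact hQc _ φ
        · rw [hcoef]
          refine Eq.symm ((Fin.sum_univ_add _).trans ?_)
          simp only [Fin.append_left, Fin.append_right, map_zero, mul_zero, Finset.sum_const_zero, zero_add]
          rfl
    have h1 := key _ hP u0.some
    rw [spec_eval, h0, norm_zero, hcoef] at h1
    have h2 : ∑ k : Fin (d + 1), (Real.pi : ℂ) ^ (k : ℕ) *
        ι (((Q.coeff (opt (k : ℕ) u0.some) : 𝓞 F)) : F) ≠ 0 := by
      have h3 : u0 none ≤ d := (monomial_le_degreeOf none (mem_support_iff.2 hu0)).trans (hQd none)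
      refine pi_poly ι (d + 1) (fun k => ((Q.coeff (opt (k : ℕ) u0.some) : 𝓞 F) : F))
        ⟨u0 none, Nat.lt_succ_of_le h3⟩ ?_
      simp only
      rw [opt_eta]
      exact_mod_cast hu0
    have h4 := norm_pos_iff.2 h2
    have h5 := mul_pos hδ h4
    exact absurd h1 (not_le.2 h5)

lemma MgR_eq {α : Type} {n : ℕ} (X : Fin n → Finset α) :
    Pool.Agent.Y124.MgR X = ∑ j, ∏ i ∈ Finset.univ.erase j, ((X i).card : ℝ) := by
  unfold Pool.Agent.Y124.MgR
  refine Finset.sum_congr rfl fun j _ => ?_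
  rw [← Finset.mul_prod_erase Finset.univ _ (Finset.mem_univ j), if_pos rfl, one_mul]
  exact Finset.prod_congr rfl fun i hi => if_neg (Finset.ne_of_mem_erase hi)

/-- Let the functions `f j k` be analytic on the compact set `L` and such that for each `j` the identity and the functions
`f j k` are algebraically independent near each point of `L`. For all `m`, `g`, `d`, `A`, `δ > 0` there are `B`, `C`, `T₀` such
that for every number field `F` of degree at most `m` with embedding `ι`, all complex `ξ_1, …, ξ_g`, all `T ≥ T₀` and all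
finite sets `X_j` of elements of `F` of height at most `T` whose images are in `L` and at mutual distances at most
`T ^ (-δ)`: at most `C ∑_j ∏_(i ≠ j) |X_i|` tuples of `∏ X_j` are bad; if all `|X_j| > C` there is a good tuple. -/
theorem shortG {κ : Type} [Fintype κ] [DecidableEq κ] (m n g d : ℕ) (f : Fin n → κ → ℂ → ℂ) (L : Set ℂ)
    (hL : IsCompact L) (han : ∀ j y, ∀ t ∈ L, AnalyticAt ℂ (f j y) t)
    (hind : ∀ j, ∀ t ∈ L, Pool.Agent.Y124.LocInd (f j) t) (A δ : ℝ) (hδ : 0 < δ) :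
    ∃ (B : ℝ) (C : ℕ) (T₀ : ℝ), ∀ (F : Type) [Field F] [NumberField F], Module.finrank ℚ F ≤ m →
      ∀ (ι : F →+* ℂ) (ξ : Fin g → ℂ) (T : ℝ), T₀ ≤ T → ∀ X : Fin n → Finset F,
        (∀ j, ∀ x ∈ X j, ι x ∈ L ∧ ∃ a b : 𝓞 F, b ≠ 0 ∧ (∀ φ : F →+* ℂ, ‖φ a‖ ≤ T ∧ ‖φ b‖ ≤ T) ∧ x = a / b) →
        (∀ j, ∀ x ∈ X j, ∀ y ∈ X j, ‖ι x - ι y‖ ≤ T ^ (-δ)) →
        (({t : Fin n → F | (∀ j, t j ∈ X j) ∧
          ¬ GoodG F ι ξ d (T ^ A) (T ^ (-B)) (fun z : Fin n × κ => f z.1 z.2 (ι (t z.1)))}.ncard : ℝ) ≤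
          C * ∑ j, ∏ i ∈ Finset.univ.erase j, ((X i).card : ℝ)) ∧
        ((∀ j, C < (X j).card) → ∃ t : Fin n → F, (∀ j, t j ∈ X j) ∧
          GoodG F ι ξ d (T ^ A) (T ^ (-B)) (fun z : Fin n × κ => f z.1 z.2 (ι (t z.1)))) := by
  classical
  rcases L.eq_empty_or_nonempty with hL0 | ⟨τ₀, hτ₀⟩
  · -- degenerate case
    rcases Nat.eq_zero_or_pos n with hn | hn
    · subst hn
      obtain ⟨B, C, T₀, hB, hC, hT₀, H⟩ := mainL m 0 (g + (d + 1)) d f L hL han hind A δ hδ
      refine ⟨B, 0, max T₀ 2, fun F _ _ hF ι ξ T hT X _ _ => ?_⟩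
      have hT2 : 2 ≤ T := (le_max_right _ _).trans hT
      have hTT₀ : T₀ ≤ T := (le_max_left _ _).trans hT
      have hTp : 0 < T := by linarith
      have hgood : ∀ t : Fin 0 → F, GoodG F ι ξ d (T ^ A) (T ^ (-B)) (fun z : Fin 0 × κ => f z.1 z.2 (ι (t z.1))) := by
        intro t
        by_contra hab
        have hbad : ∃ P : MvPolynomial (Fin 0 × κ) ℂ, AdmG F ι
            (Fin.append ξ fun k : Fin (d + 1) => (Real.pi : ℂ) ^ (k : ℕ)) d (T ^ A) P ∧ ∃ s,
            ‖aeval (fun z : Fin 0 × κ => f z.1 z.2 (ι (t z.1))) P‖ < T ^ (-B) * ‖P.coeff s‖ := by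
          by_contra hcon
          apply hab
          refine goodG_of_key F ι ξ d (T ^ A) (T ^ (-B)) (by positivity) (by positivity) _ fun P hP s => ?_
          by_contra hlt
          exact hcon ⟨P, hP, s, not_le.1 hlt⟩
        obtain ⟨P, ⟨hP1, hP2⟩, s, hs⟩ := hbad
        have h1 := H F hF ι (Fin.append ξ fun k : Fin (d + 1) => (Real.pi : ℂ) ^ (k : ℕ)) T hTT₀ (fun j => j.elim0)
          (fun j => j.elim0) (fun j => j.elim0) {t} (by
            intro t' ht'
            rw [Finset.mem_singleton] at ht'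
            subst ht'
            refine ⟨fun j => j.elim0, P, hP1, hP2, s, ?_, hs.le⟩
            intro h0
            rw [h0, norm_zero, mul_zero] at hs
            exact absurd hs (not_lt.2 (norm_nonneg _)))
        rw [Finset.card_singleton] at h1
        have h2 : Pool.Agent.Y124.MgR (fun j : Fin 0 => (j.elim0 : Finset F)) = 0 := by simp [Pool.Agent.Y124.MgR]
        rw [h2, mul_zero] at h1
        norm_num at h1
      refine ⟨?_, fun _ => ⟨fun j => j.elim0, fun j => j.elim0, hgood _⟩⟩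
      have h1 : {t : Fin 0 → F | (∀ j, t j ∈ X j) ∧
          ¬ GoodG F ι ξ d (T ^ A) (T ^ (-B)) (fun z : Fin 0 × κ => f z.1 z.2 (ι (t z.1)))} = ∅ := by
        rw [Set.eq_empty_iff_forall_notMem]
        rintro t ⟨-, h⟩
        exact h (hgood t)
      rw [h1, Set.ncard_empty]
      simp
    · refine ⟨0, 0, 0, fun F _ _ hF ι ξ T hT X hX _ => ?_⟩
      have hXe : ∀ j, X j = ∅ := by
        intro j
        rw [Finset.eq_empty_iff_forall_notMem]
        intro x hx
        have := (hX j x hx).1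
        rw [hL0] at this
        exact this
      refine ⟨?_, fun h => ?_⟩
      · have h1 : {t : Fin n → F | (∀ j, t j ∈ X j) ∧
            ¬ GoodG F ι ξ d (T ^ A) (T ^ (-(0 : ℝ))) (fun z : Fin n × κ => f z.1 z.2 (ι (t z.1)))} = ∅ := by
          rw [Set.eq_empty_iff_forall_notMem]
          rintro t ⟨h, -⟩
          have := h ⟨0, hn⟩
          rw [hXe] at this
          exact absurd this (Finset.notMem_empty _)
        rw [h1, Set.ncard_empty]
        simp
      · have := h ⟨0, hn⟩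
        rw [hXe] at this
        simp at this
  obtain ⟨B, C, T₀, hB, hC, hT₀, H⟩ := mainL m n (g + (d + 1)) d f L hL han hind A δ hδ
  refine ⟨B, (n + 1) * ⌈C⌉₊, max T₀ 2, fun F _ _ hF ι ξ T hT X hX hXd => ?_⟩
  have hTT₀ : T₀ ≤ T := (le_max_left _ _).trans hT
  have hT2 : 2 ≤ T := (le_max_right _ _).trans hT
  have hTp : 0 < T := by linarith
  have hτ : ∀ j, ∃ τ : L, ∀ x ∈ X j, ‖ι x - (τ : ℂ)‖ ≤ T ^ (-δ) := by
    intro j
    rcases (X j).eq_empty_or_nonempty with h | ⟨y, hy⟩
    · refine ⟨⟨τ₀, hτ₀⟩, fun x hx => ?_⟩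
      rw [h] at hx
      exact absurd hx (Finset.notMem_empty x)
    · exact ⟨⟨ι y, (hX j y hy).1⟩, fun x hx => hXd j x hx y hy⟩
  choose τ hτ' using hτ
  set Bad : Finset (Fin n → F) := (Fintype.piFinset X).filter fun t =>
    ¬ GoodG F ι ξ d (T ^ A) (T ^ (-B)) (fun z : Fin n × κ => f z.1 z.2 (ι (t z.1))) with hBad
  have hBadS : {t : Fin n → F | (∀ j, t j ∈ X j) ∧
      ¬ GoodG F ι ξ d (T ^ A) (T ^ (-B)) (fun z : Fin n × κ => f z.1 z.2 (ι (t z.1)))} =
      (Bad : Set (Fin n → F)) := by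
    ext a
    simp only [hBad, Finset.coe_filter, Fintype.mem_piFinset, Set.mem_ofPred_eq]
  have hcount : (Bad.card : ℝ) ≤ C * Pool.Agent.Y124.MgR X := by
    refine H F hF ι (Fin.append ξ fun k : Fin (d + 1) => (Real.pi : ℂ) ^ (k : ℕ)) T hTT₀ τ X ?_ Bad ?_
    · intro j x hx
      obtain ⟨-, a, b, hb, hab, hx'⟩ := hX j x hx
      exact ⟨hτ' j x hx, a, b, hb, Y120.house_le F hTp.le fun φ => (hab φ).1,
        Y120.house_le F hTp.le fun φ => (hab φ).2, hx'⟩
    · intro t ht
      rw [hBad, Finset.mem_filter, Fintype.mem_piFinset] at ht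
      obtain ⟨htX, hab⟩ := ht
      refine ⟨htX, ?_⟩
      have hbad : ∃ P : MvPolynomial (Fin n × κ) ℂ, AdmG F ι
          (Fin.append ξ fun k : Fin (d + 1) => (Real.pi : ℂ) ^ (k : ℕ)) d (T ^ A) P ∧ ∃ s,
          ‖aeval (fun z : Fin n × κ => f z.1 z.2 (ι (t z.1))) P‖ < T ^ (-B) * ‖P.coeff s‖ := by
        by_contra hcon
        apply hab
        refine goodG_of_key F ι ξ d (T ^ A) (T ^ (-B)) (by positivity) (by positivity) _ fun P hP s => ?_
        by_contra hlt
        exact hcon ⟨P, hP, s, not_le.1 hlt⟩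
      obtain ⟨P, ⟨hP1, hP2⟩, s, hs⟩ := hbad
      refine ⟨P, hP1, hP2, s, ?_, hs.le⟩
      intro h0
      rw [h0, norm_zero, mul_zero] at hs
      exact absurd hs (not_lt.2 (norm_nonneg _))
  have hM0 : 0 ≤ Pool.Agent.Y124.MgR X :=
    Finset.sum_nonneg fun j _ => Finset.prod_nonneg fun i _ => by split_ifs <;> positivity
  have hCle : C ≤ (((n + 1) * ⌈C⌉₊ : ℕ) : ℝ) := by
    have h1 : C ≤ ⌈C⌉₊ := Nat.le_ceil C
    have h2 : (0 : ℝ) ≤ ⌈C⌉₊ := Nat.cast_nonneg _
    push_cast
    nlinarith [Nat.cast_nonneg (α := ℝ) n]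
  refine ⟨?_, fun hXc => ?_⟩
  · rw [hBadS, Set.ncard_coe_finset, ← MgR_eq]
    exact hcount.trans (mul_le_mul_of_nonneg_right hCle hM0)
  · by_contra hcon
    push Not at hcon
    have h1 : Bad = Fintype.piFinset X := by
      rw [hBad, Finset.filter_true_of_mem]
      intro a ha
      exact hcon a (Fintype.mem_piFinset.1 ha)
    rw [h1, Fintype.card_piFinset, MgR_eq] at hcount
    push_cast at hcount
    have hpos : ∀ j, (0 : ℝ) < (X j).card := fun j => by
      have := hXc j
      exact_mod_cast (by omega : 0 < (X j).card)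
    have hprod : (0 : ℝ) < ∏ j, ((X j).card : ℝ) := Finset.prod_pos fun j _ => hpos j
    have h2 : ∀ j, ((n + 1 : ℕ) : ℝ) * (C * ∏ i ∈ Finset.univ.erase j, ((X i).card : ℝ)) ≤ ∏ j, ((X j).card : ℝ) := by
      intro j
      rw [← Finset.mul_prod_erase Finset.univ _ (Finset.mem_univ j), ← mul_assoc]
      refine mul_le_mul_of_nonneg_right ?_ (Finset.prod_nonneg fun _ _ => Nat.cast_nonneg _)
      have h3 : (((n + 1) * ⌈C⌉₊ : ℕ) : ℝ) ≤ (X j).card := by exact_mod_cast (hXc j).le
      have h4 : C ≤ ⌈C⌉₊ := Nat.le_ceil C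
      have h5 : (0 : ℝ) ≤ ((n + 1 : ℕ) : ℝ) := Nat.cast_nonneg _
      calc ((n + 1 : ℕ) : ℝ) * C ≤ ((n + 1 : ℕ) : ℝ) * ⌈C⌉₊ := mul_le_mul_of_nonneg_left h4 h5
        _ = (((n + 1) * ⌈C⌉₊ : ℕ) : ℝ) := by push_cast; ring
        _ ≤ _ := h3
    have h3 : ((n + 1 : ℕ) : ℝ) * (C * ∑ j, ∏ i ∈ Finset.univ.erase j, ((X i).card : ℝ)) ≤
        n * ∏ j, ((X j).card : ℝ) := by
      rw [Finset.mul_sum, Finset.mul_sum]
      refine (Finset.sum_le_sum fun j _ => h2 j).trans (le_of_eq ?_)
      rw [Finset.sum_const, Finset.card_univ, Fintype.card_fin, nsmul_eq_mul]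
    have h4 : ((n + 1 : ℕ) : ℝ) * ∏ j, ((X j).card : ℝ) ≤ n * ∏ j, ((X j).card : ℝ) :=
      (mul_le_mul_of_nonneg_left hcount (Nat.cast_nonneg _)).trans h3
    push_cast at h4
    nlinarith

end Pool.Agent.R349.Gen
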