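import Mathlib
import Pool.Agent.R349.Generic

/-!
# Affine changes of the numbers
-/

set_option autoImplicit false

open MvPolynomial NumberField

namespace Pool.Agent.R349.Gen

variable {σ : Type} [Fintype σ] [DecidableEq σ]

/-- the affine substitution `X_k ↦ α_k X_k + β_k` -/
noncomputable def aff (α β : σ → ℂ) (P : MvPolynomial σ ℂ) : MvPolynomial σ ℂ :=
  bind₁ (fun k => C (α k) * X k + C (β k)) P

/-- its matrix -/
noncomputable def wt (α β : σ → ℂ) (t s : σ → ℕ) : ℂ :=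
  ∏ k, (((t k).choose (s k) : ℕ) : ℂ) * (α k ^ s k * β k ^ (t k - s k))

theorem aeval_aff (α β v : σ → ℂ) (P : MvPolynomial σ ℂ) :
    aeval v (aff α β P) = aeval (fun k => α k * v k + β k) P := by
  unfold aff
  rw [aeval_bind₁]
  congr 2
  funext k
  simp

theorem coeff_prod_aff (α β : σ → ℂ) (t : σ → ℕ) (s : σ →₀ ℕ) :
    coeff s (∏ k, (C (α k) * X k + C (β k)) ^ t k : MvPolynomial σ ℂ) = wt α β t s := by
  classical
  have h1 : ∀ k, (C (α k) * X k + C (β k) : MvPolynomial σ ℂ) ^ t k =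
      ∑ i ∈ Finset.range (t k + 1), monomial (Finsupp.single k i)
        ((((t k).choose i : ℕ) : ℂ) * (α k ^ i * β k ^ (t k - i))) := by
    intro k
    rw [add_pow]
    refine Finset.sum_congr rfl fun i _ => ?_
    rw [mul_pow, ← C_pow, ← C_pow, ← C_mul_X_pow_eq_monomial, map_mul, map_mul, map_natCast]
    ring
  simp only [h1]
  rw [Finset.prod_univ_sum, coeff_sum]
  have h2 : ∀ p : σ → ℕ, (∏ k, (monomial (Finsupp.single k (p k)))
      ((((t k).choose (p k) : ℕ) : ℂ) * (α k ^ p k * β k ^ (t k - p k))) : MvPolynomial σ ℂ) =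
      monomial (Finsupp.equivFunOnFinite.symm p) (wt α β t p) := by
    intro p
    have h3 : (Finsupp.equivFunOnFinite.symm p : σ →₀ ℕ) = ∑ k, Finsupp.single k (p k) := by
      ext j
      rw [Finsupp.finsetSum_apply]
      simp [Finsupp.single_apply]
    rw [h3, wt, monomial_sum_prod]
  simp only [h2, coeff_monomial]
  by_cases hs : (s : σ → ℕ) ∈ Fintype.piFinset fun k => Finset.range (t k + 1)
  · rw [Finset.sum_eq_single (s : σ → ℕ)]
    · rw [if_pos]
      ext j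
      rfl
    · intro p _ hp
      rw [if_neg]
      intro h
      apply hp
      rw [← h]
      rfl
    · intro h
      exact absurd hs h
  · rw [Finset.sum_eq_zero]
    · rw [Fintype.mem_piFinset] at hs
      push Not at hs
      obtain ⟨k, hk⟩ := hs
      rw [Finset.mem_range, not_lt] at hk
      unfold wt
      rw [Finset.prod_eq_zero (Finset.mem_univ k)]
      rw [Nat.choose_eq_zero_of_lt (by omega)]
      simp
    · intro p hp
      rw [if_neg]
      intro h
      apply hs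
      rw [← h]
      exact hp

theorem coeff_aff (α β : σ → ℂ) (P : MvPolynomial σ ℂ) (s : σ →₀ ℕ) :
    coeff s (aff α β P) = ∑ t ∈ P.support, coeff t P * wt α β t s := by
  classical
  conv_lhs => rw [P.as_sum]
  unfold aff
  rw [map_sum, coeff_sum]
  refine Finset.sum_congr rfl fun t _ => ?_
  rw [bind₁_monomial, coeff_C_mul]
  congr 1
  rw [← coeff_prod_aff α β t s]
  congr 1
  rw [Finset.prod_subset (Finset.subset_univ _)]
  intro k _ hk
  rw [Finsupp.notMem_support_iff.1 hk, pow_zero]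

/-- the vectors in the box -/
noncomputable def toF (d : ℕ) (t : σ → Fin (d + 1)) : σ →₀ ℕ := Finsupp.equivFunOnFinite.symm fun k => (t k : ℕ)

theorem toF_inj (d : ℕ) : Function.Injective (toF d : (σ → Fin (d + 1)) → σ →₀ ℕ) := by
  intro t s h
  have h1 := Finsupp.equivFunOnFinite.symm.injective h
  funext k
  exact Fin.ext (congrFun h1 k)

theorem exists_toF {d : ℕ} {t : σ →₀ ℕ} (h : ∀ k, t k ≤ d) : ∃ t' : σ → Fin (d + 1), toF d t' = t := by
  refine ⟨fun k => ⟨t k, Nat.lt_succ_of_le (h k)⟩, ?_⟩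
  ext k
  rfl

theorem sum_box {d : ℕ} {P : MvPolynomial σ ℂ} (hP : ∀ k, P.degreeOf k ≤ d) (f : (σ →₀ ℕ) → ℂ)
    (hf : ∀ t, coeff t P = 0 → f t = 0) : ∑ t ∈ P.support, f t = ∑ t : σ → Fin (d + 1), f (toF d t) := by
  classical
  rw [← Finset.sum_image (s := Finset.univ) (g := toF d) (f := f) (fun a _ b _ h => toF_inj d h)]
  refine Finset.sum_subset ?_ fun t _ ht => hf t (by simpa using ht)
  intro t ht
  rw [Finset.mem_image]
  obtain ⟨t', ht'⟩ := exists_toF (d := d) (t := t) fun k =>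
    (monomial_le_degreeOf k ht).trans (hP k)
  exact ⟨t', Finset.mem_univ _, ht'⟩

theorem coeff_aff_box {d : ℕ} (α β : σ → ℂ) {P : MvPolynomial σ ℂ} (hP : ∀ k, P.degreeOf k ≤ d) (s : σ →₀ ℕ) :
    coeff s (aff α β P) = ∑ t : σ → Fin (d + 1), coeff (toF d t) P * wt α β (toF d t) s := by
  rw [coeff_aff]
  exact sum_box hP (fun t => coeff t P * wt α β t s) fun t ht => by rw [ht, zero_mul]

theorem wt_ne {d : ℕ} {α β : σ → ℂ} {t s : σ → ℕ} (h : wt α β t s ≠ 0) (ht : ∀ k, t k ≤ d) : ∀ k, s k ≤ d := by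
  intro k
  by_contra hk
  apply h
  unfold wt
  rw [Finset.prod_eq_zero (Finset.mem_univ k)]
  rw [Nat.choose_eq_zero_of_lt (by have := ht k; omega)]
  simp

theorem degreeOf_aff {d : ℕ} (α β : σ → ℂ) {P : MvPolynomial σ ℂ} (hP : ∀ k, P.degreeOf k ≤ d) :
    ∀ k, (aff α β P).degreeOf k ≤ d := by
  intro k
  rw [degreeOf_le_iff]
  intro s hs
  rw [mem_support_iff, coeff_aff] at hs
  obtain ⟨t, ht, hne⟩ := Finset.exists_ne_zero_of_sum_ne_zero hs
  exact wt_ne (right_ne_zero_of_mul hne) (fun j => (monomial_le_degreeOf j ht).trans (hP j)) k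

theorem aff_aff {α β : σ → ℂ} (hα : ∀ k, α k ≠ 0) (P : MvPolynomial σ ℂ) :
    aff (fun k => (α k)⁻¹) (fun k => -(β k * (α k)⁻¹)) (aff α β P) = P := by
  unfold aff
  rw [bind₁_bind₁]
  have h1 : (fun k => (bind₁ fun k => C ((α k)⁻¹) * X k + C (-(β k * (α k)⁻¹)))
      (C (α k) * X k + C (β k)) : σ → MvPolynomial σ ℂ) = X := by
    funext k
    rw [map_add, map_mul, bind₁_C_right, bind₁_X_right, bind₁_C_right, mul_add, ← mul_assoc, ← map_mul,
      mul_inv_cancel₀ (hα k), map_one, one_mul, ← map_mul, add_assoc, ← map_add]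
    have : α k * -(β k * (α k)⁻¹) + β k = 0 := by
      field_simp [hα k]
      ring
    rw [this, map_zero, add_zero]
  rw [h1]
  exact congrFun (congrArg DFunLike.coe (aeval_X_left (σ := σ) (R := ℂ))) P

theorem wt_le {d : ℕ} {α β : σ → ℂ} {R : ℝ} (hR : 1 ≤ R) (hα : ∀ k, ‖α k‖ ≤ R) (hβ : ∀ k, ‖β k‖ ≤ R)
    {t s : σ → ℕ} (ht : ∀ k, t k ≤ d) : ‖wt α β t s‖ ≤ (2 ^ d * (R ^ d * R ^ d)) ^ Fintype.card σ := by
  unfold wt
  rw [norm_prod, ← Finset.card_univ, ← Finset.prod_const]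
  refine Finset.prod_le_prod (fun _ _ => norm_nonneg _) fun k _ => ?_
  rw [norm_mul, norm_mul, norm_pow, norm_pow, Complex.norm_natCast]
  by_cases hs : s k ≤ t k
  · refine mul_le_mul ?_ ?_ (by positivity) (by positivity)
    · have h1 : (t k).choose (s k) ≤ 2 ^ d :=
        (Nat.choose_le_two_pow _ _).trans (Nat.pow_le_pow_right (by norm_num) (ht k))
      exact_mod_cast h1
    · refine mul_le_mul ?_ ?_ (by positivity) (by positivity)
      · exact (pow_le_pow_left₀ (norm_nonneg _) (hα k) _).trans (pow_le_pow_right₀ hR (hs.trans (ht k)))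
      · exact (pow_le_pow_left₀ (norm_nonneg _) (hβ k) _).trans
          (pow_le_pow_right₀ hR ((Nat.sub_le _ _).trans (ht k)))
  · rw [Nat.choose_eq_zero_of_lt (by omega), Nat.cast_zero, zero_mul]
    positivity

/-- the new coefficients -/
noncomputable def xi' {g : ℕ} (d : ℕ) (α β : σ → ℂ) (ξ : Fin g → ℂ)
    (i : Fin (Fintype.card (Fin g × (σ → Fin (d + 1)) × (σ → Fin (d + 1))))) : ℂ :=
  let q := (Fintype.equivFin (Fin g × (σ → Fin (d + 1)) × (σ → Fin (d + 1)))).symm i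
  ξ q.1 * ∏ k, (α k ^ (q.2.2 k : ℕ) * β k ^ ((q.2.1 k : ℕ) - (q.2.2 k : ℕ)))

theorem co_mul {F : Type} [Field F] [NumberField F] (a b : 𝓞 F) : ((a * b : 𝓞 F) : F) = a * b :=
  map_mul (algebraMap (𝓞 F) F) a b

theorem co_nat {F : Type} [Field F] [NumberField F] (n : ℕ) : (((n : ℕ) : 𝓞 F) : F) = n :=
  map_natCast (algebraMap (𝓞 F) F) n

theorem co_zero {F : Type} [Field F] [NumberField F] : ((0 : 𝓞 F) : F) = 0 :=
  map_zero (algebraMap (𝓞 F) F)

theorem nat_conj {F : Type} [Field F] [NumberField F] (φ : F →+* ℂ) (d : ℕ) (n : σ → ℕ) (hn : ∀ k, n k ≤ 2 ^ d) :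
    ‖φ (((∏ k, n k : ℕ) : 𝓞 F) : F)‖ ≤ (2 ^ d) ^ Fintype.card σ := by
  have h1 : φ (((∏ k, n k : ℕ) : 𝓞 F) : F) = ((∏ k, n k : ℕ) : ℂ) := by
    rw [co_nat, map_natCast]
  rw [h1, Complex.norm_natCast]
  have h2 : ∏ k, n k ≤ (2 ^ d) ^ Fintype.card σ := by
    rw [← Finset.card_univ]
    exact Finset.prod_le_pow_card _ _ _ fun k _ => hn k
  exact_mod_cast h2

theorem adm_aff {g d : ℕ} (F : Type) [Field F] [NumberField F] (ι : F →+* ℂ) (ξ : Fin g → ℂ) {H : ℝ} (hH : 0 ≤ H)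
    (α β : σ → ℂ) {P : MvPolynomial σ ℂ} (hP : AdmG F ι ξ d H P) :
    AdmG F ι (xi' d α β ξ) d ((2 ^ d) ^ Fintype.card σ * H) (aff α β P) := by
  classical
  refine ⟨degreeOf_aff α β hP.1, fun s => ?_⟩
  choose c hc1 hc2 using hP.2
  have hK : (0 : ℝ) ≤ (2 ^ d) ^ Fintype.card σ * H := by positivity
  by_cases hs : ∀ k, s k ≤ d
  · obtain ⟨s', hs'⟩ := exists_toF hs
    set N : (σ → Fin (d + 1)) → ℕ := fun t => ∏ k, ((t k : ℕ).choose (s' k : ℕ)) with hN
    have hNle : ∀ (t : σ → Fin (d + 1)) (φ : F →+* ℂ), ‖φ ((N t : 𝓞 F) : F)‖ ≤ (2 ^ d) ^ Fintype.card σ := by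
      intro t φ
      rw [hN]
      exact nat_conj φ d _ fun k => (Nat.choose_le_two_pow _ _).trans
        (Nat.pow_le_pow_right (by norm_num) (Nat.lt_succ_iff.1 (Fin.is_lt _)))
    refine ⟨fun i => let q := (Fintype.equivFin (Fin g × (σ → Fin (d + 1)) × (σ → Fin (d + 1)))).symm i
      if q.2.2 = s' then (N q.2.1 : 𝓞 F) * c (toF d q.2.1) q.1 else 0,
      fun i φ => ?_, ?_⟩
    · simp only
      split_ifs with h
      · rw [co_mul, map_mul, norm_mul]
        exact mul_le_mul (hNle _ φ) (hc1 _ _ φ) (norm_nonneg _) (by positivity)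
      · simpa using hK
    · rw [coeff_aff_box α β hP.1, ← (Fintype.equivFin (Fin g × (σ → Fin (d + 1)) × (σ → Fin (d + 1)))).sum_comp]
      simp only [xi', Equiv.symm_apply_apply, Fintype.sum_prod_type, hc2, Finset.sum_mul]
      rw [Finset.sum_comm]
      refine Finset.sum_congr rfl fun i _ => Finset.sum_congr rfl fun t _ => ?_
      rw [Finset.sum_eq_single s']
      · rw [if_pos rfl, co_mul, map_mul]
        have h1 : ι ((N t : 𝓞 F) : F) = (N t : ℂ) := by rw [co_nat, map_natCast]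
        rw [h1]
        have h2 : wt α β (toF d t) s = (N t : ℂ) * ∏ k, (α k ^ (s' k : ℕ) * β k ^ ((t k : ℕ) - (s' k : ℕ))) := by
          rw [← hs', wt, hN]
          push_cast
          rw [← Finset.prod_mul_distrib]
          rfl
        rw [h2]
        ring
      · intro b _ hb
        rw [if_neg hb, co_zero, map_zero, mul_zero]
      · intro h
        exact absurd (Finset.mem_univ _) h
  · refine ⟨fun _ => 0, fun i φ => by simpa using hK, ?_⟩
    rw [coeff_aff]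
    simp only [map_zero, mul_zero, Finset.sum_const_zero]
    refine Finset.sum_eq_zero fun t ht => ?_
    by_contra hne
    exact hs (wt_ne (right_ne_zero_of_mul hne) (fun j => (monomial_le_degreeOf j ht).trans (hP.1 j)))

/-- **affine changes**: the lower bound for the numbers `α v + β` follows from that for the numbers `v` -/
theorem key_aff {g d : ℕ} (F : Type) [Field F] [NumberField F] (ι : F →+* ℂ) (ξ : Fin g → ℂ) {H R ε : ℝ} (hH : 0 ≤ H)
    (hR : 1 ≤ R) (hε : 0 < ε) {α β : σ → ℂ} (hα : ∀ k, α k ≠ 0) (hα' : ∀ k, ‖(α k)⁻¹‖ ≤ R)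
    (hβ : ∀ k, ‖β k * (α k)⁻¹‖ ≤ R) (v : σ → ℂ)
    (h : ∀ P : MvPolynomial σ ℂ, AdmG F ι (xi' d α β ξ) d ((2 ^ d) ^ Fintype.card σ * H) P →
      ∀ s, ε * ‖P.coeff s‖ ≤ ‖aeval v P‖)
    (P : MvPolynomial σ ℂ) (hP : AdmG F ι ξ d H P) (t : σ →₀ ℕ) :
    ε * ‖P.coeff t‖ ≤ (d + 1) ^ Fintype.card σ * (2 ^ d * (R ^ d * R ^ d)) ^ Fintype.card σ *
      ‖aeval (fun k => α k * v k + β k) P‖ := by
  classical
  set P' := aff α β P with hP'
  have h1 := h P' (adm_aff F ι ξ hH α β hP)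
  rw [hP', aeval_aff, ← hP'] at h1
  have hP'd : ∀ k, P'.degreeOf k ≤ d := degreeOf_aff α β hP.1
  have h2 : P.coeff t = ∑ s : σ → Fin (d + 1), coeff (toF d s) P' *
      wt (fun k => (α k)⁻¹) (fun k => -(β k * (α k)⁻¹)) (toF d s) t := by
    rw [← coeff_aff_box _ _ hP'd, hP', aff_aff hα]
  have h3 : ∀ s : σ → Fin (d + 1), ε * ‖coeff (toF d s) P' *
      wt (fun k => (α k)⁻¹) (fun k => -(β k * (α k)⁻¹)) (toF d s) t‖ ≤
      (2 ^ d * (R ^ d * R ^ d)) ^ Fintype.card σ * ‖aeval (fun k => α k * v k + β k) P‖ := by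
    intro s
    rw [norm_mul, ← mul_assoc, mul_comm]
    refine mul_le_mul ?_ (h1 _) (by positivity) (by positivity)
    refine wt_le hR hα' (fun k => ?_) (fun k => Nat.lt_succ_iff.1 (Fin.is_lt (s k)))
    rw [norm_neg]
    exact hβ k
  calc ε * ‖P.coeff t‖ ≤ ε * ∑ s : σ → Fin (d + 1), ‖coeff (toF d s) P' *
      wt (fun k => (α k)⁻¹) (fun k => -(β k * (α k)⁻¹)) (toF d s) t‖ := by
        rw [h2]
        exact mul_le_mul_of_nonneg_left (norm_sum_le _ _) hε.le
    _ = ∑ s : σ → Fin (d + 1), ε * ‖coeff (toF d s) P' *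
      wt (fun k => (α k)⁻¹) (fun k => -(β k * (α k)⁻¹)) (toF d s) t‖ := Finset.mul_sum _ _ _
    _ ≤ ∑ _s : σ → Fin (d + 1), (2 ^ d * (R ^ d * R ^ d)) ^ Fintype.card σ *
      ‖aeval (fun k => α k * v k + β k) P‖ := Finset.sum_le_sum fun s _ => h3 s
    _ = _ := by
      rw [Finset.sum_const, Finset.card_univ, Fintype.card_fun, Fintype.card_fin, nsmul_eq_mul]
      push_cast
      ring

end Pool.Agent.R349.Gen
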