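import Pool.Agent.Y771.RP.Rel

/-!
# Points near the origin: a bounded number of exceptional points

Adapted from `Pool.Agent.Y124.oneR`: instead of covering a compact set by balls of radius `T ^ (-η)` we look at one such ball.
-/

set_option autoImplicit false

open Filter Topology NumberField

namespace Pool.Agent.R349

open Pool.Agent.Y120 (Charts mv yv NormRing Pt ExcN local_thmN EE0 encE encE_val mv_enc)
open Pool.Agent.Y124 (LocInd RelR exists_radius chartsC flagC flagR RelK)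

/-- a bounded number of exceptional points in the ball of radius `T ^ (-η)` around `0` -/
theorem ballR (g : ℕ) {σ : Type} [Fintype σ] [DecidableEq σ] (f : σ → ℂ → ℂ)
    (han : ∀ i, AnalyticAt ℂ (f i) 0) (hind : LocInd f 0) (h : Type) [Fintype h] [DecidableEq h]
    (d : ℕ) (A η : ℝ) (hη : 0 < η) :
    ∃ (B : ℝ) (C : ℕ) (T2 : ℝ), 2 ≤ T2 ∧ ∀ T : ℝ, T2 ≤ T → ∀ R : Subring (Fin (g + 1) → ℂ), NormRing R → ∀ ξ : h → ℂ,
      ∀ Y : Finset ℂ, (∀ t ∈ Y, ‖t‖ ≤ T ^ (-η) ∧ Pt R T t ∧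
        RelR R ξ (fun l : σ → Fin (d + 1) => ∏ i, f i t ^ (l i : ℕ)) (T ^ A) (T ^ (-B))) →
      Y.card ≤ C := by
  classical
  have hK : IsCompact ({0} : Set ℂ) := isCompact_singleton
  have han' : ∀ i, ∀ t ∈ ({0} : Set ℂ), AnalyticAt ℂ (f i) t := by
    intro i t ht
    rw [Set.mem_singleton_iff.1 ht]
    exact han i
  have hind' : ∀ t ∈ ({0} : Set ℂ), LocInd f t := by
    intro t ht
    rw [Set.mem_singleton_iff.1 ht]
    exact hind
  obtain ⟨δ, hδ, hδ'⟩ := exists_radius f hK han'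
  set Ch := chartsC f {0} hK han' hind' δ hδ hδ' with hCh
  set A₀ : ℕ := ⌈A⌉₊ with hA₀
  set fB : ℕ := flagC g (Fintype.card h) A₀ with hfB
  set B' : ℕ := fB + 1 with hB'
  obtain ⟨B₂, C₂, T₀, hT₀2, hloc⟩ := local_thmN (g := g) (σ := σ) (S := h) Ch (EE0 σ d) η hη A₀ B'
  set nh : ℝ := (Fintype.card h : ℝ) with hnh
  have hnh0 : 0 ≤ nh := by positivity
  refine ⟨B₂ + A₀ + 1, Fintype.card h * C₂, max (max T₀ ((2 / δ) ^ (1 / η))) (max nh 2),
    le_max_of_le_right (le_max_right _ _), ?_⟩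
  intro T hT R hR ξ Y hY
  have hTT₀ : T₀ ≤ T := (le_max_left _ _).trans ((le_max_left _ _).trans hT)
  have hTδ : (2 / δ) ^ (1 / η) ≤ T := (le_max_right _ _).trans ((le_max_left _ _).trans hT)
  have hTh : nh ≤ T := (le_max_left _ _).trans ((le_max_right _ _).trans hT)
  have hT2 : 2 ≤ T := (le_max_right _ _).trans ((le_max_right _ _).trans hT)
  have hT1 : 1 ≤ T := by linarith
  have hTp : 0 < T := by linarith
  obtain ⟨𝒦, h𝒦card, h𝒦1, h𝒦⟩ := flagR hR A₀ hT2 ξ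
  set B : ℝ := B₂ + A₀ + 1 with hB
  have hr : T ^ (-η) ≤ δ / 2 := by
    have h1 : 0 < 2 / δ := by positivity
    have h2 : 2 / δ ≤ T ^ η := by
      calc 2 / δ = ((2 / δ) ^ (1 / η)) ^ η := by
            rw [← Real.rpow_mul h1.le]
            have : 1 / η * η = 1 := by field_simp
            rw [this, Real.rpow_one]
        _ ≤ T ^ η := Real.rpow_le_rpow (by positivity) hTδ (by positivity)
    rw [Real.rpow_neg hTp.le, inv_le_comm₀ (Real.rpow_pos_of_pos hTp _) (by positivity)]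
    rwa [inv_div]
  -- the relation for one of the systems
  set P : (h → ℂ) → ℂ → Prop := fun K' t => ExcN R T A₀ B₂ B' K' (EE0 σ d) (fun i => f i t) with hP
  have hcov : ∀ q ∈ Y, ∃ K' ∈ 𝒦, P K' q := by
    intro q hq
    obtain ⟨-, -, c, hcR, hcA, l₀, hl₀, hcs⟩ := hY q hq
    have hcA' : ∀ e s i, ‖c e s i‖ ≤ T ^ A₀ := fun e s i => (hcA e s i).trans (by
      calc T ^ A ≤ T ^ (A₀ : ℝ) := Real.rpow_le_rpow_of_exponent_le hT1 (Nat.le_ceil _)
        _ = T ^ A₀ := Real.rpow_natCast _ _)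
    obtain ⟨K', hK', l, hl, hKc, l₁, hl₁⟩ := h𝒦 _ c hcR hcA' ⟨l₀, hl₀⟩
    refine ⟨K', hK', ?_⟩
    refine ⟨fun x => c ((encE σ d).symm x.2) x.1, fun x => hcR _ _, ⟨encE σ d l₁, ?_⟩, ?_, ?_⟩
    · simp only [Equiv.symm_apply_apply]
      refine lt_of_lt_of_le ?_ hl₁
      refine inv_strictAnti₀ (pow_pos hTp _) ?_
      exact pow_lt_pow_right₀ (by linarith) (Nat.lt_succ_self _)
    · intro x j
      exact hcA' _ _ _
    · have h2 : ∑ e : EE0 σ d, (∑ s, K' s * c ((encE σ d).symm e) s 0) *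
          mv (fun i => f i q) (e : σ →₀ ℕ) =
          ∑ l, (∑ s, K' s * c l s 0) * ∏ i, f i q ^ (l i : ℕ) := by
        rw [← Equiv.sum_comp (encE σ d)]
        refine Finset.sum_congr rfl fun e _ => ?_
        rw [encE_val, mv_enc, Equiv.symm_apply_apply]
      have h3 : l * ∑ l', (∑ s, K' s * c l' s 0) * ∏ i, f i q ^ (l' i : ℕ) =
          ∑ l', (∑ s, ξ s * c l' s 0) * ∏ i, f i q ^ (l' i : ℕ) := by
        rw [Finset.mul_sum]
        refine Finset.sum_congr rfl fun l' _ => ?_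
        rw [hKc l', mul_assoc]
      have hlpos : 0 < ‖l‖ := norm_pos_iff.2 hl
      have h4 : ‖∑ l', (∑ s, K' s * c l' s 0) * ∏ i, f i q ^ (l' i : ℕ)‖ ≤
          T ^ (-B) * ‖∑ s, K' s * c l₀ s 0‖ := by
        have h5 := hcs
        rw [← h3, hKc l₀, norm_mul, norm_mul] at h5
        have h6 : ‖l‖ * ‖∑ l', (∑ s, K' s * c l' s 0) * ∏ i, f i q ^ (l' i : ℕ)‖ ≤
            ‖l‖ * (T ^ (-B) * ‖∑ s, K' s * c l₀ s 0‖) := by
          calc _ ≤ T ^ (-B) * (‖l‖ * ‖∑ s, K' s * c l₀ s 0‖) := h5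
            _ = _ := by ring
        exact le_of_mul_le_mul_left h6 hlpos
      have h5 : ‖∑ s, K' s * c l₀ s 0‖ ≤ nh * T ^ A₀ := by
        calc ‖∑ s, K' s * c l₀ s 0‖ ≤ ∑ s, ‖K' s * c l₀ s 0‖ := norm_sum_le _ _
          _ ≤ ∑ s : h, T ^ A₀ := by
              refine Finset.sum_le_sum fun s _ => ?_
              rw [norm_mul]
              calc ‖K' s‖ * ‖c l₀ s 0‖ ≤ 1 * T ^ A₀ :=
                    mul_le_mul (h𝒦1 K' hK' s) (hcA' _ _ _) (norm_nonneg _) zero_le_one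
                _ = T ^ A₀ := one_mul _
          _ = nh * T ^ A₀ := by rw [Finset.sum_const, Finset.card_univ, nsmul_eq_mul]
      rw [h2]
      refine h4.trans ?_
      calc T ^ (-B) * ‖∑ s, K' s * c l₀ s 0‖ ≤ T ^ (-B) * (nh * T ^ A₀) :=
            mul_le_mul_of_nonneg_left h5 (Real.rpow_pos_of_pos hTp _).le
        _ ≤ T ^ (-B) * (T * T ^ A₀) := by
            refine mul_le_mul_of_nonneg_left ?_ (Real.rpow_pos_of_pos hTp _).le
            exact mul_le_mul_of_nonneg_right hTh (pow_nonneg hTp.le _)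
        _ = T ^ (-(B₂ : ℝ)) := by
            rw [← pow_succ', ← Real.rpow_natCast, ← Real.rpow_add hTp]
            congr 1
            rw [hB]
            push_cast
            ring
        _ = (T ^ B₂)⁻¹ := by rw [Real.rpow_neg hTp.le, Real.rpow_natCast]
  have hFsub : Y ⊆ 𝒦.biUnion fun K' => Y.filter fun q => P K' q := by
    intro q hq
    obtain ⟨K', hK', hKq⟩ := hcov q hq
    exact Finset.mem_biUnion.2 ⟨K', hK', Finset.mem_filter.2 ⟨hq, hKq⟩⟩
  have hcountK : ∀ K' ∈ 𝒦, (Y.filter fun q => P K' q).card ≤ C₂ := by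
    intro K' hK'
    refine hloc T hTT₀ R hR K' (fun s => (h𝒦1 K' hK' s).trans (one_le_pow₀ hT1)) ⟨0, rfl⟩
      (Y.filter fun q => P K' q) ?_
    intro t ht
    rw [Finset.mem_filter] at ht
    obtain ⟨htY, htP⟩ := ht
    have h1 := (hY t htY).1
    refine ⟨?_, ?_, (hY t htY).2.1, htP⟩
    · change t ∈ Metric.closedBall 0 (δ / 2)
      rw [Metric.mem_closedBall, dist_zero_right]
      exact h1.trans hr
    · change ‖t - 0‖ ≤ _
      rw [sub_zero]
      exact h1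
  calc Y.card ≤ (𝒦.biUnion fun K' => Y.filter fun q => P K' q).card := Finset.card_le_card hFsub
    _ ≤ ∑ K' ∈ 𝒦, (Y.filter fun q => P K' q).card := Finset.card_biUnion_le
    _ ≤ ∑ K' ∈ 𝒦, C₂ := Finset.sum_le_sum hcountK
    _ = 𝒦.card * C₂ := by rw [Finset.sum_const, smul_eq_mul]
    _ ≤ Fintype.card h * C₂ := Nat.mul_le_mul_right _ h𝒦card

/-- relations from polynomials in one group of variables -/
theorem relK_one {h κ : Type} [Fintype h] [Fintype κ] [DecidableEq κ] {d : ℕ} (K : Type) [Field K] [NumberField K]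
    (io : K →+* ℂ) (ξ : h → ℂ) (v : κ → ℂ) (H δ : ℝ) (P : MvPolynomial κ ℂ) (hd : ∀ x, P.degreeOf x ≤ d)
    (hP : ∀ s, ∃ c : h → 𝓞 K, (∀ i (φ : K →+* ℂ), ‖φ (c i : K)‖ ≤ H) ∧ P.coeff s = ∑ i, ξ i * io (c i : K))
    (s₀ : κ →₀ ℕ) (hs₀ : P.coeff s₀ ≠ 0) (hs : ‖MvPolynomial.aeval v P‖ ≤ δ * ‖P.coeff s₀‖) :
    RelK K io ξ (fun e : κ → Fin (d + 1) => ∏ i, v i ^ (e i : ℕ)) H δ := by
  classical
  choose c hc1 hc2 using hP
  obtain ⟨z₀, hz₀⟩ := Pool.Agent.Y124.exists_sV' P hd s₀ (MvPolynomial.mem_support_iff.2 hs₀)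
  refine ⟨fun e => c (Pool.Agent.Y124.sV e), fun l s φ => hc1 _ _ _, z₀, ?_, ?_⟩
  · rw [← hc2, hz₀]
    exact hs₀
  · rw [← hc2, hz₀]
    refine le_trans (le_of_eq ?_) hs
    congr 1
    rw [Pool.Agent.Y124.eval_eq_box _ P hd]
    refine Finset.sum_congr rfl fun z _ => ?_
    rw [← hc2]

/-- a bounded number of exceptional points near `0`, over all number fields of bounded degree -/
theorem ballNF {κ : Type} [Fintype κ] [DecidableEq κ] (m g d : ℕ) (f : κ → ℂ → ℂ)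
    (han : ∀ i, AnalyticAt ℂ (f i) 0) (hind : LocInd f 0) (A η : ℝ) (hη : 0 < η) :
    ∃ (B : ℝ) (C : ℕ) (T₀ : ℝ), 2 ≤ T₀ ∧ ∀ (F : Type) [Field F] [NumberField F], Module.finrank ℚ F ≤ m →
      ∀ (ι : F →+* ℂ) (ξ : Fin g → ℂ) (T : ℝ), T₀ ≤ T → ∀ Y : Finset F,
        (∀ x ∈ Y, ‖ι x‖ ≤ T ^ (-η) ∧ Y120.HtLe F T x ∧ ∃ P : MvPolynomial κ ℂ, (∀ x, P.degreeOf x ≤ d) ∧
          (∀ s, ∃ c : Fin g → 𝓞 F, (∀ i (φ : F →+* ℂ), ‖φ (c i : F)‖ ≤ T ^ A) ∧ P.coeff s = ∑ i, ξ i * ι (c i : F)) ∧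
          ∃ s₀, P.coeff s₀ ≠ 0 ∧ ‖MvPolynomial.aeval (fun i => f i (ι x)) P‖ ≤ T ^ (-B) * ‖P.coeff s₀‖) →
        Y.card ≤ C := by
  classical
  have hg := fun g' : ℕ => ballR g' f han hind (Fin g) d A η hη
  choose B C T2 hT2 H using hg
  refine ⟨∑ g ∈ Finset.range m, |B g|, ∑ g ∈ Finset.range m, C g, 2 + ∑ g ∈ Finset.range m, T2 g, ?_, ?_⟩
  · have : 0 ≤ ∑ g ∈ Finset.range m, T2 g := Finset.sum_nonneg fun g _ => by linarith [hT2 g]
    linarith
  intro K _ _ hm io ξ T hT Y hY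
  set g' := Y120.gK K with hg'
  have hgm : g' ∈ Finset.range m := Finset.mem_range.2 (Y124.gK_lt K hm)
  have hTT : T2 g' ≤ T := by
    have h1 := Finset.single_le_sum (f := T2) (fun g _ => by linarith [hT2 g]) hgm
    linarith
  have hBB : B g' ≤ ∑ g ∈ Finset.range m, |B g| :=
    (le_abs_self _).trans (Finset.single_le_sum (f := fun g => |B g|) (fun g _ => abs_nonneg _) hgm)
  have hCC : C g' ≤ ∑ g ∈ Finset.range m, C g := Finset.single_le_sum (f := C) (fun g _ => Nat.zero_le _) hgm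
  have hT1 : 1 ≤ T := by linarith [hT2 g']
  have h1 := H g' T hTT (Y120.RK K io) (Y120.RK_norm K io) ξ (Y.image io) (by
    intro t ht
    obtain ⟨x, hx, rfl⟩ := Finset.mem_image.1 ht
    obtain ⟨h1, h2, P, hPd, hPc, s₀, hs₀, hs⟩ := hY x hx
    refine ⟨h1, Y120.Pt_of_HtLe K io h2, ?_⟩
    refine Y124.RelR_mono (Real.rpow_le_rpow_of_exponent_le hT1 (neg_le_neg hBB)) ?_
    refine Y124.RelR_of_RelK K io ξ _ _ _ ?_
    exact relK_one K io ξ (fun i => f i (io x)) _ _ P hPd hPc s₀ hs₀ hs)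
  rw [Finset.card_image_of_injective _ io.injective] at h1
  exact h1.trans hCC

end Pool.Agent.R349
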