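import Mathlib

/-!
# Scaling the variables of a polynomial; polynomials in `π`
-/

set_option autoImplicit false

open MvPolynomial

namespace Pool.Agent.R349

/-- `∏ a_j ^ (d - s_j) q ^ s_j` -/
def fac {n : ℕ} (d q : ℕ) (a : Fin n → ℕ) (s : Fin n →₀ ℕ) : ℕ := ∏ j, (a j ^ (d - s j) * q ^ s j)

theorem fac_pos {n : ℕ} (d q : ℕ) (a : Fin n → ℕ) (ha : ∀ j, 1 ≤ a j) (hq : 1 ≤ q) (s : Fin n →₀ ℕ) :
    1 ≤ fac d q a s :=
  Finset.prod_pos fun j _ => Nat.mul_pos (pow_pos (ha j) _) (pow_pos hq _)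

theorem fac_le {n : ℕ} (d q : ℕ) (a : Fin n → ℕ) (haq : ∀ j, a j ≤ q) (s : Fin n →₀ ℕ) (hs : ∀ j, s j ≤ d) :
    fac d q a s ≤ q ^ (n * d) := by
  unfold fac
  calc ∏ j, (a j ^ (d - s j) * q ^ s j) ≤ ∏ _j : Fin n, q ^ d := by
        refine Finset.prod_le_prod' fun j _ => ?_
        calc a j ^ (d - s j) * q ^ s j ≤ q ^ (d - s j) * q ^ s j :=
              Nat.mul_le_mul_right _ (Nat.pow_le_pow_left (haq j) _)
          _ = q ^ d := by rw [← pow_add]; congr 1; have := hs j; omega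
    _ = q ^ (n * d) := by rw [Finset.prod_const, Finset.card_univ, Fintype.card_fin, ← pow_mul, mul_comm]

theorem fac_val {n : ℕ} (d q : ℕ) (hq : 1 ≤ q) (a : Fin n → ℕ) (s : Fin n →₀ ℕ) (hs : ∀ j, s j ≤ d) (y : Fin n → ℂ) :
    (fac d q a s : ℂ) * ∏ j, ((a j : ℂ) / q * y j) ^ s j = (∏ j, (a j : ℂ) ^ d) * ∏ j, y j ^ s j := by
  have hq0 : (q : ℂ) ≠ 0 := by
    have : q ≠ 0 := by omega
    exact_mod_cast this
  unfold fac
  push_cast
  rw [← Finset.prod_mul_distrib, ← Finset.prod_mul_distrib]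
  refine Finset.prod_congr rfl fun j _ => ?_
  have h1 : (a j : ℂ) ^ d = (a j : ℂ) ^ (d - s j) * (a j : ℂ) ^ s j := by
    rw [← pow_add]
    congr 1
    have := hs j
    omega
  rw [h1, mul_pow, div_pow]
  field_simp

/-- the embedding of the exponents -/
noncomputable def emb {n : ℕ} (s : Fin n →₀ ℕ) : (Fin n × Unit) →₀ ℕ := s.mapDomain (fun j => (j, ()))

theorem inj_pu (n : ℕ) : Function.Injective (fun j : Fin n => (j, ())) := fun _ _ h => congrArg Prod.fst h

theorem emb_surj {n : ℕ} (t : (Fin n × Unit) →₀ ℕ) : ∃ s : Fin n →₀ ℕ, t = emb s := by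
  refine ⟨t.mapDomain Prod.fst, ?_⟩
  unfold emb
  rw [← Finsupp.mapDomain_comp]
  have h : ((fun j : Fin n => (j, ())) ∘ Prod.fst : Fin n × Unit → Fin n × Unit) = id := by
    funext x
    rfl
  rw [h, Finsupp.mapDomain_id]

/-- the scaled polynomial -/
noncomputable def sc {n : ℕ} (d q : ℕ) (a : Fin n → ℕ) (P : MvPolynomial (Fin n) ℂ) : MvPolynomial (Fin n) ℂ :=
  ∑ s ∈ P.support, monomial s (P.coeff s * fac d q a s)

theorem sc_coeff {n : ℕ} (d q : ℕ) (a : Fin n → ℕ) (P : MvPolynomial (Fin n) ℂ) (s : Fin n →₀ ℕ) :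
    (sc d q a P).coeff s = P.coeff s * fac d q a s := by
  classical
  unfold sc
  rw [coeff_sum]
  simp only [coeff_monomial]
  rw [Finset.sum_ite_eq' P.support s]
  split_ifs with h
  · rfl
  · rw [notMem_support_iff.1 h, zero_mul]

theorem le_of_mem {n : ℕ} {d : ℕ} (P : MvPolynomial (Fin n) ℂ) (hd : ∀ j, P.degreeOf j ≤ d) {s : Fin n →₀ ℕ}
    (hs : s ∈ P.support) (j : Fin n) : s j ≤ d := (monomial_le_degreeOf j hs).trans (hd j)

theorem sc_degreeOf {n : ℕ} (d q : ℕ) (a : Fin n → ℕ) (P : MvPolynomial (Fin n) ℂ) (hd : ∀ j, P.degreeOf j ≤ d)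
    (j : Fin n) : (sc d q a P).degreeOf j ≤ d := by
  classical
  rw [degreeOf_le_iff]
  intro s hs
  refine le_of_mem P hd (s := s) ?_ j
  rw [mem_support_iff, sc_coeff] at hs
  rw [mem_support_iff]
  exact left_ne_zero_of_mul hs

theorem sc_eval {n : ℕ} (d q : ℕ) (hq : 1 ≤ q) (a : Fin n → ℕ) (P : MvPolynomial (Fin n) ℂ)
    (hd : ∀ j, P.degreeOf j ≤ d) (y : Fin n → ℂ) :
    aeval (fun j => (a j : ℂ) / q * y j) (sc d q a P) = (∏ j, (a j : ℂ) ^ d) * aeval y P := by
  classical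
  have h1 : aeval y P = ∑ s ∈ P.support, P.coeff s * ∏ j, y j ^ s j := by
    rw [aeval_def, eval₂_eq']
    rfl
  rw [h1, sc, map_sum, Finset.mul_sum]
  refine Finset.sum_congr rfl fun s hs => ?_
  rw [aeval_monomial, Finsupp.prod_fintype _ _ (fun _ => pow_zero _)]
  have h2 := fac_val d q hq a s (le_of_mem P hd hs) y
  calc algebraMap ℂ ℂ (P.coeff s * fac d q a s) * ∏ j, ((a j : ℂ) / q * y j) ^ s j
      = P.coeff s * ((fac d q a s : ℂ) * ∏ j, ((a j : ℂ) / q * y j) ^ s j) := by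
        simp only [Algebra.algebraMap_self, RingHom.id_apply]
        ring
    _ = _ := by rw [h2]; ring

/-- the number of injective tuples -/
theorem exists_inj {α : Type*} [DecidableEq α] {n : ℕ} (hn : 1 ≤ n) (X : Finset α) (E : Set (Fin n → α)) (K : ℝ)
    (hE : (({t | t ∈ E ∧ ∀ j, t j ∈ X}.ncard : ℕ) : ℝ) ≤ K * (X.card : ℝ) ^ (n - 1))
    (hX1 : 2 * n ≤ X.card) (hX2 : 2 ^ n * K < X.card) :
    ∃ t : Fin n → α, Function.Injective t ∧ (∀ j, t j ∈ X) ∧ t ∉ E := by
  classical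
  by_contra hcon
  push Not at hcon
  have hX0 : (0 : ℝ) < X.card := by
    have : 0 < X.card := by omega
    exact_mod_cast this
  have h1 : X.card.descFactorial n ≤ {t | t ∈ E ∧ ∀ j, t j ∈ X}.ncard := by
    have h2 : Fintype.card (Fin n ↪ X) = X.card.descFactorial n := by
      rw [Fintype.card_embedding_eq, Fintype.card_coe, Fintype.card_fin]
    rw [← h2, ← Nat.card_eq_fintype_card, ← Set.ncard_univ]
    have hfin : {t | t ∈ E ∧ ∀ j, t j ∈ X}.Finite := by
      refine (Finset.finite_toSet (Fintype.piFinset fun _ : Fin n => X)).subset fun t ht => ?_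
      rw [Finset.mem_coe, Fintype.mem_piFinset]
      exact ht.2
    refine Set.ncard_le_ncard_of_injOn (fun (e : Fin n ↪ X) (j : Fin n) => ((e j : X) : α)) ?_ ?_ hfin
    · intro e _
      refine ⟨?_, fun j => (e j).2⟩
      exact hcon _ (fun i j h => e.injective (Subtype.ext h)) fun j => (e j).2
    · intro e _ e' _ h
      apply DFunLike.ext
      intro j
      exact Subtype.ext (congrFun h j)
  have h3 : (X.card + 1 - n) ^ n ≤ X.card.descFactorial n := Nat.pow_sub_le_descFactorial _ _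
  have h4 : ((X.card : ℝ) / 2) ^ n ≤ K * (X.card : ℝ) ^ (n - 1) := by
    have h5 : (X.card : ℝ) / 2 ≤ ((X.card + 1 - n : ℕ) : ℝ) := by
      rw [Nat.cast_sub (by omega)]
      push_cast
      have : (2 : ℝ) * n ≤ X.card := by exact_mod_cast hX1
      linarith
    calc ((X.card : ℝ) / 2) ^ n ≤ (((X.card + 1 - n : ℕ) : ℝ)) ^ n := pow_le_pow_left₀ (by positivity) h5 n
      _ ≤ (({t | t ∈ E ∧ ∀ j, t j ∈ X}.ncard : ℕ) : ℝ) := by exact_mod_cast h3.trans h1
      _ ≤ _ := hE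
  have h6 : ((X.card : ℝ) / 2) ^ n = (X.card : ℝ) * (X.card : ℝ) ^ (n - 1) / 2 ^ n := by
    rw [div_pow, ← pow_succ']
    congr 2
    omega
  rw [h6, div_le_iff₀ (by positivity)] at h4
  have h7 : 0 < (X.card : ℝ) ^ (n - 1) := by positivity
  have h8 : (X.card : ℝ) ≤ K * 2 ^ n := by
    have : (X.card : ℝ) * (X.card : ℝ) ^ (n - 1) ≤ (K * 2 ^ n) * (X.card : ℝ) ^ (n - 1) := by
      calc _ ≤ K * (X.card : ℝ) ^ (n - 1) * 2 ^ n := h4
        _ = _ := by ring
    exact le_of_mul_le_mul_right this h7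
  linarith

/-- specialisation of one variable -/
noncomputable def spec {n : ℕ} {R : Type*} [CommRing R] (j : R →+* ℂ) (x : ℂ) (Q : MvPolynomial (Option (Fin n)) R) :
    MvPolynomial (Fin n) ℂ := ∑ u ∈ Q.support, monomial u.some (j (Q.coeff u) * x ^ u none)

theorem spec_eval {n : ℕ} {R : Type*} [CommRing R] (j : R →+* ℂ) (x : ℂ) (Q : MvPolynomial (Option (Fin n)) R)
    (y : Fin n → ℂ) : aeval y (spec j x Q) = eval₂ j (fun o => o.elim x y) Q := by
  classical
  rw [spec, map_sum, eval₂_eq']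
  refine Finset.sum_congr rfl fun u _ => ?_
  rw [aeval_monomial, Finsupp.prod_fintype _ _ (fun _ => pow_zero _), Fintype.prod_option]
  simp only [Algebra.algebraMap_self, RingHom.id_apply, Option.elim_none, Option.elim_some, Finsupp.some_apply]
  ring

/-- the exponent with given components -/
noncomputable def opt {n : ℕ} (k : ℕ) (s : Fin n →₀ ℕ) : Option (Fin n) →₀ ℕ :=
  Finsupp.equivFunOnFinite.symm fun o => o.elim k s

theorem opt_some {n : ℕ} (k : ℕ) (s : Fin n →₀ ℕ) : (opt k s).some = s := by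
  ext i
  simp [opt]

theorem opt_none {n : ℕ} (k : ℕ) (s : Fin n →₀ ℕ) : opt k s none = k := by simp [opt]

theorem opt_eta {n : ℕ} (u : Option (Fin n) →₀ ℕ) : opt (u none) u.some = u := by
  ext o
  cases o <;> simp [opt]

theorem spec_coeff {n : ℕ} {R : Type*} [CommRing R] (j : R →+* ℂ) (x : ℂ) (Q : MvPolynomial (Option (Fin n)) R)
    (d : ℕ) (hd : Q.degreeOf none ≤ d) (s : Fin n →₀ ℕ) :
    (spec j x Q).coeff s = ∑ k : Fin (d + 1), x ^ (k : ℕ) * j (Q.coeff (opt k s)) := by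
  classical
  rw [spec, coeff_sum]
  simp only [coeff_monomial]
  rw [← Finset.sum_filter]
  rw [Fin.sum_univ_eq_sum_range (fun k => x ^ k * j (Q.coeff (opt k s))) (d + 1)]
  have hinj : Set.InjOn (fun k : ℕ => opt k s) (Finset.range (d + 1)) := by
    intro k _ k' _ h
    have := DFunLike.congr_fun h none
    simpa [opt_none] using this
  have h1 : ∑ k ∈ Finset.range (d + 1), x ^ k * j (Q.coeff (opt k s)) =
      ∑ u ∈ (Finset.range (d + 1)).image (fun k => opt k s), x ^ u none * j (Q.coeff u) := by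
    rw [Finset.sum_image hinj]
    refine Finset.sum_congr rfl fun k _ => ?_
    rw [opt_none]
  rw [h1]
  refine (Finset.sum_congr rfl fun u _ => mul_comm _ _).trans (Finset.sum_subset ?_ ?_)
  · intro u hu
    rw [Finset.mem_filter] at hu
    rw [Finset.mem_image]
    refine ⟨u none, Finset.mem_range.2 (Nat.lt_succ_of_le ((monomial_le_degreeOf none hu.1).trans hd)), ?_⟩
    rw [← hu.2, opt_eta]
  · intro u hu hu'
    rw [Finset.mem_image] at hu
    obtain ⟨k, _, rfl⟩ := hu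
    rw [Finset.mem_filter, not_and_or, notMem_support_iff] at hu'
    rcases hu' with h | h
    · rw [h, map_zero, mul_zero]
    · exact absurd (opt_some k s) h

end Pool.Agent.R349
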