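import Mathlib
import Pool.Agent.Y776.Cv.Fix
import Pool.Agent.Y776.Cv.Pad

/-!
# Analytic curves in products of elliptic curves and tori: the complement of the algebraic functions
-/

set_option autoImplicit false

open Filter Topology Set MvPolynomial
open scoped PeriodPair

noncomputable section

namespace Pool.Agent.R349.Semi

open Pool.Agent.Y776.Cv
open Pool.Agent.Y776.Fam (TS TS_countable Gn exists_cf exists_notMem IndC)
open Pool.Agent.TH813.Rel (DF MK rk_le_of_subset_cl subset_cl)
open Pool.Agent.Y124 (LocInd)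

/-- `f` is algebraic over `ℂ(z)` on `U` -/
def AlgOn (U : Set ℂ) (f : ℂ → ℂ) : Prop :=
  ∃ P : MvPolynomial (Fin 2) ℂ, P ≠ 0 ∧ ∀ z ∈ U, eval ![z, f z] P = 0

/-- a number which satisfies a relation over `F(z₀)` is in the closure of `z₀` -/
theorem mem_cl_of_rel {F : IntermediateField ℚ ℂ} {z₀ w : ℂ} (htr : ¬ IsAlgebraic F z₀)
    {P : MvPolynomial (Fin 2) ℂ} (hP : P ≠ 0) (hc : ∀ s, P.coeff s ∈ F) (h0 : eval ![z₀, w] P = 0) :
    w ∈ (MK F).closure {z₀} := by
  classical
  by_contra hcon
  have h1 : (MK F).Indep {z₀} := indep_single htr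
  have hwz : w ≠ z₀ := by
    rintro rfl
    exact hcon (subset_cl _ rfl)
  have h2 : (MK F).Indep (insert w {z₀}) := by
    rw [h1.insert_indep_iff]
    exact Or.inl ⟨Set.mem_univ _, hcon⟩
  have hinj : Function.Injective ![z₀, w] := by
    intro a b hab
    fin_cases a <;> fin_cases b
    · rfl
    · exact absurd hab.symm hwz
    · exact absurd hab hwz
    · rfl
  have h3 : Set.range ![z₀, w] = insert w {z₀} := by
    rw [Matrix.range_cons, Matrix.range_cons, Matrix.range_empty, Set.union_empty]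
    ext x
    simp only [Set.mem_union, Set.mem_singleton_iff, Set.mem_insert_iff]
    tauto
  rw [← h3, AlgebraicIndependent.matroid_indep_iff] at h2
  have h4 := (algebraicIndependent_subtype_range hinj).1 h2
  set P' : MvPolynomial (Fin 2) F := ∑ s ∈ P.support, monomial s (⟨P.coeff s, hc s⟩ : F) with hP'
  have hmap : MvPolynomial.map (algebraMap F ℂ) P' = P := by
    rw [hP', map_sum]
    simp only [map_monomial]
    exact (MvPolynomial.as_sum P).symm
  have h5 : aeval ![z₀, w] P' = 0 := by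
    have h6 : aeval ![z₀, w] P' = eval ![z₀, w] (MvPolynomial.map (algebraMap F ℂ) P') := by
      rw [eval_map, aeval_def]
    rw [h6, hmap, h0]
  have h7 : P' = 0 := h4.eq_zero_of_aeval_eq_zero _ h5
  apply hP
  rw [← hmap, h7, map_zero]

variable {U : Set ℂ} {n s q : ℕ} {Λ : Fin q → PeriodPair} {ty : Fin n → Fin q}
  {u : Fin n → ℂ → ℂ} {l : Fin s → ℂ → ℂ}

/-- if all but `s + 2 n` of the functions are algebraic, the others are independent -/
theorem locInd_alg (h : FxM U Λ ty u l) (hns : 0 < s + n) (hne : U.Nonempty) {κ : Type} [Fintype κ]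
    (y : κ → ℂ → ℂ) (hy : ∀ k, AnalyticOnNhd ℂ (y k) U) (hcard : Fintype.card κ ≤ s + 2 * n)
    (hsub : ∀ i : Nf n s, (∃ k, ∀ z ∈ U, yf Λ ty u l i z = y k z) ∨ AlgOn U (yf Λ ty u l i)) :
    ∀ t ∈ U, LocInd y t := by
  classical
  obtain ⟨zs, hzs⟩ := hne
  set Pf : Nf n s → MvPolynomial (Fin 2) ℂ := fun i =>
    if h : AlgOn U (yf Λ ty u l i) then h.choose else 0 with hPf
  set G : Set ℂ := Set.range (fun x : Nf n s × (Fin 2 →₀ ℕ) => (Pf x.1).coeff x.2) with hG
  obtain ⟨F, hFc, hF⟩ := exists_cf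
    (T := (TS y zs ∪ (Set.range (fun c => (Λ c).g₂) ∪ Set.range (fun c => (Λ c).g₃))) ∪ G)
    (((TS_countable _ _).union ((Set.countable_range _).union (Set.countable_range _))).union
      (Set.countable_range _))
  obtain ⟨z₀, hz₀, hnot⟩ := exists_notMem h.isOpen ⟨zs, hzs⟩ (countable_Gp h hFc ⟨zs, hzs⟩)
  have g : Gp U Λ ty u l F z₀ := by
    by_contra hcon
    exact hnot ⟨hz₀, hcon⟩
  have hr := rank_Gp h hns (fun c => hF (Or.inl (Or.inr (Or.inl ⟨c, rfl⟩))))
    (fun c => hF (Or.inl (Or.inr (Or.inr ⟨c, rfl⟩)))) g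
  have hcl : (Set.range fun i => yf Λ ty u l i z₀) ⊆
      (MK F).closure (insert z₀ (Set.range fun k => y k z₀)) := by
    rintro _ ⟨i, rfl⟩
    rcases hsub i with ⟨k, hk⟩ | halg
    · refine subset_cl _ (Or.inr ⟨k, (hk z₀ hz₀).symm⟩)
    · have hPi : Pf i = halg.choose := by
        rw [hPf]
        exact dif_pos halg
      have h1 : yf Λ ty u l i z₀ ∈ (MK F).closure {z₀} := by
        refine mem_cl_of_rel g.tr (P := Pf i) ?_ (fun s => hF (Or.inr ⟨(i, s), rfl⟩)) ?_
        · rw [hPi]
          exact halg.choose_spec.1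
        · rw [hPi]
          exact halg.choose_spec.2 z₀ hz₀
      exact (MK F).closure_subset_closure (Set.singleton_subset_iff.2 (Set.mem_insert _ _)) h1
  obtain ⟨e, he, hL⟩ := exists_sub (N := s + 2 * n) h.conn h.isOpen hy hzs
    (fun x hx => hF (Or.inl (Or.inl hx))) hz₀ g.tr (hr.trans (rk_le_of_subset_cl hcl))
  have hbij : Function.Bijective e := by
    rw [Fintype.bijective_iff_injective_and_card]
    refine ⟨he, le_antisymm (Fintype.card_le_of_injective e he) ?_⟩
    rw [Fintype.card_fin]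
    exact hcard
  intro t ht
  have h2 := LocInd.comp_inj (hL t ht) (Equiv.ofBijective e hbij).symm.injective
  have h3 : (fun k => y (e ((Equiv.ofBijective e hbij).symm k))) = y := by
    funext k
    have h4 : e ((Equiv.ofBijective e hbij).symm k) = k := (Equiv.ofBijective e hbij).apply_symm_apply k
    rw [h4]
  rw [h3] at h2
  exact h2

end Pool.Agent.R349.Semi
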