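import Mathlib
import Pool.Agent.R349.Semi

/-!
# Analytic curves in products of elliptic curves and tori: functions which generate the others
-/

set_option autoImplicit false

open Filter Topology Set MvPolynomial
open scoped PeriodPair

noncomputable section

namespace Pool.Agent.R349.Semi

open Pool.Agent.Y776.Cv
open Pool.Agent.Y776.Fam (TS TS_countable Gn exists_cf exists_notMem IndC AlgOver)
open Pool.Agent.TH813.Rel (DF MK rk_le_of_subset_cl subset_cl)
open Pool.Agent.Y124 (LocInd)
open Pool.Agent.Y685 (clo mem_clo_iff subset_clo base_clo clo_le)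

section general
variable {U : Set ℂ} {n s q : ℕ} {Λ : Fin q → PeriodPair} {ty : Fin n → Fin q}
  {u : Fin n → ℂ → ℂ} {l : Fin s → ℂ → ℂ}

/-- if the functions `y` generate the functions of the curve, then `s + 2 n` of them are independent -/
theorem exists_inj (h : FxM U Λ ty u l) (hns : 0 < s + n) (hne : U.Nonempty) {κ : Type} [Fintype κ]
    (y : κ → ℂ → ℂ) (hy : ∀ k, AnalyticOnNhd ℂ (y k) U) {G : Set ℂ} (hG : G.Countable)
    (hsub : ∀ F : IntermediateField ℚ ℂ, G ⊆ F → ∀ z ∈ U, ¬ IsAlgebraic F z → ∀ i : Nf n s,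
      yf Λ ty u l i z ∈ clo F (insert z (Set.range fun k => y k z))) :
    ∃ e : Fin (s + 2 * n) → κ, Function.Injective e ∧ ∀ t ∈ U, LocInd (fun k => y (e k)) t := by
  classical
  obtain ⟨zs, hzs⟩ := hne
  obtain ⟨F, hFc, hF⟩ := exists_cf
    (T := (TS y zs ∪ (Set.range (fun c => (Λ c).g₂) ∪ Set.range (fun c => (Λ c).g₃))) ∪ G)
    (((TS_countable _ _).union ((Set.countable_range _).union (Set.countable_range _))).union hG)
  obtain ⟨z₀, hz₀, hnot⟩ := exists_notMem h.isOpen ⟨zs, hzs⟩ (countable_Gp h hFc ⟨zs, hzs⟩)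
  have g : Gp U Λ ty u l F z₀ := by
    by_contra hcon
    exact hnot ⟨hz₀, hcon⟩
  have hr := rank_Gp h hns (fun c => hF (Or.inl (Or.inr (Or.inl ⟨c, rfl⟩))))
    (fun c => hF (Or.inl (Or.inr (Or.inr ⟨c, rfl⟩)))) g
  have hcl : (Set.range fun i => yf Λ ty u l i z₀) ⊆
      (MK F).closure (insert z₀ (Set.range fun k => y k z₀)) := by
    rintro _ ⟨i, rfl⟩
    rw [← mem_clo_iff]
    exact hsub F (fun x hx => hF (Or.inr hx)) z₀ hz₀ g.tr i
  exact exists_sub (N := s + 2 * n) h.conn h.isOpen hy hzs
    (fun x hx => hF (Or.inl (Or.inl hx))) hz₀ g.tr (hr.trans (rk_le_of_subset_cl hcl))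

/-- if there are at most `s + 2 n` functions `y`, they are independent -/
theorem locInd_gen (h : FxM U Λ ty u l) (hns : 0 < s + n) (hne : U.Nonempty) {κ : Type} [Fintype κ]
    (y : κ → ℂ → ℂ) (hy : ∀ k, AnalyticOnNhd ℂ (y k) U) (hcard : Fintype.card κ ≤ s + 2 * n)
    {G : Set ℂ} (hG : G.Countable)
    (hsub : ∀ F : IntermediateField ℚ ℂ, G ⊆ F → ∀ z ∈ U, ¬ IsAlgebraic F z → ∀ i : Nf n s,
      yf Λ ty u l i z ∈ clo F (insert z (Set.range fun k => y k z))) :
    ∀ t ∈ U, LocInd y t := by
  classical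
  obtain ⟨e, he, hL⟩ := exists_inj h hns hne y hy hG hsub
  have hbij : Function.Bijective e := by
    rw [Fintype.bijective_iff_injective_and_card]
    refine ⟨he, le_antisymm (Fintype.card_le_of_injective e he) ?_⟩
    rw [Fintype.card_fin]
    exact hcard
  intro t ht
  have h2 := LocInd.comp_inj (hL t ht) (Equiv.ofBijective e hbij).symm.injective
  have h3 : (fun k => y (e ((Equiv.ofBijective e hbij).symm k))) = y := by
    funext k
    have h4 : e ((Equiv.ofBijective e hbij).symm k) = k := (Equiv.ofBijective e hbij).apply_symm_apply k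
    rw [h4]
  rw [h3] at h2
  exact h2

end general

/-- the coefficients of a relation for an algebraic function -/
theorem AlgOn.mem {U : Set ℂ} {f : ℂ → ℂ} (hf : AlgOn U f) :
    ∃ G : Set ℂ, G.Countable ∧ ∀ F : IntermediateField ℚ ℂ, G ⊆ F → ∀ z ∈ U, ¬ IsAlgebraic F z →
      f z ∈ clo F {z} := by
  obtain ⟨P, hP0, hP⟩ := hf
  refine ⟨(P.coeffs : Set ℂ), (Finset.finite_toSet _).countable, fun F hF z hz htr => ?_⟩
  exact AlgOver.mem (F := F) le_rfl ⟨P, hP0, fun c hc => hF hc, hP⟩ hz htr

/-- a countable set which serves all algebraic functions of a finite family -/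
theorem exists_G {U : Set ℂ} {ι : Type} [Finite ι] {f : ι → ℂ → ℂ} (hf : ∀ i, AlgOn U (f i)) :
    ∃ G : Set ℂ, G.Countable ∧ ∀ F : IntermediateField ℚ ℂ, G ⊆ F → ∀ z ∈ U, ¬ IsAlgebraic F z →
      ∀ i, f i z ∈ clo F {z} := by
  choose G hGc hG using fun i => (hf i).mem
  have : Countable ι := Finite.to_countable
  exact ⟨⋃ i, G i, Set.countable_iUnion hGc, fun F hF z hz htr i =>
    hG i F ((Set.subset_iUnion G i).trans hF) z hz htr⟩

theorem clo_mono {F : IntermediateField ℚ ℂ} {S T : Set ℂ} (h : S ⊆ T) : clo F S ≤ clo F T :=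
  clo_le fun _ hs => subset_clo (h hs)

/-- A nonconstant function and its exponential are not both algebraic. -/
theorem not_both {U : Set ℂ} (hU : IsOpen U) (hc : IsPreconnected U) (hne : U.Nonempty) {L : ℂ → ℂ}
    (hL : AnalyticOnNhd ℂ L U) {G : Set ℂ} (hG : G.Countable)
    (h1 : ∀ F : IntermediateField ℚ ℂ, G ⊆ F → ∀ z ∈ U, ¬ IsAlgebraic F z → L z ∈ clo F {z})
    (h2 : ∀ F : IntermediateField ℚ ℂ, G ⊆ F → ∀ z ∈ U, ¬ IsAlgebraic F z → Complex.exp (L z) ∈ clo F {z}) :
    ∃ c, ∀ z ∈ U, L z = c := by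
  classical
  by_contra hcon
  push Not at hcon
  have hF : FxM U (fun k : Fin 0 => k.elim0) (fun i : Fin 0 => i) (fun i : Fin 0 => i.elim0)
      (fun _ : Fin 1 => L) :=
    { isOpen := hU
      conn := hc
      ni := fun c => c.elim0
      ua := fun i => i.elim0
      un := fun i => i.elim0
      ui := fun c => c.elim0
      la := fun _ => hL
      li := by
        intro m c h
        by_contra hm
        have hm0 : m 0 ≠ 0 := by
          intro h0
          apply hm
          funext i
          rw [Subsingleton.elim i 0, h0]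
          rfl
        obtain ⟨z, hz, hzc⟩ := hcon (c / m 0)
        apply hzc
        have h3 := h z hz
        rw [Fin.sum_univ_one] at h3
        rw [← h3, mul_div_cancel_left₀]
        exact_mod_cast hm0 }
  obtain ⟨e, -, -⟩ := exists_inj hF (by norm_num) hne (κ := Empty) (fun (_ : Empty) (_ : ℂ) => (0 : ℂ))
    (fun k => k.elim) hG
    (by
      intro F hGF z hz htr i
      have hm : clo F {z} ≤ clo F (insert z (Set.range fun _ : Empty => (0 : ℂ))) :=
        clo_mono (by
          rw [Set.singleton_subset_iff]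
          exact Set.mem_insert _ _)
      rcases i with i | i | i | i | i
      · change L z ∈ _
        exact hm (h1 F hGF z hz htr)
      · change Complex.exp (L z) ∈ _
        exact hm (h2 F hGF z hz htr)
      · exact i.elim0
      · exact i.elim0
      · exact i.elim0)
  exact (e 0).elim

/-- **Exponentials of algebraic functions and logarithms of algebraic functions.** -/
theorem gelfond {U : Set ℂ} (hU : IsOpen U) (hc : IsPreconnected U) (hne : U.Nonempty) {a b : ℕ}
    (hab : 0 < a + b) {α : Fin a → ℂ → ℂ} {l : Fin b → ℂ → ℂ}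
    (hα : ∀ i, AnalyticOnNhd ℂ (α i) U) (hα' : ∀ i, AlgOn U (α i)) (hαi : IndC U α)
    (hl : ∀ i, AnalyticOnNhd ℂ (l i) U) (hl' : ∀ i, AlgOn U (fun z => Complex.exp (l i z))) (hli : IndC U l) :
    ∀ t ∈ U, LocInd (Sum.elim (fun i z => Complex.exp (α i z)) l : Fin a ⊕ Fin b → ℂ → ℂ) t := by
  classical
  obtain ⟨G₁, hG₁, hG₁'⟩ := exists_G hα'
  obtain ⟨G₂, hG₂, hG₂'⟩ := exists_G hl'
  set w : Fin (a + b) → ℂ → ℂ := fun i => Sum.elim α l (finSumFinEquiv.symm i) with hw
  have hwa : ∀ i, AnalyticOnNhd ℂ (w i) U := by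
    intro i
    simp only [hw]
    rcases finSumFinEquiv.symm i with i | i
    · exact hα i
    · exact hl i
  have hwi : IndC U w := by
    intro m c hm
    have hm' : ∀ z ∈ U, ∑ i : Fin a, (m (finSumFinEquiv (Sum.inl i)) : ℂ) * α i z +
        ∑ i : Fin b, (m (finSumFinEquiv (Sum.inr i)) : ℂ) * l i z = c := by
      intro z hz
      rw [← hm z hz, ← finSumFinEquiv.sum_comp, Fintype.sum_sum_type]
      simp only [hw, Equiv.symm_apply_apply, Sum.elim_inl, Sum.elim_inr]
    -- the combination of the logarithms is constant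
    have hconst : ∃ c', ∀ z ∈ U, ∑ i : Fin b, (m (finSumFinEquiv (Sum.inr i)) : ℂ) * l i z = c' := by
      refine not_both (G := (G₁ ∪ G₂) ∪ {c}) hU hc hne ?_ ((hG₁.union hG₂).union (Set.countable_singleton _)) ?_ ?_
      · intro z hz
        exact Finset.analyticAt_fun_sum _ fun i _ => analyticAt_const.mul (hl i z hz)
      · intro F hF z hz htr
        have h1 : ∑ i : Fin b, (m (finSumFinEquiv (Sum.inr i)) : ℂ) * l i z =
            c - ∑ i : Fin a, (m (finSumFinEquiv (Sum.inl i)) : ℂ) * α i z := by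
          rw [← hm' z hz]
          ring
        rw [h1]
        refine sub_mem (base_clo (hF (Or.inr rfl))) (sum_mem fun i _ => mul_mem (intCast_mem _ _) ?_)
        exact hG₁' F (fun x hx => hF (Or.inl (Or.inl hx))) z hz htr i
      · intro F hF z hz htr
        rw [Complex.exp_sum]
        refine prod_mem fun i _ => ?_
        rw [Complex.exp_int_mul]
        exact zpow_mem (hG₂' F (fun x hx => hF (Or.inl (Or.inr hx))) z hz htr i) _
    obtain ⟨c', hc'⟩ := hconst
    have h2 := hli (fun i => m (finSumFinEquiv (Sum.inr i))) c' hc'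
    have h3 := hαi (fun i => m (finSumFinEquiv (Sum.inl i))) (c - c') (fun z hz => by
      rw [← hm' z hz, hc' z hz]
      ring)
    funext i
    obtain ⟨i', rfl⟩ := finSumFinEquiv.surjective i
    rcases i' with i' | i'
    · exact congrFun h3 i'
    · exact congrFun h2 i'
  have hF : FxM U (fun k : Fin 0 => k.elim0) (fun i : Fin 0 => i) (fun i : Fin 0 => i.elim0) w :=
    { isOpen := hU
      conn := hc
      ni := fun c => c.elim0
      ua := fun i => i.elim0
      un := fun i => i.elim0
      ui := fun c => c.elim0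
      la := hwa
      li := hwi }
  refine locInd_gen hF (by omega) hne _ ?_ ?_ (hG₁.union hG₂) ?_
  · rintro (i | i)
    · exact fun z hz => (hα i z hz).cexp
    · exact hl i
  · simp only [Fintype.card_sum, Fintype.card_fin]
    omega
  · intro F hGF z hz htr i
    have hm : clo F {z} ≤ clo F (insert z (Set.range fun k : Fin a ⊕ Fin b =>
        (Sum.elim (fun i z => Complex.exp (α i z)) l : Fin a ⊕ Fin b → ℂ → ℂ) k z)) :=
      clo_mono (by
        rw [Set.singleton_subset_iff]
        exact Set.mem_insert _ _)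
    rcases i with i | i | i | i | i
    · change w i z ∈ _
      simp only [hw]
      rcases finSumFinEquiv.symm i with i | i
      · exact hm (hG₁' F (fun x hx => hGF (Or.inl hx)) z hz htr i)
      · exact subset_clo (Set.mem_insert_of_mem _ ⟨Sum.inr i, rfl⟩)
    · change Complex.exp (w i z) ∈ _
      simp only [hw]
      rcases finSumFinEquiv.symm i with i | i
      · exact subset_clo (Set.mem_insert_of_mem _ ⟨Sum.inl i, rfl⟩)
      · exact hm (hG₂' F (fun x hx => hGF (Or.inr hx)) z hz htr i)
    · exact i.elim0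
    · exact i.elim0
    · exact i.elim0

end Pool.Agent.R349.Semi
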