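import Mathlib
import Pool.Agent.R349.Semi2

/-!
# The logarithm and exponentials on the slit plane
-/

set_option autoImplicit false

open Filter Topology Set MvPolynomial
open scoped PeriodPair

noncomputable section

namespace Pool.Agent.R349.Semi

open Pool.Agent.Y776.Cv
open Pool.Agent.Y776.Fam (IndC)
open Pool.Agent.Y124 (LocInd)
open Pool.Agent.Y685 (clo mem_clo_iff subset_clo base_clo clo_le)

theorem slit_conn : IsPreconnected Complex.slitPlane :=
  (Complex.starConvex_one_slitPlane.isPathConnected Complex.one_mem_slitPlane).isConnected.isPreconnected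

theorem slit_ne : (Complex.slitPlane).Nonempty := ⟨1, by simp⟩

theorem log_an : AnalyticOnNhd ℂ Complex.log Complex.slitPlane := fun _ hz => analyticAt_clog hz

/-- **The logarithm and exponentials.** -/
theorem logexp {a : ℕ} {e : Fin a → ℂ → ℂ} (he : ∀ i, AnalyticOnNhd ℂ (e i) Complex.slitPlane)
    (hi : IndC Complex.slitPlane (Fin.cons Complex.log e : Fin (a + 1) → ℂ → ℂ))
    {G : Set ℂ} (hG : G.Countable)
    (hsub : ∀ F : IntermediateField ℚ ℂ, G ⊆ F → ∀ z ∈ Complex.slitPlane, ¬ IsAlgebraic F z → ∀ i : Fin a,
      e i z ∈ clo F (insert z (Set.range fun k =>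
        (Fin.cons Complex.log (fun i z => Complex.exp (e i z)) : Fin (a + 1) → ℂ → ℂ) k z))) :
    ∀ t ∈ Complex.slitPlane,
      LocInd (Fin.cons Complex.log (fun i z => Complex.exp (e i z)) : Fin (a + 1) → ℂ → ℂ) t := by
  classical
  have hF : FxM Complex.slitPlane (fun k : Fin 0 => k.elim0) (fun i : Fin 0 => i) (fun i : Fin 0 => i.elim0)
      (Fin.cons Complex.log e : Fin (a + 1) → ℂ → ℂ) :=
    { isOpen := Complex.isOpen_slitPlane
      conn := slit_conn
      ni := fun c => c.elim0
      ua := fun i => i.elim0
      un := fun i => i.elim0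
      ui := fun c => c.elim0
      la := by
        intro k
        refine Fin.cases ?_ (fun k => ?_) k
        · exact log_an
        · exact he k
      li := hi }
  refine locInd_gen hF (by omega) slit_ne _ ?_ (by simp) hG ?_
  · intro k
    refine Fin.cases ?_ (fun k => ?_) k
    · exact log_an
    · exact fun z hz => (he k z hz).cexp
  · intro F hGF z hz htr i
    rcases i with i | i | i | i | i
    · revert i
      intro i
      refine Fin.cases ?_ (fun k => ?_) i
      · exact subset_clo (Set.mem_insert_of_mem _ ⟨0, rfl⟩)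
      · exact hsub F hGF z hz htr k
    · refine Fin.cases ?_ (fun k => ?_) i
      · change Complex.exp (Complex.log z) ∈ _
        rw [Complex.exp_log (Complex.slitPlane_ne_zero hz)]
        exact subset_clo (Set.mem_insert _ _)
      · exact subset_clo (Set.mem_insert_of_mem _ ⟨k.succ, rfl⟩)
    · exact i.elim0
    · exact i.elim0
    · exact i.elim0

/-- no logarithm and no exponential: trivial independence of `z` -/
theorem locInd_log : ∀ t ∈ Complex.slitPlane,
    LocInd (Fin.cons Complex.log (fun i : Fin 0 => (i.elim0 : ℂ → ℂ)) : Fin 1 → ℂ → ℂ) t := by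
  have h := logexp (a := 0) (e := fun i => i.elim0) (fun i => i.elim0) (by
    intro m c hm
    by_contra hne
    have hm0 : m 0 ≠ 0 := by
      intro h0
      apply hne
      funext i
      have h3 : i = 0 := Fin.ext (by omega)
      rw [h3, h0]
      rfl
    have h1 := hm 1 (by simp)
    have h2 := hm (Complex.exp 1) (by
      rw [← Complex.ofReal_one, ← Complex.ofReal_exp]
      exact Complex.ofReal_mem_slitPlane.2 (Real.exp_pos 1))
    rw [Fin.sum_univ_one] at h1 h2
    change (m 0 : ℂ) * Complex.log 1 = c at h1
    change (m 0 : ℂ) * Complex.log (Complex.exp 1) = c at h2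
    rw [Complex.log_one, mul_zero] at h1
    rw [Complex.log_exp (by simp [Real.pi_pos]) (by simp [Real.pi_pos.le]), mul_one, ← h1] at h2
    exact hm0 (by exact_mod_cast h2)) (G := ∅) Set.countable_empty (fun F _ z _ _ i => i.elim0)
  intro t ht
  have h2 := h t ht
  have h3 : (Fin.cons Complex.log (fun (i : Fin 0) z => Complex.exp ((fun i : Fin 0 => (i.elim0 : ℂ → ℂ)) i z)) :
      Fin (0 + 1) → ℂ → ℂ) = Fin.cons Complex.log (fun i : Fin 0 => (i.elim0 : ℂ → ℂ)) := by
    funext k
    refine Fin.cases rfl (fun i => ?_) k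
    exact i.elim0
  rw [← h3]
  exact h2

end Pool.Agent.R349.Semi
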