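import Mathlib
import Pool.Agent.R349.ExpLog

/-!
# `log x`, `e ^ x` and exponentials of polynomials in `x`, `log x`, `e ^ x`
-/

set_option autoImplicit false

open Filter Topology Set MvPolynomial
open scoped PeriodPair

noncomputable section

namespace Pool.Agent.R349.Semi

open Pool.Agent.Y776.Cv
open Pool.Agent.Y776.Fam (IndC)
open Pool.Agent.Y124 (LocInd)
open Pool.Agent.Y685 (clo mem_clo_iff subset_clo base_clo clo_le)

theorem idexp_ind : IndC Complex.slitPlane (Fin.cons Complex.log (fun _ : Fin 1 => fun z : ℂ => z) :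
    Fin 2 → ℂ → ℂ) := by
  intro m c hm
  set P : MvPolynomial (Option (Fin 1)) ℂ := C (m 0 : ℂ) * X (some 0) + C (m 1 : ℂ) * X none - C c with hP
  have hP0 : P = 0 := by
    refine locInd_log 1 Complex.one_mem_slitPlane P ?_
    filter_upwards [Complex.isOpen_slitPlane.mem_nhds Complex.one_mem_slitPlane] with z hz
    have h1 := hm z hz
    rw [Fin.sum_univ_two] at h1
    change (m 0 : ℂ) * Complex.log z + m 1 * z = c at h1
    rw [hP]
    simp only [map_sub, map_add, map_mul, eval_C, eval_X, Option.elim_none, Option.elim_some, Fin.cons_zero]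
    rw [← h1]
    ring
  have hev : ∀ x L : ℂ, (m 0 : ℂ) * L + m 1 * x - c = 0 := by
    intro x L
    have h1 := congrArg (eval (fun o : Option (Fin 1) => o.elim x fun _ => L)) hP0
    rw [hP] at h1
    simpa only [map_sub, map_add, map_mul, eval_C, eval_X, Option.elim_none, Option.elim_some, map_zero] using h1
  have h0 := hev 0 0
  have h1 := hev 1 0
  have h2 := hev 0 1
  have z0 : (m 0 : ℂ) = 0 := by linear_combination h2 - h0
  have z1 : (m 1 : ℂ) = 0 := by linear_combination h1 - h0
  have k0 : m 0 = 0 := by exact_mod_cast z0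
  have k1 : m 1 = 0 := by exact_mod_cast z1
  funext i
  fin_cases i
  · exact k0
  · exact k1

theorem idexp : ∀ t ∈ Complex.slitPlane,
    LocInd (Fin.cons Complex.log (fun _ : Fin 1 => fun z : ℂ => Complex.exp z) : Fin 2 → ℂ → ℂ) t := by
  refine logexp (e := fun _ : Fin 1 => fun z : ℂ => z) (fun _ z _ => analyticAt_id) idexp_ind (G := ∅)
    Set.countable_empty ?_
  intro F hG z hz htr i
  exact subset_clo (Set.mem_insert _ _)

/-- the exponents -/
def eq {a : ℕ} (Q : Fin a → MvPolynomial (Fin 3) ℂ) : Fin (a + 1) → ℂ → ℂ :=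
  Fin.cons (fun z => z) (fun i z => eval ![z, Complex.log z, Complex.exp z] (Q i))

theorem eval_an {κ : Type} {f : κ → ℂ → ℂ} {t : ℂ} (hf : ∀ k, AnalyticAt ℂ (f k) t) (P : MvPolynomial κ ℂ) :
    AnalyticAt ℂ (fun z => eval (fun k => f k z) P) t := by
  simp only [MvPolynomial.eval_eq]
  refine Finset.analyticAt_fun_sum _ fun s _ => analyticAt_const.mul ?_
  exact Finset.analyticAt_fun_prod _ fun o _ => (hf o).pow _

theorem eq_an {a : ℕ} (Q : Fin a → MvPolynomial (Fin 3) ℂ) : ∀ i, AnalyticOnNhd ℂ (eq Q i) Complex.slitPlane := by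
  intro i z hz
  refine Fin.cases ?_ (fun k => ?_) i
  · exact analyticAt_id
  · change AnalyticAt ℂ (fun z => eval ![z, Complex.log z, Complex.exp z] (Q k)) z
    have h1 : (fun z => eval ![z, Complex.log z, Complex.exp z] (Q k)) =
        fun z => eval (fun j => (![fun z => z, Complex.log, Complex.exp] : Fin 3 → ℂ → ℂ) j z) (Q k) := by
      funext z
      congr 2
      funext j
      fin_cases j <;> rfl
    rw [h1]
    refine eval_an (fun j => ?_) _
    fin_cases j
    · exact analyticAt_id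
    · exact log_an z hz
    · exact analyticAt_cexp

/-- no nontrivial integral combination of the `Q_i` is of the form `m₁ X + m₂ Y + c` -/
def Indep {a : ℕ} (Q : Fin a → MvPolynomial (Fin 3) ℂ) : Prop :=
  ∀ (m : Fin a → ℤ) (m₁ m₂ : ℤ) (c : ℂ), ∑ i, (m i : ℂ) • Q i = (m₁ : ℂ) • X 0 + (m₂ : ℂ) • X 1 + C c → m = 0

theorem eq_ind {a : ℕ} {Q : Fin a → MvPolynomial (Fin 3) ℂ} (hQ : Indep Q) :
    IndC Complex.slitPlane (Fin.cons Complex.log (eq Q) : Fin (a + 2) → ℂ → ℂ) := by
  intro m c hm
  set R : MvPolynomial (Fin 3) ℂ := (m 0 : ℂ) • X 1 + (m 1 : ℂ) • X 0 +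
    ∑ i : Fin a, (m i.succ.succ : ℂ) • Q i - C c with hR
  set θ : Fin 3 → Option (Fin 2) := ![none, some 0, some 1] with hθ
  have hθi : Function.Injective θ := by
    intro i j hij
    fin_cases i <;> fin_cases j <;> simp [hθ] at hij ⊢
  have hP0 : rename θ R = 0 := by
    refine idexp 1 Complex.one_mem_slitPlane _ ?_
    filter_upwards [Complex.isOpen_slitPlane.mem_nhds Complex.one_mem_slitPlane] with z hz
    have h1 := hm z hz
    rw [Fin.sum_univ_succ, Fin.sum_univ_succ] at h1
    change (m 0 : ℂ) * Complex.log z + ((m 1 : ℂ) * z + ∑ i : Fin a, (m i.succ.succ : ℂ) *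
      eval ![z, Complex.log z, Complex.exp z] (Q i)) = c at h1
    rw [eval_rename]
    have hv : ((fun o : Option (Fin 2) => o.elim z fun k =>
        (Fin.cons Complex.log (fun _ : Fin 1 => fun z : ℂ => Complex.exp z) : Fin 2 → ℂ → ℂ) k z) ∘ θ) =
        ![z, Complex.log z, Complex.exp z] := by
      funext j
      fin_cases j <;> rfl
    rw [hv, hR, map_sub, map_add, map_add, map_sum, smul_eval, smul_eval, eval_X, eval_X, eval_C]
    simp only [smul_eval, Matrix.cons_val_zero, Matrix.cons_val_one]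
    rw [← h1]
    ring
  have hR0 : R = 0 := by
    apply rename_injective θ hθi
    rw [hP0, map_zero]
  have h2 : (fun i : Fin a => m i.succ.succ) = 0 := by
    refine hQ _ (-(m 1)) (-(m 0)) c ?_
    have h3 : ∑ i : Fin a, (m i.succ.succ : ℂ) • Q i = C c - (m 0 : ℂ) • X 1 - (m 1 : ℂ) • X 0 := by
      rw [hR] at hR0
      linear_combination hR0
    rw [h3]
    push_cast
    rw [neg_smul, neg_smul]
    ring
  have h3 : (m 0 : ℂ) • (X 1 : MvPolynomial (Fin 3) ℂ) + (m 1 : ℂ) • X 0 - C c = 0 := by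
    have h4 : ∑ i : Fin a, (m i.succ.succ : ℂ) • Q i = 0 := by
      refine Finset.sum_eq_zero fun i _ => ?_
      have := congrFun h2 i
      simp only [Pi.zero_apply] at this
      rw [this]
      simp
    rw [hR, h4, add_zero] at hR0
    exact hR0
  have hev : ∀ x L : ℂ, (m 0 : ℂ) * L + m 1 * x - c = 0 := by
    intro x L
    have h1 := congrArg (eval ![x, L, 0]) h3
    rw [map_sub, map_add, smul_eval, smul_eval, eval_X, eval_X, eval_C, map_zero] at h1
    simpa using h1
  have h0 := hev 0 0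
  have h1 := hev 1 0
  have h5 := hev 0 1
  have z0 : (m 0 : ℂ) = 0 := by linear_combination h5 - h0
  have z1 : (m 1 : ℂ) = 0 := by linear_combination h1 - h0
  have k0 : m 0 = 0 := by exact_mod_cast z0
  have k1 : m 1 = 0 := by exact_mod_cast z1
  funext i
  refine Fin.cases ?_ (fun i => ?_) i
  · exact k0
  · refine Fin.cases ?_ (fun i => ?_) i
    · exact k1
    · exact congrFun h2 i

theorem expPoly {a : ℕ} {Q : Fin a → MvPolynomial (Fin 3) ℂ} (hQ : Indep Q) : ∀ t ∈ Complex.slitPlane,
    LocInd (Fin.cons Complex.log (fun i z => Complex.exp (eq Q i z)) : Fin (a + 2) → ℂ → ℂ) t := by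
  classical
  refine logexp (eq_an Q) (eq_ind hQ) (G := ⋃ i, ((Q i).coeffs : Set ℂ))
    (Set.countable_iUnion fun i => (Finset.finite_toSet _).countable) ?_
  intro F hG z hz htr i
  set W := clo F (insert z (Set.range fun k =>
      (Fin.cons Complex.log (fun i z => Complex.exp (eq Q i z)) : Fin (a + 2) → ℂ → ℂ) k z)) with hW
  have hx : z ∈ W := subset_clo (Set.mem_insert _ _)
  have hL : Complex.log z ∈ W := subset_clo (Set.mem_insert_of_mem _ ⟨0, rfl⟩)
  have hE : Complex.exp z ∈ W := subset_clo (Set.mem_insert_of_mem _ ⟨1, rfl⟩)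
  refine Fin.cases ?_ (fun k => ?_) i
  · exact hx
  · change eval ![z, Complex.log z, Complex.exp z] (Q k) ∈ W
    rw [MvPolynomial.eval_eq]
    refine sum_mem fun s hs => mul_mem (base_clo (hG ?_)) (prod_mem fun j _ => pow_mem ?_ _)
    · refine Set.mem_iUnion.2 ⟨k, ?_⟩
      rw [Finset.mem_coe, MvPolynomial.mem_coeffs_iff]
      exact ⟨s, hs, rfl⟩
    · fin_cases j
      · exact hx
      · exact hL
      · exact hE

end Pool.Agent.R349.Semi
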