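import Mathlib
import Pool.Agent.R349.ExpLog

/-!
# The power towers with entries `x` and `s`
-/

set_option autoImplicit false

open Filter Topology Set MvPolynomial
open scoped PeriodPair

noncomputable section

namespace Pool.Agent.R349.Semi

open Pool.Agent.Y776.Cv
open Pool.Agent.Y776.Fam (IndC)
open Pool.Agent.Y124 (LocInd)
open Pool.Agent.Y685 (clo mem_clo_iff subset_clo base_clo clo_le)

/-- the principal power -/
def pw (a b : ℂ) : ℂ := Complex.exp (b * Complex.log a)

/-- the towers of height two -/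
def e1 (s : ℂ) : Fin 4 → ℂ → ℂ :=
  ![fun x => x * Complex.log s, fun x => s * Complex.log x, fun x => x * Complex.log x,
    fun x => pw s s * Complex.log x]

/-- the towers of height three -/
def e2 (s : ℂ) : Fin 10 → ℂ → ℂ :=
  ![fun x => x * Complex.log s, fun x => s * Complex.log x, fun x => x * Complex.log x,
    fun x => pw s s * Complex.log x, fun x => pw s x * Complex.log s, fun x => pw x s * Complex.log s,
    fun x => pw x x * Complex.log s, fun x => pw s x * Complex.log x, fun x => pw x s * Complex.log x,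
    fun x => pw x x * Complex.log x]

theorem e1_an (s : ℂ) : ∀ i, AnalyticOnNhd ℂ (e1 s i) Complex.slitPlane := by
  intro i z hz
  have hl := log_an z hz
  fin_cases i
  · exact analyticAt_id.mul analyticAt_const
  · exact analyticAt_const.mul hl
  · exact analyticAt_id.mul hl
  · exact analyticAt_const.mul hl

theorem e2_an (s : ℂ) : ∀ i, AnalyticOnNhd ℂ (e2 s i) Complex.slitPlane := by
  intro i z hz
  have hl := log_an z hz
  have h1 : AnalyticAt ℂ (fun x => pw s x) z := (analyticAt_id.mul analyticAt_const).cexp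
  have h2 : AnalyticAt ℂ (fun x => pw x s) z := (analyticAt_const.mul hl).cexp
  have h3 : AnalyticAt ℂ (fun x => pw x x) z := (analyticAt_id.mul hl).cexp
  fin_cases i
  · exact analyticAt_id.mul analyticAt_const
  · exact analyticAt_const.mul hl
  · exact analyticAt_id.mul hl
  · exact analyticAt_const.mul hl
  · exact h1.mul analyticAt_const
  · exact h2.mul analyticAt_const
  · exact h3.mul analyticAt_const
  · exact h1.mul hl
  · exact h2.mul hl
  · exact h3.mul hl

/-- integral relations between `1`, `s`, `s ^ s` are trivial -/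
def Free (s : ℂ) : Prop := ∀ a b c : ℤ, (a : ℂ) + b * s + c * pw s s = 0 → a = 0 ∧ b = 0 ∧ c = 0

theorem ind1 {s : ℂ} (hs : Complex.log s ≠ 0) (hf : Free s) :
    IndC Complex.slitPlane (Fin.cons Complex.log (e1 s) : Fin 5 → ℂ → ℂ) := by
  intro m c hm
  set P : MvPolynomial (Option (Fin 1)) ℂ :=
    C ((m 0 : ℂ) + m 2 * s + m 4 * pw s s) * X (some 0) + C (m 1 * Complex.log s) * X none +
      C (m 3 : ℂ) * (X none * X (some 0)) - C c with hP
  have hP0 : P = 0 := by
    refine locInd_log 1 Complex.one_mem_slitPlane P ?_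
    filter_upwards [Complex.isOpen_slitPlane.mem_nhds Complex.one_mem_slitPlane] with z hz
    have h1 := hm z hz
    rw [Fin.sum_univ_five] at h1
    change (m 0 : ℂ) * Complex.log z + m 1 * (z * Complex.log s) + m 2 * (s * Complex.log z) +
      m 3 * (z * Complex.log z) + m 4 * (pw s s * Complex.log z) = c at h1
    rw [hP]
    simp only [map_sub, map_add, map_mul, eval_C, eval_X, Option.elim_none, Option.elim_some, Fin.cons_zero]
    rw [← h1]
    ring
  have hev : ∀ x L : ℂ, ((m 0 : ℂ) + m 2 * s + m 4 * pw s s) * L + m 1 * Complex.log s * x + m 3 * (x * L) - c = 0 := by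
    intro x L
    have h1 := congrArg (eval (fun o : Option (Fin 1) => o.elim x fun _ => L)) hP0
    rw [hP] at h1
    simpa only [map_sub, map_add, map_mul, eval_C, eval_X, Option.elim_none, Option.elim_some, map_zero] using h1
  have h00 := hev 0 0
  have h10 := hev 1 0
  have h01 := hev 0 1
  have h11 := hev 1 1
  have hc : c = 0 := by linear_combination -h00
  have hm1 : (m 1 : ℂ) * Complex.log s = 0 := by linear_combination h10 - h00
  have hm0 : (m 0 : ℂ) + m 2 * s + m 4 * pw s s = 0 := by linear_combination h01 - h00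
  have hm3 : (m 3 : ℂ) = 0 := by linear_combination h11 - h01 - h10 + h00
  have hm1' : m 1 = 0 := by exact_mod_cast (mul_eq_zero.1 hm1).resolve_right hs
  obtain ⟨k0, k2, k4⟩ := hf _ _ _ hm0
  have hm3' : m 3 = 0 := by exact_mod_cast hm3
  funext i
  fin_cases i
  · exact k0
  · exact hm1'
  · exact k2
  · exact hm3'
  · exact k4

theorem level1 {s : ℂ} (hs : Complex.log s ≠ 0) (hf : Free s) : ∀ t ∈ Complex.slitPlane,
    LocInd (Fin.cons Complex.log (fun i z => Complex.exp (e1 s i z)) : Fin 5 → ℂ → ℂ) t := by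
  refine logexp (e1_an s) (ind1 hs hf) (G := {s, Complex.log s, pw s s}) (by simp) ?_
  intro F hG z hz htr i
  have hx : z ∈ clo F (insert z (Set.range fun k =>
      (Fin.cons Complex.log (fun i z => Complex.exp (e1 s i z)) : Fin 5 → ℂ → ℂ) k z)) :=
    subset_clo (Set.mem_insert _ _)
  have hL : Complex.log z ∈ clo F (insert z (Set.range fun k =>
      (Fin.cons Complex.log (fun i z => Complex.exp (e1 s i z)) : Fin 5 → ℂ → ℂ) k z)) :=
    subset_clo (Set.mem_insert_of_mem _ ⟨0, rfl⟩)
  fin_cases i
  · exact mul_mem hx (base_clo (hG (by simp)))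
  · exact mul_mem (base_clo (hG (by simp))) hL
  · exact mul_mem hx hL
  · exact mul_mem (base_clo (hG (by simp))) hL

theorem ind2 {s : ℂ} (hs : Complex.log s ≠ 0) (hf : Free s) :
    IndC Complex.slitPlane (Fin.cons Complex.log (e2 s) : Fin 11 → ℂ → ℂ) := by
  intro m c hm
  set l := Complex.log s with hl
  -- variables: `some 0` log x, `some 1` s ^ x, `some 2` x ^ s, `some 3` x ^ x, `some 4` x ^ (s ^ s)
  set P : MvPolynomial (Option (Fin 5)) ℂ :=
    C ((m 0 : ℂ) + m 2 * s + m 4 * pw s s) * X (some 0) + C (m 1 * l) * X none +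
      C (m 3 : ℂ) * (X none * X (some 0)) + C (m 5 * l) * X (some 1) + C (m 6 * l) * X (some 2) +
      C (m 7 * l) * X (some 3) + C (m 8 : ℂ) * (X (some 1) * X (some 0)) +
      C (m 9 : ℂ) * (X (some 2) * X (some 0)) + C (m 10 : ℂ) * (X (some 3) * X (some 0)) - C c with hP
  have hP0 : P = 0 := by
    refine level1 hs hf 1 Complex.one_mem_slitPlane P ?_
    filter_upwards [Complex.isOpen_slitPlane.mem_nhds Complex.one_mem_slitPlane] with z hz
    have h1 := hm z hz
    simp only [Fin.sum_univ_succ, Fin.sum_univ_zero] at h1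
    change (m 0 : ℂ) * Complex.log z + (m 1 * (z * l) + (m 2 * (s * Complex.log z) +
      (m 3 * (z * Complex.log z) + (m 4 * (pw s s * Complex.log z) + (m 5 * (pw s z * l) + (m 6 * (pw z s * l) +
      (m 7 * (pw z z * l) + (m 8 * (pw s z * Complex.log z) + (m 9 * (pw z s * Complex.log z) +
      (m 10 * (pw z z * Complex.log z) + 0)))))))))) = c at h1
    have hv : (fun o : Option (Fin 5) => o.elim z fun k =>
        (Fin.cons Complex.log (fun i z => Complex.exp (e1 s i z)) : Fin 5 → ℂ → ℂ) k z) =
        fun o => o.elim z ![Complex.log z, pw s z, pw z s, pw z z, pw z (pw s s)] := by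
      funext o
      rcases o with _ | k
      · rfl
      · fin_cases k <;> rfl
    rw [hv, hP]
    simp only [map_sub, map_add, map_mul, eval_C, eval_X, Option.elim_none, Option.elim_some]
    rw [← h1]
    simp only [Matrix.cons_val_zero, Matrix.cons_val_one, Matrix.cons_val]
    ring
  have hev : ∀ x L S T R : ℂ, ((m 0 : ℂ) + m 2 * s + m 4 * pw s s) * L + m 1 * l * x + m 3 * (x * L) +
      m 5 * l * S + m 6 * l * T + m 7 * l * R + m 8 * (S * L) + m 9 * (T * L) + m 10 * (R * L) - c = 0 := by
    intro x L S T R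
    have h1 := congrArg (eval (fun o : Option (Fin 5) => o.elim x ![L, S, T, R, 0])) hP0
    rw [hP] at h1
    simpa only [map_sub, map_add, map_mul, eval_C, eval_X, Option.elim_none, Option.elim_some, map_zero,
      Matrix.cons_val_zero, Matrix.cons_val_one, Matrix.cons_val] using h1
  have h0 := hev 0 0 0 0 0
  have hx := hev 1 0 0 0 0
  have hL := hev 0 1 0 0 0
  have hS := hev 0 0 1 0 0
  have hT := hev 0 0 0 1 0
  have hR := hev 0 0 0 0 1
  have hxL := hev 1 1 0 0 0
  have hSL := hev 0 1 1 0 0
  have hTL := hev 0 1 0 1 0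
  have hRL := hev 0 1 0 0 1
  have hm0 : (m 0 : ℂ) + m 2 * s + m 4 * pw s s = 0 := by linear_combination hL - h0
  have z1 : (m 1 : ℂ) * l = 0 := by linear_combination hx - h0
  have z3 : (m 3 : ℂ) = 0 := by linear_combination hxL - hx - hL + h0
  have z5 : (m 5 : ℂ) * l = 0 := by linear_combination hS - h0
  have z6 : (m 6 : ℂ) * l = 0 := by linear_combination hT - h0
  have z7 : (m 7 : ℂ) * l = 0 := by linear_combination hR - h0
  have z8 : (m 8 : ℂ) = 0 := by linear_combination hSL - hS - hL + h0
  have z9 : (m 9 : ℂ) = 0 := by linear_combination hTL - hT - hL + h0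
  have z10 : (m 10 : ℂ) = 0 := by linear_combination hRL - hR - hL + h0
  obtain ⟨k0, k2, k4⟩ := hf _ _ _ hm0
  have k1 : m 1 = 0 := by exact_mod_cast (mul_eq_zero.1 z1).resolve_right hs
  have k3 : m 3 = 0 := by exact_mod_cast z3
  have k5 : m 5 = 0 := by exact_mod_cast (mul_eq_zero.1 z5).resolve_right hs
  have k6 : m 6 = 0 := by exact_mod_cast (mul_eq_zero.1 z6).resolve_right hs
  have k7 : m 7 = 0 := by exact_mod_cast (mul_eq_zero.1 z7).resolve_right hs
  have k8 : m 8 = 0 := by exact_mod_cast z8
  have k9 : m 9 = 0 := by exact_mod_cast z9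
  have k10 : m 10 = 0 := by exact_mod_cast z10
  funext i
  fin_cases i
  · exact k0
  · exact k1
  · exact k2
  · exact k3
  · exact k4
  · exact k5
  · exact k6
  · exact k7
  · exact k8
  · exact k9
  · exact k10

theorem level2 {s : ℂ} (hs : Complex.log s ≠ 0) (hf : Free s) : ∀ t ∈ Complex.slitPlane,
    LocInd (Fin.cons Complex.log (fun i z => Complex.exp (e2 s i z)) : Fin 11 → ℂ → ℂ) t := by
  refine logexp (e2_an s) (ind2 hs hf) (G := {s, Complex.log s, pw s s}) (by simp) ?_
  intro F hG z hz htr i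
  set W := clo F (insert z (Set.range fun k =>
      (Fin.cons Complex.log (fun i z => Complex.exp (e2 s i z)) : Fin 11 → ℂ → ℂ) k z)) with hW
  have hx : z ∈ W := subset_clo (Set.mem_insert _ _)
  have hL : Complex.log z ∈ W := subset_clo (Set.mem_insert_of_mem _ ⟨0, rfl⟩)
  have h1 : pw s z ∈ W := subset_clo (Set.mem_insert_of_mem _ ⟨1, rfl⟩)
  have h2 : pw z s ∈ W := subset_clo (Set.mem_insert_of_mem _ ⟨2, rfl⟩)
  have h3 : pw z z ∈ W := subset_clo (Set.mem_insert_of_mem _ ⟨3, rfl⟩)
  have g1 : Complex.log s ∈ W := base_clo (hG (by simp))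
  have g2 : s ∈ W := base_clo (hG (by simp))
  have g3 : pw s s ∈ W := base_clo (hG (by simp))
  fin_cases i
  · exact mul_mem hx g1
  · exact mul_mem g2 hL
  · exact mul_mem hx hL
  · exact mul_mem g3 hL
  · exact mul_mem h1 g1
  · exact mul_mem h2 g1
  · exact mul_mem h3 g1
  · exact mul_mem h1 hL
  · exact mul_mem h2 hL
  · exact mul_mem h3 hL

end Pool.Agent.R349.Semi
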