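import Mathlib
import Pool.Agent.R349.TowersX
import Pool.Agent.H297R2.InBakerThm

/-!
# `1`, `s`, `s ^ s` are linearly independent over `ℚ` for irrational algebraic `s > 0` (Gelfond and Schneider)
-/

set_option autoImplicit false

noncomputable section

namespace Pool.Agent.R349.Semi

theorem log_ne {s : ℝ} (h0 : 0 < s) (hi : Irrational s) : Complex.log (s : ℂ) ≠ 0 := by
  have h1 : s ≠ 1 := by
    rintro rfl
    exact hi ⟨1, by norm_num⟩
  rw [← Complex.ofReal_log h0.le]
  have h2 : Real.log s ≠ 0 := by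
    intro h
    rcases Real.log_eq_zero.1 h with h3 | h3 | h3
    · exact h0.ne' h3
    · exact h1 h3
    · rw [h3] at h0
      norm_num at h0
  exact_mod_cast h2

/-- `s ^ s` is transcendental (Gelfond and Schneider, as a case of Baker's theorem) -/
theorem pow_tr {s : ℝ} (h0 : 0 < s) (hi : Irrational s) (ha : IsAlgebraic ℚ (s : ℂ)) :
    ¬ IsAlgebraic ℚ (pw (s : ℂ) (s : ℂ)) := by
  intro halg
  have hl := log_ne h0 hi
  have hs0 : (s : ℂ) ≠ 0 := by exact_mod_cast h0.ne'
  have hB := Pool.Agent.H297R2.baker_inhom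
    (![Complex.log (s : ℂ), s * Complex.log (s : ℂ)] : Fin 2 → ℂ) (by
      intro i
      fin_cases i
      · change IsAlgebraic ℚ (Complex.exp (Complex.log (s : ℂ)))
        rw [Complex.exp_log hs0]
        exact ha
      · exact halg) (by
      rw [LinearIndependent.pair_iff]
      intro p q hpq
      have h3 : ((p : ℂ) + q * s) * Complex.log (s : ℂ) = 0 := by
        rw [← hpq]
        simp only [Rat.smul_def]
        ring
      have h5 : (p : ℂ) + q * s = 0 := (mul_eq_zero.mp h3).resolve_right hl
      have h6 : (p : ℝ) + q * s = 0 := by exact_mod_cast h5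
      have hq : q = 0 := by
        by_contra hq
        have hq' : (q : ℝ) ≠ 0 := by exact_mod_cast hq
        apply hi
        refine ⟨-p / q, ?_⟩
        push_cast
        field_simp
        linarith
      subst hq
      refine ⟨?_, rfl⟩
      simpa using h6) 0 isAlgebraic_zero
    (![(s : ℂ), -1] : Fin 2 → ℂ) (by
      intro i
      fin_cases i
      · exact ha
      · exact isAlgebraic_one.neg) (by
      rw [Fin.sum_univ_two]
      simp only [Matrix.cons_val_zero, Matrix.cons_val_one]
      ring)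
  have h6 := hB.2 1
  simp at h6

theorem free_of {s : ℝ} (h0 : 0 < s) (hi : Irrational s) (ha : IsAlgebraic ℚ (s : ℂ)) : Free (s : ℂ) := by
  intro a b c h
  have hc : c = 0 := by
    by_contra hc
    have hc' : (c : ℂ) ≠ 0 := by exact_mod_cast hc
    apply pow_tr h0 hi ha
    have h1 : pw (s : ℂ) (s : ℂ) = (-(a : ℂ) - b * s) * (c : ℂ)⁻¹ := by
      rw [eq_mul_inv_iff_mul_eq₀ hc']
      linear_combination h
    rw [h1]
    have hI : ∀ k : ℤ, IsAlgebraic ℚ (k : ℂ) := fun k => isAlgebraic_intCast k
    exact ((hI a).neg.sub ((hI b).mul ha)).mul (hI c).inv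
  subst hc
  have h2 : (a : ℝ) + b * s = 0 := by
    have h3 : (a : ℂ) + b * s = 0 := by
      rw [← h]
      push_cast
      ring
    exact_mod_cast h3
  have hb : b = 0 := by
    by_contra hb
    have hb' : (b : ℝ) ≠ 0 := by exact_mod_cast hb
    apply hi
    refine ⟨-a / b, ?_⟩
    push_cast
    field_simp
    linarith
  subst hb
  refine ⟨?_, rfl, rfl⟩
  have h4 : (a : ℝ) = 0 := by simpa using h2
  exact_mod_cast h4

theorem sqrt_two_alg : IsAlgebraic ℚ ((√2 : ℝ) : ℂ) := by
  refine IsAlgebraic.of_pow (n := 2) (by norm_num) ?_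
  have : (((√2 : ℝ)) : ℂ) ^ 2 = ((2 : ℕ) : ℂ) := by
    rw [← Complex.ofReal_pow, Real.sq_sqrt two_pos.le]
    norm_num
  rw [this]
  exact isAlgebraic_natCast 2

end Pool.Agent.R349.Semi
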