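import Pool.Agent.R349.Shift
import Pool.Agent.Y771.RP.Rel
import Pool.Agent.Y549.GM.Loc

/-!
# Algebraic independence of the functions `Γ(1 + x_j + y_j t)` with different rational slopes `y_j`
-/

set_option autoImplicit false
set_option linter.unusedSectionVars false

open Polynomial

namespace Pool.Agent.R349

theorem gamma_add_nat (w : ℂ) (hw : 0 < w.re) (M : ℕ) :
    Complex.Gamma (w + M) = (∏ k ∈ Finset.range M, (w + k)) * Complex.Gamma w := by
  induction M with
  | zero => simp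
  | succ M ih =>
    have h1 : w + (M : ℂ) ≠ 0 := by
      intro h
      have h2 := congrArg Complex.re h
      simp at h2
      have : (0 : ℝ) ≤ M := Nat.cast_nonneg M
      linarith
    rw [Finset.prod_range_succ, Nat.cast_succ, ← add_assoc, Complex.Gamma_add_one _ h1, ih]
    ring

section
variable {κ : Type} [Fintype κ] (b D : κ → ℕ) (c : κ → ℤ)

/-- the functions -/
noncomputable def gf (j : κ) (t : ℂ) : ℂ := Complex.Gamma (1 + ((c j : ℂ) + b j * t) / D j)

/-- the domain -/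
def Om : Set ℂ := {t : ℂ | ∀ j, 0 < (D j : ℝ) + b j * t.re}

/-- the common denominator -/
def LL : ℕ := ∏ j, D j

/-- the number of the factors -/
def MM (j : κ) : ℕ := (LL D / D j) * b j

/-- the factor of automorphy -/
noncomputable def RR (j : κ) : Polynomial ℂ :=
  ∏ k ∈ Finset.range (MM b D j), (C (1 + (c j : ℂ) / D j + k) + C ((b j : ℂ) / D j) * X)

variable {b D c}

theorem LL_pos (hD : ∀ j, 0 < D j) : 0 < LL D := Finset.prod_pos fun j _ => hD j

theorem MM_eq (hD : ∀ j, 0 < D j) (j : κ) : (LL D : ℂ) * b j / D j = MM b D j := by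
  obtain ⟨k, hk⟩ := Finset.dvd_prod_of_mem D (Finset.mem_univ j)
  have h1 : LL D = D j * k := hk
  have h2 : (D j : ℂ) ≠ 0 := by exact_mod_cast (hD j).ne'
  have h3 : MM b D j = k * b j := by
    rw [MM, h1, Nat.mul_div_cancel_left _ (hD j)]
  rw [h1, h3]
  push_cast
  field_simp

theorem MM_pos (hD : ∀ j, 0 < D j) (hb : ∀ j, 0 < b j) (j : κ) : 0 < MM b D j := by
  refine Nat.mul_pos ?_ (hb j)
  exact Nat.div_pos (Nat.le_of_dvd (LL_pos hD) (Finset.dvd_prod_of_mem D (Finset.mem_univ j))) (hD j)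

theorem RR_eval (j : κ) (t : ℂ) :
    (RR b D c j).eval t = ∏ k ∈ Finset.range (MM b D j), (1 + ((c j : ℂ) + b j * t) / D j + k) := by
  rw [RR, eval_prod]
  refine Finset.prod_congr rfl fun k _ => ?_
  simp only [eval_add, eval_mul, eval_C, eval_X]
  ring

theorem RR_ne_zero (hD : ∀ j, 0 < D j) (hb : ∀ j, 0 < b j) (j : κ) : RR b D c j ≠ 0 := by
  rw [RR, Finset.prod_ne_zero_iff]
  intro k _ h
  have h1 := congrArg (fun p => Polynomial.coeff p 1) h
  simp only [coeff_add, coeff_C_mul, coeff_X_one, mul_one, coeff_zero, coeff_C_of_ne_zero one_ne_zero, zero_add] at h1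
  have h2 : (D j : ℂ) ≠ 0 := by exact_mod_cast (hD j).ne'
  have h3 : (b j : ℂ) ≠ 0 := by exact_mod_cast (hb j).ne'
  exact div_ne_zero h3 h2 h1

theorem re_arg (hD : ∀ j, 0 < D j) (hc : ∀ j, 0 ≤ c j) (j : κ) (t : ℂ) (ht : t ∈ Om b D) :
    0 < (1 + ((c j : ℂ) + b j * t) / D j).re := by
  have h1 := ht j
  have h2 : (0 : ℝ) < D j := by exact_mod_cast hD j
  have h3 : (1 + ((c j : ℂ) + b j * t) / D j).re = 1 + ((c j : ℝ) + b j * t.re) / D j := by
    rw [show ((D j : ℕ) : ℂ) = ((D j : ℝ) : ℂ) by push_cast; rfl, Complex.add_re, Complex.div_ofReal_re]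
    simp
  have h4 : (0 : ℝ) ≤ c j := by exact_mod_cast hc j
  rw [h3]
  have h5 : 1 + ((c j : ℝ) + b j * t.re) / D j = ((D j : ℝ) + b j * t.re + c j) / D j := by
    field_simp
    ring
  rw [h5]
  positivity

theorem Om_shift (t : ℂ) (ht : t ∈ Om b D) : t + (LL D : ℂ) ∈ Om b D := by
  intro j
  have h1 := ht j
  have h2 : (t + (LL D : ℂ)).re = t.re + LL D := by simp
  rw [h2]
  have h3 : (0 : ℝ) ≤ (b j : ℝ) * LL D := by positivity
  nlinarith

theorem gf_shift (hD : ∀ j, 0 < D j) (hc : ∀ j, 0 ≤ c j) (j : κ) (t : ℂ) (ht : t ∈ Om b D) :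
    gf b D c j (t + (LL D : ℂ)) = (RR b D c j).eval t * gf b D c j t := by
  have h1 : (1 : ℂ) + ((c j : ℂ) + b j * (t + LL D)) / D j = (1 + ((c j : ℂ) + b j * t) / D j) + MM b D j := by
    rw [← MM_eq hD j]
    ring
  rw [RR_eval, gf, gf, h1, gamma_add_nat _ (re_arg hD hc j t ht)]

theorem gf_ne_zero (hD : ∀ j, 0 < D j) (hc : ∀ j, 0 ≤ c j) (j : κ) (t : ℂ) (ht : t ∈ Om b D) : gf b D c j t ≠ 0 := by
  refine Complex.Gamma_ne_zero fun k hk => ?_
  have h1 := re_arg hD hc j t ht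
  rw [hk] at h1
  simp at h1
  have : (0 : ℝ) ≤ k := Nat.cast_nonneg k
  linarith

theorem gf_an (hD : ∀ j, 0 < D j) (hc : ∀ j, 0 ≤ c j) (j : κ) (t : ℂ) (ht : t ∈ Om b D) :
    AnalyticAt ℂ (gf b D c j) t := by
  have h1 : AnalyticAt ℂ Complex.Gamma (1 + ((c j : ℂ) + b j * t) / D j) :=
    Pool.Agent.Y771.RP.Gamma_analyticAt fun k hk => by
      have h1 := re_arg hD hc j t ht
      rw [hk] at h1
      simp at h1
      have : (0 : ℝ) ≤ k := Nat.cast_nonneg k
      linarith
  have h2 : AnalyticAt ℂ (fun t : ℂ => 1 + ((c j : ℂ) + b j * t) / D j) t := by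
    simp only [div_eq_mul_inv]
    fun_prop
  exact AnalyticAt.fun_comp (f := fun t : ℂ => 1 + ((c j : ℂ) + b j * t) / D j) h1 h2

theorem zero_mem_Om (hD : ∀ j, 0 < D j) : (0 : ℂ) ∈ Om b D := by
  intro j
  have : (0 : ℝ) < D j := by exact_mod_cast hD j
  simpa using this

theorem Om_convex : Convex ℝ (Om b D) := by
  have h1 : Om b D = ⋂ j, {t : ℂ | 0 < (D j : ℝ) + b j * t.re} := by
    ext t
    simp [Om]
  rw [h1]
  refine convex_iInter fun j => ?_
  intro x hx y hy u v hu hv huv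
  simp only [Set.mem_ofPred_eq, Complex.add_re, Complex.smul_re, smul_eq_mul] at hx hy ⊢
  have h2 : (D j : ℝ) + b j * (u * x.re + v * y.re) = u * ((D j : ℝ) + b j * x.re) + v * ((D j : ℝ) + b j * y.re) := by
    have : v = 1 - u := by linarith
    rw [this]
    ring
  rw [h2]
  rcases hu.eq_or_lt with h | h
  · have hv1 : v = 1 := by linarith
    rw [← h, hv1]
    linarith
  · have h3 := mul_pos h hx
    have h4 := mul_nonneg hv hy.le
    linarith

theorem Om_isOpen : IsOpen (Om b D) := by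
  have h1 : Om b D = ⋂ j, {t : ℂ | 0 < (D j : ℝ) + b j * t.re} := by
    ext t
    simp [Om]
  rw [h1]
  refine isOpen_iInter_of_finite fun j => isOpen_lt continuous_const ?_
  exact continuous_const.add (continuous_const.mul Complex.continuous_re)

/-- the condition on the classes -/
theorem cls_cond (hD : ∀ j, 0 < D j) (hb : ∀ j, 0 < b j) (hinj : ∀ i j, i ≠ j → b i * D j ≠ b j * D i) (s : ℤ)
    (hs : ∀ j, (D j : ℤ) ∣ c j + b j * s) (e e' : κ → ℕ) (hee : e ≠ e') :
    ∃ i w, e i ≠ e' i ∧ cls w (LL D) (RR b D c i) ≠ 0 ∧ ∀ j, j ≠ i → e j ≠ e' j → cls w (LL D) (RR b D c j) = 0 := by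
  classical
  have hne : (Finset.univ.filter fun j => e j ≠ e' j).Nonempty := by
    obtain ⟨j, hj⟩ := Function.ne_iff.1 hee
    exact ⟨j, by simpa using hj⟩
  obtain ⟨i, hi, hmax⟩ := Finset.exists_max_image _ (fun j => (b j : ℚ) / D j) hne
  have hei : e i ≠ e' i := by simpa using hi
  choose n hn using hs
  have hDi : (D i : ℂ) ≠ 0 := by exact_mod_cast (hD i).ne'
  have hbi : (b i : ℂ) ≠ 0 := by exact_mod_cast (hb i).ne'
  have hcn : ∀ j, (c j : ℂ) = D j * n j - b j * s := by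
    intro j
    have := hn j
    have h1 : ((c j + b j * s : ℤ) : ℂ) = ((D j * n j : ℤ) : ℂ) := by exact_mod_cast this
    push_cast at h1
    linear_combination h1
  have harg : ∀ j (k₀ : ℤ), ((c j : ℂ) + b j * (((s : ℂ) - D i / b i) + k₀ * LL D)) / D j =
      n j - (b j * D i) / (D j * b i) + k₀ * MM b D j := by
    intro j k₀
    have hDj : (D j : ℂ) ≠ 0 := by exact_mod_cast (hD j).ne'
    rw [← MM_eq hD j, hcn j]
    field_simp
    ring
  refine ⟨i, (s : ℂ) - D i / b i, hei, ?_, ?_⟩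
  · have hM := MM_pos hD hb i
    have hM' : ((MM b D i : ℕ) : ℤ) ≠ 0 := by exact_mod_cast hM.ne'
    refine (cls_pos _ _ (RR_ne_zero hD hb i) ((-n i) / (MM b D i : ℤ)) ?_).ne'
    rw [RR_eval]
    have h0 := Int.emod_nonneg (-n i) hM'
    have h1 : (-n i) % (MM b D i : ℤ) < MM b D i := Int.emod_lt_of_pos _ (by exact_mod_cast hM)
    obtain ⟨k, hk⟩ := Int.eq_ofNat_of_zero_le h0
    refine Finset.prod_eq_zero (i := k) (Finset.mem_range.2 (by omega)) ?_
    rw [harg i]
    have h2 : (-n i : ℤ) = (MM b D i : ℤ) * ((-n i) / (MM b D i : ℤ)) + k := by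
      rw [← hk]
      exact (Int.mul_ediv_add_emod _ _).symm
    have h3 : ((-n i : ℤ) : ℂ) = (((MM b D i : ℤ) * ((-n i) / (MM b D i : ℤ)) + k : ℤ) : ℂ) := by exact_mod_cast h2
    push_cast at h3
    have h4 : (b i : ℂ) * D i / (D i * b i) = 1 := by field_simp
    rw [h4]
    linear_combination -h3
  · intro j hji hej
    have hjm := hmax j (by simpa using hej)
    have hDj0 : (0 : ℚ) < D j := by exact_mod_cast hD j
    have hDi0 : (0 : ℚ) < D i := by exact_mod_cast hD i
    rw [div_le_div_iff₀ hDj0 hDi0] at hjm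
    have hjm' : b j * D i ≤ b i * D j := by exact_mod_cast hjm
    have hlt : b j * D i < b i * D j := lt_of_le_of_ne hjm' (hinj j i hji)
    refine cls_zero _ _ fun k₀ h0 => ?_
    rw [RR_eval, Finset.prod_eq_zero_iff] at h0
    obtain ⟨k, -, hk⟩ := h0
    rw [harg j] at hk
    have hDj : (D j : ℂ) ≠ 0 := by exact_mod_cast (hD j).ne'
    have h1 : (b j : ℂ) * D i = (D j * b i) * (n j + k₀ * MM b D j + 1 + k) := by
      have h2 : (b j : ℂ) * D i / (D j * b i) = n j + k₀ * MM b D j + 1 + k := by linear_combination -hk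
      rw [div_eq_iff (mul_ne_zero hDj hbi)] at h2
      rw [h2]
      ring
    have h2 : ((b j * D i : ℕ) : ℤ) = ((D j * b i : ℕ) : ℤ) * (n j + k₀ * MM b D j + 1 + k) := by
      have : (((b j * D i : ℕ) : ℤ) : ℂ) = ((((D j * b i : ℕ) : ℤ) * (n j + k₀ * MM b D j + 1 + k) : ℤ) : ℂ) := by
        push_cast
        exact h1
      exact_mod_cast this
    have h3 : ((D j * b i : ℕ) : ℤ) ∣ ((b j * D i : ℕ) : ℤ) := ⟨_, h2⟩
    have h4 : 0 < b j * D i := Nat.mul_pos (hb j) (hD i)
    have h5 := Int.le_of_dvd (by exact_mod_cast h4) h3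
    have h6 : D j * b i ≤ b j * D i := by exact_mod_cast h5
    rw [Nat.mul_comm (D j)] at h6
    omega

/-- local independence of the functions -/
theorem gf_locInd [DecidableEq κ] (hD : ∀ j, 0 < D j) (hb : ∀ j, 0 < b j) (hc : ∀ j, 0 ≤ c j)
    (hinj : ∀ i j, i ≠ j → b i * D j ≠ b j * D i) (s : ℤ) (hs : ∀ j, (D j : ℤ) ∣ c j + b j * s) :
    Pool.Agent.Y124.LocInd (gf b D c) 0 := by
  refine Pool.Agent.Y771.RP.locInd_of (gf b D c) (Om b D) Om_convex.isPreconnected
    (fun j t ht => gf_an hD hc j t ht) ?_ 0 (zero_mem_Om hD)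
  intro P hP
  have h1 := shift_ind (gf b D c) (Om b D) (infinite_of_mem_nhds 0 (Om_isOpen.mem_nhds (zero_mem_Om hD))) (LL D : ℂ)
    (fun t ht => Om_shift t ht) (fun j t ht => gf_ne_zero hD hc j t ht) (RR b D c) (RR_ne_zero hD hb)
    (fun j t ht => gf_shift hD hc j t ht) (fun e e' hee => cls_cond hD hb hinj s hs e e' hee)
    (MvPolynomial.optionEquivRight ℂ κ P) (fun t ht => by
      rw [← Pool.Agent.Y549.GM.eval_option]
      exact hP t ht)
  exact (map_eq_zero_iff _ (MvPolynomial.optionEquivRight ℂ κ).injective).1 h1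

end

end Pool.Agent.R349
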