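import Pool.Agent.R349.Shift2
import Pool.Agent.R349.GamFam

/-!
# Transcendence of the functions `∏ Γ(x_j + y_j t)` for rational `x_j`, `y_j`
-/

set_option autoImplicit false

open Polynomial Filter Topology

namespace Pool.Agent.R349

/-- the polynomial `∏_(k < M) (a + k + b X)` -/
noncomputable def lp (a b : ℂ) (M : ℕ) : Polynomial ℂ := ∏ k ∈ Finset.range M, (C (a + k) + C b * X)

theorem lp_eval (a b : ℂ) (M : ℕ) (t : ℂ) : (lp a b M).eval t = ∏ k ∈ Finset.range M, (a + b * t + k) := by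
  rw [lp, eval_prod]
  refine Finset.prod_congr rfl fun k _ => ?_
  simp only [eval_add, eval_mul, eval_C, eval_X]
  ring

theorem lin_ne (a b : ℂ) (hb : b ≠ 0) : C a + C b * X ≠ 0 := by
  intro h
  have h1 := congrArg (fun p => Polynomial.coeff p 1) h
  simp only [coeff_add, coeff_C_mul, coeff_X_one, mul_one, coeff_zero, coeff_C_of_ne_zero one_ne_zero, zero_add] at h1
  exact hb h1

theorem lp_ne (a b : ℂ) (hb : b ≠ 0) (M : ℕ) : lp a b M ≠ 0 := Finset.prod_ne_zero_iff.2 fun _ _ => lin_ne _ b hb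

theorem cls_prod' (w L : ℂ) {κ : Type} (R : κ → Polynomial ℂ) (s : Finset κ) (hR : ∀ i ∈ s, R i ≠ 0) :
    cls w L (∏ i ∈ s, R i) = ∑ i ∈ s, cls w L (R i) := by
  classical
  induction s using Finset.induction_on with
  | empty => simp [cls_one]
  | insert a s ha ih =>
    have h1 : ∀ i ∈ s, R i ≠ 0 := fun i hi => hR i (Finset.mem_insert_of_mem hi)
    rw [Finset.prod_insert ha, Finset.sum_insert ha, cls_mul w L (hR a (Finset.mem_insert_self a s))
      (Finset.prod_ne_zero_iff.2 h1), ih h1]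

open scoped Classical in
theorem cls_lin (w L a b : ℂ) (hb : b ≠ 0) : cls w L (C a + C b * X) = if ∃ k : ℤ, a + b * (w + k * L) = 0 then 1 else 0 := by
  have h1 : (C a + C b * X : Polynomial ℂ) = C b * X + C a := add_comm _ _
  rw [cls, h1, roots_C_mul_X_add_C a hb]
  have h2 : (∃ k : ℤ, a + b * (w + k * L) = 0) ↔ ∃ k : ℤ, -(b⁻¹ * a) = w + k * L := by
    refine exists_congr fun k => ?_
    constructor
    · intro h
      field_simp
      linear_combination -h
    · intro h
      rw [← h]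
      field_simp
      ring
  by_cases h : ∃ k : ℤ, a + b * (w + k * L) = 0
  · rw [if_pos h, Multiset.countP_eq_card_filter, Multiset.filter_singleton, if_pos (h2.1 h), Multiset.card_singleton]
  · rw [if_neg h, Multiset.countP_eq_card_filter, Multiset.filter_singleton, if_neg (fun h' => h (h2.2 h'))]
    rfl

/-- exactly one of `M` consecutive integers is divisible by `M` -/
theorem sum_dvd (M : ℕ) (hM : 0 < M) (n : ℤ) :
    ∑ k ∈ Finset.range M, (if (M : ℤ) ∣ n + k then 1 else 0) = 1 := by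
  have hM' : (M : ℤ) ≠ 0 := by exact_mod_cast hM.ne'
  have h0 := Int.emod_nonneg (-n) hM'
  have h1 : (-n) % (M : ℤ) < M := Int.emod_lt_of_pos _ (by exact_mod_cast hM)
  obtain ⟨k, hk⟩ := Int.eq_ofNat_of_zero_le h0
  have hkM : k < M := by omega
  have hkd : (M : ℤ) ∣ n + k := by
    have h2 := Int.mul_ediv_add_emod (-n) M
    refine ⟨-((-n) / M), ?_⟩
    rw [hk] at h2
    linear_combination h2
  rw [Finset.sum_eq_single_of_mem k (Finset.mem_range.2 hkM)]
  · rw [if_pos hkd]
  · intro l hl hlk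
    rw [if_neg]
    intro hld
    have h2 : (M : ℤ) ∣ (l : ℤ) - k := by
      have := dvd_sub hld hkd
      have e : n + l - (n + k) = (l : ℤ) - k := by ring
      rwa [e] at this
    have hlM := Finset.mem_range.1 hl
    obtain ⟨c, hc⟩ := h2
    have hc0 : c = 0 := by
      rcases lt_trichotomy c 0 with h | h | h
      · have : (M : ℤ) * c ≤ M * (-1) := mul_le_mul_of_nonneg_left (by omega) (by omega)
        omega
      · exact h
      · have : (M : ℤ) * 1 ≤ M * c := mul_le_mul_of_nonneg_left (by omega) (by omega)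
        omega
    rw [hc0, mul_zero] at hc
    omega

open scoped Classical in
/-- the number of zeros of `lp a b M` in a class modulo `L`, if `b L = ± M` -/
theorem cls_lp (w L a b : ℂ) (hb : b ≠ 0) (M : ℕ) (hM : 0 < M) (hbL : b * L = M ∨ b * L = -M) :
    cls w L (lp a b M) = if ∃ z : ℤ, a + b * w = z then 1 else 0 := by
  rw [lp, cls_prod' w L _ _ fun k _ => lin_ne _ b hb]
  by_cases h : ∃ z : ℤ, a + b * w = z
  · obtain ⟨z, hz⟩ := h
    rw [if_pos ⟨z, hz⟩, ← sum_dvd M hM z]
    refine Finset.sum_congr rfl fun k _ => ?_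
    rw [cls_lin w L _ b hb]
    have hiff : (∃ l : ℤ, a + k + b * (w + l * L) = 0) ↔ (M : ℤ) ∣ z + k := by
      have e : ∀ l : ℤ, a + k + b * (w + l * L) = z + k + l * (b * L) := by
        intro l
        rw [← hz]
        ring
      constructor
      · rintro ⟨l, hl⟩
        rw [e l] at hl
        rcases hbL with h1 | h1
        · rw [h1] at hl
          refine ⟨-l, ?_⟩
          have : ((z + k + l * M : ℤ) : ℂ) = ((0 : ℤ) : ℂ) := by push_cast; exact hl
          have h2 : z + k + l * M = 0 := by exact_mod_cast this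
          linear_combination h2
        · rw [h1] at hl
          refine ⟨l, ?_⟩
          have : ((z + k + l * (-M) : ℤ) : ℂ) = ((0 : ℤ) : ℂ) := by push_cast; exact hl
          have h2 : z + k + l * (-M) = 0 := by exact_mod_cast this
          linear_combination h2
      · rintro ⟨l, hl⟩
        have hl' : (z : ℂ) + k = M * l := by exact_mod_cast hl
        rcases hbL with h1 | h1
        · refine ⟨-l, ?_⟩
          rw [e, h1, hl']
          push_cast
          ring
        · refine ⟨l, ?_⟩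
          rw [e, h1, hl']
          ring
    by_cases h2 : (M : ℤ) ∣ z + k
    · rw [if_pos h2, if_pos (hiff.2 h2)]
    · rw [if_neg h2, if_neg (fun h3 => h2 (hiff.1 h3))]
  · rw [if_neg h]
    refine Finset.sum_eq_zero fun k _ => ?_
    rw [cls_lin w L _ b hb, if_neg]
    rintro ⟨l, hl⟩
    apply h
    rcases hbL with h1 | h1
    · refine ⟨-(k + l * M), ?_⟩
      push_cast
      linear_combination hl - l * h1
    · refine ⟨-(k - l * M), ?_⟩
      push_cast
      linear_combination hl - l * h1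

section
variable {r : ℕ} (x y : Fin r → ℚ)

/-- the function -/
noncomputable def GF (t : ℂ) : ℂ := ∏ j, Complex.Gamma ((x j : ℂ) + y j * t)

/-- the common denominator -/
def Ld : ℕ := ∏ j, (y j).den

theorem Ld_pos : 0 < Ld y := Finset.prod_pos fun j _ => (y j).den_pos

/-- `|y_j| L` -/
def Mj (j : Fin r) : ℕ := (y j).num.natAbs * (Ld y / (y j).den)

theorem Mj_eq (j : Fin r) : (Mj y j : ℚ) = |y j| * Ld y := by
  have h1 : (y j).den ∣ Ld y := Finset.dvd_prod_of_mem (fun j => (y j).den) (Finset.mem_univ j)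
  obtain ⟨k, hk⟩ := h1
  have h2 : Ld y / (y j).den = k := by
    rw [hk, Nat.mul_div_cancel_left _ (y j).den_pos]
  have h3 : (y j) = ((y j).num : ℚ) / (y j).den := (Rat.num_div_den (y j)).symm
  have h4 : ((y j).den : ℚ) ≠ 0 := by exact_mod_cast (y j).den_pos.ne'
  rw [Mj, h2, hk]
  have h5 : |y j| = |((y j).num : ℚ)| / (y j).den := by
    conv_lhs => rw [h3]
    rw [abs_div, Nat.abs_cast]
  rw [h5]
  push_cast
  have h6 : (((y j).num.natAbs : ℕ) : ℚ) = |((y j).num : ℚ)| := by
    rw [Nat.cast_natAbs, Int.cast_abs]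
  rw [h6]
  field_simp

theorem Mj_pos (hy : ∀ j, y j ≠ 0) (j : Fin r) : 0 < Mj y j := by
  have h1 : (0 : ℚ) < Mj y j := by
    rw [Mj_eq]
    have : (0 : ℚ) < Ld y := by exact_mod_cast Ld_pos y
    have := abs_pos.2 (hy j)
    positivity
  exact_mod_cast h1

/-- numerator of the quotient `GF (t + L) / GF t` -/
noncomputable def RN : Polynomial ℂ := ∏ j, if 0 < y j then lp (x j) (y j) (Mj y j) else 1

/-- denominator of the quotient `GF (t + L) / GF t` -/
noncomputable def SN : Polynomial ℂ := ∏ j, if 0 < y j then 1 else lp ((x j : ℂ) - Mj y j) (y j) (Mj y j)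

variable {x y}

theorem RN_ne (hy : ∀ j, y j ≠ 0) : RN x y ≠ 0 := by
  refine Finset.prod_ne_zero_iff.2 fun j _ => ?_
  split_ifs
  · exact lp_ne _ _ (by exact_mod_cast hy j) _
  · exact one_ne_zero

theorem SN_ne (hy : ∀ j, y j ≠ 0) : SN x y ≠ 0 := by
  refine Finset.prod_ne_zero_iff.2 fun j _ => ?_
  split_ifs
  · exact one_ne_zero
  · exact lp_ne _ _ (by exact_mod_cast hy j) _

theorem gamma_add_nat' (w : ℂ) (hw : ∀ k : ℕ, w ≠ -k) (M : ℕ) :
    Complex.Gamma (w + M) = (∏ k ∈ Finset.range M, (w + k)) * Complex.Gamma w := by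
  induction M with
  | zero => simp
  | succ M ih =>
    have h1 : w + (M : ℂ) ≠ 0 := by
      intro h
      exact hw M (by linear_combination h)
    rw [Finset.prod_range_succ, Nat.cast_succ, ← add_assoc, Complex.Gamma_add_one _ h1, ih]
    ring

/-- the difference equation off the real line -/
theorem GF_shift (hy : ∀ j, y j ≠ 0) (t : ℂ) (ht : 0 < t.im) :
    (SN x y).eval t * GF x y (t + Ld y) = (RN x y).eval t * GF x y t := by
  rw [SN, RN, GF, GF, eval_prod, eval_prod, ← Finset.prod_mul_distrib, ← Finset.prod_mul_distrib]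
  refine Finset.prod_congr rfl fun j _ => ?_
  have him : ∀ (c : ℂ) (k : ℕ), c.im = 0 → c + y j * t ≠ -k := by
    intro c k hc h
    have h1 := congrArg Complex.im h
    have h2 : ((y j : ℂ) * t).im = (y j : ℝ) * t.im := by
      rw [Complex.mul_im]
      simp
    rw [Complex.add_im, h2, hc, Complex.neg_im, Complex.natCast_im, zero_add, neg_zero] at h1
    have h3 : (y j : ℝ) ≠ 0 := by exact_mod_cast hy j
    rcases mul_eq_zero.1 h1 with h4 | h4
    · exact h3 h4
    · linarith
  have hM : (Mj y j : ℂ) = ((|y j| * Ld y : ℚ) : ℂ) := by exact_mod_cast congrArg (fun q : ℚ => (q : ℂ)) (Mj_eq y j)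
  by_cases hj : 0 < y j
  · rw [if_pos hj, if_pos hj, eval_one, one_mul, lp_eval]
    rw [abs_of_pos hj] at hM
    push_cast at hM
    have h1 : (x j : ℂ) + y j * (t + Ld y) = (x j + y j * t) + Mj y j := by
      rw [hM]
      ring
    rw [h1, gamma_add_nat' _ (fun k => him (x j) k (by simp))]
  · rw [if_neg hj, if_neg hj, eval_one, one_mul, lp_eval]
    have hj' : y j < 0 := lt_of_le_of_ne (not_lt.1 hj) (hy j)
    rw [abs_of_neg hj'] at hM
    push_cast at hM
    have h1 : (x j : ℂ) + y j * (t + Ld y) = x j - Mj y j + y j * t := by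
      rw [hM]
      ring
    rw [h1]
    have h2 := gamma_add_nat' ((x j : ℂ) - Mj y j + y j * t) (fun k => him _ k (by simp)) (Mj y j)
    rw [← h2]
    congr 1
    ring

open scoped Classical in
theorem cls_RN (hy : ∀ j, y j ≠ 0) (w : ℚ) :
    cls (w : ℂ) (Ld y) (RN x y) = (Finset.univ.filter fun j => 0 < y j ∧ ∃ z : ℤ, x j + y j * w = z).card := by
  rw [RN, cls_prod' _ _ _ _ fun j _ => by
    split_ifs
    · exact lp_ne _ _ (by exact_mod_cast hy j) _
    · exact one_ne_zero]
  rw [Finset.card_filter]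
  refine Finset.sum_congr rfl fun j _ => ?_
  by_cases hj : 0 < y j
  · have hM : (Mj y j : ℂ) = ((|y j| * Ld y : ℚ) : ℂ) := by exact_mod_cast congrArg (fun q : ℚ => (q : ℂ)) (Mj_eq y j)
    rw [abs_of_pos hj] at hM
    push_cast at hM
    rw [if_pos hj, cls_lp _ _ _ _ (by exact_mod_cast hy j) _ (Mj_pos y hy j) (Or.inl hM.symm)]
    have hiff : (∃ z : ℤ, (x j : ℂ) + y j * w = z) ↔ (0 < y j ∧ ∃ z : ℤ, x j + y j * w = z) := by
      constructor
      · rintro ⟨z, hz⟩
        refine ⟨hj, z, ?_⟩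
        exact_mod_cast hz
      · rintro ⟨-, z, hz⟩
        exact ⟨z, by exact_mod_cast congrArg (fun q : ℚ => (q : ℂ)) hz⟩
    by_cases h2 : 0 < y j ∧ ∃ z : ℤ, x j + y j * w = z
    · rw [if_pos h2, if_pos (hiff.2 h2)]
    · rw [if_neg h2, if_neg (fun h3 => h2 (hiff.1 h3))]
  · rw [if_neg hj, cls_one, if_neg (fun h => hj h.1)]

open scoped Classical in
theorem cls_SN (hy : ∀ j, y j ≠ 0) (w : ℚ) :
    cls (w : ℂ) (Ld y) (SN x y) = (Finset.univ.filter fun j => y j < 0 ∧ ∃ z : ℤ, x j + y j * w = z).card := by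
  rw [SN, cls_prod' _ _ _ _ fun j _ => by
    split_ifs
    · exact one_ne_zero
    · exact lp_ne _ _ (by exact_mod_cast hy j) _]
  rw [Finset.card_filter]
  refine Finset.sum_congr rfl fun j _ => ?_
  by_cases hj : 0 < y j
  · rw [if_pos hj, cls_one, if_neg (fun h => absurd hj (not_lt.2 h.1.le))]
  · have hj' : y j < 0 := lt_of_le_of_ne (not_lt.1 hj) (hy j)
    have hM : (Mj y j : ℂ) = ((|y j| * Ld y : ℚ) : ℂ) := by exact_mod_cast congrArg (fun q : ℚ => (q : ℂ)) (Mj_eq y j)
    rw [abs_of_neg hj'] at hM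
    push_cast at hM
    rw [if_neg hj, cls_lp _ _ _ _ (by exact_mod_cast hy j) _ (Mj_pos y hy j) (Or.inr (by rw [hM]; ring))]
    have hiff : (∃ z : ℤ, (x j : ℂ) - Mj y j + y j * w = z) ↔ (y j < 0 ∧ ∃ z : ℤ, x j + y j * w = z) := by
      constructor
      · rintro ⟨z, hz⟩
        refine ⟨hj', z + Mj y j, ?_⟩
        have : ((x j + y j * w : ℚ) : ℂ) = ((z + Mj y j : ℚ) : ℂ) := by
          push_cast
          linear_combination hz
        have h3 : x j + y j * w = z + Mj y j := by exact_mod_cast this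
        rw [h3]
        push_cast
        rfl
      · rintro ⟨-, z, hz⟩
        refine ⟨z - Mj y j, ?_⟩
        have : ((x j + y j * w : ℚ) : ℂ) = ((z : ℚ) : ℂ) := by exact_mod_cast congrArg (fun q : ℚ => (q : ℂ)) hz
        push_cast at this ⊢
        linear_combination this
    by_cases h2 : y j < 0 ∧ ∃ z : ℤ, x j + y j * w = z
    · rw [if_pos h2, if_pos (hiff.2 h2)]
    · rw [if_neg h2, if_neg (fun h3 => h2 (hiff.1 h3))]

theorem GF_an {t : ℂ} (ht : ∀ j, ∀ k : ℕ, (x j : ℂ) + y j * t ≠ -k) : AnalyticAt ℂ (GF x y) t := by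
  have h1 : AnalyticAt ℂ (fun t : ℂ => ∏ j, Complex.Gamma ((x j : ℂ) + y j * t)) t := by
    refine Finset.analyticAt_fun_prod _ fun j _ => ?_
    have h2 : AnalyticAt ℂ Complex.Gamma ((x j : ℂ) + y j * t) := Pool.Agent.Y771.RP.Gamma_analyticAt fun k => ht j k
    have h3 : AnalyticAt ℂ (fun t : ℂ => (x j : ℂ) + y j * t) t := by fun_prop
    exact AnalyticAt.fun_comp (f := fun t : ℂ => (x j : ℂ) + y j * t) h2 h3
  exact h1

theorem GF_ne {t : ℂ} (ht : ∀ j, ∀ k : ℕ, (x j : ℂ) + y j * t ≠ -k) : GF x y t ≠ 0 :=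
  Finset.prod_ne_zero_iff.2 fun j _ => Complex.Gamma_ne_zero fun k => ht j k

theorem arg_im (hy : ∀ j, y j ≠ 0) {t : ℂ} (ht : 0 < t.im) (j : Fin r) (k : ℕ) : (x j : ℂ) + y j * t ≠ -k := by
  intro h
  have h1 := congrArg Complex.im h
  have h2 : ((y j : ℂ) * t).im = (y j : ℝ) * t.im := by
    rw [Complex.mul_im]
    simp
  rw [Complex.add_im, h2, Complex.neg_im, Complex.natCast_im, Complex.ratCast_im, zero_add, neg_zero] at h1
  have h3 : (y j : ℝ) ≠ 0 := by exact_mod_cast hy j
  rcases mul_eq_zero.1 h1 with h4 | h4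
  · exact h3 h4
  · linarith

/-- no poles near the origin -/
theorem near_zero (hx : ∀ j, ∀ k : ℕ, x j ≠ -k) :
    ∃ ρ : ℝ, 0 < ρ ∧ ∀ t : ℂ, ‖t‖ < ρ → ∀ j, ∀ k : ℕ, (x j : ℂ) + y j * t ≠ -k := by
  have h1 : ∀ᶠ t : ℂ in 𝓝 0, ∀ j, ∀ k : ℕ, (x j : ℂ) + y j * t ≠ -k := by
    rw [Filter.eventually_all]
    intro j
    have h2 : Complex.Gamma (x j : ℂ) ≠ 0 := by
      refine Complex.Gamma_ne_zero fun k hk => hx j k ?_
      exact_mod_cast hk
    have h3 : ContinuousAt (fun t : ℂ => (Complex.Gamma ((x j : ℂ) + y j * t))⁻¹) 0 := by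
      have h4 : Continuous fun z : ℂ => (Complex.Gamma z)⁻¹ := Complex.differentiable_one_div_Gamma.continuous
      have h5 : Continuous fun t : ℂ => (x j : ℂ) + y j * t := by fun_prop
      exact (h4.comp h5).continuousAt
    have h4 : (Complex.Gamma ((x j : ℂ) + y j * 0))⁻¹ ≠ 0 := by
      rw [mul_zero, add_zero]
      exact inv_ne_zero h2
    filter_upwards [h3.eventually_ne h4] with t ht k hk
    apply ht
    rw [hk, Complex.Gamma_neg_nat_eq_zero, inv_zero]
  obtain ⟨ρ, hρ, h2⟩ := Metric.eventually_nhds_iff_ball.1 h1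
  refine ⟨ρ, hρ, fun t ht => h2 t ?_⟩
  rw [Metric.mem_ball, dist_zero_right]
  exact ht

/-- the function is transcendental -/
theorem GF_locInd (hy : ∀ j, y j ≠ 0) (hx : ∀ j, ∀ k : ℕ, x j ≠ -k) (w : ℚ)
    (hw : cls (w : ℂ) (Ld y) (RN x y) ≠ cls (w : ℂ) (Ld y) (SN x y)) :
    Pool.Agent.Y124.LocInd (fun (_ : Unit) => GF x y) 0 := by
  obtain ⟨ρ, hρ, hρ'⟩ := near_zero (y := y) hx
  set U : Set ℂ := {t : ℂ | 0 < t.im} with hU
  set Ω : Set ℂ := Metric.ball 0 ρ ∪ U with hΩ
  have hUc : IsPreconnected U := (convex_halfSpace_im_gt 0).isPreconnected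
  have hΩc : IsPreconnected Ω := by
    refine IsPreconnected.union' ?_ (convex_ball 0 ρ).isPreconnected hUc
    refine ⟨((ρ / 2 : ℝ) : ℂ) * Complex.I, ?_, ?_⟩
    · rw [Metric.mem_ball, dist_zero_right, norm_mul, Complex.norm_I, mul_one, Complex.norm_real, Real.norm_eq_abs,
        abs_of_pos (by positivity)]
      linarith
    · change 0 < (((ρ / 2 : ℝ) : ℂ) * Complex.I).im
      simp [hρ]
  have hpt : ∀ t ∈ Ω, ∀ j, ∀ k : ℕ, (x j : ℂ) + y j * t ≠ -k := by
    rintro t (ht | ht) j k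
    · rw [Metric.mem_ball, dist_zero_right] at ht
      exact hρ' t ht j k
    · exact arg_im hy ht j k
  refine Pool.Agent.Y771.RP.locInd_of (fun (_ : Unit) => GF x y) Ω hΩc (fun _ t ht => GF_an (hpt t ht)) ?_ 0
    (Or.inl (Metric.mem_ball_self hρ))
  intro P hP
  have hinf : U.Infinite := by
    refine infinite_of_mem_nhds Complex.I ?_
    refine (isOpen_lt continuous_const Complex.continuous_im).mem_nhds ?_
    simp [Complex.I_im]
  have h1 := shift_ind2 (fun (_ : Unit) => GF x y) U hinf (Ld y : ℂ)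
    (fun t ht => by
      change 0 < (t + (Ld y : ℂ)).im
      rw [Complex.add_im, Complex.natCast_im, add_zero]
      exact ht)
    (fun _ t ht => GF_ne (fun j k => arg_im hy ht j k)) (fun _ => RN x y) (fun _ => SN x y) (fun _ => RN_ne hy)
    (fun _ => SN_ne hy) (fun _ t ht => GF_shift hy t ht)
    (fun e e' hee => ⟨(), (w : ℂ), fun h => hee (funext fun _ => h), hw, fun j hj => absurd (Subsingleton.elim j ()) hj⟩)
    (MvPolynomial.optionEquivRight ℂ Unit P) (fun t ht => by
      rw [← Pool.Agent.Y549.GM.eval_option]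
      exact hP t (Or.inr ht))
  exact (map_eq_zero_iff _ (MvPolynomial.optionEquivRight ℂ Unit).injective).1 h1

end

end Pool.Agent.R349
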