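import Pool.Agent.R349.MVBall3
import Pool.Agent.Y890.MV.Main
import Mathlib

/-!
# Solutions of exponential systems as functions of the parameters: algebraic independence
-/

set_option autoImplicit false

open MvPolynomial Filter Topology
open Pool.Agent.Y890.MV

namespace Pool.Agent.R349.GS

variable {A N σ : Type}

/-- the point `(a, x, exp x)`, where `w = (a, x)` -/
noncomputable def gph (w : A ⊕ N → ℂ) : A ⊕ (N ⊕ N) → ℂ :=
  Sum.elim (fun i => w (Sum.inl i)) (Sum.elim (fun j => w (Sum.inr j)) (fun j => Complex.exp (w (Sum.inr j))))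

/-- the point `(a, x(s))` for `s = (a, b)` -/
def prm (x : N → (A ⊕ N → ℂ) → ℂ) (s : A ⊕ N → ℂ) : A ⊕ N → ℂ :=
  Sum.elim (fun i => s (Sum.inl i)) (fun j => x j s)

/-- `x(s)` solves the system `p i (a, x, exp x) = b i`, where `s = (a, b)` -/
def IsSol (p : N → MvPolynomial (A ⊕ (N ⊕ N)) ℂ) (x : N → (A ⊕ N → ℂ) → ℂ) (s : A ⊕ N → ℂ) : Prop :=
  ∀ i, eval (gph (prm x s)) (p i) = s (Sum.inr i)

/-- the polynomials `a, p, q` in the variables `a, x, y` -/
noncomputable def fam (p : N → MvPolynomial (A ⊕ (N ⊕ N)) ℂ) (q : σ → MvPolynomial (A ⊕ (N ⊕ N)) ℂ) :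
    (A ⊕ N) ⊕ σ → MvPolynomial (A ⊕ (N ⊕ N)) ℂ :=
  Sum.elim (Sum.elim (fun i => X (Sum.inl i)) p) q

theorem eval_fam (p : N → MvPolynomial (A ⊕ (N ⊕ N)) ℂ) (q : σ → MvPolynomial (A ⊕ (N ⊕ N)) ℂ)
    (x : N → (A ⊕ N → ℂ) → ℂ) (s : A ⊕ N → ℂ)
    (h : IsSol p x s) (P : MvPolynomial ((A ⊕ N) ⊕ σ) ℂ) :
    eval (gph (prm x s)) (aeval (fam p q) P) = eval (Sum.elim s (fun j => eval (gph (prm x s)) (q j))) P := by
  have h1 : eval (gph (prm x s)) (aeval (fam p q) P) = eval (fun i => eval (gph (prm x s)) (fam p q i)) P := by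
    rw [aeval_eq_bind₁]
    exact eval₂Hom_bind₁ _ _ _ _
  rw [h1]
  have h2 : (fun i => eval (gph (prm x s)) (fam p q i)) = Sum.elim s (fun j => eval (gph (prm x s)) (q j)) := by
    funext i
    rcases i with (i | i) | i
    · simp [fam, gph, prm]
    · exact h i
    · rfl
  rw [h2]

theorem gph_an [Fintype A] [Fintype N] (w : A ⊕ N → ℂ) (i : A ⊕ (N ⊕ N)) : AnalyticAt ℂ (fun w : A ⊕ N → ℂ => gph w i) w := by
  have h0 : ∀ j, AnalyticAt ℂ (fun w : A ⊕ N → ℂ => w j) w := fun j =>
    (ContinuousLinearMap.proj (R := ℂ) (φ := fun _ : A ⊕ N => ℂ) j).analyticAt w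
  rcases i with i | (i | i)
  · exact h0 _
  · exact h0 _
  · exact (h0 (Sum.inr i)).cexp

theorem eval_an {τ Y : Type} [Fintype Y] {g : τ → (Y → ℂ) → ℂ} {w : Y → ℂ} (hg : ∀ i, AnalyticAt ℂ (g i) w)
    (Q : MvPolynomial τ ℂ) : AnalyticAt ℂ (fun w => eval (fun i => g i w) Q) w := by
  induction Q using MvPolynomial.induction_on with
  | C a => simpa using analyticAt_const
  | add P Q hP hQ =>
    simp only [map_add]
    exact hP.add hQ
  | mul_X P i hP =>
    simp only [map_mul, eval_X]
    exact hP.mul (hg i)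

/-- A polynomial which vanishes at all points `(a, x, exp x)` is zero. -/
theorem zero_of_graph [Fintype A] [Fintype N] (S : MvPolynomial (A ⊕ (N ⊕ N)) ℂ)
    (hS : ∀ w : A ⊕ N → ℂ, eval (gph w) S = 0) : S = 0 := by
  classical
  -- first step: for `y` with nonzero entries, the polynomial vanishes for all `a`, `x`
  have step : ∀ y : N → ℂ, (∀ j, y j ≠ 0) → ∀ w : A ⊕ N → ℂ,
      eval (Sum.elim (fun i => w (Sum.inl i)) (Sum.elim (fun j => w (Sum.inr j)) y)) S = 0 := by
    intro y hy w
    let sub : A ⊕ (N ⊕ N) → MvPolynomial (A ⊕ N) ℂ :=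
      Sum.elim (fun i => X (Sum.inl i)) (Sum.elim (fun j => X (Sum.inr j)) (fun j => C (y j)))
    have hev : ∀ w : A ⊕ N → ℂ, eval w (aeval sub S) =
        eval (Sum.elim (fun i => w (Sum.inl i)) (Sum.elim (fun j => w (Sum.inr j)) y)) S := by
      intro w
      have h1 : eval w (aeval sub S) = eval (fun i => eval w (sub i)) S := by
        rw [aeval_eq_bind₁]
        exact eval₂Hom_bind₁ _ _ _ _
      rw [h1]
      have h2 : (fun i => eval w (sub i)) =
          Sum.elim (fun i => w (Sum.inl i)) (Sum.elim (fun j => w (Sum.inr j)) y) := by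
        funext i
        rcases i with i | (i | i) <;> simp [sub]
      rw [h2]
    have hz : aeval sub S = 0 := by
      refine MvPolynomial.funext_set (fun i : A ⊕ N => Sum.elim (fun _ => (Set.univ : Set ℂ))
        (fun j => {z : ℂ | Complex.exp z = y j}) i) ?_ fun w hw => ?_
      · rintro (i | j)
        · exact Set.infinite_univ
        · refine Set.infinite_of_injective_forall_mem
            (f := fun m : ℤ => Complex.log (y j) + m * (2 * Real.pi * Complex.I)) ?_ ?_
          · intro m m' hm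
            have h3 := mul_right_cancel₀ (by simp [Real.pi_ne_zero]) (add_left_cancel hm)
            exact_mod_cast h3
          · intro m
            change Complex.exp _ = _
            rw [Complex.exp_add, Complex.exp_log (hy j), Complex.exp_int_mul_two_pi_mul_I, mul_one]
      · rw [hev w, map_zero]
        have h4 := hS w
        have h5 : gph w = Sum.elim (fun i => w (Sum.inl i)) (Sum.elim (fun j => w (Sum.inr j)) y) := by
          funext i
          rcases i with i | (i | i)
          · rfl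
          · rfl
          · exact hw (Sum.inr i) (Set.mem_univ _)
        rwa [h5] at h4
    rw [← hev w, hz, map_zero]
  refine MvPolynomial.funext_set (fun i : A ⊕ (N ⊕ N) => Sum.elim (fun _ => (Set.univ : Set ℂ))
    (Sum.elim (fun _ => Set.univ) (fun _ => {z : ℂ | z ≠ 0})) i) ?_ fun v hv => ?_
  · rintro (i | (i | i))
    · exact Set.infinite_univ
    · exact Set.infinite_univ
    · exact (Set.finite_singleton (0 : ℂ)).infinite_compl
  · rw [map_zero]
    have h := step (fun j => v (Sum.inr (Sum.inr j))) (fun j => hv (Sum.inr (Sum.inr j)) (Set.mem_univ _))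
      (Sum.elim (fun i => v (Sum.inl i)) (fun j => v (Sum.inr (Sum.inl j))))
    have h5 : v = Sum.elim (fun i => v (Sum.inl i)) (Sum.elim (fun j => v (Sum.inr (Sum.inl j)))
        (fun j => v (Sum.inr (Sum.inr j)))) := by
      funext i
      rcases i with i | (i | i) <;> rfl
    rw [h5]
    exact h

/-- The polynomials `q` in the solutions of the system and their exponentials are algebraically independent functions
of the parameters. -/
theorem locInd [Fintype A] [Fintype N] (p : N → MvPolynomial (A ⊕ (N ⊕ N)) ℂ)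
    (q : σ → MvPolynomial (A ⊕ (N ⊕ N)) ℂ) (hp : AlgebraicIndependent ℂ (fam p q))
    (x : N → (A ⊕ N → ℂ) → ℂ) (t : A ⊕ N → ℂ) (hx : ∀ j, AnalyticAt ℂ (x j) t) (hs : ∀ᶠ s in 𝓝 t, IsSol p x s) :
    LocIndM (fun j s => eval (gph (prm x s)) (q j)) t := by
  classical
  intro P hP
  -- the map `(a, b) ↦ (a, x)` is open at `t`
  have hF : AnalyticAt ℂ (prm x) t := by
    rw [analyticAt_pi_iff]
    rintro (i | j)
    · exact (ContinuousLinearMap.proj (R := ℂ) (φ := fun _ : A ⊕ N => ℂ) (Sum.inl i)).analyticAt t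
    · exact hx j
  let G : (A ⊕ N → ℂ) → (A ⊕ N → ℂ) := fun w => Sum.elim (fun i => w (Sum.inl i)) (fun i => eval (gph w) (p i))
  have hG : AnalyticAt ℂ G (prm x t) := by
    rw [analyticAt_pi_iff]
    rintro (i | j)
    · exact (ContinuousLinearMap.proj (R := ℂ) (φ := fun _ : A ⊕ N => ℂ) (Sum.inl i)).analyticAt _
    · exact eval_an (fun i => gph_an _ i) (p j)
  have hGF : ∀ᶠ s in 𝓝 t, G (prm x s) = s := by
    filter_upwards [hs] with s h
    funext i
    rcases i with i | i
    · rfl
    · exact h i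
  have hF' := hF.hasStrictFDerivAt
  have hG' := hG.differentiableAt.hasFDerivAt
  have hcomp : (fderiv ℂ G (prm x t)).comp (fderiv ℂ (prm x) t) = ContinuousLinearMap.id ℂ (A ⊕ N → ℂ) := by
    have h1 := hG'.comp t hF'.hasFDerivAt
    have h2 : HasFDerivAt (G ∘ prm x) (ContinuousLinearMap.id ℂ (A ⊕ N → ℂ)) t :=
      (hasFDerivAt_id t).congr_of_eventuallyEq hGF
    exact h1.unique h2
  have hinj : Function.Injective (fderiv ℂ (prm x) t).toLinearMap := by
    intro u v huv
    have h1 : (fderiv ℂ G (prm x t)) ((fderiv ℂ (prm x) t) u) = (fderiv ℂ G (prm x t)) ((fderiv ℂ (prm x) t) v) :=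
      congrArg _ huv
    have h2 : ∀ u, (fderiv ℂ G (prm x t)) ((fderiv ℂ (prm x) t) u) = u := fun u => by
      have := congrArg (fun L : (A ⊕ N → ℂ) →L[ℂ] (A ⊕ N → ℂ) => L u) hcomp
      exact this
    rwa [h2, h2] at h1
  have hsurj : Function.Surjective (fderiv ℂ (prm x) t).toLinearMap := LinearMap.injective_iff_surjective.1 hinj
  have hmap : map (prm x) (𝓝 t) = 𝓝 (prm x t) :=
    hF'.map_nhds_eq_of_surj (LinearMap.range_eq_top.2 hsurj)
  -- the polynomial
  set S := aeval (fam p q) P with hS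
  have h1 : ∀ᶠ s in 𝓝 t, eval (gph (prm x s)) S = 0 := by
    filter_upwards [hs, hP] with s h h'
    rw [hS, eval_fam p q x s h P]
    exact h'
  have h2 : ∀ᶠ w in 𝓝 (prm x t), eval (gph w) S = 0 := by
    rw [← hmap]
    exact h1
  have h3 : ∀ w : A ⊕ N → ℂ, eval (gph w) S = 0 := by
    have han : AnalyticOnNhd ℂ (fun w : A ⊕ N → ℂ => eval (gph w) S) Set.univ := fun w _ =>
      eval_an (fun i => gph_an w i) S
    have h4 := han.eqOn_zero_of_preconnected_of_eventuallyEq_zero isPreconnected_univ (Set.mem_univ (prm x t)) h2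
    exact fun w => h4 (Set.mem_univ w)
  have h5 : S = 0 := zero_of_graph S h3
  exact (algebraicIndependent_iff.1 hp) P (by rw [← hS]; exact h5)

end Pool.Agent.R349.GS
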