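import Pool.Agent.R349.GenSol

/-!
# The regular solutions of exponential systems in small balls
-/

set_option autoImplicit false

open MvPolynomial Filter Topology NumberField
open Pool.Agent.Y890.MV
open Pool.Agent.Y120 (HtLe)
open Pool.Agent.Y124 (Cov RelK)

namespace Pool.Agent.R349.GS

variable {A N σ : Type}

/-- the Jacobian matrix of the functions `x ↦ p i (a, x, exp x)` at the point `w = (a, x)` -/
noncomputable def jac (p : N → MvPolynomial (A ⊕ (N ⊕ N)) ℂ) (w : A ⊕ N → ℂ) : Matrix N N ℂ :=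
  Matrix.of fun i j => eval (gph w) (pderiv (Sum.inr (Sum.inl j)) (p i)) +
    Complex.exp (w (Sum.inr j)) * eval (gph w) (pderiv (Sum.inr (Sum.inr j)) (p i))

/-- the polynomials of degree at most `k` in each variable whose coefficients are `∑ ξ s c s`, where the integers `c s`
of `K` have conjugates at most `T ^ k`, do not take at `v` a value at most `T ^ (-C)` times a nonzero coefficient -/
def Gen (k : ℕ) (K : Type) [Field K] [NumberField K] [Fintype σ] [DecidableEq σ] (io : K →+* ℂ) (ξ : Fin k → ℂ)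
    (T : ℝ) (C : ℕ) (v : σ → ℂ) : Prop :=
  ∀ c : (σ → Fin (k + 1)) → Fin k → 𝓞 K, (∀ l s (φ : K →+* ℂ), ‖φ (c l s : K)‖ ≤ T ^ k) →
    ∀ l₀, ∑ s, ξ s * io (c l₀ s : K) ≠ 0 →
      T ^ (-(C : ℝ)) * ‖∑ s, ξ s * io (c l₀ s : K)‖ <
        ‖∑ l, (∑ s, ξ s * io (c l s : K)) * ∏ j, v j ^ (l j : ℕ)‖

theorem relK_of_not_gen {k : ℕ} {K : Type} [Field K] [NumberField K] [Fintype σ] [DecidableEq σ] {io : K →+* ℂ}
    {ξ : Fin k → ℂ} {T : ℝ}
    {C : ℕ} {v : σ → ℂ} (h : ¬ Gen k K io ξ T C v) :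
    RelK K io ξ (fun l : σ → Fin (k + 1) => ∏ i, v i ^ (l i : ℕ)) (T ^ (k : ℝ)) (T ^ (-(C : ℝ))) := by
  unfold Gen at h
  push Not at h
  obtain ⟨c, h1, l₀, h2, h3⟩ := h
  refine ⟨c, fun l s φ => ?_, l₀, h2, h3⟩
  rw [Real.rpow_natCast]
  exact h1 l s φ

/-- the chain rule for polynomials -/
theorem chain {τ : Type} [Fintype τ] [DecidableEq τ] {g : ℂ → τ → ℂ} {g' : τ → ℂ} {z : ℂ}
    (hg : ∀ i, HasDerivAt (fun z => g z i) (g' i) z) (Q : MvPolynomial τ ℂ) :
    HasDerivAt (fun z => eval (g z) Q) (∑ i, eval (g z) (pderiv i Q) * g' i) z := by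
  induction Q using MvPolynomial.induction_on with
  | C a =>
    simp only [eval_C, pderiv_C, map_zero, zero_mul, Finset.sum_const_zero]
    exact hasDerivAt_const _ _
  | add P Q hP hQ =>
    simp only [map_add, add_mul, Finset.sum_add_distrib]
    exact hP.add hQ
  | mul_X P n hP =>
    have h1 := hP.mul (hg n)
    have h2 : (∑ i, eval (g z) (pderiv i P) * g' i) * g z n + eval (g z) P * g' n =
        ∑ i, eval (g z) (pderiv i (P * X n)) * g' i := by
      have h3 : ∀ i, eval (g z) (pderiv i (P * X n)) * g' i =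
          (eval (g z) (pderiv i P) * g' i) * g z n + (if i = n then eval (g z) P * g' n else 0) := by
        intro i
        rw [pderiv_mul, pderiv_X]
        by_cases hi : i = n
        · subst hi
          simp only [Pi.single_eq_same, map_add, map_mul, eval_X, map_one, if_true]
          ring
        · rw [Pi.single_eq_of_ne (Ne.symm hi)]
          simp only [map_add, map_mul, eval_X, map_zero, if_neg hi]
          ring
      rw [Finset.sum_congr rfl fun i _ => h3 i, Finset.sum_add_distrib, ← Finset.sum_mul, Finset.sum_ite_eq']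
      simp
    rw [← h2]
    simp only [map_mul, eval_X]
    exact h1

/-- the map `(a, x) ↦ (a, p (a, x, exp x))` -/
noncomputable def sys (p : N → MvPolynomial (A ⊕ (N ⊕ N)) ℂ) (w : A ⊕ N → ℂ) : A ⊕ N → ℂ :=
  Sum.elim (fun i => w (Sum.inl i)) (fun i => eval (gph w) (p i))

theorem sys_an [Fintype A] [Fintype N] (p : N → MvPolynomial (A ⊕ (N ⊕ N)) ℂ) (w : A ⊕ N → ℂ) :
    AnalyticAt ℂ (sys p) w := by
  rw [analyticAt_pi_iff]
  rintro (i | j)
  · exact (ContinuousLinearMap.proj (R := ℂ) (φ := fun _ : A ⊕ N => ℂ) (Sum.inl i)).analyticAt _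
  · exact eval_an (fun i => gph_an _ i) (p j)

theorem sys_inj [Fintype A] [Fintype N] [DecidableEq A] [DecidableEq N] (p : N → MvPolynomial (A ⊕ (N ⊕ N)) ℂ)
    (w : A ⊕ N → ℂ) (hw : (jac p w).det ≠ 0) :
    Function.Injective (fderiv ℂ (sys p) w).toLinearMap := by
  rw [injective_iff_map_eq_zero]
  intro v hv
  have hv' : fderiv ℂ (sys p) w v = 0 := hv
  have hF := (sys_an p w).differentiableAt.hasFDerivAt
  have hline : HasDerivAt (fun z : ℂ => w + z • v) v 0 := by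
    have h := ((hasDerivAt_id (0 : ℂ)).smul_const v).const_add w
    simpa using h
  have hcomp : HasDerivAt (fun z : ℂ => sys p (w + z • v)) (fderiv ℂ (sys p) w v) 0 := by
    have h0 : HasFDerivAt (sys p) (fderiv ℂ (sys p) w) (w + (0 : ℂ) • v) := by simpa using hF
    exact h0.comp_hasDerivAt (0 : ℂ) hline
  rw [hv'] at hcomp
  have hco : ∀ i, HasDerivAt (fun z : ℂ => sys p (w + z • v) i) 0 0 := fun i => by
    have h := hasDerivAt_pi.1 hcomp i
    simpa using h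
  have hwi : ∀ i, HasDerivAt (fun z : ℂ => w i + z * v i) (v i) 0 := fun i => by
    have h := ((hasDerivAt_id (0 : ℂ)).mul_const (v i)).const_add (w i)
    simpa using h
  -- the components `a`
  have ha : ∀ i, v (Sum.inl i) = 0 := fun i => (hwi (Sum.inl i)).unique (hco (Sum.inl i))
  -- the components `x`
  have hg : ∀ i, HasDerivAt (fun z : ℂ => gph (w + z • v) i)
      ((Sum.elim (fun i => v (Sum.inl i)) (Sum.elim (fun j => v (Sum.inr j))
        (fun j => Complex.exp (w (Sum.inr j)) * v (Sum.inr j))) : A ⊕ (N ⊕ N) → ℂ) i) 0 := by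
    rintro (i | (i | i))
    · exact hwi _
    · exact hwi _
    · have h := (hwi (Sum.inr i)).cexp
      simp only [zero_mul, add_zero] at h
      exact h
  have hx : (jac p w).mulVec (fun j => v (Sum.inr j)) = 0 := by
    funext i
    have h1 := (chain hg (p i)).unique (hco (Sum.inr i))
    simp only [zero_smul, add_zero, Fintype.sum_sum_type, Sum.elim_inl, Sum.elim_inr] at h1
    rw [Finset.sum_eq_zero (fun j _ => by rw [ha j, mul_zero]), zero_add, ← Finset.sum_add_distrib] at h1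
    rw [Pi.zero_apply, ← h1]
    simp only [Matrix.mulVec, dotProduct, jac, Matrix.of_apply]
    exact Finset.sum_congr rfl fun j _ => by ring
  have hx0 := Matrix.eq_zero_of_mulVec_eq_zero hw hx
  funext i
  rcases i with i | i
  · exact ha i
  · exact congrFun hx0 i

/-- **Local solutions** at a regular zero. -/
theorem local_sol [Fintype A] [Fintype N] [DecidableEq A] [DecidableEq N] (p : N → MvPolynomial (A ⊕ (N ⊕ N)) ℂ)
    (w : A ⊕ N → ℂ) (hw : (jac p w).det ≠ 0) :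
    ∃ x : N → (A ⊕ N → ℂ) → ℂ, (∀ j, ∀ᶠ s in 𝓝 (sys p w), AnalyticAt ℂ (x j) s) ∧
      (∀ᶠ s in 𝓝 (sys p w), IsSol p x s) ∧ ∀ᶠ w' in 𝓝 w, prm x (sys p w') = w' := by
  classical
  have han := sys_an p w
  have hbij : Function.Bijective (fderiv ℂ (sys p) w).toLinearMap :=
    ⟨sys_inj p w hw, LinearMap.injective_iff_surjective.1 (sys_inj p w hw)⟩
  let e : (A ⊕ N → ℂ) ≃L[ℂ] (A ⊕ N → ℂ) :=
    (LinearEquiv.ofBijective (fderiv ℂ (sys p) w).toLinearMap hbij).toContinuousLinearEquiv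
  have he : fderiv ℂ (sys p) w = (e : (A ⊕ N → ℂ) →L[ℂ] (A ⊕ N → ℂ)) := by
    ext u i
    rfl
  have hs : HasStrictFDerivAt (sys p) (e : (A ⊕ N → ℂ) →L[ℂ] (A ⊕ N → ℂ)) w := he ▸ han.hasStrictFDerivAt
  let Φ := hs.toOpenPartialHomeomorph (sys p)
  have hΦ : ∀ w, Φ w = sys p w := fun _ => rfl
  have hsrc : w ∈ Φ.source := hs.mem_toOpenPartialHomeomorph_source
  have hsym : AnalyticAt ℂ Φ.symm (sys p w) := Φ.analyticAt_symm' hsrc han he
  have hright : ∀ᶠ s in 𝓝 (sys p w), sys p (Φ.symm s) = s := Φ.eventually_right_inverse' hsrc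
  have hleft : ∀ᶠ w' in 𝓝 w, Φ.symm (sys p w') = w' := Φ.eventually_left_inverse hsrc
  have hprm : ∀ s, sys p (Φ.symm s) = s → prm (fun j s => Φ.symm s (Sum.inr j)) s = Φ.symm s := by
    intro s h
    funext i
    rcases i with i | i
    · have h1 := congrFun h (Sum.inl i)
      exact h1.symm
    · rfl
  refine ⟨fun j s => Φ.symm s (Sum.inr j), fun j => ?_, ?_, ?_⟩
  · have h1 : AnalyticAt ℂ (fun s => Φ.symm s (Sum.inr j)) (sys p w) := analyticAt_pi_iff.1 hsym (Sum.inr j)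
    exact h1.eventually_analyticAt
  · filter_upwards [hright] with s h i
    have h2 := congrFun h (Sum.inr i)
    rw [hprm s h]
    exact h2
  · have h3 : ∀ᶠ w' in 𝓝 w, sys p (Φ.symm (sys p w')) = sys p w' :=
      (han.continuousAt.eventually hright)
    filter_upwards [hleft, h3] with w' h4 h5
    rw [hprm _ h5, h4]

/-- the regular points of norm at most `k` -/
def Reg [Fintype A] [Fintype N] [DecidableEq N] (p : N → MvPolynomial (A ⊕ (N ⊕ N)) ℂ) (k : ℕ) : Set (A ⊕ N → ℂ) :=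
  {w | ‖w‖ ≤ k ∧ 1 ≤ k * ‖(jac p w).det‖}

theorem reg_compact [Fintype A] [Fintype N] [DecidableEq N] (p : N → MvPolynomial (A ⊕ (N ⊕ N)) ℂ) (k : ℕ) :
    IsCompact (Reg p k) := by
  have h0 : ∀ Q : MvPolynomial (A ⊕ (N ⊕ N)) ℂ, Continuous fun w : A ⊕ N → ℂ => eval (gph w) Q := fun Q =>
    continuous_iff_continuousAt.2 fun w => (eval_an (fun i => gph_an w i) Q).continuousAt
  have h1 : Continuous fun w : A ⊕ N → ℂ => (jac p w).det := by
    refine Continuous.matrix_det ?_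
    refine continuous_matrix fun i j => ?_
    exact (h0 _).add ((Complex.continuous_exp.comp (continuous_apply _)).mul (h0 _))
  have h2 : IsClosed (Reg p k) :=
    (isClosed_le continuous_norm continuous_const).inter (isClosed_le continuous_const (continuous_const.mul h1.norm))
  refine Metric.isCompact_of_isClosed_isBounded h2 ?_
  exact (Metric.isBounded_closedBall (x := (0 : A ⊕ N → ℂ)) (r := k)).subset fun w hw => by
    rw [mem_closedBall_zero_iff]
    exact hw.1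

theorem reg_det [Fintype A] [Fintype N] [DecidableEq N] {p : N → MvPolynomial (A ⊕ (N ⊕ N)) ℂ} {k : ℕ}
    {w : A ⊕ N → ℂ} (h : w ∈ Reg p k) : (jac p w).det ≠ 0 := by
  intro h0
  have := h.2
  rw [h0, norm_zero, mul_zero] at this
  linarith

/-- the parameters `s` of height at most `T` near `t₀` for which the system has a solution in `V` at which the values
of the polynomials `q` are not generic -/
def Exc [Fintype A] [Fintype N] [Fintype σ] [DecidableEq σ] (p : N → MvPolynomial (A ⊕ (N ⊕ N)) ℂ)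
    (q : σ → MvPolynomial (A ⊕ (N ⊕ N)) ℂ) (V : Set (A ⊕ N → ℂ)) (k C : ℕ) (η : ℝ)
    (K : Type) [Field K] [NumberField K] (io : K →+* ℂ) (ξ : Fin k → ℂ) (T : ℝ) (t₀ : A ⊕ N → ℂ) : Set (A ⊕ N → ℂ) :=
  {s | ‖s - t₀‖ ≤ T ^ (-η) ∧ ∃ e : A ⊕ N → K, (∀ j, HtLe K T (e j)) ∧ (s = fun j => io (e j)) ∧
    ∃ w ∈ V, sys p w = s ∧ ¬ Gen k K io ξ T C (fun j => eval (gph w) (q j))}

theorem val_an [Fintype A] [Fintype N] (Q : MvPolynomial (A ⊕ (N ⊕ N)) ℂ) {x : N → (A ⊕ N → ℂ) → ℂ}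
    {t : A ⊕ N → ℂ} (hx : ∀ j, AnalyticAt ℂ (x j) t) : AnalyticAt ℂ (fun s => eval (gph (prm x s)) Q) t := by
  have hF : AnalyticAt ℂ (prm x) t := by
    rw [analyticAt_pi_iff]
    rintro (i | j)
    · exact (ContinuousLinearMap.proj (R := ℂ) (φ := fun _ : A ⊕ N => ℂ) (Sum.inl i)).analyticAt t
    · exact hx j
  have hG : AnalyticAt ℂ (fun w : A ⊕ N → ℂ => eval (gph w) Q) (prm x t) := eval_an (fun i => gph_an _ i) Q
  exact hG.comp hF

theorem exc_local [Fintype A] [Fintype N] [Fintype σ] [DecidableEq A] [DecidableEq N] [DecidableEq σ] [Nonempty N]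
    (p : N → MvPolynomial (A ⊕ (N ⊕ N)) ℂ) (q : σ → MvPolynomial (A ⊕ (N ⊕ N)) ℂ)
    (hp : AlgebraicIndependent ℂ (fam p q)) (k : ℕ) (η : ℝ) (hη : 0 < η)
    (w : A ⊕ N → ℂ) (hw : (jac p w).det ≠ 0) :
    ∃ V ∈ 𝓝 w, ∃ (C : ℕ) (T₀ : ℝ), 2 ≤ T₀ ∧ ∀ (K : Type) [Field K] [NumberField K], Module.finrank ℚ K ≤ k →
      ∀ (io : K →+* ℂ) (ξ : Fin k → ℂ) (T : ℝ), T₀ ≤ T → ∀ t₀ : A ⊕ N → ℂ,
        Cov C C (Exc p q V k C η K io ξ T t₀) := by
  obtain ⟨x, h1, h2, h3⟩ := local_sol p w hw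
  have h4 : ∀ᶠ s in 𝓝 (sys p w), (∀ j, AnalyticAt ℂ (x j) s) ∧ ∀ᶠ s' in 𝓝 s, IsSol p x s' :=
    (eventually_all.2 h1).and h2.eventually_nhds
  obtain ⟨r, hr, hball⟩ := Metric.nhds_basis_closedBall.mem_iff.1 h4
  have hind : ∀ t ∈ Metric.closedBall (sys p w) r, LocIndM (fun j s => eval (gph (prm x s)) (q j)) t := fun t ht =>
    locInd p q hp x t (hball ht).1 (hball ht).2
  obtain ⟨D, C, B, T₀, hT₀, H⟩ := MVB.nfB k (fun j s => eval (gph (prm x s)) (q j))
    (Metric.closedBall (sys p w) r) (isCompact_closedBall _ _)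
    (fun i t ht => val_an (q i) (hball ht).1) hind (Fin k) k (k : ℝ) η hη
  have h5 : ∀ᶠ w' in 𝓝 w, sys p w' ∈ Metric.closedBall (sys p w) r :=
    (sys_an p w).continuousAt.eventually (Metric.closedBall_mem_nhds _ hr)
  obtain ⟨B', hB'⟩ := exists_nat_ge B
  refine ⟨{w' | prm x (sys p w') = w' ∧ sys p w' ∈ Metric.closedBall (sys p w) r}, h3.and h5, D + C + B', T₀, hT₀,
    fun K _ _ hK io ξ T hT t₀ => ?_⟩
  refine (H K hK io ξ T hT t₀).mono (by omega) (by omega) ?_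
  rintro s ⟨hs, e, he, rfl, w', ⟨hw1, hw2⟩, hw3, hgen⟩
  have hT1 : 1 ≤ T := by linarith
  rw [hw3] at hw1 hw2
  refine ⟨hw2, hs, e, he, rfl, ?_⟩
  rw [← hw1] at hgen
  obtain ⟨c, h8, l₀, h9, h10⟩ := relK_of_not_gen hgen
  refine ⟨c, h8, l₀, h9, h10.trans (mul_le_mul_of_nonneg_right ?_ (norm_nonneg _))⟩
  refine Real.rpow_le_rpow_of_exponent_le hT1 (neg_le_neg (hB'.trans ?_))
  push_cast
  have : (0 : ℝ) ≤ D := Nat.cast_nonneg _
  have : (0 : ℝ) ≤ C := Nat.cast_nonneg _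
  linarith

theorem gen_mono {k : ℕ} {K : Type} [Field K] [NumberField K] [Fintype σ] [DecidableEq σ] {io : K →+* ℂ} {ξ : Fin k → ℂ} {T : ℝ}
    (hT : 1 ≤ T) {C C' : ℕ} (hC : C ≤ C') {v : σ → ℂ} (h : Gen k K io ξ T C v) : Gen k K io ξ T C' v := by
  intro c h1 l₀ h2
  refine lt_of_le_of_lt (mul_le_mul_of_nonneg_right ?_ (norm_nonneg _)) (h c h1 l₀ h2)
  exact Real.rpow_le_rpow_of_exponent_le hT (neg_le_neg (by exact_mod_cast hC))

/-- **The regular solutions are generic.** -/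
theorem exc_cov [Fintype A] [Fintype N] [Fintype σ] [DecidableEq A] [DecidableEq N] [DecidableEq σ] [Nonempty N]
    (p : N → MvPolynomial (A ⊕ (N ⊕ N)) ℂ) (q : σ → MvPolynomial (A ⊕ (N ⊕ N)) ℂ)
    (hp : AlgebraicIndependent ℂ (fam p q)) (k : ℕ) (η : ℝ) (hη : 0 < η) :
    ∃ (C : ℕ) (T₀ : ℝ), ∀ (K : Type) [Field K] [NumberField K], Module.finrank ℚ K ≤ k →
      ∀ (io : K →+* ℂ) (ξ : Fin k → ℂ) (T : ℝ), T₀ ≤ T → ∀ t₀ : A ⊕ N → ℂ,
        Cov C C (Exc p q (Reg p k) k C η K io ξ T t₀) := by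
  classical
  have hloc : ∀ w : A ⊕ N → ℂ, ∃ V ∈ 𝓝 w, w ∈ Reg p k → ∃ (C : ℕ) (T₀ : ℝ), 2 ≤ T₀ ∧
      ∀ (K : Type) [Field K] [NumberField K], Module.finrank ℚ K ≤ k →
      ∀ (io : K →+* ℂ) (ξ : Fin k → ℂ) (T : ℝ), T₀ ≤ T → ∀ t₀ : A ⊕ N → ℂ,
        Cov C C (Exc p q V k C η K io ξ T t₀) := by
    intro w
    by_cases hw : w ∈ Reg p k
    · obtain ⟨V, hV, H⟩ := exc_local p q hp k η hη w (reg_det hw)
      exact ⟨V, hV, fun _ => H⟩
    · exact ⟨Set.univ, univ_mem, fun h => absurd h hw⟩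
  choose V hV H using hloc
  choose! C T₀ hT₀ H using H
  obtain ⟨J, hJ, hcov⟩ := (reg_compact p k).elim_nhds_subcover V fun w _ => hV w
  have hC : ∀ w ∈ J, C w ≤ ∑ w ∈ J, C w := fun w hw => Finset.single_le_sum (f := C) (fun _ _ => Nat.zero_le _) hw
  refine ⟨∑ w ∈ J, C w + J.card * ∑ w ∈ J, C w, 2 + ∑ w ∈ J, |T₀ w|, fun K _ _ hK io ξ T hT t₀ => ?_⟩
  have h0 : 0 ≤ ∑ w ∈ J, |T₀ w| := Finset.sum_nonneg fun _ _ => abs_nonneg _
  have hTw : ∀ w ∈ J, T₀ w ≤ T := fun w hw => by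
    have := Finset.single_le_sum (f := fun w => |T₀ w|) (fun _ _ => abs_nonneg _) hw
    linarith [le_abs_self (T₀ w)]
  have hb := Cov.biUnion (k := ℂ) J (fun w => Exc p q (V w) k (C w) η K io ξ T t₀) (D := ∑ w ∈ J, C w)
    (m := ∑ w ∈ J, C w) fun w hw =>
      (H w (hJ w hw) K hK io ξ T (hTw w hw) t₀).mono (hC w hw) (hC w hw) (Set.Subset.refl _)
  refine hb.mono (by omega) (by omega) ?_
  rintro s ⟨hs, e, he, rfl, w', hw', hw3, hgen⟩
  obtain ⟨w, hw, hVw⟩ := Set.mem_iUnion₂.1 (hcov hw')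
  refine Set.mem_iUnion₂.2 ⟨w, hw, hs, e, he, rfl, w', hVw, hw3, fun hg => hgen (gen_mono (by linarith) ?_ hg)⟩
  exact (hC w hw).trans (by omega)

end Pool.Agent.R349.GS
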