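import Pool.Agent.R349.GenSol2

/-!
# Coordinates which are independent over the parameters
-/

set_option autoImplicit false

open MvPolynomial

namespace Pool.Agent.R349.GS

variable {A N : Type}

/-- If `a, p` are algebraically independent, then so are `a, p` and the coordinates in a set `J` of `n` of the `2 n`
coordinates `x, y`. -/
theorem exists_coords [Fintype A] [Fintype N] [DecidableEq A] [DecidableEq N]
    (p : N → MvPolynomial (A ⊕ (N ⊕ N)) ℂ)
    (hp : AlgebraicIndependent ℂ (Sum.elim (fun i : A => (X (Sum.inl i) : MvPolynomial (A ⊕ (N ⊕ N)) ℂ)) p)) :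
    ∃ J : Finset (N ⊕ N), J.card = Fintype.card N ∧
      AlgebraicIndependent ℂ (fam p (fun j : J => X (Sum.inr (j : N ⊕ N)))) := by
  classical
  set g : A ⊕ N → MvPolynomial (A ⊕ (N ⊕ N)) ℂ := Sum.elim (fun i => X (Sum.inl i)) p with hg
  have hs : AlgebraicIndepOn ℂ id (Set.range g) := hp.to_subtype_range
  set t : Set (MvPolynomial (A ⊕ (N ⊕ N)) ℂ) := Set.range g ∪ Set.range (fun j : N ⊕ N => X (Sum.inr j)) with ht
  have htop : ∀ a : MvPolynomial (A ⊕ (N ⊕ N)) ℂ, a ∈ Algebra.adjoin ℂ t := by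
    intro a
    have h1 : Algebra.adjoin ℂ (Set.range (X : A ⊕ (N ⊕ N) → MvPolynomial (A ⊕ (N ⊕ N)) ℂ)) ≤ Algebra.adjoin ℂ t := by
      refine Algebra.adjoin_mono ?_
      rintro _ ⟨i | j, rfl⟩
      · exact Or.inl ⟨Sum.inl i, rfl⟩
      · exact Or.inr ⟨j, rfl⟩
    rw [MvPolynomial.adjoin_range_X] at h1
    exact h1 Algebra.mem_top
  have : Algebra.IsAlgebraic (Algebra.adjoin ℂ t) (MvPolynomial (A ⊕ (N ⊕ N)) ℂ) :=
    ⟨fun a => isAlgebraic_algebraMap (⟨a, htop a⟩ : Algebra.adjoin ℂ t)⟩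
  obtain ⟨u, hsu, hut, hu⟩ := exists_isTranscendenceBasis_between (R := ℂ) (Set.range g) t Set.subset_union_left hs
  let J : Finset (N ⊕ N) := Finset.univ.filter fun j =>
    (X (Sum.inr j) : MvPolynomial (A ⊕ (N ⊕ N)) ℂ) ∈ u ∧ (X (Sum.inr j) : MvPolynomial (A ⊕ (N ⊕ N)) ℂ) ∉ Set.range g
  have hJ : ∀ j : J, (X (Sum.inr (j : N ⊕ N)) : MvPolynomial (A ⊕ (N ⊕ N)) ℂ) ∈ u ∧
      (X (Sum.inr (j : N ⊕ N)) : MvPolynomial (A ⊕ (N ⊕ N)) ℂ) ∉ Set.range g := fun j =>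
    (Finset.mem_filter.1 j.2).2
  let e : (A ⊕ N) ⊕ J → u := Sum.elim (fun i => ⟨g i, hsu ⟨i, rfl⟩⟩) (fun j => ⟨X (Sum.inr (j : N ⊕ N)), (hJ j).1⟩)
  have hinj : Function.Injective e := by
    rintro (i | j) (i' | j') h
    · exact congrArg Sum.inl (hp.injective (congrArg Subtype.val h))
    · exact absurd ⟨i, congrArg Subtype.val h⟩ (hJ j').2
    · exact absurd ⟨i', (congrArg Subtype.val h).symm⟩ (hJ j).2
    · have h1 : (X (Sum.inr (j : N ⊕ N)) : MvPolynomial (A ⊕ (N ⊕ N)) ℂ) = X (Sum.inr (j' : N ⊕ N)) :=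
        congrArg Subtype.val h
      have h2 := Sum.inr_injective (MvPolynomial.X_injective h1)
      exact congrArg Sum.inr (Subtype.ext h2)
  have hsurj : Function.Surjective e := by
    rintro ⟨v, hv⟩
    by_cases hvg : v ∈ Set.range g
    · obtain ⟨i, rfl⟩ := hvg
      exact ⟨Sum.inl i, rfl⟩
    · rcases hut hv with h | ⟨j, rfl⟩
      · exact absurd h hvg
      · exact ⟨Sum.inr ⟨j, Finset.mem_filter.2 ⟨Finset.mem_univ _, hv, hvg⟩⟩, rfl⟩
  have hcard : Fintype.card ((A ⊕ N) ⊕ J) = Fintype.card (A ⊕ (N ⊕ N)) := by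
    have h1 := Cardinal.mk_congr (Equiv.ofBijective e ⟨hinj, hsurj⟩)
    have h2 := hu.cardinalMk_eq (IsTranscendenceBasis.mvPolynomial (A ⊕ (N ⊕ N)) ℂ)
    rw [h2, Cardinal.mk_fintype, Cardinal.mk_fintype] at h1
    exact_mod_cast h1
  refine ⟨J, ?_, ?_⟩
  · simp only [Fintype.card_sum, Fintype.card_coe] at hcard
    omega
  · have h1 := hu.1.comp e hinj
    have h2 : (fam p (fun j : J => X (Sum.inr (j : N ⊕ N)))) = (fun i : u => (i : MvPolynomial (A ⊕ (N ⊕ N)) ℂ)) ∘ e := by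
      funext i
      rcases i with (i | i) | i <;> rfl
    rw [h2]
    exact h1

end Pool.Agent.R349.GS
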