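import Pool.Agent.R349.PerConst

/-!
# Linear relations between the periods of one form and given numbers: homomorphisms to a fixed abelian variety
-/

set_option autoImplicit false
set_option linter.unusedSectionVars false

open Filter Matrix NumberField

namespace Pool.Agent.R349.Iso

open Pool.Agent Pool.Agent.Y890.MV Pool.Agent.Y890.SM Pool.Agent.R349.PC
open Pool.Agent.Y124 (Cov)

variable {X : Type} [Fintype X] [DecidableEq X] {ι : Type} [Fintype ι] [DecidableEq ι] {n : ι → ℕ}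

/-- The periods of each form, over `K`-combinations, modulo the `K`-span of the numbers `v`: for all integers `m a`, `α b`
of `K` with conjugates at most `T ^ k`, if `∑ m a P i(x) a j = ∑ v b α b` then all `m a` vanish. -/
def Indep (F : SympFam X n) (k : ℕ) (K : Type) [Field K] [NumberField K] (io : K →+* ℂ) (T : ℝ) (v : Fin k → ℂ)
    (x : X → ℂ) : Prop :=
  ∀ (i : ι) (j : Fin (n i)) (m : Fin (n i) → 𝓞 K) (α : Fin k → 𝓞 K), (∀ a, Bd k T (m a)) → (∀ b, Bd k T (α b)) →
    ∑ a, io (m a : K) * F.P i x a j = ∑ b, v b * io (α b : K) → m = 0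

/-- a transvection -/
theorem transvection {N : ℕ} (J : Matrix (Fin N) (Fin N) ℂ) (hJ : J.det ≠ 0) (hJa : J.transpose = -J)
    (u : Fin N → ℂ) : (1 + vecMulVec u u * J⁻¹) * J * (1 + vecMulVec u u * J⁻¹).transpose = J := by
  have hu : IsUnit J.det := isUnit_iff_ne_zero.2 hJ
  have h1 : J⁻¹ * J = 1 := Matrix.nonsing_inv_mul J hu
  have h2 : J * J⁻¹ = 1 := Matrix.mul_nonsing_inv J hu
  have h3 : (J⁻¹).transpose = -J⁻¹ := by
    rw [Matrix.transpose_nonsing_inv, hJa]
    have h4 : (-J) * (-J⁻¹) = 1 := by rw [Matrix.neg_mul, Matrix.mul_neg, neg_neg, h2]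
    exact Matrix.inv_eq_right_inv h4
  have h5 : (vecMulVec u u).transpose = vecMulVec u u := by
    ext a b
    simp [vecMulVec_apply, mul_comm]
  have h6 : vecMulVec u u * J⁻¹ * vecMulVec u u = 0 := by
    have h7 : (vecMulVec u u * J⁻¹ * vecMulVec u u).transpose = -(vecMulVec u u * J⁻¹ * vecMulVec u u) := by
      rw [Matrix.transpose_mul, Matrix.transpose_mul, h5, h3, Matrix.neg_mul, Matrix.mul_neg, Matrix.mul_assoc]
    have h8 : (vecMulVec u u * J⁻¹ * vecMulVec u u).transpose = vecMulVec u u * J⁻¹ * vecMulVec u u := by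
      ext a b
      rw [Matrix.transpose_apply]
      simp only [Matrix.mul_apply, vecMulVec_apply]
      have h9 : ∀ a b : Fin N, ∑ x, (∑ y, u a * u y * J⁻¹ y x) * (u x * u b) =
          u a * u b * ∑ x, ∑ y, u y * J⁻¹ y x * u x := by
        intro a b
        rw [Finset.mul_sum]
        refine Finset.sum_congr rfl fun x _ => ?_
        rw [Finset.sum_mul, Finset.mul_sum]
        exact Finset.sum_congr rfl fun y _ => by ring
      rw [h9, h9, mul_comm (u b)]
    rw [h8] at h7
    ext a b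
    have h10 := congrFun (congrFun h7 a) b
    rw [Matrix.neg_apply] at h10
    rw [Matrix.zero_apply]
    linear_combination h10 / 2
  have e1 : (1 + vecMulVec u u * J⁻¹) * J = J + vecMulVec u u := by
    rw [Matrix.add_mul, Matrix.one_mul, Matrix.mul_assoc, h1, Matrix.mul_one]
  have e2 : (1 + vecMulVec u u * J⁻¹).transpose = 1 - J⁻¹ * vecMulVec u u := by
    rw [Matrix.transpose_add, Matrix.transpose_one, Matrix.transpose_mul, h5, h3, Matrix.neg_mul, sub_eq_add_neg]
  rw [e1, e2, Matrix.mul_sub, Matrix.mul_one, Matrix.add_mul, ← Matrix.mul_assoc J, h2, Matrix.one_mul,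
    ← Matrix.mul_assoc, h6, add_zero, add_sub_cancel_right]

/-- A linear form in a column which is constant on the torsor is zero. -/
theorem lin_zero (F : SympFam X n) {x : X → ℂ} (hx : x ∈ F.U) (i : ι) (j : Fin (n i)) (m : Fin (n i) → ℂ) (c : ℂ)
    (h : ∀ Y, (Y, tpi) ∈ F.torsor x → ∑ a, m a * Y i a j = c) : m = 0 := by
  classical
  have hP : ((fun i => F.P i x), tpi) ∈ F.torsor x := F.mem hx
  set P := F.P i x with hPdef
  set J := F.Jx i with hJdef
  set w : Fin (n i) → ℂ := fun b => (J⁻¹ * P) b j with hw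
  have hJ : J.det ≠ 0 := F.Jx_det i
  -- the relation of the transvections
  have key : ∀ u : Fin (n i) → ℂ, (∑ a, m a * u a) * (∑ b, u b * w b) = 0 := by
    intro u
    set γ : Matrix (Fin (n i)) (Fin (n i)) ℂ := 1 + vecMulVec u u * J⁻¹ with hγ
    have hγJ : γ * J * γ.transpose = J := transvection J hJ (F.Jx_alt i) u
    set Y : ∀ i, Matrix (Fin (n i)) (Fin (n i)) ℂ := Function.update (fun i => F.P i x) i (γ * P) with hY
    have hYt : (Y, tpi) ∈ F.torsor x := by
      refine ⟨hP.1, fun i' => ?_⟩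
      by_cases hi : i' = i
      · subst hi
        have h1 : Y i' = γ * P := by rw [hY, Function.update_self]
        have h2 := hP.2 i'
        show Y i' * _ * (Y i').transpose = _
        rw [h1, Matrix.transpose_mul]
        have h3 : P * (F.Q i').map (MvPolynomial.aeval x) * P.transpose =
            tpi ^ F.w i' • (F.J i').map (algebraMap ℚ ℂ) := h2
        calc γ * P * (F.Q i').map (MvPolynomial.aeval x) * (P.transpose * γ.transpose)
            = γ * (P * (F.Q i').map (MvPolynomial.aeval x) * P.transpose) * γ.transpose := by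
              simp only [Matrix.mul_assoc]
          _ = tpi ^ F.w i' • (γ * J * γ.transpose) := by
              rw [h3, Matrix.mul_smul, Matrix.smul_mul]
              rfl
          _ = tpi ^ F.w i' • (F.J i').map (algebraMap ℚ ℂ) := by
              rw [hγJ]
              rfl
      · have h1 : Y i' = F.P i' x := by rw [hY, Function.update_of_ne hi]
        show Y i' * _ * (Y i').transpose = _
        rw [h1]
        exact hP.2 i'
    have h1 := h Y hYt
    have h2 := h _ hP
    have h3 : Y i = γ * P := by rw [hY, Function.update_self]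
    have h4 : ∀ a, (γ * P) a j = P a j + u a * ∑ b, u b * w b := by
      intro a
      rw [hγ, Matrix.add_mul, Matrix.one_mul, Matrix.add_apply, Matrix.mul_assoc, Matrix.mul_apply]
      congr 1
      rw [Finset.mul_sum]
      refine Finset.sum_congr rfl fun b _ => ?_
      rw [vecMulVec_apply, hw, mul_assoc]
    rw [h3, Finset.sum_congr rfl fun a _ => by rw [h4 a, mul_add, ← mul_assoc], Finset.sum_add_distrib,
      ← Finset.sum_mul] at h1
    have h5 : ∑ a, m a * P a j = c := h2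
    rw [h5] at h1
    exact add_eq_left.1 h1
  -- `w ≠ 0`
  have hw0 : w ≠ 0 := by
    intro h0
    have h1 : ∀ a, P a j = 0 := by
      intro a
      have h2 : J * (J⁻¹ * P) = P := by
        rw [← Matrix.mul_assoc, Matrix.mul_nonsing_inv J (isUnit_iff_ne_zero.2 hJ), Matrix.one_mul]
      rw [← h2, Matrix.mul_apply]
      refine Finset.sum_eq_zero fun b _ => ?_
      rw [show (J⁻¹ * P) b j = w b from rfl, h0, Pi.zero_apply, mul_zero]
    have h2 : P.det = 0 := Matrix.det_eq_zero_of_column_eq_zero j h1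
    have h3 := congrArg Matrix.det (F.riemann x hx i)
    rw [Matrix.det_mul, Matrix.det_mul, ← hPdef, h2, zero_mul, zero_mul, Matrix.det_smul] at h3
    exact mul_ne_zero (pow_ne_zero _ (pow_ne_zero _ tpi_ne)) hJ h3.symm
  obtain ⟨b, hb⟩ := Function.ne_iff.1 hw0
  rw [Pi.zero_apply] at hb
  by_contra hm
  obtain ⟨a, ha⟩ := Function.ne_iff.1 hm
  rw [Pi.zero_apply] at ha
  have s1 : ∀ (g : Fin (n i) → ℂ) (a : Fin (n i)), ∑ x, g x * (Pi.single a (1 : ℂ) : Fin (n i) → ℂ) x = g a := by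
    intro g a
    rw [Finset.sum_eq_single a]
    · rw [Pi.single_eq_same, mul_one]
    · intro b _ hb
      rw [Pi.single_eq_of_ne hb, mul_zero]
    · intro h; exact absurd (Finset.mem_univ _) h
  have s2 : ∀ (g : Fin (n i) → ℂ) (a : Fin (n i)), ∑ x, (Pi.single a (1 : ℂ) : Fin (n i) → ℂ) x * g x = g a := by
    intro g a
    rw [Finset.sum_congr rfl fun x _ => mul_comm _ _, s1]
  have k1 := key (Pi.single a 1)
  rw [s1, s2] at k1
  have k2 := key (Pi.single b 1)
  rw [s1, s2] at k2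
  have k3 := key (Pi.single a 1 + Pi.single b 1)
  simp only [Pi.add_apply, mul_add, add_mul, Finset.sum_add_distrib, s1, s2] at k3
  have h1 : w a = 0 := (mul_eq_zero.1 k1).resolve_left ha
  have h2 : m b = 0 := (mul_eq_zero.1 k2).resolve_right hb
  rw [h1, h2] at k3
  simp only [add_zero, zero_add, mul_zero, zero_mul] at k3
  exact mul_ne_zero ha hb k3

theorem rel {k : ℕ} {K : Type} [Field K] [NumberField K] (io : K →+* ℂ) (v : Fin k → ℂ) (i : ι) (j : Fin (n i))
    (m : Fin (n i) → 𝓞 K) (α : Fin k → 𝓞 K) {T : ℝ} (hT : 1 + (∑ i, (n i : ℝ)) ≤ T) (hm : ∀ a, Bd k T (m a))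
    (hα : ∀ b, Bd k T (α b)) :
    ∃ c : (Ix n → Fin (k + 1 + 1)) → Fin (k + 1) → 𝓞 K, (∀ l a (φ : K →+* ℂ), ‖φ (c l a : K)‖ ≤ T ^ (k + 1)) ∧
      ∀ Y, poly (fun l a => io (c l a : K)) (Fin.cons 1 v : Fin (k + 1) → ℂ) Y =
        ∑ a, io (m a : K) * Y i a j - ∑ b, v b * io (α b : K) := by
  classical
  set s : Option (Fin (n i)) → (Ix n → Fin (k + 1 + 1)) := fun o => o.elim (fun _ => 0)
    (fun a => Pi.single (⟨i, (a, j)⟩ : Ix n) 1) with hs
  set d : Option (Fin (n i)) → Fin (k + 1) → 𝓞 K := fun o => o.elim (Fin.cons 0 (fun b => - α b))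
    (fun a => Fin.cons (m a) (fun _ => 0)) with hd
  have hS : (n i : ℝ) ≤ ∑ i, (n i : ℝ) :=
    Finset.single_le_sum (f := fun i => (n i : ℝ)) (fun _ _ => Nat.cast_nonneg _) (Finset.mem_univ i)
  have hn0 : (0 : ℝ) ≤ n i := Nat.cast_nonneg _
  have hT0 : 0 ≤ T := by linarith
  refine ⟨fun l a => ∑ o, if s o = l then d o a else 0, fun l a φ => ?_, fun Y => ?_⟩
  · refine (reidx_bd s d (pow_nonneg hT0 k) ?_ l a φ).trans ?_
    · rintro (_ | o) a φ
      · refine Fin.cases ?_ (fun b => ?_) a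
        · show ‖φ ((0 : 𝓞 K) : K)‖ ≤ _
          simpa using pow_nonneg hT0 k
        · show ‖φ ((- α b : 𝓞 K) : K)‖ ≤ _
          have : ((- α b : 𝓞 K) : K) = - (α b : K) := rfl
          rw [this, map_neg, norm_neg]
          exact hα b φ
      · refine Fin.cases ?_ (fun b => ?_) a
        · exact hm o φ
        · show ‖φ ((0 : 𝓞 K) : K)‖ ≤ _
          simpa using pow_nonneg hT0 k
    · rw [pow_succ']
      refine mul_le_mul_of_nonneg_right ?_ (pow_nonneg hT0 k)
      rw [Fintype.card_option, Fintype.card_fin]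
      push_cast
      linarith
  · rw [reidx, Fintype.sum_option]
    have e1 : (∑ a : Fin (k + 1), (Fin.cons 1 v : Fin (k + 1) → ℂ) a * io (d none a : K)) =
        - ∑ b, v b * io (α b : K) := by
      rw [Fin.sum_univ_succ, ← Finset.sum_neg_distrib]
      have e0 : (Fin.cons 1 v : Fin (k + 1) → ℂ) 0 * io (d none 0 : K) = 0 := by
        show (1 : ℂ) * io ((0 : 𝓞 K) : K) = 0
        simp
      rw [e0, zero_add]
      refine Finset.sum_congr rfl fun b _ => ?_
      show v b * io ((- α b : 𝓞 K) : K) = _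
      have : ((- α b : 𝓞 K) : K) = - (α b : K) := rfl
      rw [this, map_neg, mul_neg]
    have e2 : ∀ o : Fin (n i), (∑ a : Fin (k + 1), (Fin.cons 1 v : Fin (k + 1) → ℂ) a * io (d (some o) a : K)) =
        io (m o : K) := by
      intro o
      rw [Fin.sum_univ_succ, Finset.sum_eq_zero, add_zero]
      · show (1 : ℂ) * io (m o : K) = _
        rw [one_mul]
      · intro b _
        show v b * io ((0 : 𝓞 K) : K) = 0
        simp
    have e3 : (∏ y : Ix n, Y y.1 y.2.1 y.2.2 ^ (s none y : ℕ)) = 1 := by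
      refine Finset.prod_eq_one fun y _ => ?_
      show Y y.1 y.2.1 y.2.2 ^ 0 = 1
      rw [pow_zero]
    have e4 : ∀ o : Fin (n i), (∏ y : Ix n, Y y.1 y.2.1 y.2.2 ^ (s (some o) y : ℕ)) = Y i o j := by
      intro o
      rw [Finset.prod_eq_single (⟨i, (o, j)⟩ : Ix n)]
      · have h1 : s (some o) (⟨i, (o, j)⟩ : Ix n) = 1 := Pi.single_eq_same _ _
        rw [h1]
        show Y i o j ^ (((1 : Fin (k + 1 + 1)) : ℕ)) = Y i o j
        rw [Fin.val_one, pow_one]
      · intro y _ hy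
        have h1 : s (some o) y = 0 := Pi.single_eq_of_ne hy _
        rw [h1]
        show Y y.1 y.2.1 y.2.2 ^ 0 = 1
        rw [pow_zero]
      · intro h; exact absurd (Finset.mem_univ _) h
    have e5 : (∑ o : Fin (n i), (∑ a : Fin (k + 1), (Fin.cons 1 v : Fin (k + 1) → ℂ) a * io (d (some o) a : K)) *
        ∏ y : Ix n, Y y.1 y.2.1 y.2.2 ^ (s (some o) y : ℕ)) = ∑ o, io (m o : K) * Y i o j :=
      Finset.sum_congr rfl fun o _ => by rw [e2 o, e4 o]
    rw [e1, e3, mul_one, e5, neg_add_eq_sub]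

theorem indep_of (F : SympFam X n) {k : ℕ} {K : Type} [Field K] [NumberField K] (io : K →+* ℂ) {T : ℝ}
    (hT : 1 + (∑ i, (n i : ℝ)) ≤ T) (v : Fin k → ℂ) {x : X → ℂ} (hx : x ∈ F.U)
    (hG : F.Generic (k + 1) K io (Fin.cons 1 v : Fin (k + 1) → ℂ) T x) : Indep F k K io T v x := by
  intro i j m α hm hα h
  obtain ⟨c, hc, hv⟩ := rel (n := n) io v i j m α hT hm hα
  have h1 := (hG c hc).1 (by rw [hv, h, sub_self])
  have h2 := lin_zero F hx i j (fun a => io (m a : K)) (∑ b, v b * io (α b : K)) fun Y hY => by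
    have h3 := h1 Y hY
    rw [hv, sub_eq_zero] at h3
    exact h3
  funext a
  have h3 := congrFun h2 a
  simp only [Pi.zero_apply, map_eq_zero] at h3
  exact_mod_cast h3

/-- **Independence of the periods over given numbers in small balls.** -/
theorem ballIndep [Nonempty X] (F : SympFam X n) (k : ℕ) (η : ℝ) (hη : 0 < η) : ∃ (C : ℕ) (T₀ : ℝ),
    ∀ (K : Type) [Field K] [NumberField K], Module.finrank ℚ K ≤ k → ∀ (io : K →+* ℂ) (v : Fin k → ℂ) (T : ℝ),
      T₀ ≤ T → ∀ t₀ : X → ℂ, Cov C C {t | ‖t - t₀‖ ≤ T ^ (-η) ∧ ∃ e : X → K, (∀ j, Y120.HtLe K T (e j)) ∧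
        (t = fun j => io (e j)) ∧ t ∈ InnerM F.U k ∧ ¬ Indep F k K io T v t} := by
  classical
  rcases Nat.eq_zero_or_pos k with hk | hk
  · refine ⟨0, 0, ?_⟩
    intro K _ _ hK
    have h1 : 0 < Module.finrank ℚ K := Module.finrank_pos
    omega
  obtain ⟨D, C, T₀, -, H⟩ := R349.MVB.sympB F (k + 1) η hη
  refine ⟨D + C, max T₀ (1 + ∑ i, (n i : ℝ)), fun K _ _ hK io v T hT t₀ => ?_⟩
  refine (H K (by omega) io (Fin.cons 1 v : Fin (k + 1) → ℂ) T ((le_max_left _ _).trans hT) t₀).mono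
    (by omega) (by omega) ?_
  rintro t ⟨h1, e, h2, rfl, h3, h4⟩
  have hin : InnerM F.U k ⊆ InnerM F.U (k + 1) := by
    intro y hy
    refine ⟨hy.1.trans (by push_cast; linarith), (Metric.ball_subset_ball ?_).trans hy.2⟩
    exact inv_anti₀ (by exact_mod_cast hk) (by push_cast; linarith)
  refine ⟨⟨e, ⟨h2, hin h3, fun hG => h4 ?_⟩, rfl⟩, h1⟩
  exact indep_of F io ((le_max_right _ _).trans hT) v (innerM_sub _ hk h3) hG

/-- there is a nonzero homomorphism, of complexity at most `T ^ k`, between a component of the fibre at `x` and the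
structure with the period matrix `Ω` -/
def HasHom (F : SympFam X n) (k : ℕ) (K : Type) [Field K] [NumberField K] (io : K →+* ℂ) (T : ℝ)
    (Ω : Matrix (Fin k) (Fin k) ℂ) (x : X → ℂ) : Prop :=
  ∃ (i : ι) (M : Matrix (Fin k) (Fin (n i)) (𝓞 K)) (α : Matrix (Fin k) (Fin (n i)) (𝓞 K)), M ≠ 0 ∧
    (∀ l a, Bd k T (M l a)) ∧ (∀ l a, Bd k T (α l a)) ∧
      M.map (fun z => io (z : K)) * F.P i x = Ω * α.map (fun z => io (z : K))

theorem ballHom [Nonempty X] (F : SympFam X n) (k : ℕ) (η : ℝ) (hη : 0 < η) : ∃ (C : ℕ) (T₀ : ℝ),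
    ∀ (K : Type) [Field K] [NumberField K], Module.finrank ℚ K ≤ k → ∀ (io : K →+* ℂ)
      (Ω : Matrix (Fin k) (Fin k) ℂ) (T : ℝ), T₀ ≤ T → ∀ t₀ : X → ℂ,
        Cov C C {t | ‖t - t₀‖ ≤ T ^ (-η) ∧ ∃ e : X → K, (∀ j, Y120.HtLe K T (e j)) ∧
          (t = fun j => io (e j)) ∧ t ∈ InnerM F.U k ∧ HasHom F k K io T Ω t} := by
  classical
  obtain ⟨C, T₀, H⟩ := ballIndep F k η hη
  refine ⟨C + k * C, T₀, fun K _ _ hK io Ω T hT t₀ => ?_⟩
  have hb := Cov.biUnion (k := ℂ) (Finset.univ : Finset (Fin k)) (fun l => {t : X → ℂ | ‖t - t₀‖ ≤ T ^ (-η) ∧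
    ∃ e : X → K, (∀ j, Y120.HtLe K T (e j)) ∧
        (t = fun j => io (e j)) ∧ t ∈ InnerM F.U k ∧ ¬ Indep F k K io T (Ω l) t}) (D := C) (m := C)
    fun l _ => H K hK io (Ω l) T hT t₀
  rw [Finset.card_univ, Fintype.card_fin] at hb
  refine hb.mono (by omega) (by omega) ?_
  rintro t ⟨h1, e, h2, h3, h4, i, M, α, hM, hMb, hαb, hrel⟩
  obtain ⟨l, a, hla⟩ : ∃ l a, M l a ≠ 0 := by
    by_contra hcon
    push Not at hcon
    exact hM (Matrix.ext hcon)
  refine Set.mem_iUnion₂.2 ⟨l, Finset.mem_univ _, h1, e, h2, h3, h4, fun hI => ?_⟩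
  have h5 := congrFun (congrFun hrel l) a
  rw [Matrix.mul_apply, Matrix.mul_apply] at h5
  have h6 := hI i a (M l) (fun b => α b a) (hMb l) (fun b => hαb b a) h5
  exact hla (congrFun h6 a)

end Pool.Agent.R349.Iso
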