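import Pool.Agent.R349.Ball

/-!
# Tuples of points in small balls: a bounded number of exceptions per fibre

Local forms, with an absolutely bounded number of exceptional points, of `Pool.Agent.Y124.oneR` and `Pool.Agent.Y124.multiR`.
-/

set_option autoImplicit false

open Filter Topology NumberField

namespace Pool.Agent.R349

open Pool.Agent.Y120 (Charts mv yv NormRing Pt ExcN local_thmN EE0 encE encE_val mv_enc)
open Pool.Agent.Y124 (LocInd RelR exists_radius chartsC flagC flagR RelK MgR mgR MgR_succ)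

/-- a bounded number of exceptional points in all balls of radius `T ^ (-η)` around points of a compact set -/
theorem ballsR (g : ℕ) {σ : Type} [Fintype σ] [DecidableEq σ] (f : σ → ℂ → ℂ) (K : Set ℂ) (hK : IsCompact K)
    (han : ∀ i, ∀ t ∈ K, AnalyticAt ℂ (f i) t) (hind : ∀ t ∈ K, LocInd f t) (h : Type) [Fintype h] [DecidableEq h]
    (d : ℕ) (A η : ℝ) (hη : 0 < η) :
    ∃ (B : ℝ) (C : ℕ) (T2 : ℝ), 2 ≤ T2 ∧ ∀ T : ℝ, T2 ≤ T → ∀ R : Subring (Fin (g + 1) → ℂ), NormRing R → ∀ ξ : h → ℂ,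
      ∀ τ ∈ K, ∀ Y : Finset ℂ, (∀ t ∈ Y, ‖t - τ‖ ≤ T ^ (-η) ∧ Pt R T t ∧
        RelR R ξ (fun l : σ → Fin (d + 1) => ∏ i, f i t ^ (l i : ℕ)) (T ^ A) (T ^ (-B))) →
      Y.card ≤ C := by
  classical
  obtain ⟨δ, hδ, hδ'⟩ := exists_radius f hK han
  set Ch := chartsC f K hK han hind δ hδ hδ' with hCh
  set A₀ : ℕ := ⌈A⌉₊ with hA₀
  set fB : ℕ := flagC g (Fintype.card h) A₀ with hfB
  set B' : ℕ := fB + 1 with hB'
  obtain ⟨B₂, C₂, T₀, hT₀2, hloc⟩ := local_thmN (g := g) (σ := σ) (S := h) Ch (EE0 σ d) η hη A₀ B'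
  set nh : ℝ := (Fintype.card h : ℝ) with hnh
  have hnh0 : 0 ≤ nh := by positivity
  refine ⟨B₂ + A₀ + 1, Fintype.card h * C₂, max (max T₀ ((2 / δ) ^ (1 / η))) (max nh 2),
    le_max_of_le_right (le_max_right _ _), ?_⟩
  intro T hT R hR ξ τ hτ Y hY
  have hTT₀ : T₀ ≤ T := (le_max_left _ _).trans ((le_max_left _ _).trans hT)
  have hTδ : (2 / δ) ^ (1 / η) ≤ T := (le_max_right _ _).trans ((le_max_left _ _).trans hT)
  have hTh : nh ≤ T := (le_max_left _ _).trans ((le_max_right _ _).trans hT)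
  have hT2 : 2 ≤ T := (le_max_right _ _).trans ((le_max_right _ _).trans hT)
  have hT1 : 1 ≤ T := by linarith
  have hTp : 0 < T := by linarith
  obtain ⟨𝒦, h𝒦card, h𝒦1, h𝒦⟩ := flagR hR A₀ hT2 ξ
  set B : ℝ := B₂ + A₀ + 1 with hB
  have hr : T ^ (-η) ≤ δ / 2 := by
    have h1 : 0 < 2 / δ := by positivity
    have h2 : 2 / δ ≤ T ^ η := by
      calc 2 / δ = ((2 / δ) ^ (1 / η)) ^ η := by
            rw [← Real.rpow_mul h1.le]
            have : 1 / η * η = 1 := by field_simp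
            rw [this, Real.rpow_one]
        _ ≤ T ^ η := Real.rpow_le_rpow (by positivity) hTδ (by positivity)
    rw [Real.rpow_neg hTp.le, inv_le_comm₀ (Real.rpow_pos_of_pos hTp _) (by positivity)]
    rwa [inv_div]
  -- the relation for one of the systems
  set P : (h → ℂ) → ℂ → Prop := fun K' t => ExcN R T A₀ B₂ B' K' (EE0 σ d) (fun i => f i t) with hP
  have hcov : ∀ q ∈ Y, ∃ K' ∈ 𝒦, P K' q := by
    intro q hq
    obtain ⟨-, -, c, hcR, hcA, l₀, hl₀, hcs⟩ := hY q hq
    have hcA' : ∀ e s i, ‖c e s i‖ ≤ T ^ A₀ := fun e s i => (hcA e s i).trans (by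
      calc T ^ A ≤ T ^ (A₀ : ℝ) := Real.rpow_le_rpow_of_exponent_le hT1 (Nat.le_ceil _)
        _ = T ^ A₀ := Real.rpow_natCast _ _)
    obtain ⟨K', hK', l, hl, hKc, l₁, hl₁⟩ := h𝒦 _ c hcR hcA' ⟨l₀, hl₀⟩
    refine ⟨K', hK', ?_⟩
    refine ⟨fun x => c ((encE σ d).symm x.2) x.1, fun x => hcR _ _, ⟨encE σ d l₁, ?_⟩, ?_, ?_⟩
    · simp only [Equiv.symm_apply_apply]
      refine lt_of_lt_of_le ?_ hl₁
      refine inv_strictAnti₀ (pow_pos hTp _) ?_
      exact pow_lt_pow_right₀ (by linarith) (Nat.lt_succ_self _)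
    · intro x j
      exact hcA' _ _ _
    · have h2 : ∑ e : EE0 σ d, (∑ s, K' s * c ((encE σ d).symm e) s 0) *
          mv (fun i => f i q) (e : σ →₀ ℕ) =
          ∑ l, (∑ s, K' s * c l s 0) * ∏ i, f i q ^ (l i : ℕ) := by
        rw [← Equiv.sum_comp (encE σ d)]
        refine Finset.sum_congr rfl fun e _ => ?_
        rw [encE_val, mv_enc, Equiv.symm_apply_apply]
      have h3 : l * ∑ l', (∑ s, K' s * c l' s 0) * ∏ i, f i q ^ (l' i : ℕ) =
          ∑ l', (∑ s, ξ s * c l' s 0) * ∏ i, f i q ^ (l' i : ℕ) := by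
        rw [Finset.mul_sum]
        refine Finset.sum_congr rfl fun l' _ => ?_
        rw [hKc l', mul_assoc]
      have hlpos : 0 < ‖l‖ := norm_pos_iff.2 hl
      have h4 : ‖∑ l', (∑ s, K' s * c l' s 0) * ∏ i, f i q ^ (l' i : ℕ)‖ ≤
          T ^ (-B) * ‖∑ s, K' s * c l₀ s 0‖ := by
        have h5 := hcs
        rw [← h3, hKc l₀, norm_mul, norm_mul] at h5
        have h6 : ‖l‖ * ‖∑ l', (∑ s, K' s * c l' s 0) * ∏ i, f i q ^ (l' i : ℕ)‖ ≤
            ‖l‖ * (T ^ (-B) * ‖∑ s, K' s * c l₀ s 0‖) := by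
          calc _ ≤ T ^ (-B) * (‖l‖ * ‖∑ s, K' s * c l₀ s 0‖) := h5
            _ = _ := by ring
        exact le_of_mul_le_mul_left h6 hlpos
      have h5 : ‖∑ s, K' s * c l₀ s 0‖ ≤ nh * T ^ A₀ := by
        calc ‖∑ s, K' s * c l₀ s 0‖ ≤ ∑ s, ‖K' s * c l₀ s 0‖ := norm_sum_le _ _
          _ ≤ ∑ s : h, T ^ A₀ := by
              refine Finset.sum_le_sum fun s _ => ?_
              rw [norm_mul]
              calc ‖K' s‖ * ‖c l₀ s 0‖ ≤ 1 * T ^ A₀ :=
                    mul_le_mul (h𝒦1 K' hK' s) (hcA' _ _ _) (norm_nonneg _) zero_le_one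
                _ = T ^ A₀ := one_mul _
          _ = nh * T ^ A₀ := by rw [Finset.sum_const, Finset.card_univ, nsmul_eq_mul]
      rw [h2]
      refine h4.trans ?_
      calc T ^ (-B) * ‖∑ s, K' s * c l₀ s 0‖ ≤ T ^ (-B) * (nh * T ^ A₀) :=
            mul_le_mul_of_nonneg_left h5 (Real.rpow_pos_of_pos hTp _).le
        _ ≤ T ^ (-B) * (T * T ^ A₀) := by
            refine mul_le_mul_of_nonneg_left ?_ (Real.rpow_pos_of_pos hTp _).le
            exact mul_le_mul_of_nonneg_right hTh (pow_nonneg hTp.le _)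
        _ = T ^ (-(B₂ : ℝ)) := by
            rw [← pow_succ', ← Real.rpow_natCast, ← Real.rpow_add hTp]
            congr 1
            rw [hB]
            push_cast
            ring
        _ = (T ^ B₂)⁻¹ := by rw [Real.rpow_neg hTp.le, Real.rpow_natCast]
  have hFsub : Y ⊆ 𝒦.biUnion fun K' => Y.filter fun q => P K' q := by
    intro q hq
    obtain ⟨K', hK', hKq⟩ := hcov q hq
    exact Finset.mem_biUnion.2 ⟨K', hK', Finset.mem_filter.2 ⟨hq, hKq⟩⟩
  have hcountK : ∀ K' ∈ 𝒦, (Y.filter fun q => P K' q).card ≤ C₂ := by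
    intro K' hK'
    refine hloc T hTT₀ R hR K' (fun s => (h𝒦1 K' hK' s).trans (one_le_pow₀ hT1)) ⟨τ, hτ⟩
      (Y.filter fun q => P K' q) ?_
    intro t ht
    rw [Finset.mem_filter] at ht
    obtain ⟨htY, htP⟩ := ht
    have h1 := (hY t htY).1
    refine ⟨?_, h1, (hY t htY).2.1, htP⟩
    change t ∈ Metric.closedBall τ (δ / 2)
    rw [Metric.mem_closedBall, dist_eq_norm]
    exact h1.trans hr
  calc Y.card ≤ (𝒦.biUnion fun K' => Y.filter fun q => P K' q).card := Finset.card_le_card hFsub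
    _ ≤ ∑ K' ∈ 𝒦, (Y.filter fun q => P K' q).card := Finset.card_biUnion_le
    _ ≤ ∑ K' ∈ 𝒦, C₂ := Finset.sum_le_sum hcountK
    _ = 𝒦.card * C₂ := by rw [Finset.sum_const, smul_eq_mul]
    _ ≤ Fintype.card h * C₂ := Nat.mul_le_mul_right _ h𝒦card

/-- a bounded number of exceptional points, for all systems of constants, all rings and all parameters `θ` -/
def OneL (g : ℕ) {Θ α κ : Type} [Fintype κ] [DecidableEq κ] (Dom : Θ → Subring (Fin (g + 1) → ℂ) → ℝ → Set α)
    (v : α → κ → ℂ) : Prop :=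
  ∀ (h : Type) [Fintype h] [DecidableEq h] (d : ℕ) (A : ℝ), ∃ B C T2 : ℝ, 0 < C ∧ 2 ≤ T2 ∧
    ∀ T : ℝ, T2 ≤ T → ∀ R : Subring (Fin (g + 1) → ℂ), NormRing R → ∀ ξ : h → ℂ, ∀ θ : Θ, ∀ Y : Finset α,
      (∀ x ∈ Y, x ∈ Dom θ R T ∧ RelR R ξ (fun l : κ → Fin (d + 1) => ∏ i, v x i ^ (l i : ℕ)) (T ^ A) (T ^ (-B))) →
      (Y.card : ℝ) ≤ C

/-- several variables: the local theorem -/
theorem multiL (g : ℕ) {Θ α κ : Type} [Fintype κ] [DecidableEq κ] (n : ℕ) :
    ∀ (Dom : Fin n → Θ → Subring (Fin (g + 1) → ℂ) → ℝ → Set α) (v : Fin n → α → κ → ℂ)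
      (_ : ∀ j, OneL g (Dom j) (v j)) (h : Type) [Fintype h] [DecidableEq h] (d : ℕ) (A : ℝ),
    ∃ B C T2 : ℝ, 0 ≤ B ∧ 0 < C ∧ 2 ≤ T2 ∧ ∀ T : ℝ, T2 ≤ T → ∀ R : Subring (Fin (g + 1) → ℂ), NormRing R →
      ∀ ξ : h → ℂ, ∀ θ : Fin n → Θ, ∀ X : Fin n → Finset α, (∀ j, ∀ x ∈ X j, x ∈ Dom j (θ j) R T) →
        ∀ Y ⊆ Fintype.piFinset X,
        (∀ x ∈ Y, RelR R ξ (fun e : Fin n → κ → Fin (d + 1) => mgR v x e) (T ^ A) (T ^ (-B))) →
        (Y.card : ℝ) ≤ C * MgR X := by
  classical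
  induction n with
  | zero =>
    intro Dom v hv h _ _ d A
    refine ⟨1, 1, 2, zero_le_one, one_pos, le_rfl, fun T hT R hR ξ θ X hX Y hY hrel => ?_⟩
    have hemp : Y = ∅ := by
      rw [Finset.eq_empty_iff_forall_notMem]
      intro x hx
      obtain ⟨c, hcR, hc, l₀, hl₀, hs⟩ := hrel x hx
      have h1 : ∑ l : Fin 0 → κ → Fin (d + 1), (∑ s, ξ s * c l s 0) * mgR v x l = ∑ s, ξ s * c l₀ s 0 := by
        rw [Fintype.sum_subsingleton _ l₀]
        simp [mgR]
      rw [h1] at hs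
      have h2 : 0 < ‖∑ s, ξ s * c l₀ s 0‖ := norm_pos_iff.2 hl₀
      have h3 : T ^ (-(1 : ℝ)) ≤ 1 / 2 := by
        rw [Real.rpow_neg (by linarith), Real.rpow_one, one_div]
        exact inv_anti₀ (by norm_num) hT
      nlinarith
    rw [hemp]
    simp [MgR]
  | succ n ih =>
    intro Dom v hv h _ _ d A
    obtain ⟨Bn, Cn, Tn, hBn, hCn, hTn, hn⟩ := ih (fun j => Dom j.succ) (fun j => v j.succ) (fun j => hv j.succ) h d A
    obtain ⟨B1, C1, T1, hC1, hT1, h1⟩ := hv 0 ((Fin n → κ → Fin (d + 1)) × h) d A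
    refine ⟨max B1 0 + Bn, max Cn C1, max Tn T1, by positivity, lt_max_of_lt_left hCn, le_max_of_le_left hTn, ?_⟩
    intro T hT R hR ξ θ X hX Y hY hrel
    have hTTn : Tn ≤ T := (le_max_left _ _).trans hT
    have hTT1 : T1 ≤ T := (le_max_right _ _).trans hT
    have hT2 : 2 ≤ T := hTn.trans hTTn
    have hTp : 0 < T := by linarith
    have hT1' : 1 ≤ T := by linarith
    -- the exceptional tails
    set Z : Finset (Fin n → α) := (Fintype.piFinset fun j : Fin n => X j.succ).filter fun x' =>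
      RelR R ξ (fun e : Fin n → κ → Fin (d + 1) => mgR (fun j => v j.succ) x' e) (T ^ A) (T ^ (-Bn)) with hZ
    have hZc := hn T hTTn R hR ξ (fun j => θ j.succ) (fun j => X j.succ) (fun j => hX j.succ) Z
      (Finset.filter_subset _ _) (fun x hx => (Finset.mem_filter.1 hx).2)
    have hYt : ∀ x ∈ Y, (fun j : Fin n => x j.succ) ∈ Fintype.piFinset fun j : Fin n => X j.succ := by
      intro x hx
      have := Fintype.mem_piFinset.1 (hY hx)
      exact Fintype.mem_piFinset.2 fun j => this j.succ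
    -- the fibres over good tails
    have hfib : ∀ x' : Fin n → α, x' ∉ Z →
        (((Y.filter fun x => (fun j : Fin n => x j.succ) = x').card : ℕ) : ℝ) ≤ C1 := by
      intro x' hx'
      set Yx := (Y.filter fun x => (fun j : Fin n => x j.succ) = x') with hYx
      have hinj : (Yx.image fun x => x 0).card = Yx.card := by
        refine Finset.card_image_of_injOn ?_
        intro x hx y hy hxy
        rw [Finset.mem_coe, Finset.mem_filter] at hx hy
        funext j
        refine Fin.cases hxy (fun i => ?_) j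
        exact congrFun (hx.2.trans hy.2.symm) i
      rw [← hinj]
      refine h1 T hTT1 R hR (fun p => ξ p.2 * mgR (fun j => v j.succ) x' p.1) (θ 0) _ ?_
      intro y hy
      obtain ⟨x, hx, rfl⟩ := Finset.mem_image.1 hy
      refine ⟨hX 0 _ (Fintype.mem_piFinset.1 (hY (Finset.mem_filter.1 hx).1) 0), ?_⟩
      obtain ⟨hxY, hxx'⟩ := Finset.mem_filter.1 hx
      obtain ⟨c, hcR, hc, l₀, hl₀, hs⟩ := hrel x hxY
      have hx'pi : x' ∈ Fintype.piFinset fun j : Fin n => X j.succ := by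
        rw [← hxx']
        exact hYt x hxY
      have hnot : ¬ RelR R ξ (fun e : Fin n → κ → Fin (d + 1) => mgR (fun j => v j.succ) x' e) (T ^ A) (T ^ (-Bn)) :=
        fun hcon => hx' (Finset.mem_filter.2 ⟨hx'pi, hcon⟩)
      -- the combination for the exponent of the first variable
      set W : (κ → Fin (d + 1)) → ℂ := fun l =>
        ∑ p : (Fin n → κ → Fin (d + 1)) × h, (ξ p.2 * mgR (fun j => v j.succ) x' p.1) *
          c (Fin.cons l p.1) p.2 0 with hW
      have hWe : ∀ l, W l = ∑ e : Fin n → κ → Fin (d + 1), (∑ s, ξ s * c (Fin.cons l e) s 0) *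
          mgR (fun j => v j.succ) x' e := by
        intro l
        simp only [hW]
        rw [Fintype.sum_prod_type]
        refine Finset.sum_congr rfl fun e _ => ?_
        rw [Finset.sum_mul]
        refine Finset.sum_congr rfl fun s _ => ?_
        ring
      have htot : ∑ e : Fin (n + 1) → κ → Fin (d + 1), (∑ s, ξ s * c e s 0) * mgR v x e =
          ∑ l : κ → Fin (d + 1), W l * ∏ i, v 0 (x 0) i ^ (l i : ℕ) := by
        rw [← (Fin.consEquiv (fun _ : Fin (n + 1) => κ → Fin (d + 1))).sum_comp, Fintype.sum_prod_type]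
        refine Finset.sum_congr rfl fun l _ => ?_
        rw [hWe, Finset.sum_mul]
        refine Finset.sum_congr rfl fun e _ => ?_
        have h2 : mgR v x ((Fin.consEquiv (fun _ : Fin (n + 1) => κ → Fin (d + 1))) (l, e)) =
            (∏ i, v 0 (x 0) i ^ (l i : ℕ)) * mgR (fun j => v j.succ) x' e := by
          rw [mgR, Fin.prod_univ_succ, mgR, ← hxx']
          rfl
        rw [h2]
        have h3 : ((Fin.consEquiv (fun _ : Fin (n + 1) => κ → Fin (d + 1))) (l, e)) =
          (Fin.cons l e : Fin (n + 1) → κ → Fin (d + 1)) := rfl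
        rw [h3]
        ring
      have hl₀c : (Fin.cons (l₀ 0) (fun j : Fin n => l₀ j.succ) : Fin (n + 1) → κ → Fin (d + 1)) = l₀ :=
        Fin.cons_self_tail l₀
      have hbig : T ^ (-Bn) * ‖∑ s, ξ s * c l₀ s 0‖ < ‖W (l₀ 0)‖ := by
        by_contra hcon
        rw [not_lt] at hcon
        apply hnot
        refine ⟨fun e s => c (Fin.cons (l₀ 0) e) s, fun e s => hcR _ _, fun e s => hc _ _, fun j => l₀ j.succ, ?_, ?_⟩
        · change ∑ s, ξ s * c (Fin.cons (l₀ 0) fun j => l₀ j.succ) s 0 ≠ 0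
          rw [hl₀c]; exact hl₀
        · change ‖∑ e, (∑ s, ξ s * c (Fin.cons (l₀ 0) e) s 0) * mgR (fun j => v j.succ) x' e‖ ≤
            T ^ (-Bn) * ‖∑ s, ξ s * c (Fin.cons (l₀ 0) fun j => l₀ j.succ) s 0‖
          rw [hl₀c, ← hWe]; exact hcon
      have hw0 : 0 < ‖∑ s, ξ s * c l₀ s 0‖ := norm_pos_iff.2 hl₀
      refine ⟨fun l p => c (Fin.cons l p.1) p.2, fun l p => hcR _ _, fun l p => hc _ _, l₀ 0, ?_, ?_⟩
      · intro h0
        have h2 : W (l₀ 0) = 0 := h0
        rw [h2, norm_zero] at hbig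
        have : 0 < T ^ (-Bn) := Real.rpow_pos_of_pos hTp _
        have := mul_pos this hw0
        linarith
      · change ‖∑ l, W l * ∏ i, v 0 (x 0) i ^ (l i : ℕ)‖ ≤ T ^ (-B1) * ‖W (l₀ 0)‖
        rw [← htot]
        refine hs.trans ?_
        have h2 : T ^ (-(max B1 0 + Bn)) = T ^ (-(max B1 0)) * T ^ (-Bn) := by
          rw [← Real.rpow_add hTp]
          congr 1
          ring
        rw [h2, mul_assoc]
        have h3 : T ^ (-(max B1 0)) ≤ T ^ (-B1) :=
          Real.rpow_le_rpow_of_exponent_le hT1' (neg_le_neg (le_max_left _ _))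
        exact mul_le_mul h3 hbig.le (by positivity) (Real.rpow_pos_of_pos hTp _).le
    -- counting
    have hsplit := Finset.card_filter_add_card_filter_not (s := Y)
      (p := fun x : Fin (n + 1) → α => (fun j : Fin n => x j.succ) ∈ Z)
    have hp1 : ((Y.filter fun x : Fin (n + 1) → α => (fun j : Fin n => x j.succ) ∈ Z).card : ℝ) ≤
        (X 0).card * Z.card := by
      have hle : (Y.filter fun x : Fin (n + 1) → α => (fun j : Fin n => x j.succ) ∈ Z).card ≤
          (X 0 ×ˢ Z).card := by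
        refine Finset.card_le_card_of_injOn (fun t => (t 0, fun j : Fin n => t j.succ)) ?_ ?_
        · intro t ht
          rw [Finset.mem_coe, Finset.mem_filter] at ht
          rw [Finset.mem_coe, Finset.mem_product]
          exact ⟨Fintype.mem_piFinset.1 (hY ht.1) 0, ht.2⟩
        · intro t _ t' _ heq
          simp only [Prod.mk.injEq] at heq
          funext j
          refine Fin.cases heq.1 (fun i => congrFun heq.2 i) j
      rw [Finset.card_product] at hle
      exact_mod_cast hle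
    have hp2 : ((Y.filter fun x : Fin (n + 1) → α => ¬ (fun j : Fin n => x j.succ) ∈ Z).card : ℝ) ≤
        C1 * ∏ i : Fin n, ((X i.succ).card : ℝ) := by
      have h2 := Finset.card_eq_sum_card_fiberwise (s := Y.filter fun x : Fin (n + 1) → α =>
          ¬ (fun j : Fin n => x j.succ) ∈ Z) (t := Fintype.piFinset fun j : Fin n => X j.succ)
        (f := fun x => fun j : Fin n => x j.succ) (by
          intro x hx
          rw [Finset.mem_coe, Finset.mem_filter] at hx
          exact hYt x hx.1)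
      rw [h2]
      push_cast
      calc ∑ x' ∈ Fintype.piFinset fun j : Fin n => X j.succ,
            ((((Y.filter fun x : Fin (n + 1) → α => ¬ (fun j : Fin n => x j.succ) ∈ Z).filter
              fun x => (fun j : Fin n => x j.succ) = x').card : ℕ) : ℝ)
          ≤ ∑ x' ∈ Fintype.piFinset fun j : Fin n => X j.succ, C1 := by
            refine Finset.sum_le_sum fun x' _ => ?_
            by_cases hx' : x' ∈ Z
            · have h3 : ((Y.filter fun x : Fin (n + 1) → α => ¬ (fun j : Fin n => x j.succ) ∈ Z).filter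
                  fun x => (fun j : Fin n => x j.succ) = x') = ∅ := by
                rw [Finset.eq_empty_iff_forall_notMem]
                intro x hx
                rw [Finset.mem_filter, Finset.mem_filter] at hx
                exact hx.1.2 (hx.2 ▸ hx')
              rw [h3, Finset.card_empty, Nat.cast_zero]
              exact hC1.le
            · refine le_trans ?_ (hfib x' hx')
              exact_mod_cast Finset.card_le_card (Finset.filter_subset_filter _ (Finset.filter_subset _ _))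
        _ = C1 * ∏ i : Fin n, ((X i.succ).card : ℝ) := by
            rw [Finset.sum_const, Fintype.card_piFinset, nsmul_eq_mul]
            push_cast
            ring
    have hP0 : 0 ≤ ∏ i : Fin n, ((X i.succ).card : ℝ) := Finset.prod_nonneg fun _ _ => Nat.cast_nonneg _
    have hM0 : 0 ≤ MgR (fun i => X i.succ) :=
      Finset.sum_nonneg fun j _ => Finset.prod_nonneg fun i _ => by split_ifs <;> positivity
    have hCC : 0 < max Cn C1 := lt_max_of_lt_left hCn
    rw [MgR_succ]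
    have hYc : (Y.card : ℝ) = ((Y.filter fun x : Fin (n + 1) → α => (fun j : Fin n => x j.succ) ∈ Z).card : ℝ) +
        ((Y.filter fun x : Fin (n + 1) → α => ¬ (fun j : Fin n => x j.succ) ∈ Z).card : ℝ) := by
      exact_mod_cast hsplit.symm
    rw [hYc]
    calc ((Y.filter fun x : Fin (n + 1) → α => (fun j : Fin n => x j.succ) ∈ Z).card : ℝ) +
        ((Y.filter fun x : Fin (n + 1) → α => ¬ (fun j : Fin n => x j.succ) ∈ Z).card : ℝ)
        ≤ (X 0).card * (Cn * MgR (fun i => X i.succ)) + C1 * ∏ i : Fin n, ((X i.succ).card : ℝ) :=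
          add_le_add (hp1.trans (mul_le_mul_of_nonneg_left hZc (Nat.cast_nonneg _))) hp2
      _ ≤ (X 0).card * (max Cn C1 * MgR (fun i => X i.succ)) +
          max Cn C1 * ∏ i : Fin n, ((X i.succ).card : ℝ) := by
          refine add_le_add (mul_le_mul_of_nonneg_left ?_ (Nat.cast_nonneg _)) ?_
          · exact mul_le_mul_of_nonneg_right (le_max_left _ _) hM0
          · exact mul_le_mul_of_nonneg_right (le_max_right _ _) hP0
      _ = max Cn C1 * (∏ i : Fin n, ((X i.succ).card : ℝ) + (X 0).card * MgR (fun i => X i.succ)) := by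
          ring

/-- a family of functions on a compact set, in small balls -/
theorem oneL_of (g : ℕ) {σ : Type} [Fintype σ] [DecidableEq σ] (f : σ → ℂ → ℂ) (K : Set ℂ) (hK : IsCompact K)
    (han : ∀ i, ∀ t ∈ K, AnalyticAt ℂ (f i) t) (hind : ∀ t ∈ K, LocInd f t) (η : ℝ) (hη : 0 < η) :
    OneL g (fun (τ : K) R T => {t : ℂ | ‖t - (τ : ℂ)‖ ≤ T ^ (-η) ∧ Pt R T t}) (fun t i => f i t) := by
  intro h _ _ d A
  obtain ⟨B, C, T2, hT2, H⟩ := ballsR g f K hK han hind h d A η hη
  refine ⟨B, C + 1, T2, by positivity, hT2, fun T hT R hR ξ θ Y hY => ?_⟩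
  have h1 := H T hT R hR ξ θ θ.2 Y fun t ht => ⟨(hY t ht).1.1, (hY t ht).1.2, (hY t ht).2⟩
  have h2 : (Y.card : ℝ) ≤ C := by exact_mod_cast h1
  linarith

/-- The local theorem for tuples of points of a number field of bounded degree. -/
theorem mainL {κ : Type} [Fintype κ] (m n g d : ℕ) (f : Fin n → κ → ℂ → ℂ) (L : Set ℂ)
    (hL : IsCompact L) (han : ∀ j y, ∀ t ∈ L, AnalyticAt ℂ (f j y) t) (hind : ∀ j, ∀ t ∈ L, LocInd (f j) t)
    (A η : ℝ) (hη : 0 < η) :
    ∃ B C T₀ : ℝ, 0 ≤ B ∧ 0 ≤ C ∧ 2 ≤ T₀ ∧ ∀ (F : Type) [Field F] [NumberField F], Module.finrank ℚ F ≤ m →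
      ∀ (ι : F →+* ℂ) (ξ : Fin g → ℂ) (T : ℝ), T₀ ≤ T → ∀ (τ : Fin n → L) (X : Fin n → Finset F),
        (∀ j, ∀ x ∈ X j, ‖ι x - (τ j : ℂ)‖ ≤ T ^ (-η) ∧ Y120.HtLe F T x) →
        ∀ E : Finset (Fin n → F), (∀ t ∈ E, (∀ j, t j ∈ X j) ∧
          ∃ P : MvPolynomial (Fin n × κ) ℂ, (∀ x, P.degreeOf x ≤ d) ∧
          (∀ s, ∃ c : Fin g → 𝓞 F, (∀ i (φ : F →+* ℂ), ‖φ (c i)‖ ≤ T ^ A) ∧ P.coeff s = ∑ i, ξ i * ι (c i)) ∧
          ∃ s₀, P.coeff s₀ ≠ 0 ∧ ‖MvPolynomial.aeval (fun x : Fin n × κ => f x.1 x.2 (ι (t x.1))) P‖ ≤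
            T ^ (-B) * ‖P.coeff s₀‖) →
        (E.card : ℝ) ≤ C * MgR X := by
  classical
  have hg := fun g' : ℕ => multiL g' n (fun j (τ : L) R T => {t : ℂ | ‖t - (τ : ℂ)‖ ≤ T ^ (-η) ∧ Pt R T t})
    (fun j t y => f j y t) (fun j => oneL_of g' (f j) L hL (han j) (hind j) η hη) (Fin g) d A
  choose B C T2 hB hC hT2 H using hg
  refine ⟨∑ g ∈ Finset.range m, B g, ∑ g ∈ Finset.range m, C g, 2 + ∑ g ∈ Finset.range m, T2 g, ?_, ?_, ?_, ?_⟩
  · exact Finset.sum_nonneg fun g _ => hB g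
  · exact Finset.sum_nonneg fun g _ => (hC g).le
  · have : 0 ≤ ∑ g ∈ Finset.range m, T2 g := Finset.sum_nonneg fun g _ => by linarith [hT2 g]
    linarith
  intro K _ _ hm io ξ T hT τ X hX E hE
  set g' := Y120.gK K with hg'
  have hgm : g' ∈ Finset.range m := Finset.mem_range.2 (Y124.gK_lt K hm)
  have hTT : T2 g' ≤ T := by
    have h1 := Finset.single_le_sum (f := T2) (fun g _ => by linarith [hT2 g]) hgm
    linarith
  have hBB : B g' ≤ ∑ g ∈ Finset.range m, B g := Finset.single_le_sum (f := B) (fun g _ => hB g) hgm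
  have hCC : C g' ≤ ∑ g ∈ Finset.range m, C g := Finset.single_le_sum (f := C) (fun g _ => (hC g).le) hgm
  have hT1 : 1 ≤ T := by linarith [hT2 g']
  set Y : Finset (Fin n → ℂ) := E.image fun t j => io (t j) with hY
  have hYc : Y.card = E.card := by
    rw [hY, Finset.card_image_of_injective]
    intro t t' htt
    funext j
    exact io.injective (congrFun htt j)
  have h1 := H g' T hTT (Y120.RK K io) (Y120.RK_norm K io) ξ τ (fun j => (X j).image io) (by
    intro j x hx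
    obtain ⟨y, hy, rfl⟩ := Finset.mem_image.1 hx
    obtain ⟨h1, h2⟩ := hX j y hy
    exact ⟨h1, Y120.Pt_of_HtLe K io h2⟩) Y (by
    intro y hy
    obtain ⟨t, ht, rfl⟩ := Finset.mem_image.1 hy
    rw [Fintype.mem_piFinset]
    intro j
    exact Finset.mem_image_of_mem _ ((hE t ht).1 j)) (by
    intro y hy
    obtain ⟨t, ht, rfl⟩ := Finset.mem_image.1 hy
    refine Y124.RelR_mono (Real.rpow_le_rpow_of_exponent_le hT1 (neg_le_neg hBB)) ?_
    refine Y124.RelR_of_RelK K io ξ _ _ _ ?_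
    obtain ⟨h1, P, hPd, hPc, s₀, hs₀, hs⟩ := hE t ht
    exact Y124.relK_of_poly' K io ξ (fun j t y => f j y t) (fun j => io (t j)) _ _ P hPd hPc s₀ hs₀ hs)
  have h2 : MgR (fun j => (X j).image io) = MgR X := by
    unfold Pool.Agent.Y124.MgR
    refine Finset.sum_congr rfl fun j _ => Finset.prod_congr rfl fun i _ => ?_
    rw [Finset.card_image_of_injective _ io.injective]
  rw [h2, hYc] at h1
  refine h1.trans ?_
  have hM : 0 ≤ MgR X :=
    Finset.sum_nonneg fun j _ => Finset.prod_nonneg fun i _ => by split_ifs <;> positivity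
  exact mul_le_mul_of_nonneg_right hCC hM

end Pool.Agent.R349
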