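import Pool.Agent.Y890.MV.Main

/-!
# Several complex variables: the exceptional points in a small ball lie on a bounded number of hypersurfaces of bounded
# degree, over rings of integers of bounded degree and for arbitrary constants (adapted from `Y890.MV.OneRM`)
-/

set_option autoImplicit false

open Filter Topology NumberField

namespace Pool.Agent.R349.MVB

open Pool.Agent.Y890.MV
open Pool.Agent.Y120 (mv NormRing Pt ExcN EE0 encE encE_val mv_enc HtLe gK RK RK_norm Pt_of_HtLe)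
open Pool.Agent.Y124 (Cov RelR RelK flagR flagC RelR_mono RelR_of_RelK gK_lt)

/-- the exceptional points in a ball of radius `T ^ (-η)` lie on at most `C` hypersurfaces of degree at most `D` -/
theorem oneRB (g : ℕ) {X σ : Type} [Fintype X] [DecidableEq X]
    [Nonempty X] [Fintype σ] [DecidableEq σ] (f : σ → (X → ℂ) → ℂ) (K : Set (X → ℂ)) (hK : IsCompact K)
    (han : ∀ i, ∀ t ∈ K, AnalyticAt ℂ (f i) t) (hind : ∀ t ∈ K, LocIndM f t) (h : Type) [Fintype h] [DecidableEq h]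
    (d : ℕ) (A η : ℝ) (hη : 0 < η) :
    ∃ (D C : ℕ) (B T2 : ℝ), 2 ≤ T2 ∧ ∀ T : ℝ, T2 ≤ T → ∀ R : Subring (Fin (g + 1) → ℂ), NormRing R →
      ∀ (ξ : h → ℂ) (t₀ : X → ℂ), Cov D C {t : X → ℂ | t ∈ K ∧ ‖t - t₀‖ ≤ T ^ (-η) ∧ (∀ i, Pt R T (t i)) ∧
        RelR R ξ (fun l : σ → Fin (d + 1) => ∏ i, f i t ^ (l i : ℕ)) (T ^ A) (T ^ (-B))} := by
  classical
  obtain ⟨Ch, δ, hδ, hCh'⟩ := stmCharts X σ f K hK han hind
  set A₀ : ℕ := ⌈A⌉₊ with hA₀
  set fB : ℕ := flagC g (Fintype.card h) A₀ with hfB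
  set B' : ℕ := fB + 1 with hB'
  set η' : ℝ := η / 2 with hη'
  have hη0 : 0 < η' := by positivity
  obtain ⟨B₂, C₂, D₂, T₀, hT₀2, hloc⟩ := local_thmM stmZ stmClose (g := g) (S := h) Ch (EE0 σ d) η' hη0 A₀ B'
  set nh : ℝ := (Fintype.card h : ℝ) with hnh
  have hnh0 : 0 ≤ nh := by positivity
  refine ⟨D₂, Fintype.card h * C₂, B₂ + A₀ + 1,
    max (max T₀ ((1 / δ) ^ (1 / η'))) (max (max nh 2) ((2 : ℝ) ^ (1 / η'))), ?_, ?_⟩
  · exact le_trans (le_max_right _ _) ((le_max_left _ _).trans (le_max_right _ _))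
  intro T hT R hR ξ t₀
  have hTT₀ : T₀ ≤ T := (le_max_left _ _).trans ((le_max_left _ _).trans hT)
  have hTδ : (1 / δ) ^ (1 / η') ≤ T := (le_max_right _ _).trans ((le_max_left _ _).trans hT)
  have hTh : nh ≤ T := (le_max_left _ _).trans ((le_max_left _ _).trans ((le_max_right _ _).trans hT))
  have hT2 : 2 ≤ T := (le_max_right _ _).trans ((le_max_left _ _).trans ((le_max_right _ _).trans hT))
  have hTη : (2 : ℝ) ^ (1 / η') ≤ T := (le_max_right _ _).trans ((le_max_right _ _).trans hT)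
  have hT1 : 1 ≤ T := by linarith
  have hTp : 0 < T := by linarith
  obtain ⟨𝒦, h𝒦card, h𝒦1, h𝒦⟩ := flagR hR A₀ hT2 ξ
  set B : ℝ := B₂ + A₀ + 1 with hB
  have hpw : ∀ c : ℝ, 0 < c → c ^ (1 / η') ≤ T → c ≤ T ^ η' := by
    intro c hc hcT
    calc c = (c ^ (1 / η')) ^ η' := by
          rw [← Real.rpow_mul hc.le]
          have : 1 / η' * η' = 1 := by field_simp
          rw [this, Real.rpow_one]
      _ ≤ T ^ η' := Real.rpow_le_rpow (by positivity) hcT hη0.le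
  have hr : T ^ (-η') ≤ δ := by
    have h2 := hpw (1 / δ) (by positivity) hTδ
    rw [Real.rpow_neg hTp.le, inv_le_comm₀ (Real.rpow_pos_of_pos hTp _) hδ]
    rwa [← one_div]
  have hr2 : T ^ (-η) + T ^ (-η) ≤ T ^ (-η') := by
    have h2 := hpw 2 two_pos hTη
    have h3 : T ^ (-η') = T ^ η' * T ^ (-η) := by
      rw [← Real.rpow_add hTp]
      congr 1
      rw [hη']
      ring
    have h4 : 0 < T ^ (-η) := Real.rpow_pos_of_pos hTp _
    rw [h3]
    nlinarith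
  set S : Set (X → ℂ) := {t : X → ℂ | t ∈ K ∧ ‖t - t₀‖ ≤ T ^ (-η) ∧ (∀ i, Pt R T (t i)) ∧
        RelR R ξ (fun l : σ → Fin (d + 1) => ∏ i, f i t ^ (l i : ℕ)) (T ^ A) (T ^ (-B))} with hS
  -- the relation for one of the systems
  set P : (h → ℂ) → (X → ℂ) → Prop := fun K' t => ExcN R T A₀ B₂ B' K' (EE0 σ d) (fun i => f i t) with hP
  have hcov : ∀ q ∈ S, ∃ K' ∈ 𝒦, P K' q := by
    intro q hq
    obtain ⟨-, -, -, c, hcR, hcA, l₀, hl₀, hcs⟩ := hq
    have hcA' : ∀ e s i, ‖c e s i‖ ≤ T ^ A₀ := fun e s i => (hcA e s i).trans (by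
      calc T ^ A ≤ T ^ (A₀ : ℝ) := Real.rpow_le_rpow_of_exponent_le hT1 (Nat.le_ceil _)
        _ = T ^ A₀ := Real.rpow_natCast _ _)
    obtain ⟨K', hK', l, hl, hKc, l₁, hl₁⟩ := h𝒦 _ c hcR hcA' ⟨l₀, hl₀⟩
    refine ⟨K', hK', ?_⟩
    refine ⟨fun x => c ((encE σ d).symm x.2) x.1, fun x => hcR _ _, ⟨encE σ d l₁, ?_⟩, ?_, ?_⟩
    · simp only [Equiv.symm_apply_apply]
      refine lt_of_lt_of_le ?_ hl₁
      refine inv_strictAnti₀ (pow_pos hTp _) ?_
      exact pow_lt_pow_right₀ (by linarith) (Nat.lt_succ_self _)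
    · intro x j
      exact hcA' _ _ _
    · have h2 : ∑ e : EE0 σ d, (∑ s, K' s * c ((encE σ d).symm e) s 0) *
          mv (fun i => f i q) (e : σ →₀ ℕ) =
          ∑ l, (∑ s, K' s * c l s 0) * ∏ i, f i q ^ (l i : ℕ) := by
        rw [← Equiv.sum_comp (encE σ d)]
        refine Finset.sum_congr rfl fun e _ => ?_
        rw [encE_val, mv_enc, Equiv.symm_apply_apply]
      have h3 : l * ∑ l', (∑ s, K' s * c l' s 0) * ∏ i, f i q ^ (l' i : ℕ) =
          ∑ l', (∑ s, ξ s * c l' s 0) * ∏ i, f i q ^ (l' i : ℕ) := by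
        rw [Finset.mul_sum]
        refine Finset.sum_congr rfl fun l' _ => ?_
        rw [hKc l', mul_assoc]
      have hlpos : 0 < ‖l‖ := norm_pos_iff.2 hl
      have h4 : ‖∑ l', (∑ s, K' s * c l' s 0) * ∏ i, f i q ^ (l' i : ℕ)‖ ≤
          T ^ (-B) * ‖∑ s, K' s * c l₀ s 0‖ := by
        have h5 := hcs
        rw [← h3, hKc l₀, norm_mul, norm_mul] at h5
        have h6 : ‖l‖ * ‖∑ l', (∑ s, K' s * c l' s 0) * ∏ i, f i q ^ (l' i : ℕ)‖ ≤
            ‖l‖ * (T ^ (-B) * ‖∑ s, K' s * c l₀ s 0‖) := by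
          calc _ ≤ T ^ (-B) * (‖l‖ * ‖∑ s, K' s * c l₀ s 0‖) := h5
            _ = _ := by ring
        exact le_of_mul_le_mul_left h6 hlpos
      have h5 : ‖∑ s, K' s * c l₀ s 0‖ ≤ nh * T ^ A₀ := by
        calc ‖∑ s, K' s * c l₀ s 0‖ ≤ ∑ s, ‖K' s * c l₀ s 0‖ := norm_sum_le _ _
          _ ≤ ∑ s : h, T ^ A₀ := by
              refine Finset.sum_le_sum fun s _ => ?_
              rw [norm_mul]
              calc ‖K' s‖ * ‖c l₀ s 0‖ ≤ 1 * T ^ A₀ :=
                    mul_le_mul (h𝒦1 K' hK' s) (hcA' _ _ _) (norm_nonneg _) zero_le_one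
                _ = T ^ A₀ := one_mul _
          _ = nh * T ^ A₀ := by rw [Finset.sum_const, Finset.card_univ, nsmul_eq_mul]
      rw [h2]
      refine h4.trans ?_
      calc T ^ (-B) * ‖∑ s, K' s * c l₀ s 0‖ ≤ T ^ (-B) * (nh * T ^ A₀) :=
            mul_le_mul_of_nonneg_left h5 (Real.rpow_pos_of_pos hTp _).le
        _ ≤ T ^ (-B) * (T * T ^ A₀) := by
            refine mul_le_mul_of_nonneg_left ?_ (Real.rpow_pos_of_pos hTp _).le
            exact mul_le_mul_of_nonneg_right hTh (pow_nonneg hTp.le _)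
        _ = T ^ (-(B₂ : ℝ)) := by
            rw [← pow_succ', ← Real.rpow_natCast, ← Real.rpow_add hTp]
            congr 1
            rw [hB]
            push_cast
            ring
        _ = (T ^ B₂)⁻¹ := by rw [Real.rpow_neg hTp.le, Real.rpow_natCast]
  rcases S.eq_empty_or_nonempty with hSe | ⟨τ, hτ⟩
  · rw [hSe]
    exact ⟨∅, by simp, by simp, by simp⟩
  have hpiece : ∀ K' ∈ 𝒦, Cov D₂ C₂ {t : X → ℂ | t ∈ S ∧ P K' t} := by
    intro K' hK'
    obtain ⟨θ, hθ, hdom, hu⟩ := hCh' τ hτ.1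
    refine (hloc T hTT₀ R hR K' (fun s => (h𝒦1 K' hK' s).trans (one_le_pow₀ hT1)) θ).mono le_rfl le_rfl ?_
    rintro t ⟨htS, htP⟩
    have htτ : ‖t - τ‖ ≤ T ^ (-η') := by
      refine le_trans ?_ hr2
      calc ‖t - τ‖ = ‖(t - t₀) - (τ - t₀)‖ := by congr 1; abel
        _ ≤ ‖t - t₀‖ + ‖τ - t₀‖ := norm_sub_le _ _
        _ ≤ _ := add_le_add htS.2.1 hτ.2.1
    refine ⟨hdom ?_, ?_, htS.2.2.1, ?_⟩
    · rw [Metric.mem_closedBall, dist_eq_norm]
      exact htτ.trans hr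
    · rw [hθ]
      exact htτ
    · rw [hu]
      exact htP
  have hcovS := Cov.biUnion 𝒦 (fun K' => {t : X → ℂ | t ∈ S ∧ P K' t}) hpiece
  refine hcovS.mono le_rfl (Nat.mul_le_mul_right _ h𝒦card) ?_
  intro t ht
  obtain ⟨K', hK', hPt⟩ := hcov t ht
  exact Set.mem_biUnion (x := K') (Finset.mem_coe.2 hK') ⟨ht, hPt⟩

/-- all number fields of bounded degree -/
theorem nfB (m : ℕ) {X σ : Type} [Fintype X] [DecidableEq X]
    [Nonempty X] [Fintype σ] [DecidableEq σ] (f : σ → (X → ℂ) → ℂ) (L : Set (X → ℂ)) (hL : IsCompact L)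
    (han : ∀ i, ∀ t ∈ L, AnalyticAt ℂ (f i) t) (hind : ∀ t ∈ L, LocIndM f t) (h : Type) [Fintype h] [DecidableEq h]
    (d : ℕ) (A η : ℝ) (hη : 0 < η) :
    ∃ (D C : ℕ) (B T₀ : ℝ), 2 ≤ T₀ ∧ ∀ (K : Type) [Field K] [NumberField K], Module.finrank ℚ K ≤ m →
      ∀ (io : K →+* ℂ) (ξ : h → ℂ) (T : ℝ), T₀ ≤ T → ∀ t₀ : X → ℂ, Cov D C {t : X → ℂ | t ∈ L ∧
        ‖t - t₀‖ ≤ T ^ (-η) ∧ ∃ s : X → K,
        (∀ i, HtLe K T (s i)) ∧ (t = fun i => io (s i)) ∧
          RelK K io ξ (fun l : σ → Fin (d + 1) => ∏ i, f i t ^ (l i : ℕ)) (T ^ A) (T ^ (-B))} := by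
  classical
  choose D C B T2 hT2 H using fun g : ℕ => oneRB g f L hL han hind h d A η hη
  refine ⟨∑ g ∈ Finset.range m, D g, ∑ g ∈ Finset.range m, C g, ∑ g ∈ Finset.range m, |B g|,
    2 + ∑ g ∈ Finset.range m, T2 g, ?_, ?_⟩
  · have : 0 ≤ ∑ g ∈ Finset.range m, T2 g := Finset.sum_nonneg fun g _ => by linarith [hT2 g]
    linarith
  intro K _ _ hm io ξ T hT t₀
  set g := gK K with hg
  have hgm : g ∈ Finset.range m := Finset.mem_range.2 (gK_lt K hm)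
  have hTT : T2 g ≤ T := by
    have h1 := Finset.single_le_sum (f := T2) (fun g _ => by linarith [hT2 g]) hgm
    linarith
  have hBB : B g ≤ ∑ g ∈ Finset.range m, |B g| :=
    (le_abs_self _).trans (Finset.single_le_sum (f := fun g => |B g|) (fun g _ => abs_nonneg _) hgm)
  have hCC : C g ≤ ∑ g ∈ Finset.range m, C g := Finset.single_le_sum (f := C) (fun g _ => Nat.zero_le _) hgm
  have hDD : D g ≤ ∑ g ∈ Finset.range m, D g := Finset.single_le_sum (f := D) (fun g _ => Nat.zero_le _) hgm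
  have hT1 : 1 ≤ T := by linarith [hT2 g]
  refine (H g T hTT (RK K io) (RK_norm K io) ξ t₀).mono hDD hCC ?_
  rintro t ⟨htL, htt, s, hs, rfl, hrel⟩
  refine ⟨htL, htt, fun i => Pt_of_HtLe K io (hs i), ?_⟩
  refine RelR_mono (Real.rpow_le_rpow_of_exponent_le hT1 (neg_le_neg hBB)) ?_
  exact RelR_of_RelK K io ξ _ _ _ hrel

end Pool.Agent.R349.MVB
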