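import Pool.Agent.R349.MVBall

/-!
# Bases of any dimension, small balls: relations at points of a number field are specializations of functional relations,
# outside a bounded number of hypersurfaces (adapted from `Y890.MV.One`, `Y890.MV.Sys`)
-/

set_option autoImplicit false
set_option linter.unusedSectionVars false

open Polynomial NumberField

namespace Pool.Agent.R349.MVB

open Pool.Agent.Y890.MV
open Pool.Agent.Y890.SP (ex box box_of_le eval_box evI evI_rename relPoly relPoly_degree relPoly_coeff relPoly_zero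
  resG resG_map resP res_eval exists_dat eq_zero_of_resultant norm_prod_le exists_lift' Qbar ioQ ioQ_coe)
open Pool.Agent.Y124 (Cov RelK)

/-- **Families over bases of any dimension, small balls.** -/
theorem oneB {X σ : Type} [Fintype X] [DecidableEq X] [Nonempty X]
    [Fintype σ] [DecidableEq σ] {U : Set (X → ℂ)} {f : σ → (X → ℂ) → ℂ} (hU : IsPreconnected U)
    (hUo : IsOpen U) (hne : U.Nonempty) (hf : ∀ i, AnalyticOnNhd ℂ (f i) U) (hreg : RegularM U f) (Lc : Set (X → ℂ))
    (hLc : IsCompact Lc) (hLU : Lc ⊆ U) (δ : ℕ) :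
    ∃ (N : Type) (_ : Fintype N) (_ : DecidableEq N) (M : N → (σ → Fin (δ + 1)) → MvPolynomial X ℂ),
      (∀ G : (σ → Fin (δ + 1)) → MvPolynomial X ℂ, (∀ ν, ∑ l, M ν l * G l = 0) →
        ∀ x ∈ U, ∑ l, MvPolynomial.eval x (G l) * ∏ y, f y x ^ (l y : ℕ) = 0) ∧
      ∀ (h : Type) [Fintype h] [DecidableEq h] (m : ℕ) (A η : ℝ), 0 < η → ∃ (D C : ℕ) (T₀ : ℝ), 2 ≤ T₀ ∧
        ∀ (K : Type) [Field K] [NumberField K], Module.finrank ℚ K ≤ m → ∀ (io : K →+* ℂ) (ξ : h → ℂ) (T : ℝ),
          T₀ ≤ T → ∀ t₀ : X → ℂ, Cov D C (((fun (s : X → K) i => io (s i)) '' BadM δ M f Lc K io ξ A T) ∩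
            {t | ‖t - t₀‖ ≤ T ^ (-η)}) := by
  classical
  obtain ⟨L, _, _, _, F, hz, hfrac⟩ := exists_fieldM hU hUo hne hf
  obtain ⟨d⟩ := exists_dat F hfrac (reg_fieldM hU hUo hf hreg F hz hfrac)
  let := d.fin
  let := d.dec
  let Λ := σ → Fin (δ + 1)
  let lm : Λ → MvPolynomial σ (MvPolynomial X ℂ) := fun l => ∏ y, MvPolynomial.X y ^ (l y : ℕ)
  have hlm : ∀ l x, evM f x (lm l) = ∏ y, f y x ^ (l y : ℕ) := by
    intro l x
    rw [evM, MvPolynomial.eval₂_prod]
    refine Finset.prod_congr rfl fun y _ => ?_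
    rw [MvPolynomial.eval₂_pow, MvPolynomial.eval₂_X]
  obtain ⟨D, hh, hD, hh'⟩ := d.exists_fam (fun l : Λ => MvPolynomial.aeval F (lm l))
  set e := d.m.natDegree with he
  have hhe : ∀ l, (hh l).natDegree < e := by
    intro l
    rcases eq_or_ne (hh l) 0 with h0 | h0
    · rw [h0, natDegree_zero]
      exact d.pos
    · exact natDegree_lt_natDegree h0 (hh' l).1
  set Nb : ℕ := ∑ l, ∑ i ∈ Finset.range e, ((hh l).coeff i).totalDegree with hNb
  have hNb' : ∀ l i, ((hh l).coeff i).totalDegree ≤ Nb := by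
    intro l i
    by_cases hi : i < e
    · have h1 : ((hh l).coeff i).totalDegree ≤ ∑ i ∈ Finset.range e, ((hh l).coeff i).totalDegree :=
        Finset.single_le_sum (f := fun i => ((hh l).coeff i).totalDegree) (fun _ _ => Nat.zero_le _)
          (Finset.mem_range.2 hi)
      exact h1.trans (Finset.single_le_sum (f := fun l => ∑ i ∈ Finset.range e, ((hh l).coeff i).totalDegree)
        (fun _ _ => Nat.zero_le _) (Finset.mem_univ l))
    · rw [coeff_eq_zero_of_natDegree_lt (by have := hhe l; omega)]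
      simp
  let N := Fin e × (d.I → Fin (Nb + 1))
  let M : N → Λ → MvPolynomial X ℂ := fun ν l => ((hh l).coeff ν.1).coeff (ex ν.2)
  obtain ⟨D₁, hD₁, hirr⟩ := d.irr
  refine ⟨N, inferInstance, inferInstance, M, ?_, ?_⟩
  · -- the kernel
    intro G hG x hx
    have h1 : relPoly hh G = 0 := by
      apply relPoly_zero hh G e Nb hhe hNb'
      intro i α
      rw [← hG (i, α)]
      refine Finset.sum_congr rfl fun l _ => mul_comm _ _
    have h2 : eval₂ (evI (F ∘ d.ι)) (MvPolynomial.aeval F d.Θ) (relPoly hh G) =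
        evI (F ∘ d.ι) D * MvPolynomial.aeval F (∑ l, MvPolynomial.C (G l) * lm l) := by
      rw [relPoly, eval₂_finsetSum, map_sum, Finset.mul_sum]
      refine Finset.sum_congr rfl fun l _ => ?_
      rw [eval₂_mul, eval₂_C, ← (hh' l).2, map_mul]
      have h3 : evI (F ∘ d.ι) (MvPolynomial.C (G l)) = MvPolynomial.aeval F (MvPolynomial.C (G l)) := by
        rw [evI_rename, MvPolynomial.rename_C]
      rw [h3]
      ring
    rw [h1, eval₂_zero] at h2
    have h4 : evI (F ∘ d.ι) D ≠ 0 := by
      intro h0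
      exact hD (d.ind (h0.trans (map_zero _).symm))
    have h5 := (mul_eq_zero.1 h2.symm).resolve_left h4
    rw [hz] at h5
    have h6 := h5 x hx
    rw [← h6, evM, MvPolynomial.eval₂_sum]
    refine Finset.sum_congr rfl fun l _ => ?_
    rw [MvPolynomial.eval₂_mul, MvPolynomial.eval₂_C, ← hlm]
    rfl
  · intro h _ _ m A η hη
    set 𝒢 := resG d.m e hh with h𝒢
    set J : ℕ := ∑ α ∈ 𝒢.support, ∑ ν ∈ (𝒢.coeff α).support, ((𝒢.coeff α).coeff ν).totalDegree with hJ
    have hJ' : ∀ α ν, ((𝒢.coeff α).coeff ν).totalDegree ≤ J := by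
      intro α ν
      by_cases hα : α ∈ 𝒢.support
      · by_cases hν : ν ∈ (𝒢.coeff α).support
        · have h1 := Finset.single_le_sum (f := fun ν => ((𝒢.coeff α).coeff ν).totalDegree)
            (fun _ _ => Nat.zero_le _) hν
          exact h1.trans (Finset.single_le_sum
            (f := fun α => ∑ ν ∈ (𝒢.coeff α).support, ((𝒢.coeff α).coeff ν).totalDegree) (fun _ _ => Nat.zero_le _) hα)
        · rw [MvPolynomial.notMem_support_iff.1 hν]
          simp
      · rw [MvPolynomial.notMem_support_iff.1 hα]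
        simp
    set dd := 𝒢.totalDegree with hdd
    set G' : ℕ := J + ∑ α ∈ 𝒢.support, (𝒢.coeff α).totalDegree with hG'
    have hG'' : ∀ (ξ : h → ℂ) α, (hmgM ξ J (𝒢.coeff α)).totalDegree ≤ G' := by
      intro ξ α
      refine (hmgM_degree ξ J _ (hJ' α)).trans ?_
      refine Nat.add_le_add_left ?_ J
      by_cases hα : α ∈ 𝒢.support
      · exact Finset.single_le_sum (f := fun α => (𝒢.coeff α).totalDegree) (fun _ _ => Nat.zero_le _) hα
      · rw [MvPolynomial.notMem_support_iff.1 hα]
        simp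
    let W := Option X ⊕ (Λ × h)
    let h' := (d.I → Fin (dd + 1)) × (W → Fin (G' + 1))
    set q : ℕ := Fintype.card X with hq
    set A₁ := max A (q : ℝ) with hA₁
    set A' : ℝ := A₁ * (Fintype.card W * G' : ℕ) with hA'
    obtain ⟨DD, C, B, T₀, hT₀, H⟩ := nfB m (fun (i : d.I) t => f (d.ι i) t) Lc hLc
      (fun i t ht => hf _ t (hLU ht)) (fun t ht => locIndM_of hU hf F hz d.ι d.ind t (hLU ht)) h' dd A' η hη
    refine ⟨max DD D₁.totalDegree, C + 1, T₀, hT₀, ?_⟩
    intro K _ _ hm io ξ T hT t₀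
    have hT1 : 1 ≤ T := by linarith
    have hTp : 0 < T := by linarith
    let ξ' : h' → ℂ := fun p => (hmgM ξ J (𝒢.coeff (ex p.1))).coeff (ex p.2)
    have hcov := H K hm io ξ' T hT t₀
    set E := {t : X → ℂ | t ∈ Lc ∧ ‖t - t₀‖ ≤ T ^ (-η) ∧ ∃ s : X → K,
        (∀ i, Y120.HtLe K T (s i)) ∧ (t = fun i => io (s i)) ∧
          RelK K io ξ' (fun l : d.I → Fin (dd + 1) => ∏ i, f (d.ι i) t ^ (l i : ℕ)) (T ^ A') (T ^ (-B))} with hE
    set Z : Set (X → ℂ) := {t | MvPolynomial.eval t D₁ = 0} with hZ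
    have hZcov : Cov D₁.totalDegree 1 Z := by
      refine ⟨{D₁}, by simp, ?_, ?_⟩
      · intro P hP
        rw [Finset.mem_singleton] at hP
        subst hP
        exact ⟨hD₁, le_rfl⟩
      · intro t ht
        exact ⟨D₁, Finset.mem_singleton_self _, ht⟩
    have hsub : ((fun (s : X → K) i => io (s i)) '' BadM δ M f Lc K io ξ A T) ∩ {t | ‖t - t₀‖ ≤ T ^ (-η)} ⊆
        E ∪ Z := by
      rintro _ ⟨⟨s, ⟨hs1, hs2, c, hc1, hc2, ν, hν⟩, rfl⟩, hst⟩
      set t : X → ℂ := fun i => io (s i) with ht
      by_cases hsZ : t ∈ Z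
      · exact Or.inr hsZ
      refine Or.inl ⟨hs2, hst, s, hs1, rfl, ?_⟩
      choose a b hb ha1 hb1 hab using id hs1
      set φ : MvPolynomial X ℂ →+* ℂ := MvPolynomial.eval t with hφ
      set P : Λ → ℂ := fun l => ∑ i, ξ i * io (c l i : K) with hP
      have hφD : φ D₁ ≠ 0 := hsZ
      set 𝓡 : MvPolynomial d.I ℂ := resP (d.m.map (MvPolynomial.map φ)) e (fun l => (hh l).map (MvPolynomial.map φ)) P
        with h𝓡
      have h𝓡G : 𝓡 = MvPolynomial.map (MvPolynomial.eval₂Hom φ P) 𝒢 := resG_map d.m e hh φ P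
      -- the resultant is not zero
      have h𝓡0 : 𝓡 ≠ 0 := by
        intro h0
        have hmd : (d.m.map (MvPolynomial.map (σ := d.I) φ)).natDegree = e := d.monic.natDegree_map _
        have hmd' : (d.m.map (MvPolynomial.map (σ := d.I) φ)).degree = d.m.degree := d.monic.degree_map _
        have hRd : (relPoly (fun l => (hh l).map (MvPolynomial.map (σ := d.I) φ)) P).degree < d.m.degree := by
          apply relPoly_degree _ _ _ (bot_lt_iff_ne_bot.2 (by rw [Ne, degree_eq_bot]; exact d.monic.ne_zero))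
          intro l
          exact lt_of_le_of_lt degree_map_le (hh' l).1
        have h1 := eq_zero_of_resultant (d.m.map (MvPolynomial.map (σ := d.I) φ))
          (relPoly (fun l => (hh l).map (MvPolynomial.map (σ := d.I) φ)) P) (d.monic.map _) (hirr ℂ φ hφD)
          (by rw [hmd']; exact hRd) e (by
            apply natDegree_le_of_degree_le
            rw [degree_eq_natDegree d.monic.ne_zero] at hRd
            exact hRd.le) (by rw [hmd]; exact h0)
        apply hν
        have h2 := congrArg (fun q => (Polynomial.coeff q (ν.1 : ℕ)).coeff (ex ν.2)) h1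
        simp only [relPoly_coeff, coeff_zero, MvPolynomial.coeff_zero, coeff_map, MvPolynomial.coeff_map] at h2
        rw [← h2]
        exact Finset.sum_congr rfl fun l _ => mul_comm _ _
      -- the value is zero
      have h𝓡v : MvPolynomial.eval (fun i => f (d.ι i) t) 𝓡 = 0 := by
        refine res_eval d lm D hh hh' φ (fun i => f i t) ?_ P ?_
        · intro p hp
          exact (hz p).1 hp t (hLU hs2)
        · rw [← hc2]
          refine Finset.sum_congr rfl fun l _ => ?_
          rw [← hlm]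
          rfl
      -- the integral coordinates
      let bb : 𝓞 K := ∏ i, b i
      let aa : X → 𝓞 K := fun i => a i * ∏ j ∈ Finset.univ.erase i, b j
      let zK : W → 𝓞 K := Sum.elim (fun o => o.elim bb aa) (fun p => c p.1 p.2)
      let w : W → ℂ := fun t => io (zK t : K)
      have hwb : w (Sum.inl none) = io (bb : K) := rfl
      have hwa : ∀ i, w (Sum.inl (some i)) = io (aa i : K) := fun i => rfl
      have hbb : bb ≠ 0 := Finset.prod_ne_zero_iff.2 fun i _ => hb i
      have hb0 : io (bb : K) ≠ 0 := by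
        rw [Ne, map_eq_zero]
        exact_mod_cast hbb
      have hsw : ∀ i, t i = w (Sum.inl (some i)) / w (Sum.inl none) := by
        intro i
        rw [hwa, hwb, ht]
        simp only
        rw [eq_div_iff hb0, ← map_mul]
        congr 1
        have h1 : (bb : K) = (b i : K) * ∏ j ∈ Finset.univ.erase i, (b j : K) := by
          have h2 : bb = b i * ∏ j ∈ Finset.univ.erase i, b j := (Finset.mul_prod_erase _ _ (Finset.mem_univ i)).symm
          rw [h2]
          simp
        have h3 : (aa i : K) = (a i : K) * ∏ j ∈ Finset.univ.erase i, (b j : K) := by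
          simp [aa]
        have h4 : (b i : K) ≠ 0 := by exact_mod_cast hb i
        rw [h1, h3, hab i]
        field_simp
      have hval : ∀ α : d.I →₀ ℕ, io (bb : K) ^ J * 𝓡.coeff α = MvPolynomial.eval w (hmgM ξ J (𝒢.coeff α)) := by
        intro α
        rw [hmgM_eval ξ J _ (fun ν => hJ' α ν) w (by rw [hwb]; exact hb0), hwb, h𝓡G, MvPolynomial.coeff_map]
        congr 1
        have h1 : (fun i => w (Sum.inl (some i)) / io (bb : K)) = t := by
          funext i
          rw [hsw i, hwb]
        rw [h1]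
        rfl
      let P' : MvPolynomial d.I ℂ := MvPolynomial.C (io (bb : K) ^ J) * 𝓡
      have hcoef : ∀ s₁ : d.I →₀ ℕ, P'.coeff s₁ = io (bb : K) ^ J * 𝓡.coeff s₁ := by
        intro s₁
        rw [MvPolynomial.coeff_C_mul]
      have hzKb : ∀ (o : W) (ψ : K →+* ℂ), ‖ψ (zK o : K)‖ ≤ T ^ A₁ := by
        have hTq : T ^ q ≤ T ^ A₁ := by
          rw [← Real.rpow_natCast]
          exact Real.rpow_le_rpow_of_exponent_le hT1 (le_max_right _ _)
        have hbn : ∀ i (ψ : K →+* ℂ), ‖ψ (b i : K)‖ ≤ T := fun i ψ => (Y120.house_ge K _ ψ).trans (hb1 i)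
        have han : ∀ i (ψ : K →+* ℂ), ‖ψ (a i : K)‖ ≤ T := fun i ψ => (Y120.house_ge K _ ψ).trans (ha1 i)
        rintro ((_ | i) | ⟨l, i⟩) ψ
        · refine le_trans ?_ hTq
          change ‖ψ ((bb : 𝓞 K) : K)‖ ≤ T ^ q
          have h1 : ψ ((bb : 𝓞 K) : K) = ∏ i, ψ (b i : K) := by simp [bb, map_prod]
          rw [h1, norm_prod]
          calc ∏ i, ‖ψ (b i : K)‖ ≤ ∏ _i : X, T := Finset.prod_le_prod (fun _ _ => norm_nonneg _) fun i _ => hbn i ψ
            _ = T ^ q := by rw [Finset.prod_const, Finset.card_univ]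
        · refine le_trans ?_ hTq
          change ‖ψ ((aa i : 𝓞 K) : K)‖ ≤ T ^ q
          have h1 : ψ ((aa i : 𝓞 K) : K) = ψ (a i : K) * ∏ j ∈ Finset.univ.erase i, ψ (b j : K) := by
            simp [aa, map_prod]
          rw [h1, norm_mul, norm_prod]
          calc ‖ψ (a i : K)‖ * ∏ j ∈ Finset.univ.erase i, ‖ψ (b j : K)‖
              ≤ T * ∏ _j ∈ Finset.univ.erase i, T :=
                mul_le_mul (han i ψ) (Finset.prod_le_prod (fun _ _ => norm_nonneg _) fun j _ => hbn j ψ)
                  (Finset.prod_nonneg fun _ _ => norm_nonneg _) hTp.le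
            _ = ∏ _j : X, T := Finset.mul_prod_erase Finset.univ (fun _ : X => T) (Finset.mem_univ i)
            _ = T ^ q := by rw [Finset.prod_const, Finset.card_univ]
        · exact (hc1 l i ψ).trans (Real.rpow_le_rpow_of_exponent_le hT1 (le_max_left _ _))
      have hP'0 : P' ≠ 0 := by
        refine mul_ne_zero ?_ h𝓡0
        rw [Ne, MvPolynomial.C_eq_zero]
        exact pow_ne_zero _ hb0
      obtain ⟨s₀, hs₀⟩ := MvPolynomial.ne_zero_iff.1 hP'0
      refine relK_of_poly1 K io ξ' (fun i => f (d.ι i) t) (T ^ A') (T ^ (-B)) P' ?_ ?_ s₀ hs₀ ?_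
      · intro x
        refine (MvPolynomial.degreeOf_le_totalDegree _ _).trans ?_
        refine (MvPolynomial.totalDegree_mul _ _).trans ?_
        rw [MvPolynomial.totalDegree_C, zero_add, h𝓡G, hdd]
        exact Finset.sup_mono (MvPolynomial.support_map_subset _ _)
      · intro α₀
        by_cases hα : ∃ α : d.I → Fin (dd + 1), ex α = α₀
        · obtain ⟨α, hα⟩ := hα
          refine ⟨fun p => if p.1 = α then ∏ t, zK t ^ (p.2 t : ℕ) else 0, ?_, ?_⟩
          · rintro ⟨α', γ⟩ ψ
            by_cases hαα : α' = α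
            · simp only [hαα, if_true]
              have hT' : 1 ≤ T ^ A₁ := Real.one_le_rpow hT1 (by
                rw [hA₁]
                exact le_trans (Nat.cast_nonneg _) (le_max_right _ _))
              have h1 := norm_prod_le G' γ (fun t => ψ (zK t : K)) (T ^ A₁) hT' (fun o => hzKb o ψ)
              have h3 : ψ ((∏ t, zK t ^ (γ t : ℕ) : 𝓞 K) : K) = ∏ t, ψ (zK t : K) ^ (γ t : ℕ) := by
                simp [map_prod]
              rw [h3]
              refine h1.trans (le_of_eq ?_)
              rw [hA', Real.rpow_mul (by linarith), Real.rpow_natCast]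
            · simp only [hαα, if_false]
              simp
              positivity
          · rw [hcoef, ← hα, hval, eval_box _ G' (hG'' ξ _) w, Fintype.sum_prod_type, Finset.sum_eq_single α]
            · refine Finset.sum_congr rfl fun γ _ => ?_
              have h3 : io ((∏ t, zK t ^ (γ t : ℕ) : 𝓞 K) : K) = ∏ t, io (zK t : K) ^ (γ t : ℕ) := by
                simp [map_prod]
              simp only [if_true, ξ']
              congr 1
              exact h3.symm
            · intro α' _ hα'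
              refine Finset.sum_eq_zero fun γ _ => ?_
              simp [hα']
            · simp
        · refine ⟨fun _ => 0, ?_, ?_⟩
          · intro _ ψ
            simp
            positivity
          · have h1 : 𝒢.coeff α₀ = 0 := by
              have h2 := box_of_le 𝒢 (le_refl dd)
              rw [← h2, box, MvPolynomial.coeff_sum]
              refine Finset.sum_eq_zero fun α _ => ?_
              rw [MvPolynomial.coeff_monomial, if_neg fun hh => hα ⟨α, hh⟩]
            rw [hcoef, h𝓡G, MvPolynomial.coeff_map, h1]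
            simp
      · have h1 : MvPolynomial.aeval (fun i : d.I => f (d.ι i) t) P' = 0 := by
          rw [map_mul]
          have h2 : MvPolynomial.aeval (fun i : d.I => f (d.ι i) t) 𝓡 =
              MvPolynomial.eval (fun i => f (d.ι i) t) 𝓡 := by
            rfl
          rw [h2, h𝓡v, mul_zero]
        rw [h1, norm_zero]
        positivity
    -- covering
    have h1 := (hcov.mono (le_max_left DD D₁.totalDegree) le_rfl (Set.Subset.refl _)).union
      (hZcov.mono (le_max_right DD D₁.totalDegree) le_rfl (Set.Subset.refl _))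
    exact h1.mono le_rfl le_rfl hsub

/-- **Specialization of systems of relations, bases of any dimension, small balls.** -/
theorem excB {X σ : Type} [Fintype X] [DecidableEq X] [Nonempty X]
    [Fintype σ] [DecidableEq σ] {U : Set (X → ℂ)} {f : σ → (X → ℂ) → ℂ} (hU : IsPreconnected U)
    (hUo : IsOpen U) (hne : U.Nonempty) (hf : ∀ i, AnalyticOnNhd ℂ (f i) U) (hreg : RegularM U f) (Lc : Set (X → ℂ))
    (hLc : IsCompact Lc) (hLU : Lc ⊆ U) (δ : ℕ) (h r : Type) [Fintype h]
    [DecidableEq h] [Fintype r] [DecidableEq r] (m : ℕ) (A η : ℝ) (hη : 0 < η) : ∃ (D C : ℕ) (T₀ : ℝ), 2 ≤ T₀ ∧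
      ∀ (K : Type) [Field K] [NumberField K], Module.finrank ℚ K ≤ m → ∀ (io : K →+* ℂ)
        (Ξ : r → (σ → Fin (δ + 1)) → h → ℂ) (T : ℝ), T₀ ≤ T → ∀ t₀ : X → ℂ,
        Cov D C (((fun (s : X → K) j => io (s j)) '' ExcM U f Lc K io Ξ A T) ∩ {t | ‖t - t₀‖ ≤ T ^ (-η)}) := by
  classical
  obtain ⟨N, _, _, M, hM, hcount⟩ := oneB hU hUo hne hf hreg Lc hLc hLU δ
  obtain ⟨D₀, C, T₀, hT₀, H⟩ := hcount ((σ → Fin (δ + 1)) × h) m A η hη
  set d : ℕ := ∑ κ, ∑ l, (M κ l).totalDegree with hd
  have hd' : ∀ κ l, (M κ l).totalDegree ≤ d := by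
    intro κ l
    have h1 : (M κ l).totalDegree ≤ ∑ l, (M κ l).totalDegree :=
      Finset.single_le_sum (f := fun l => (M κ l).totalDegree) (fun _ _ => Nat.zero_le _) (Finset.mem_univ l)
    exact h1.trans (Finset.single_le_sum (f := fun κ => ∑ l, (M κ l).totalDegree) (fun _ _ => Nat.zero_le _)
      (Finset.mem_univ κ))
  set dd : ℕ := Fintype.card h * d with hdd
  refine ⟨max D₀ dd, Fintype.card r * C + 1, T₀, hT₀, ?_⟩
  intro K _ _ hK io Ξ T hT t₀
  have hT1 : 1 ≤ T := by linarith
  have HK := fun ρ => H K hK io (fun p => Ξ ρ p.1 p.2) T hT t₀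
  let LL : r × N → h → MvPolynomial X ℂ := fun q i => ∑ l, MvPolynomial.C (Ξ q.1 l i) * M q.2 l
  have hLL : ∀ q i, (LL q i).totalDegree ≤ d := by
    intro q i
    refine MvPolynomial.totalDegree_finsetSum_le fun l _ => ?_
    refine (MvPolynomial.totalDegree_mul _ _).trans ?_
    rw [MvPolynomial.totalDegree_C, zero_add]
    exact hd' _ _
  obtain ⟨D, hD, hDd, hlift⟩ := exists_lift' (Q := Qbar) (Module.Basis.ofVectorSpace Qbar ℂ) LL d hLL
  set D' : MvPolynomial X ℂ := MvPolynomial.map (algebraMap Qbar ℂ) D with hD'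
  have hD'0 : D' ≠ 0 := by
    intro h0
    apply hD
    exact MvPolynomial.map_injective _ (algebraMap Qbar ℂ).injective (by rw [map_zero]; exact h0)
  have hD'd : D'.totalDegree ≤ dd := by
    refine le_trans ?_ hDd
    exact Finset.sup_mono (MvPolynomial.support_map_subset _ _)
  set Z : Set (X → ℂ) := {t | MvPolynomial.eval t D' = 0} with hZ
  have hZcov : Cov (max D₀ dd) 1 Z := by
    refine ⟨{D'}, by simp, ?_, ?_⟩
    · intro P hP
      rw [Finset.mem_singleton] at hP
      subst hP
      exact ⟨hD'0, hD'd.trans (le_max_right _ _)⟩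
    · intro t ht
      exact ⟨D', Finset.mem_singleton_self _, ht⟩
  set W : Set (X → ℂ) := ⋃ ρ ∈ (Finset.univ : Finset r), ((fun (s : X → K) j => io (s j)) ''
    BadM δ M f Lc K io (fun p : (σ → Fin (δ + 1)) × h => Ξ ρ p.1 p.2) A T) ∩ {t | ‖t - t₀‖ ≤ T ^ (-η)} with hW
  have hWcov : Cov D₀ (Fintype.card r * C) W := by
    have h1 := Cov.biUnion (Finset.univ : Finset r) (fun ρ => ((fun (s : X → K) j => io (s j)) ''
      BadM δ M f Lc K io (fun p : (σ → Fin (δ + 1)) × h => Ξ ρ p.1 p.2) A T) ∩ {t | ‖t - t₀‖ ≤ T ^ (-η)})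
      (fun ρ _ => HK ρ)
    rwa [Finset.card_univ] at h1
  have hsub : ((fun (s : X → K) j => io (s j)) '' ExcM U f Lc K io Ξ A T) ∩ {t | ‖t - t₀‖ ≤ T ^ (-η)} ⊆
      W ∪ Z := by
    rintro _ ⟨⟨s, ⟨h1, h1', c, h2, h3, h4⟩, rfl⟩, hst⟩
    by_contra h5
    rw [Set.mem_union, not_or] at h5
    obtain ⟨h6, h7⟩ := h5
    apply h4
    have h8 : MvPolynomial.eval (fun j => ioQ io (s j)) D ≠ 0 := by
      intro h0
      apply h7
      change MvPolynomial.eval (fun j => io (s j)) D' = 0
      have h11 := MvPolynomial.eval₂_comp_left (algebraMap Qbar ℂ) (RingHom.id Qbar) (fun j => ioQ io (s j)) D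
      rw [RingHom.comp_id, MvPolynomial.eval₂_id, h0, map_zero] at h11
      have h12 : (algebraMap Qbar ℂ) ∘ (fun j => ioQ io (s j)) = fun j => io (s j) := by
        funext j
        exact ioQ_coe _ _
      rw [h12] at h11
      rw [hD', MvPolynomial.eval_map]
      exact h11.symm
    have hsum : ∀ (ρ : r) (l : σ → Fin (δ + 1)),
        ∑ p : (σ → Fin (δ + 1)) × h, Ξ ρ p.1 p.2 * io (((if p.1 = l then c p.2 else 0 : 𝓞 K) : 𝓞 K) : K) =
          ∑ i, Ξ ρ l i * io (c i : K) := by
      intro ρ l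
      rw [Fintype.sum_prod_type, Finset.sum_eq_single l]
      · simp
      · intro b _ hb
        simp [hb]
      · simp
    have h9 : ∀ (ρ : r) (κ : N), ∑ l, (∑ i, Ξ ρ l i * io (c i : K)) *
        MvPolynomial.eval (fun j => io (s j)) (M κ l) = 0 := by
      intro ρ κ
      by_contra h0
      apply h6
      rw [hW, Set.mem_iUnion₂]
      refine ⟨ρ, Finset.mem_univ _, ⟨s, ⟨h1, h1', fun l p => if p.1 = l then c p.2 else 0, ?_, ?_, κ, ?_⟩, rfl⟩, hst⟩
      · intro l p φ
        beta_reduce
        split_ifs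
        · exact h2 _ φ
        · simp
          positivity
      · simp only [hsum]
        exact h3 ρ
      · simp only [hsum]
        intro h10
        apply h0
        rw [← h10]
        exact Finset.sum_congr rfl fun l _ => mul_comm _ _
    obtain ⟨G, hG1, hG2⟩ := hlift (fun j => ioQ io (s j)) (fun i => ioQ io (c i : K)) h8 (by
      rintro ⟨ρ, κ⟩
      simp only [ioQ_coe, LL]
      refine Eq.trans ?_ (h9 ρ κ)
      simp only [map_sum, map_mul, MvPolynomial.eval_C, Finset.sum_mul, Finset.mul_sum]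
      rw [Finset.sum_comm]
      refine Finset.sum_congr rfl fun l _ => Finset.sum_congr rfl fun i _ => ?_
      ring)
    refine ⟨G, ?_, ?_⟩
    · intro i
      have h10 := congrArg (algebraMap Qbar ℂ) (hG1 i)
      rw [ioQ_coe] at h10
      rw [← h10, MvPolynomial.aeval_def]
      have h11 := MvPolynomial.eval₂_comp_left (algebraMap Qbar ℂ) (RingHom.id Qbar) (fun j => ioQ io (s j)) (G i)
      rw [RingHom.comp_id] at h11
      rw [← MvPolynomial.eval₂_id, h11]
      rfl
    · intro x hx ρ
      have h10 := hM (fun l => ∑ i, MvPolynomial.C (Ξ ρ l i) *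
        MvPolynomial.map (algebraMap Qbar ℂ) (G i)) (fun κ => by
          refine Eq.trans ?_ (hG2 (ρ, κ))
          simp only [LL, Finset.sum_mul, Finset.mul_sum]
          rw [Finset.sum_comm]
          refine Finset.sum_congr rfl fun i _ => Finset.sum_congr rfl fun l _ => ?_
          ring) x hx
      refine Eq.trans ?_ h10
      refine Finset.sum_congr rfl fun l _ => ?_
      congr 1
      rw [map_sum]
      refine Finset.sum_congr rfl fun i _ => ?_
      rw [map_mul, MvPolynomial.eval_C, MvPolynomial.eval_map]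
      rfl
  have hcov := (hWcov.mono (le_max_left D₀ dd) le_rfl (Set.Subset.refl _)).union hZcov
  exact hcov.mono le_rfl le_rfl hsub

end Pool.Agent.R349.MVB
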