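import Pool.Agent.R349.MVBall2
import Pool.Agent.Y890.SM.Inst

/-!
# Families with torsors and families with symplectic monodromy: exceptional points in small balls
(adapted from `Y890.MV.TorExc`, `Y890.SM.Main`)
-/

set_option autoImplicit false
set_option linter.unusedSectionVars false

open NumberField Filter Matrix

namespace Pool.Agent.R349.MVB

open Pool.Agent.Y890.MV Pool.Agent.Y890.SM
open Pool.Agent.Y124 (Cov)

/-- **Exceptional relations in small balls, families with torsors.** -/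
theorem excTB {X σ : Type} [Fintype X] [DecidableEq X] [Nonempty X] [Fintype σ] [DecidableEq σ]
    {U : Set (X → ℂ)} {f : σ → (X → ℂ) → ℂ} {Tor : (X → ℂ) → Set (σ → ℂ)} (hU : IsPreconnected U)
    (hUo : IsOpen U) (hne : U.Nonempty) (hf : ∀ i, AnalyticOnNhd ℂ (f i) U) (hT : TorM U f Tor) (Lc : Set (X → ℂ))
    (hLc : IsCompact Lc) (hLU : Lc ⊆ U) (δ : ℕ) (h : Type) [Fintype h] [DecidableEq h] (m : ℕ) (A η : ℝ)
    (hη : 0 < η) : ∃ (D C : ℕ) (T₀ : ℝ), 2 ≤ T₀ ∧
      ∀ (K : Type) [Field K] [NumberField K], Module.finrank ℚ K ≤ m → ∀ (io : K →+* ℂ) (ξ : h → ℂ) (T : ℝ),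
        T₀ ≤ T → ∀ t₀ : X → ℂ, Cov D C (((fun (s : X → K) j => io (s j)) '' ExcT δ f Tor Lc K io ξ A T) ∩
          {t | ‖t - t₀‖ ≤ T ^ (-η)}) := by
  classical
  obtain ⟨D, C, T₀, hT₀, H⟩ := excB hU hUo hne hf (hT.reg hU hf) Lc hLc hLU δ
    ((σ → Fin (δ + 1)) × h) Unit m A η hη
  refine ⟨D, C, T₀, hT₀, fun K _ _ hK io ξ T hT0 t₀ => ?_⟩
  exact (H K hK io (fun _ l p => if p.1 = l then ξ p.2 else 0) T hT0 t₀).mono le_rfl le_rfl
    (Set.inter_subset_inter_left _ (Set.image_mono (excT_sub δ hT hLU K io ξ A T)))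

/-- **Families with symplectic monodromy, small balls.** -/
theorem sympB {X : Type} [Fintype X] [DecidableEq X] {ι : Type} [Fintype ι] [DecidableEq ι] {n : ι → ℕ} [Nonempty X]
    (F : SympFam X n) (k : ℕ) (η : ℝ) (hη : 0 < η) : ∃ (D C : ℕ) (T₀ : ℝ), 2 ≤ T₀ ∧
      ∀ (K : Type) [Field K] [NumberField K], Module.finrank ℚ K ≤ k → ∀ (io : K →+* ℂ) (ξ : Fin k → ℂ) (T : ℝ),
        T₀ ≤ T → ∀ t₀ : X → ℂ, Cov D C (((fun (e : X → K) j => io (e j)) '' F.Exceptional k K io ξ T) ∩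
          {t | ‖t - t₀‖ ≤ T ^ (-η)}) := by
  classical
  rcases Nat.eq_zero_or_pos k with hk | hk
  · refine ⟨0, 0, 2, le_rfl, ?_⟩
    intro K _ _ hK
    have h1 : 0 < Module.finrank ℚ K := Module.finrank_pos
    omega
  have hf : ∀ q, AnalyticOnNhd ℂ (F.f q) F.U := fun q => F.an q.1 q.2.1 q.2.2
  obtain ⟨D, C, T₀, hT₀, H⟩ := excTB F.conn F.isOpen F.nonempty hf F.tor (InnerM F.U k) (innerM_compact _ _)
    (innerM_sub _ hk) k (Fin k) k (k : ℝ) η hη
  refine ⟨D, C + C, T₀, hT₀, fun K _ _ hK io ξ T hT0 t₀ => ?_⟩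
  have h1 := (H K hK io ξ T hT0 t₀).union (H K hK io (fun a : Fin k => tpi ^ (a : ℕ)) T hT0 t₀)
  refine h1.mono le_rfl le_rfl ?_
  rintro _ ⟨⟨e, he, rfl⟩, ht⟩
  rcases F.exceptional_sub k hk K io ξ T he with h2 | h2
  · exact Or.inl ⟨⟨e, h2, rfl⟩, ht⟩
  · exact Or.inr ⟨⟨e, h2, rfl⟩, ht⟩

/-- the zeros of a polynomial in a product set -/
theorem zeros_prod {X K : Type} [Fintype X] [DecidableEq X] [Field K] (P : MvPolynomial X ℂ) (hP : P ≠ 0)
    (e : K →+* ℂ) (B : X → Finset K) (E : Finset (X → K))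
    (hE : ∀ s ∈ E, (∀ j, s j ∈ B j) ∧ MvPolynomial.eval (fun j => e (s j)) P = 0) :
    E.card ≤ P.totalDegree * ∑ j, ∏ i ∈ Finset.univ.erase j, (B i).card := by
  classical
  rcases E.eq_empty_or_nonempty with h0 | ⟨s₀, hs₀⟩
  · rw [h0, Finset.card_empty]
    exact Nat.zero_le _
  have hpos : ∀ j, 0 < (B j).card := fun j => Finset.card_pos.2 ⟨s₀ j, (hE s₀ hs₀).1 j⟩
  let τ : X ≃ Fin (Fintype.card X) := Fintype.equivFin X
  set P' := MvPolynomial.rename τ P with hP'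
  have hP'0 : P' ≠ 0 := by
    rw [hP', Ne, (MvPolynomial.rename_injective τ τ.injective).eq_iff' (map_zero _)]
    exact hP
  set S : Fin (Fintype.card X) → Finset ℂ := fun j => (B (τ.symm j)).image e with hS
  have hSc : ∀ j, (S j).card = (B (τ.symm j)).card := fun j => Finset.card_image_of_injective _ e.injective
  have h1 := MvPolynomial.schwartz_zippel_sum_degreeOf hP'0 S
  set Z := (Fintype.piFinset S).filter fun x => MvPolynomial.eval x P' = 0 with hZ
  have h2 : E.card ≤ Z.card := by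
    refine Finset.card_le_card_of_injOn (fun s j => e (s (τ.symm j))) ?_ ?_
    · intro s hs
      rw [Finset.mem_coe, hZ, Finset.mem_filter, Fintype.mem_piFinset]
      refine ⟨fun j => Finset.mem_image_of_mem _ ((hE s hs).1 _), ?_⟩
      rw [hP', MvPolynomial.eval_rename, ← (hE s hs).2]
      congr 2
      funext x
      simp
    · intro s _ s' _ h
      funext j
      have h3 := congrFun h (τ j)
      simp only [Equiv.symm_apply_apply] at h3
      exact e.injective h3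
  have hdeg : ∀ j, P'.degreeOf j ≤ P.totalDegree := fun j =>
    (MvPolynomial.degreeOf_le_totalDegree _ _).trans (MvPolynomial.totalDegree_rename_le _ _)
  have h3 : (Z.card : ℚ) / ∏ i, ((B (τ.symm i)).card : ℚ) ≤ ∑ i, (P'.degreeOf i : ℚ) / (B (τ.symm i)).card := by
    have h4 : (((Z.card : ℚ≥0) / ∏ i, ((S i).card : ℚ≥0) : ℚ≥0) : ℚ) ≤
        ((∑ i, (P'.degreeOf i : ℚ≥0) / (S i).card : ℚ≥0) : ℚ) := by exact_mod_cast h1
    push_cast at h4
    simpa only [hSc] using h4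
  have hprodτ : ∏ i, ((B (τ.symm i)).card : ℚ) = ∏ i, ((B i).card : ℚ) :=
    Equiv.prod_comp τ.symm fun i => ((B i).card : ℚ)
  have hsumτ : ∑ i, (P'.degreeOf i : ℚ) / (B (τ.symm i)).card ≤ ∑ i, (P.totalDegree : ℚ) / (B i).card := by
    rw [← Equiv.sum_comp τ.symm fun i => (P.totalDegree : ℚ) / ((B i).card : ℚ)]
    refine Finset.sum_le_sum fun i _ => ?_
    refine div_le_div_of_nonneg_right ?_ (Nat.cast_nonneg _)
    exact_mod_cast hdeg i
  have hprod : (0 : ℚ) < ∏ i, ((B i).card : ℚ) := Finset.prod_pos fun i _ => by exact_mod_cast hpos i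
  rw [hprodτ] at h3
  have h5 := (div_le_iff₀ hprod).1 (h3.trans hsumτ)
  have h6 : (∑ i, (P.totalDegree : ℚ) / (B i).card) * ∏ i, ((B i).card : ℚ) =
      P.totalDegree * ∑ j, ∏ i ∈ Finset.univ.erase j, ((B i).card : ℚ) := by
    rw [Finset.sum_mul, Finset.mul_sum]
    refine Finset.sum_congr rfl fun j _ => ?_
    rw [← Finset.mul_prod_erase Finset.univ _ (Finset.mem_univ j)]
    have h7 : ((B j).card : ℚ) ≠ 0 := by exact_mod_cast (hpos j).ne'
    rw [← mul_assoc, div_mul_cancel₀ _ h7]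
  rw [h6] at h5
  have h7 : Z.card ≤ P.totalDegree * ∑ j, ∏ i ∈ Finset.univ.erase j, (B i).card := by exact_mod_cast h5
  exact h2.trans h7

/-- points covered by few hypersurfaces in a product set -/
theorem cov_prod {X K : Type} [Fintype X] [DecidableEq X] [Field K] {D m : ℕ} (e : K →+* ℂ) (B : X → Finset K)
    (S : Set (X → ℂ)) (h : Cov D m S) (E : Finset (X → K))
    (hE : ∀ s ∈ E, (∀ j, s j ∈ B j) ∧ (fun j => e (s j)) ∈ S) :
    E.card ≤ m * D * ∑ j, ∏ i ∈ Finset.univ.erase j, (B i).card := by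
  classical
  obtain ⟨Φ, h1, h2, h3⟩ := h
  have hsub : E ⊆ Φ.biUnion fun P => E.filter fun s => MvPolynomial.eval (fun j => e (s j)) P = 0 := by
    intro s hs
    obtain ⟨P, hP, hP0⟩ := h3 _ (hE s hs).2
    rw [Finset.mem_biUnion]
    exact ⟨P, hP, Finset.mem_filter.2 ⟨hs, hP0⟩⟩
  set R := ∑ j, ∏ i ∈ Finset.univ.erase j, (B i).card with hR
  calc E.card ≤ ∑ P ∈ Φ, (E.filter fun s => MvPolynomial.eval (fun j => e (s j)) P = 0).card :=
        (Finset.card_le_card hsub).trans Finset.card_biUnion_le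
    _ ≤ ∑ _P ∈ Φ, D * R := by
        refine Finset.sum_le_sum fun P hP => ?_
        refine (zeros_prod P (h2 P hP).1 e B _ fun s hs => ?_).trans (Nat.mul_le_mul_right _ (h2 P hP).2)
        exact ⟨(hE s (Finset.mem_filter.1 hs).1).1, (Finset.mem_filter.1 hs).2⟩
    _ = Φ.card * (D * R) := by rw [Finset.sum_const, smul_eq_mul]
    _ ≤ m * (D * R) := Nat.mul_le_mul_right _ h1
    _ = m * D * R := by ring

end Pool.Agent.R349.MVB
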