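import Pool.Agent.R349.MVBall3
import Pool.Agent.Y985.OR.Final

/-!
# Families with orthogonal or symplectic monodromy: exceptional points in small balls (adapted from `Y985.OR`)
-/

set_option autoImplicit false
set_option linter.unusedSectionVars false

open NumberField Filter Matrix

namespace Pool.Agent.R349.MVB

open Pool.Agent.Y890.MV (RegularM InnerM innerM_compact innerM_sub)
open Pool.Agent.Y119.PLM (MT Ix GalT)
open Pool.Agent.Y985.OR Pool.Agent.Y985.OR.WrapAux Pool.Agent.Y985.OR.FinAux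
open Pool.Agent.Y124 (Cov)

/-- systems given by polynomials, small balls -/
theorem wrapB {X σ : Type} [Fintype X] [DecidableEq X] [Nonempty X]
    [Fintype σ] [DecidableEq σ] {U : Set (X → ℂ)} {f : σ → (X → ℂ) → ℂ} (hU : IsPreconnected U)
    (hUo : IsOpen U) (hne : U.Nonempty) (hf : ∀ i, AnalyticOnNhd ℂ (f i) U) (hreg : RegularM U f) (Lc : Set (X → ℂ))
    (hLc : IsCompact Lc) (hLU : Lc ⊆ U) (δ : ℕ) (h r : Type) [Fintype h]
    [DecidableEq h] [Fintype r] [DecidableEq r] (m : ℕ) (A η : ℝ) (hη : 0 < η) : ∃ (D C : ℕ) (T₀ : ℝ), 2 ≤ T₀ ∧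
      ∀ (K : Type) [Field K] [NumberField K], Module.finrank ℚ K ≤ m → ∀ (io : K →+* ℂ)
        (B : r → h → MvPolynomial σ ℂ), (∀ ρ i y, (B ρ i).degreeOf y ≤ δ) → ∀ (T : ℝ), T₀ ≤ T → ∀ t₀ : X → ℂ,
        Cov D C (((fun (s : X → K) j => io (s j)) '' ExcB U f Lc K io B A T) ∩ {t | ‖t - t₀‖ ≤ T ^ (-η)}) := by
  obtain ⟨D, C, T₀, hT₀, H⟩ := excB hU hUo hne hf hreg Lc hLc hLU δ h r m A η hη
  refine ⟨D, C, T₀, hT₀, fun K _ _ hK io B hB T hT t₀ => ?_⟩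
  refine (H K hK io (Xi δ B) T hT t₀).mono le_rfl le_rfl (Set.inter_subset_inter_left _ (Set.image_mono ?_))
  rintro s ⟨h1, h2, c, h3, h4, h5⟩
  refine ⟨h1, h2, c, h3, ?_, ?_⟩
  · rw [sysM_iff f B hB]
    exact h4
  · rintro ⟨G, hG1, hG2⟩
    apply h5
    refine ⟨G, hG1, fun x hx => ?_⟩
    have h6 := hG2 x hx
    rw [sysM_iff f B hB] at h6
    exact h6

/-- **Families with orthogonal or symplectic monodromy, small balls.** -/
theorem orthB {X κ : Type} [Fintype X] [DecidableEq X] [Nonempty X] [Fintype κ] [DecidableEq κ]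
    {n : κ → ℕ} {J : MT n} {J' : (j : κ) → Matrix (Fin (n j)) (Fin (n j)) (MvPolynomial X ℂ)} {U : Set (X → ℂ)}
    {Y : (X → ℂ) → MT n} (hFam : Fam J J' U Y) (hD : DenseS U Y J) (k : ℕ) (η : ℝ) (hη : 0 < η) :
    ∃ (D C : ℕ) (T₀ : ℝ), 2 ≤ T₀ ∧
      ∀ (K : Type) [Field K] [NumberField K], Module.finrank ℚ K ≤ k → ∀ (io : K →+* ℂ) (ξ : Fin k → ℂ) (T : ℝ),
        T₀ ≤ T → ∀ t₀ : X → ℂ, Cov D C (((fun (e : X → K) j => io (e j)) '' ExcE J J' U Y K io k ξ T) ∩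
          {t | ‖t - t₀‖ ≤ T ^ (-η)}) := by
  classical
  rcases Nat.eq_zero_or_pos k with hk | hk
  · refine ⟨0, 0, 2, le_rfl, ?_⟩
    intro K _ _ hK
    have h1 : 0 < Module.finrank ℚ K := Module.finrank_pos
    omega
  have hgal : ∀ g, IsoS J g → g ∈ GalT U Y := fun g hg => so_mem hFam.pre hFam.an hD g hg
  have hsec : ∀ j, Sec (J j) (J' j) := sec_all (secs sq) seck hFam
  obtain ⟨E, hEok⟩ := ee κ n J hFam.ss
  obtain ⟨part, hpart⟩ := Pool.Agent.Y985.OR.part (Ix n) κ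
  have hreg : RegularM U (fe E Y) := reg' X κ n J J' U Y hFam hsec hgal E hEok
  have hf : ∀ i, AnalyticOnNhd ℂ (fe E Y i) U := fe_an hFam E
  obtain ⟨δ, hδ⟩ := bsys_deg E part k
  obtain ⟨D, C₀, T₀, hT₀, H⟩ := wrapB hFam.pre hFam.op hFam.ne hf hreg (InnerM U k) (innerM_compact _ _)
    (innerM_sub _ hk) δ ((κ → ℤˣ) → (Ix n → Fin (k + 1)) × Fin k) (((κ → ℤˣ) → (κ → ℤˣ)) × Finset κ) k
    ((k : ℝ) * ((Fintype.card (κ → ℤˣ) : ℕ) : ℝ)) η hη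
  obtain ⟨N, hN⟩ : ∃ N : ℕ, N = (Finset.univ : Finset (Finset (κ → ℤˣ))).card := ⟨_, rfl⟩
  refine ⟨D, N * C₀, T₀, hT₀, fun K _ _ hK io ξ T hT t₀ => ?_⟩
  have hT1 : 1 ≤ T := by linarith
  have hcov0 : ∀ Z : Finset (κ → ℤˣ), Cov D C₀ (((fun (s : X → K) j => io (s j)) ''
      ExcB U (fe E Y) (InnerM U k) K io (Bsys E part k ξ Z)
        ((k : ℝ) * ((Fintype.card (κ → ℤˣ) : ℕ) : ℝ)) T) ∩ {t | ‖t - t₀‖ ≤ T ^ (-η)}) := fun Z =>
    H K hK io (Bsys E part k ξ Z) (fun ρ i y => hδ ξ Z ρ i y) T hT t₀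
  have hsub := exc' X κ n J J' U Y hFam hgal E hEok part hpart K io k ξ T hk hT1
  have hun := Cov.biUnion (Finset.univ : Finset (Finset (κ → ℤˣ))) (fun Z =>
    ((fun (s : X → K) j => io (s j)) ''
      ExcB U (fe E Y) (InnerM U k) K io (Bsys E part k ξ Z)
        ((k : ℝ) * ((Fintype.card (κ → ℤˣ) : ℕ) : ℝ)) T) ∩ {t | ‖t - t₀‖ ≤ T ^ (-η)}) (fun Z _ => hcov0 Z)
  rw [← hN] at hun
  refine hun.mono le_rfl le_rfl ?_
  rintro _ ⟨⟨s, hs, rfl⟩, hst⟩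
  obtain ⟨Z, hZ⟩ := Set.mem_iUnion.1 (hsub (excE_sub J J' U Y K io k ξ T hs))
  simp only [Finset.mem_univ, Set.iUnion_true]
  exact Set.mem_iUnion.2 ⟨Z, ⟨s, hZ, rfl⟩, hst⟩

end Pool.Agent.R349.MVB
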