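import Pool.Agent.R349.MVBall3
import Pool.Agent.Y890.VH.CM

/-!
# Endomorphisms and points with complex multiplication in small balls (adapted from `Y890.VH`)
-/

set_option autoImplicit false
set_option linter.unusedSectionVars false

open NumberField Filter

namespace Pool.Agent.R349.MVB

open Pool.Agent.Y890.MV Pool.Agent.Y890.VH
open Pool.Agent.Y890.SP (Qbar)
open Pool.Agent.Y124 (Cov)

section P

variable {X σ : Type} [Fintype σ] [DecidableEq σ] {h r : Type} [Fintype h] [DecidableEq h] [Fintype r] [DecidableEq r]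

theorem excPB [Fintype X] [DecidableEq X] [Nonempty X] {U : Set (X → ℂ)} {f : σ → (X → ℂ) → ℂ}
    (hU : IsPreconnected U) (hUo : IsOpen U) (hne : U.Nonempty) (hf : ∀ i, AnalyticOnNhd ℂ (f i) U)
    (hreg : RegularM U f) (Lc : Set (X → ℂ)) (hLc : IsCompact Lc) (hLU : Lc ⊆ U)
    (P : r → h → MvPolynomial σ ℂ) (m : ℕ) (A η : ℝ) (hη : 0 < η) : ∃ (D C : ℕ) (T₀ : ℝ), 2 ≤ T₀ ∧
      ∀ (K : Type) [Field K] [NumberField K], Module.finrank ℚ K ≤ m → ∀ (io : K →+* ℂ) (T : ℝ), T₀ ≤ T →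
        ∀ t₀ : X → ℂ, Cov D C (((fun (s : X → K) j => io (s j)) '' ExcP U f Lc K io P A T) ∩
          {t | ‖t - t₀‖ ≤ T ^ (-η)}) := by
  classical
  set δ : ℕ := ∑ ρ, ∑ i, ∑ y, (P ρ i).degreeOf y with hδ
  have hP : ∀ ρ i y, (P ρ i).degreeOf y ≤ δ := by
    intro ρ i y
    have h1 : (P ρ i).degreeOf y ≤ ∑ y, (P ρ i).degreeOf y :=
      Finset.single_le_sum (f := fun y => (P ρ i).degreeOf y) (fun _ _ => Nat.zero_le _) (Finset.mem_univ y)
    have h2 : ∑ y, (P ρ i).degreeOf y ≤ ∑ i, ∑ y, (P ρ i).degreeOf y :=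
      Finset.single_le_sum (f := fun i => ∑ y, (P ρ i).degreeOf y) (fun _ _ => Nat.zero_le _) (Finset.mem_univ i)
    have h3 : ∑ i, ∑ y, (P ρ i).degreeOf y ≤ δ :=
      Finset.single_le_sum (f := fun ρ => ∑ i, ∑ y, (P ρ i).degreeOf y) (fun _ _ => Nat.zero_le _)
        (Finset.mem_univ ρ)
    exact h1.trans (h2.trans h3)
  obtain ⟨D, C, T₀, hT₀, H⟩ := excB hU hUo hne hf hreg Lc hLc hLU δ h r m A η hη
  refine ⟨D, C, T₀, hT₀, fun K _ _ hK io T hT t₀ => ?_⟩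
  refine (H K hK io (fun ρ l i => (P ρ i).coeff (toF l)) T hT t₀).mono le_rfl le_rfl
    (Set.inter_subset_inter_left _ (Set.image_mono ?_))
  rintro s ⟨h1, h2, c, h3, h4, h5⟩
  refine ⟨h1, h2, c, h3, ?_, ?_⟩
  · rw [sysM_iff f P hP]
    exact h4
  · rintro ⟨G, hG1, hG2⟩
    apply h5
    have hae : ∀ (x : X → ℂ) (p : MvPolynomial X Qbar),
        MvPolynomial.eval x (MvPolynomial.map (algebraMap Qbar ℂ) p) = MvPolynomial.aeval x p := by
      intro x p
      rw [MvPolynomial.eval_map]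
      rfl
    refine ⟨fun i => MvPolynomial.map (algebraMap Qbar ℂ) (G i), fun i => ?_, fun x hx => ?_⟩
    · rw [hae]
      exact hG1 i
    · have h6 := hG2 x hx
      rw [sysM_iff f P hP] at h6
      intro ρ
      simp only [hae]
      exact h6 ρ

end P

section I

variable {X σ Q R C h : Type} [Fintype X] [DecidableEq X] [Nonempty X] [Fintype σ] [DecidableEq σ] [Fintype Q]
  [DecidableEq Q] [Fintype R] [DecidableEq R] [Fintype C] [DecidableEq C] [Fintype h] [DecidableEq h]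

/-- **Conditions and their transforms, small balls.** -/
theorem excIB {U : Set (X → ℂ)} {f : σ → (X → ℂ) → ℂ}
    (hU : IsPreconnected U) (hUo : IsOpen U) (hne : U.Nonempty) (hf : ∀ i, AnalyticOnNhd ℂ (f i) U)
    (hreg : RegularM U f) (Lc : Set (X → ℂ)) (hLc : IsCompact Lc) (hLU : Lc ⊆ U)
    (A : Q → R → C → MvPolynomial σ ℂ) (W : Q → h → R → MvPolynomial σ ℂ) (𝒢 : Set ((σ → ℂ) → (σ → ℂ)))
    (hinv : ∀ g ∈ 𝒢, ∀ p : MvPolynomial σ (MvPolynomial X ℂ), (∀ x ∈ U, evM f x p = 0) →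
      ∀ x ∈ U, evX x (g fun y => f y x) p = 0)
    (hrk : ∀ g ∈ 𝒢, ∀ x ∈ U, ∀ q, Module.finrank ℂ (cols fun m e => MvPolynomial.eval (g fun y => f y x) (A q m e)) =
      Module.finrank ℂ (cols fun m e => MvPolynomial.eval (fun y => f y x) (A q m e)))
    (m : ℕ) (a η : ℝ) (ha : 0 ≤ a) (hη : 0 < η) : ∃ (D' C' : ℕ) (T₀ : ℝ), 2 ≤ T₀ ∧
      ∀ (K : Type) [Field K] [NumberField K], Module.finrank ℚ K ≤ m → ∀ (io : K →+* ℂ) (T : ℝ), T₀ ≤ T →
        ∀ t₀ : X → ℂ, Cov D' C' (((fun (s : X → K) j => io (s j)) '' ExcI f Lc K io A W 𝒢 a T) ∩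
          {t | ‖t - t₀‖ ≤ T ^ (-η)}) := by
  classical
  -- the generic ranks
  have hmax : ∀ q, ∃ x0 ∈ U, ∀ x ∈ U,
      Module.finrank ℂ (cols fun m e => MvPolynomial.eval (fun y => f y x) (A q m e)) ≤
      Module.finrank ℂ (cols fun m e => MvPolynomial.eval (fun y => f y x0) (A q m e)) := by
    intro q
    refine exists_max_rank hne
      (fun x => Module.finrank ℂ (cols fun m e => MvPolynomial.eval (fun y => f y x) (A q m e))) (Fintype.card R) ?_
    intro x _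
    refine (Submodule.finrank_le _).trans ?_
    rw [Module.finrank_fintype_fun_eq_card]
  choose x0 hx0 hx0max using hmax
  set n : Q → ℕ := fun q =>
    Module.finrank ℂ (cols fun m e => MvPolynomial.eval (fun y => f y (x0 q)) (A q m e)) with hn
  have hmin : ∀ q, ∃ (ι : Fin (n q) → R) (κ : Fin (n q) → C),
      (Matrix.of fun a b => MvPolynomial.eval (fun y => f y (x0 q)) (A q (ι a) (κ b))).det ≠ 0 := fun q =>
    exists_minor _ (n q) rfl
  choose ι κ hικ using hmin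
  -- the product of the minors
  set P0 : Q → MvPolynomial σ ℂ := fun q => (Matrix.of fun a b => A q (ι q a) (κ q b)).det with hP0
  have hP0ev : ∀ (q : Q) (y : σ → ℂ), MvPolynomial.eval y (P0 q) =
      (Matrix.of fun a b => MvPolynomial.eval y (A q (ι q a) (κ q b))).det := by
    intro q y
    rw [hP0, RingHom.map_det]
    rfl
  have hprime := relM_prime hU hUo hne hf
  have hP0n : ∀ q, MvPolynomial.map MvPolynomial.C (P0 q) ∉ relM U f := by
    intro q hq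
    have h1 := hq (x0 q) (hx0 q)
    rw [evM_eq, evX_C', hP0ev] at h1
    exact hικ q h1
  have hPP : MvPolynomial.map MvPolynomial.C (∏ q, P0 q) ∉ relM U f := by
    rw [map_prod]
    intro h1
    obtain ⟨q, _, hq⟩ := (hprime.prod_mem_iff).1 h1
    exact hP0n q hq
  obtain ⟨D₁, C₁, T₁, hT₁, H₁⟩ := excPB hU hUo hne hf hreg Lc hLc hLU
    (fun (_ : Unit) (_ : Unit) => ∏ q, P0 q) m a η hη
  obtain ⟨D₂, C₂, T₂, hT₂, H₂⟩ := excPB hU hUo hne hf hreg Lc hLc hLU
    (fun (ρ : Σ q : Q, (Fin (n q) → R) × (Fin (n q) → C) × R) (j : h) =>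
      D ρ.2.1 ρ.2.2.1 ρ.2.2.2 (A ρ.1) (W ρ.1 j)) m a η hη
  refine ⟨max D₁ D₂, C₁ + C₂, max T₁ T₂, hT₁.trans (le_max_left _ _), ?_⟩
  intro K _ _ hK io T hT t₀
  have hT1 : T₁ ≤ T := (le_max_left _ _).trans hT
  have hT2 : T₂ ≤ T := (le_max_right _ _).trans hT
  have hTp : 1 ≤ T := by linarith
  have h1 := (H₁ K hK io T hT1 t₀).mono (le_max_left D₁ D₂) le_rfl (Set.Subset.refl _)
  have h2 := (H₂ K hK io T hT2 t₀).mono (le_max_right D₁ D₂) le_rfl (Set.Subset.refl _)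
  refine (h1.union h2).mono le_rfl le_rfl ?_
  rw [← Set.union_inter_distrib_right, ← Set.image_union]
  refine Set.inter_subset_inter_left _ (Set.image_mono ?_)
  rintro s ⟨hs1, hs2, c, hc, hinc, g, hg, hng⟩
  by_contra hcon
  rw [Set.mem_union, not_or] at hcon
  obtain ⟨hcon1, hcon2⟩ := hcon
  have hsU : (fun j => io (s j)) ∈ U := hLU hs2
  set y0 : σ → ℂ := fun y => f y fun j => io (s j) with hy0
  -- the minors do not vanish
  have h3 : MvPolynomial.eval y0 (∏ q, P0 q) ≠ 0 := by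
    intro h0
    apply hcon1
    refine ⟨hs1, hs2, fun _ => 1, ?_, ?_, ?_⟩
    · intro _ φ
      have h4 : φ (((1 : 𝓞 K) : 𝓞 K) : K) = 1 := by simp
      beta_reduce
      rw [h4, norm_one]
      exact Real.one_le_rpow hTp ha
    · intro _
      rw [Fintype.sum_unique]
      rw [h0, mul_zero]
    · rintro ⟨G, hG1, hG2⟩
      have h4 : MvPolynomial.C (G ()) * MvPolynomial.map MvPolynomial.C (∏ q, P0 q) ∈ relM U f := by
        intro x hx
        have h5 := hG2 x hx ()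
        rw [Fintype.sum_unique] at h5
        rw [evM_mul, evM_C, evM_eq, evX_C']
        exact h5
      rcases hprime.mem_or_mem h4 with h5 | h5
      · have h6 := h5 _ hsU
        rw [evM_C] at h6
        have h7 := hG1 ()
        rw [h6] at h7
        simp at h7
      · exact hPP h5
  have h3' : ∀ q, MvPolynomial.eval y0 (P0 q) ≠ 0 := by
    intro q hq
    apply h3
    rw [map_prod]
    exact Finset.prod_eq_zero (Finset.mem_univ q) hq
  have hrank : ∀ q, Module.finrank ℂ (cols fun m e => MvPolynomial.eval y0 (A q m e)) = n q := by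
    intro q
    refine le_antisymm (hx0max q _ hsU) ?_
    refine rank_ge (ι q) (κ q) (fun m e => MvPolynomial.eval y0 (A q m e)) ?_
    rw [← hP0ev]
    exact h3' q
  -- the relations
  have hD : ∀ (y : σ → ℂ) (c : h → ℂ) (ρ : Σ q : Q, (Fin (n q) → R) × (Fin (n q) → C) × R),
      ∑ j, c j * MvPolynomial.eval y (D ρ.2.1 ρ.2.2.1 ρ.2.2.2 (A ρ.1) (W ρ.1 j)) =
        D ρ.2.1 ρ.2.2.1 ρ.2.2.2 (fun m e => MvPolynomial.eval y (A ρ.1 m e))
          (fun m => ∑ j, c j * MvPolynomial.eval y (W ρ.1 j m)) := by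
    intro y c ρ
    rw [D_sum]
    refine Finset.sum_congr rfl fun j _ => ?_
    rw [D_map]
  obtain ⟨G, hG1, hG2⟩ : ∃ G : h → MvPolynomial X ℂ,
      (∀ i, MvPolynomial.eval (fun j => io (s j)) (G i) = io (c i : K)) ∧
      ∀ x ∈ U, ∀ ρ : Σ q : Q, (Fin (n q) → R) × (Fin (n q) → C) × R,
        ∑ i, MvPolynomial.eval x (G i) * MvPolynomial.eval (fun y => f y x)
          (D ρ.2.1 ρ.2.2.1 ρ.2.2.2 (A ρ.1) (W ρ.1 i)) = 0 := by
    by_contra hno
    apply hcon2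
    refine ⟨hs1, hs2, c, hc, ?_, hno⟩
    intro ρ
    rw [hD]
    exact D_zero _ _ _ _ (hrank ρ.1).le _ (hinc ρ.1)
  apply hng
  intro q
  have hrg := hrk g hg _ hsU q
  rw [hrank q] at hrg
  obtain ⟨ι', κ', hικ'⟩ := exists_minor (fun m e => MvPolynomial.eval (g y0) (A q m e)) (n q) hrg
  refine D_mem ι' κ' _ hικ' _ ?_
  intro i
  have h5 := hinv g hg (∑ j, MvPolynomial.C (G j) * MvPolynomial.map MvPolynomial.C (D ι' κ' i (A q) (W q j))) (by
    intro x hx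
    rw [evM_eq, evX_sum']
    exact hG2 x hx ⟨q, ι', κ', i⟩) _ hsU
  rw [evX_sum'] at h5
  simp only [hG1] at h5
  rw [← hD (g y0) (fun j => io (c j : K)) ⟨q, ι', κ', i⟩]
  exact h5

end I

section E

variable {H J : Type} [Fintype H] [DecidableEq H] [Fintype J] [DecidableEq J] {r : J → ℕ}
  {X : Type} [Fintype X] [DecidableEq X] [Nonempty X]

theorem excEndB {U : Set (X → ℂ)} {f : Sg H J r → (X → ℂ) → ℂ}
    (hU : IsPreconnected U) (hUo : IsOpen U) (hne : U.Nonempty) (hf : ∀ i, AnalyticOnNhd ℂ (f i) U)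
    (hreg : RegularM U f) (Γ : Subgroup (GL H ℂ)) (hΓ : ∀ γ ∈ Γ, MonInv U f (γ : Matrix H H ℂ))
    (Lc : Set (X → ℂ)) (hLc : IsCompact Lc) (hLU : Lc ⊆ U)
    (m : ℕ) (a η : ℝ) (ha : 0 ≤ a) (hη : 0 < η) : ∃ (D' C' : ℕ) (T₀ : ℝ), 2 ≤ T₀ ∧
      ∀ (K : Type) [Field K] [NumberField K], Module.finrank ℚ K ≤ m → ∀ (io : K →+* ℂ) (T : ℝ), T₀ ≤ T →
        ∀ t₀ : X → ℂ, Cov D' C' (((fun (s : X → K) j => io (s j)) '' ExcEnd f Lc K io Γ a T) ∩
          {t | ‖t - t₀‖ ≤ T ^ (-η)}) := by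
  classical
  obtain ⟨D', C', T₀, hT₀, hcov⟩ := excIB (U := U) (f := f) hU hUo hne hf hreg Lc hLc hLU
    (AE (H := H) (J := J) (r := r)) WE {g | ∃ γ ∈ Γ, g = act (γ : Matrix H H ℂ)} (by
      rintro _ ⟨γ, hγ, rfl⟩ p hp x hx
      exact hΓ γ hγ p hp x hx) (by
      rintro _ ⟨γ, hγ, rfl⟩ x _ q
      rw [cols_AE, cols_AE]
      exact finrank_Fil_act γ _ _) m a η ha hη
  refine ⟨D', C', T₀, hT₀, fun K _ _ hK io T hT t₀ => ?_⟩
  refine (hcov K hK io T hT t₀).mono le_rfl le_rfl (Set.inter_subset_inter_left _ (Set.image_mono ?_))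
  rintro s ⟨h1, h2, M, hM, hP, γ, hγ, hn⟩
  refine ⟨h1, h2, fun ab => M ab.1 ab.2, fun ab φ => hM _ _ φ, ?_, _, ⟨γ, hγ, rfl⟩, ?_⟩
  · have h3 := (inc_iff (fun y => f y fun j => io (s j)) (Matrix.of fun i j => io (M i j : K))).2 hP
    exact h3
  · intro h3
    exact hn ((inc_iff _ (Matrix.of fun i j => io (M i j : K))).1 h3)

end E

end Pool.Agent.R349.MVB
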