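import Pool.Agent.R349.MVBall3
import Mathlib.RingTheory.Nullstellensatz

/-!
# Numbers which are values of polynomials in the periods of a family with symplectic monodromy
-/

set_option autoImplicit false
set_option linter.unusedSectionVars false

open NumberField Filter Matrix MvPolynomial

namespace Pool.Agent.R349.PC

open Pool.Agent.Y890.MV Pool.Agent.Y890.SM
open Pool.Agent.Y124 (Cov)

/-- points over an algebraically closed field -/
theorem exists_pt (k : Type) [Field k] [IsAlgClosed k] [Algebra k ℂ] {σ : Type} [Finite σ] (y : σ → ℂ) :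
    ∃ y₀ : σ → k, ∀ p : MvPolynomial σ k, aeval y p = 0 → eval y₀ p = 0 := by
  have h1 : RingHom.ker (aeval y : MvPolynomial σ k →ₐ[k] ℂ) ≠ ⊤ := by
    intro h
    have h2 : (1 : MvPolynomial σ k) ∈ RingHom.ker (aeval y : MvPolynomial σ k →ₐ[k] ℂ) := by
      rw [h]; trivial
    rw [RingHom.mem_ker, map_one] at h2
    exact one_ne_zero h2
  obtain ⟨M, hM, hle⟩ := Ideal.exists_le_maximal _ h1
  obtain ⟨x, hx⟩ := eq_vanishingIdeal_singleton_of_isMaximal k hM
  refine ⟨x, fun p hp => ?_⟩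
  have h2 : p ∈ M := hle (by rw [RingHom.mem_ker]; exact hp)
  rw [hx, mem_vanishingIdeal_singleton_iff] at h2
  exact h2

/-- the same for polynomials over `ℂ` with coefficients in the field -/
theorem exists_pt' (k : Type) [Field k] [IsAlgClosed k] [Algebra k ℂ] {σ : Type} [Finite σ] (y : σ → ℂ) :
    ∃ y₀ : σ → k, ∀ p : MvPolynomial σ ℂ, p ∈ (MvPolynomial.map (algebraMap k ℂ) : MvPolynomial σ k →+* _).range →
      eval y p = 0 → eval (fun i => algebraMap k ℂ (y₀ i)) p = 0 := by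
  obtain ⟨y₀, h⟩ := exists_pt k y
  refine ⟨y₀, ?_⟩
  rintro _ ⟨p, rfl⟩ hp
  have h1 : aeval y p = 0 := by
    rw [eval_map] at hp
    exact hp
  have h2 := h p h1
  rw [eval_map]
  have h3 := congrArg (algebraMap k ℂ) h2
  rw [map_zero, MvPolynomial.eval, MvPolynomial.coe_eval₂Hom, MvPolynomial.eval₂_comp_left] at h3
  exact h3

variable {X : Type} [Fintype X] [DecidableEq X] {ι : Type} [Fintype ι] [DecidableEq ι] {n : ι → ℕ}

/-- the polynomial with coefficients `c l` in the entries of the matrices `Y i`, of degree at most `k` in each entry -/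
noncomputable def pol {k : ℕ} {K : Type} [Field K] [NumberField K] (io : K →+* ℂ) (c : (Ix n → Fin (k + 1)) → 𝓞 K)
    (Y : ∀ i, Matrix (Fin (n i)) (Fin (n i)) ℂ) : ℂ :=
  ∑ l : Ix n → Fin (k + 1), io (c l : K) * ∏ y : Ix n, (Y y.1 y.2.1 y.2.2) ^ (l y : ℕ)

/-- reindexing -/
theorem reidx {k' : ℕ} {K : Type} [Field K] [NumberField K] (io : K →+* ℂ) {Λ : Type} [Fintype Λ]
    (s : Λ → (Ix n → Fin (k' + 1))) (d : Λ → Fin k' → 𝓞 K) (ξ : Fin k' → ℂ)
    (Y : ∀ i, Matrix (Fin (n i)) (Fin (n i)) ℂ) :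
    poly (fun l a => io ((∑ v, if s v = l then d v a else 0 : 𝓞 K) : K)) ξ Y =
      ∑ v, (∑ a, ξ a * io (d v a : K)) * ∏ y : Ix n, (Y y.1 y.2.1 y.2.2) ^ (s v y : ℕ) := by
  classical
  unfold poly
  have h1 : ∀ (l : Ix n → Fin (k' + 1)) (a : Fin k'), io ((∑ v, if s v = l then d v a else 0 : 𝓞 K) : K) =
      ∑ v, if s v = l then io (d v a : K) else 0 := by
    intro l a
    rw [show ((∑ v, if s v = l then d v a else 0 : 𝓞 K) : K) = algebraMap (𝓞 K) K (∑ v, if s v = l then d v a else 0)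
      from rfl, map_sum, map_sum]
    refine Finset.sum_congr rfl fun v _ => ?_
    split_ifs
    · rfl
    · simp
  simp_rw [h1]
  have h2 : ∀ l : Ix n → Fin (k' + 1), (∑ a, ξ a * ∑ v, if s v = l then io (d v a : K) else 0) =
      ∑ v, if s v = l then (∑ a, ξ a * io (d v a : K)) else 0 := by
    intro l
    simp_rw [Finset.mul_sum]
    rw [Finset.sum_comm]
    refine Finset.sum_congr rfl fun v _ => ?_
    split_ifs
    · rfl
    · simp
  have h3 : ∀ l : Ix n → Fin (k' + 1), (∑ a, ξ a * ∑ v, if s v = l then io (d v a : K) else 0) *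
      ∏ y : Ix n, (Y y.1 y.2.1 y.2.2) ^ (l y : ℕ) =
      ∑ v, (if s v = l then (∑ a, ξ a * io (d v a : K)) else 0) * ∏ y : Ix n, (Y y.1 y.2.1 y.2.2) ^ (l y : ℕ) := by
    intro l
    rw [h2, Finset.sum_mul]
  rw [Finset.sum_congr rfl fun l _ => h3 l, Finset.sum_comm]
  refine Finset.sum_congr rfl fun v _ => ?_
  rw [Finset.sum_eq_single (s v)]
  · rw [if_pos rfl]
  · intro l _ hl
    rw [if_neg (fun h => hl h.symm), zero_mul]
  · intro h
    exact absurd (Finset.mem_univ _) h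

/-- bounds for the reindexed coefficients -/
theorem reidx_bd {k' : ℕ} {K : Type} [Field K] [NumberField K] {Λ : Type} [Fintype Λ]
    (s : Λ → (Ix n → Fin (k' + 1))) (d : Λ → Fin k' → 𝓞 K) {B : ℝ} (hB : 0 ≤ B)
    (hd : ∀ v a (φ : K →+* ℂ), ‖φ (d v a : K)‖ ≤ B) (l : Ix n → Fin (k' + 1)) (a : Fin k') (φ : K →+* ℂ) :
    ‖φ ((∑ v, if s v = l then d v a else 0 : 𝓞 K) : K)‖ ≤ Fintype.card Λ * B := by
  classical
  rw [show ((∑ v, if s v = l then d v a else 0 : 𝓞 K) : K) = algebraMap (𝓞 K) K (∑ v, if s v = l then d v a else 0)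
      from rfl, map_sum, map_sum]
  refine (norm_sum_le _ _).trans ?_
  have h1 : ∀ v ∈ (Finset.univ : Finset Λ), ‖φ (algebraMap (𝓞 K) K (if s v = l then d v a else 0))‖ ≤ B := by
    intro v _
    split_ifs
    · exact hd v a φ
    · rw [map_zero, map_zero, norm_zero]
      exact hB
  refine (Finset.sum_le_sum h1).trans ?_
  rw [Finset.sum_const, Finset.card_univ, nsmul_eq_mul]

/-- all conjugates are at most `T ^ k` -/
def Bd (k : ℕ) {K : Type} [Field K] [NumberField K] (T : ℝ) (x : 𝓞 K) : Prop :=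
  ∀ φ : K →+* ℂ, ‖φ (x : K)‖ ≤ T ^ k

/-- `z` and `1 / π` and the periods at `x` -/
def Good (F : SympFam X n) (k : ℕ) (K : Type) [Field K] [NumberField K] (io : K →+* ℂ) (T : ℝ) (z : ℂ)
    (x : X → ℂ) : Prop :=
  (∀ (q : 𝓞 K) (c : (Ix n → Fin (k + 1)) → 𝓞 K), Bd k T q → (∀ l, Bd k T (c l)) →
    io (q : K) * z = pol io c (fun i => F.P i x) →
      ∀ Y, (Y, tpi) ∈ F.torsor x → io (q : K) * z = pol io c Y) ∧
  (z ≠ 0 → ∀ (q : 𝓞 K) (c : (Ix n → Fin (k + 1)) → 𝓞 K), q ≠ 0 → Bd k T q → (∀ l, Bd k T (c l)) →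
    (∀ l, c l ≠ 0 → Odd (∑ y, (l y : ℕ))) → io (q : K) * z ≠ pol io c (fun i => F.P i x)) ∧
  (∀ (q : 𝓞 K) (c : (Ix n → Fin (k + 1)) → 𝓞 K), q ≠ 0 → Bd k T q → (∀ l, Bd k T (c l)) →
    io (q : K) * (Real.pi : ℂ)⁻¹ ≠ pol io c (fun i => F.P i x)) ∧
  (Transcendental (IntermediateField.adjoin ℚ {(Real.pi : ℂ)}) z →
    ∀ c : Fin (k + 1) → (Ix n → Fin (k + 1)) → 𝓞 K, (∀ a l, Bd k T (c a l)) →
      ∑ a : Fin (k + 1), z ^ (a : ℕ) * pol io (c a) (fun i => F.P i x) = 0 → ∀ a, pol io (c a) (fun i => F.P i x) = 0)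

/-- enlarging the bound of the exponents -/
def up {k k' : ℕ} (h : k ≤ k') (l : Ix n → Fin (k + 1)) : Ix n → Fin (k' + 1) := fun y => ⟨l y, by omega⟩

theorem rel1 {k k' : ℕ} (h : k ≤ k') (h2 : 2 ≤ k') {K : Type} [Field K] [NumberField K] (io : K →+* ℂ) {T : ℝ}
    (hT : 1 ≤ T) (hTk : ((Fintype.card (Option (Ix n → Fin (k + 1))) : ℕ) : ℝ) * T ^ k ≤ T ^ k')
    (q : 𝓞 K) (c : (Ix n → Fin (k + 1)) → 𝓞 K) (hq : Bd k T q) (hc : ∀ l, Bd k T (c l)) (z : ℂ) :
    ∃ c' : (Ix n → Fin (k' + 1)) → Fin k' → 𝓞 K, (∀ l a (φ : K →+* ℂ), ‖φ (c' l a : K)‖ ≤ T ^ k') ∧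
      ∀ Y, poly (fun l a => io (c' l a : K)) (fun a => z ^ (a : ℕ)) Y = io (q : K) * z - pol io c Y := by
  classical
  set s : Option (Ix n → Fin (k + 1)) → (Ix n → Fin (k' + 1)) := fun o => o.elim (fun _ => 0) (up h) with hs
  set d : Option (Ix n → Fin (k + 1)) → Fin k' → 𝓞 K := fun o a =>
    o.elim (if (a : ℕ) = 1 then q else 0) (fun l => if (a : ℕ) = 0 then - c l else 0) with hd
  have hT0 : (0 : ℝ) ≤ T ^ k := by positivity
  refine ⟨fun l a => ∑ v, if s v = l then d v a else 0, fun l a φ => ?_, fun Y => ?_⟩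
  · refine (reidx_bd s d hT0 ?_ l a φ).trans hTk
    rintro (_ | l) a φ
    · show ‖φ ((if (a : ℕ) = 1 then q else 0 : 𝓞 K) : K)‖ ≤ _
      split_ifs
      · exact hq φ
      · simpa using hT0
    · show ‖φ ((if (a : ℕ) = 0 then - c l else 0 : 𝓞 K) : K)‖ ≤ _
      split_ifs
      · have : ((- c l : 𝓞 K) : K) = - (c l : K) := rfl
        rw [this, map_neg, norm_neg]
        exact hc l φ
      · simpa using hT0
  · rw [reidx, Fintype.sum_option]
    have e1 : (∑ a : Fin k', z ^ (a : ℕ) * io (d none a : K)) = z * io (q : K) := by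
      rw [Finset.sum_eq_single (⟨1, by omega⟩ : Fin k')]
      · show z ^ 1 * io ((if (1 : ℕ) = 1 then q else 0 : 𝓞 K) : K) = _
        rw [if_pos rfl, pow_one]
      · intro b _ hb
        show z ^ (b : ℕ) * io ((if (b : ℕ) = 1 then q else 0 : 𝓞 K) : K) = 0
        rw [if_neg (fun h => hb (Fin.ext h))]
        simp
      · intro h; exact absurd (Finset.mem_univ _) h
    have e2 : ∀ l : Ix n → Fin (k + 1), (∑ a : Fin k', z ^ (a : ℕ) * io (d (some l) a : K)) = - io (c l : K) := by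
      intro l
      rw [Finset.sum_eq_single (⟨0, by omega⟩ : Fin k')]
      · show z ^ 0 * io ((if (0 : ℕ) = 0 then - c l else 0 : 𝓞 K) : K) = _
        rw [if_pos rfl, pow_zero, one_mul]
        have : ((- c l : 𝓞 K) : K) = - (c l : K) := rfl
        rw [this, map_neg]
      · intro b _ hb
        show z ^ (b : ℕ) * io ((if (b : ℕ) = 0 then - c l else 0 : 𝓞 K) : K) = 0
        rw [if_neg (fun h => hb (Fin.ext h))]
        simp
      · intro h; exact absurd (Finset.mem_univ _) h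
    rw [e1, Finset.sum_congr rfl fun l _ => by rw [e2 l]]
    have e3 : ∀ l : Ix n → Fin (k + 1), (∏ y : Ix n, Y y.1 y.2.1 y.2.2 ^ (s (some l) y : ℕ)) =
        ∏ y : Ix n, Y y.1 y.2.1 y.2.2 ^ (l y : ℕ) := fun l => rfl
    have e4 : (∏ y : Ix n, Y y.1 y.2.1 y.2.2 ^ (s none y : ℕ)) = 1 := by
      refine Finset.prod_eq_one fun y _ => ?_
      show Y y.1 y.2.1 y.2.2 ^ 0 = 1
      rw [pow_zero]
    rw [e4, mul_one, mul_comm z, sub_eq_add_neg, pol, ← Finset.sum_neg_distrib]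
    congr 1
    refine Finset.sum_congr rfl fun l _ => ?_
    rw [e3, neg_mul]

theorem rel3 {k k' : ℕ} (h : 2 * k ≤ k') (h2 : 3 ≤ k') {K : Type} [Field K] [NumberField K] (io : K →+* ℂ) {T : ℝ}
    (hT : 1 ≤ T) (hTk : ((Fintype.card (Option ((Ix n → Fin (k + 1)) × (Ix n → Fin (k + 1)))) : ℕ) : ℝ) *
      (4 * (T ^ k * T ^ k)) ≤ T ^ k')
    (q : 𝓞 K) (c : (Ix n → Fin (k + 1)) → 𝓞 K) (hq : Bd k T q) (hc : ∀ l, Bd k T (c l)) :
    ∃ c' : (Ix n → Fin (k' + 1)) → Fin k' → 𝓞 K, (∀ l a (φ : K →+* ℂ), ‖φ (c' l a : K)‖ ≤ T ^ k') ∧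
      ∀ (μ : ℂ) Y, poly (fun l a => io (c' l a : K)) (fun a => μ ^ (a : ℕ)) Y =
        4 * io (q : K) ^ 2 + μ ^ 2 * pol io c Y ^ 2 := by
  classical
  set s : Option ((Ix n → Fin (k + 1)) × (Ix n → Fin (k + 1))) → (Ix n → Fin (k' + 1)) := fun o =>
    o.elim (fun _ => 0) (fun p y => ⟨(p.1 y : ℕ) + (p.2 y : ℕ), by have := (p.1 y).2; have := (p.2 y).2; omega⟩) with hs
  set d : Option ((Ix n → Fin (k + 1)) × (Ix n → Fin (k + 1))) → Fin k' → 𝓞 K := fun o a =>
    o.elim (if (a : ℕ) = 0 then 4 * q ^ 2 else 0) (fun p => if (a : ℕ) = 2 then c p.1 * c p.2 else 0) with hd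
  have hT0 : (0 : ℝ) ≤ T ^ k := by positivity
  have hT1 : (0 : ℝ) ≤ 4 * (T ^ k * T ^ k) := by positivity
  refine ⟨fun l a => ∑ v, if s v = l then d v a else 0, fun l a φ => ?_, fun μ Y => ?_⟩
  · refine (reidx_bd s d hT1 ?_ l a φ).trans hTk
    rintro (_ | p) a φ
    · show ‖φ ((if (a : ℕ) = 0 then 4 * q ^ 2 else 0 : 𝓞 K) : K)‖ ≤ _
      split_ifs
      · have : ((4 * q ^ 2 : 𝓞 K) : K) = 4 * (q : K) ^ 2 := by push_cast; rfl
        rw [this, map_mul, map_pow, norm_mul, norm_pow, map_ofNat]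
        have h3 : ‖(4 : ℂ)‖ = 4 := by norm_num
        rw [h3, sq]
        exact mul_le_mul_of_nonneg_left (mul_le_mul (hq φ) (hq φ) (norm_nonneg _) hT0) (by norm_num)
      · simpa using hT1
    · show ‖φ ((if (a : ℕ) = 2 then c p.1 * c p.2 else 0 : 𝓞 K) : K)‖ ≤ _
      split_ifs
      · have : ((c p.1 * c p.2 : 𝓞 K) : K) = (c p.1 : K) * (c p.2 : K) := rfl
        rw [this, map_mul, norm_mul]
        have h3 := mul_le_mul (hc p.1 φ) (hc p.2 φ) (norm_nonneg _) hT0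
        have h4 : 0 ≤ T ^ k * T ^ k := by positivity
        linarith
      · simpa using hT1
  · rw [reidx, Fintype.sum_option]
    have e1 : (∑ a : Fin k', μ ^ (a : ℕ) * io (d none a : K)) = 4 * io (q : K) ^ 2 := by
      rw [Finset.sum_eq_single (⟨0, by omega⟩ : Fin k')]
      · show μ ^ 0 * io ((if (0 : ℕ) = 0 then 4 * q ^ 2 else 0 : 𝓞 K) : K) = _
        rw [if_pos rfl, pow_zero, one_mul]
        have : ((4 * q ^ 2 : 𝓞 K) : K) = 4 * (q : K) ^ 2 := by push_cast; rfl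
        rw [this, map_mul, map_pow, map_ofNat]
      · intro b _ hb
        show μ ^ (b : ℕ) * io ((if (b : ℕ) = 0 then 4 * q ^ 2 else 0 : 𝓞 K) : K) = 0
        rw [if_neg (fun h => hb (Fin.ext h))]
        simp
      · intro h; exact absurd (Finset.mem_univ _) h
    have e2 : ∀ p : (Ix n → Fin (k + 1)) × (Ix n → Fin (k + 1)),
        (∑ a : Fin k', μ ^ (a : ℕ) * io (d (some p) a : K)) = μ ^ 2 * (io (c p.1 : K) * io (c p.2 : K)) := by
      intro p
      rw [Finset.sum_eq_single (⟨2, by omega⟩ : Fin k')]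
      · show μ ^ 2 * io ((if (2 : ℕ) = 2 then c p.1 * c p.2 else 0 : 𝓞 K) : K) = _
        rw [if_pos rfl]
        have : ((c p.1 * c p.2 : 𝓞 K) : K) = (c p.1 : K) * (c p.2 : K) := rfl
        rw [this, map_mul]
      · intro b _ hb
        show μ ^ (b : ℕ) * io ((if (b : ℕ) = 2 then c p.1 * c p.2 else 0 : 𝓞 K) : K) = 0
        rw [if_neg (fun h => hb (Fin.ext h))]
        simp
      · intro h; exact absurd (Finset.mem_univ _) h
    have e3 : ∀ p : (Ix n → Fin (k + 1)) × (Ix n → Fin (k + 1)),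
        (∏ y : Ix n, Y y.1 y.2.1 y.2.2 ^ (s (some p) y : ℕ)) =
        (∏ y : Ix n, Y y.1 y.2.1 y.2.2 ^ (p.1 y : ℕ)) * ∏ y : Ix n, Y y.1 y.2.1 y.2.2 ^ (p.2 y : ℕ) := by
      intro p
      rw [← Finset.prod_mul_distrib]
      refine Finset.prod_congr rfl fun y _ => ?_
      show Y y.1 y.2.1 y.2.2 ^ ((p.1 y : ℕ) + (p.2 y : ℕ)) = _
      rw [pow_add]
    have e4 : (∏ y : Ix n, Y y.1 y.2.1 y.2.2 ^ (s none y : ℕ)) = 1 := by
      refine Finset.prod_eq_one fun y _ => ?_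
      show Y y.1 y.2.1 y.2.2 ^ 0 = 1
      rw [pow_zero]
    rw [e1, e4, mul_one]
    congr 1
    rw [Fintype.sum_prod_type, sq (pol io c Y), pol, Finset.sum_mul_sum, Finset.mul_sum]
    refine Finset.sum_congr rfl fun l₁ _ => ?_
    rw [Finset.mul_sum]
    refine Finset.sum_congr rfl fun l₂ _ => ?_
    rw [e2, e3]
    ring

theorem rel4 {k k' : ℕ} (h : k + 1 ≤ k') {K : Type} [Field K] [NumberField K] (io : K →+* ℂ) {T : ℝ}
    (hT : 1 ≤ T) (hTk : ((Fintype.card (Fin (k + 1) × (Ix n → Fin (k + 1))) : ℕ) : ℝ) * T ^ k ≤ T ^ k')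
    (c : Fin (k + 1) → (Ix n → Fin (k + 1)) → 𝓞 K) (hc : ∀ a l, Bd k T (c a l)) (z : ℂ) :
    ∃ c' : (Ix n → Fin (k' + 1)) → Fin k' → 𝓞 K, (∀ l a (φ : K →+* ℂ), ‖φ (c' l a : K)‖ ≤ T ^ k') ∧
      ∀ Y, poly (fun l a => io (c' l a : K)) (fun a => z ^ (a : ℕ)) Y =
        ∑ a : Fin (k + 1), z ^ (a : ℕ) * pol io (c a) Y := by
  classical
  set s : Fin (k + 1) × (Ix n → Fin (k + 1)) → (Ix n → Fin (k' + 1)) := fun p => up (by omega) p.2 with hs
  set d : Fin (k + 1) × (Ix n → Fin (k + 1)) → Fin k' → 𝓞 K := fun p a =>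
    if (a : ℕ) = p.1 then c p.1 p.2 else 0 with hd
  have hT0 : (0 : ℝ) ≤ T ^ k := by positivity
  refine ⟨fun l a => ∑ v, if s v = l then d v a else 0, fun l a φ => ?_, fun Y => ?_⟩
  · refine (reidx_bd s d hT0 ?_ l a φ).trans hTk
    rintro p a φ
    show ‖φ ((if (a : ℕ) = p.1 then c p.1 p.2 else 0 : 𝓞 K) : K)‖ ≤ _
    split_ifs
    · exact hc _ _ φ
    · simpa using hT0
  · rw [reidx, Fintype.sum_prod_type]
    refine Finset.sum_congr rfl fun b _ => ?_
    rw [pol, Finset.mul_sum]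
    refine Finset.sum_congr rfl fun l _ => ?_
    have e2 : (∑ a : Fin k', z ^ (a : ℕ) * io (d (b, l) a : K)) = z ^ (b : ℕ) * io (c b l : K) := by
      rw [Finset.sum_eq_single (⟨(b : ℕ), by have := b.2; omega⟩ : Fin k')]
      · show z ^ (b : ℕ) * io ((if (b : ℕ) = (b : ℕ) then c b l else 0 : 𝓞 K) : K) = _
        rw [if_pos rfl]
      · intro a _ ha
        show z ^ (a : ℕ) * io ((if (a : ℕ) = (b : ℕ) then c b l else 0 : 𝓞 K) : K) = 0
        rw [if_neg (fun h => ha (Fin.ext h))]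
        simp
      · intro h; exact absurd (Finset.mem_univ _) h
    rw [e2, mul_assoc]
    rfl

/-- the numbers which are algebraic over `ℚ(π)` -/
noncomputable abbrev Kp : Type := algebraicClosure (IntermediateField.adjoin ℚ {(Real.pi : ℂ)}) ℂ

instance : IsAlgClosed Kp := (algebraicClosure.isAlgClosure (F := IntermediateField.adjoin ℚ {(Real.pi : ℂ)})
  (E := ℂ)).isAlgClosed

theorem mem_Kp {z : ℂ} (hz : IsAlgebraic (IntermediateField.adjoin ℚ {(Real.pi : ℂ)}) z) :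
    ∃ w : Kp, algebraMap Kp ℂ w = z := ⟨⟨z, mem_algebraicClosure_iff.2 hz⟩, rfl⟩

theorem mem_Kp_alg {z : ℂ} (hz : IsAlgebraic ℚ z) : ∃ w : Kp, algebraMap Kp ℂ w = z :=
  mem_Kp (hz.tower_top _)

theorem tpi_Kp : ∃ w : Kp, algebraMap Kp ℂ w = tpi := by
  obtain ⟨i, hi⟩ := mem_Kp_alg (z := Complex.I) ⟨Polynomial.X ^ 2 + 1, by
    intro h
    have h1 := congrArg (Polynomial.eval 0) h
    simp at h1, by simp⟩
  obtain ⟨p, hp⟩ := mem_Kp (z := (Real.pi : ℂ)) (isAlgebraic_algebraMap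
    (⟨(Real.pi : ℂ), IntermediateField.mem_adjoin_simple_self ℚ _⟩ : IntermediateField.adjoin ℚ {(Real.pi : ℂ)}))
  exact ⟨2 * p * i, by rw [map_mul, map_mul, map_ofNat, hi, hp]; rfl⟩

theorem io_alg {K : Type} [Field K] [NumberField K] (io : K →+* ℂ) (a : K) : ∃ w : Kp, algebraMap Kp ℂ w = io a := by
  refine mem_Kp_alg ?_
  have h1 : IsAlgebraic ℚ a := Algebra.IsAlgebraic.isAlgebraic a
  obtain ⟨p, hp, hpa⟩ := h1
  refine ⟨p, hp, ?_⟩
  have h2 := congrArg io hpa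
  rw [map_zero, Polynomial.aeval_def, Polynomial.hom_eval₂] at h2
  rw [Polynomial.aeval_def, ← h2]
  congr 1
  exact RingHom.ext fun q => by simp

theorem transc (F : SympFam X n) {k : ℕ} {K : Type} [Field K] [NumberField K] (io : K →+* ℂ) (e : X → K)
    (he : (fun j => io (e j)) ∈ F.U) {z : ℂ}
    (hz : Transcendental (IntermediateField.adjoin ℚ {(Real.pi : ℂ)}) z)
    (c : Fin (k + 1) → (Ix n → Fin (k + 1)) → 𝓞 K)
    (H : ∀ Y, (Y, tpi) ∈ F.torsor (fun j => io (e j)) → ∑ a : Fin (k + 1), z ^ (a : ℕ) * pol io (c a) Y = 0)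
    (a₀ : Fin (k + 1)) : pol io (c a₀) (fun i => F.P i fun j => io (e j)) = 0 := by
  classical
  by_contra hne
  set x : X → ℂ := fun j => io (e j) with hx
  obtain ⟨tp, htp⟩ := tpi_Kp
  -- the values of the polarization
  have hQ : ∀ i a b, ∃ w : Kp, algebraMap Kp ℂ w = F.Qx x i a b := by
    intro i a b
    have h1 : F.Qx x i a b = MvPolynomial.aeval x (F.Q i a b) := rfl
    rw [h1]
    refine mem_Kp_alg ?_
    have h2 : MvPolynomial.aeval x (F.Q i a b) =
        algebraMap Y890.SP.Qbar ℂ (MvPolynomial.eval (fun j => Y890.SP.ioQ io (e j)) (F.Q i a b)) := by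
      rw [MvPolynomial.aeval_def, MvPolynomial.eval, MvPolynomial.coe_eval₂Hom, MvPolynomial.eval₂_comp_left]
      rfl
    rw [h2]
    exact mem_algebraicClosure_iff.1 (MvPolynomial.eval (fun j => Y890.SP.ioQ io (e j)) (F.Q i a b)).2
  choose q hq using hQ
  have hJ : ∀ i a b, algebraMap Kp ℂ (algebraMap ℚ Kp (F.J i a b)) = F.Jx i a b := by
    intro i a b
    rw [← IsScalarTower.algebraMap_apply]
    rfl
  choose cc hcc using fun (a : Fin (k + 1)) (l : Ix n → Fin (k + 1)) => io_alg io (c a l : K)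
  set y : Option (Ix n) → ℂ := fun o => o.elim (pol io (c a₀) (fun i => F.P i x))⁻¹ (fun r => F.P r.1 x r.2.1 r.2.2)
    with hy
  obtain ⟨y₀, hy₀⟩ := exists_pt' Kp y
  set Y₁ : ∀ i, Matrix (Fin (n i)) (Fin (n i)) ℂ := fun i a b => algebraMap Kp ℂ (y₀ (some ⟨i, (a, b)⟩)) with hY₁
  set Rg := (MvPolynomial.map (algebraMap Kp ℂ) : MvPolynomial (Option (Ix n)) Kp →+* _).range with hRg
  have hX : ∀ o, (MvPolynomial.X o : MvPolynomial (Option (Ix n)) ℂ) ∈ Rg := fun o => ⟨MvPolynomial.X o, by simp⟩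
  have hC : ∀ w : Kp, (C (algebraMap Kp ℂ w) : MvPolynomial (Option (Ix n)) ℂ) ∈ Rg := fun w => ⟨C w, by simp⟩
  have hmem : (Y₁, tpi) ∈ F.torsor x := by
    refine ⟨tpi_ne, fun i => ?_⟩
    ext a b
    set p : MvPolynomial (Option (Ix n)) ℂ :=
      (∑ u, (∑ v, MvPolynomial.X (some ⟨i, (a, v)⟩) * C (F.Qx x i v u)) * MvPolynomial.X (some ⟨i, (b, u)⟩)) -
        C (tpi ^ F.w i * F.Jx i a b) with hp
    have hpR : p ∈ Rg := by
      refine Subring.sub_mem _ (Subring.sum_mem _ fun u _ => Subring.mul_mem _ (Subring.sum_mem _ fun v _ =>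
        Subring.mul_mem _ (hX _) ?_) (hX _)) ?_
      · rw [← hq]; exact hC _
      · rw [← hJ, ← htp, ← map_pow, ← map_mul]; exact hC _
    have hev : ∀ (w : Option (Ix n) → ℂ), eval w p =
        (∑ u, (∑ v, w (some ⟨i, (a, v)⟩) * F.Qx x i v u) * w (some ⟨i, (b, u)⟩)) - tpi ^ F.w i * F.Jx i a b := by
      intro w
      rw [hp, map_sub, map_sum, eval_C]
      congr 1
      refine Finset.sum_congr rfl fun u _ => ?_
      rw [map_mul, map_sum, eval_X]
      congr 1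
      refine Finset.sum_congr rfl fun v _ => ?_
      rw [map_mul, eval_X, eval_C]
    have h0 : eval y p = 0 := by
      rw [hev]
      have h1 := congrFun (congrFun (F.riemann x he i) a) b
      rw [Matrix.mul_apply] at h1
      rw [sub_eq_zero]
      refine Eq.trans ?_ h1
      refine Finset.sum_congr rfl fun u _ => ?_
      rw [Matrix.mul_apply, Matrix.transpose_apply]
      rfl
    have h2 := hy₀ p hpR h0
    rw [hev, sub_eq_zero] at h2
    rw [Matrix.mul_apply]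
    refine Eq.trans ?_ h2
    refine Finset.sum_congr rfl fun u _ => ?_
    rw [Matrix.mul_apply, Matrix.transpose_apply]
    rfl
  -- the value of the coefficient
  have hnz : pol io (c a₀) Y₁ ≠ 0 := by
    set p : MvPolynomial (Option (Ix n)) ℂ :=
      MvPolynomial.X none * (∑ l : Ix n → Fin (k + 1), C (io (c a₀ l : K)) * ∏ r : Ix n, MvPolynomial.X (some r) ^ (l r : ℕ)) - C 1 with hp
    have hpR : p ∈ Rg := by
      refine Subring.sub_mem _ (Subring.mul_mem _ (hX _) (Subring.sum_mem _ fun l _ => Subring.mul_mem _ ?_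
        (Subring.prod_mem _ fun r _ => Subring.pow_mem _ (hX _) _))) ?_
      · rw [← hcc]; exact hC _
      · rw [← map_one (algebraMap Kp ℂ)]; exact hC _
    have hev : ∀ (w : Option (Ix n) → ℂ), eval w p =
        w none * (∑ l : Ix n → Fin (k + 1), io (c a₀ l : K) * ∏ r : Ix n, w (some r) ^ (l r : ℕ)) - 1 := by
      intro w
      rw [hp, map_sub, map_mul, map_sum, eval_C, eval_X]
      congr 2
      refine Finset.sum_congr rfl fun l _ => ?_
      rw [map_mul, eval_C, map_prod]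
      congr 1
      refine Finset.prod_congr rfl fun r _ => ?_
      rw [map_pow, eval_X]
    have h0 : eval y p = 0 := by
      rw [hev, sub_eq_zero]
      exact inv_mul_cancel₀ hne
    have h2 := hy₀ p hpR h0
    rw [hev, sub_eq_zero] at h2
    intro h3
    have h4 : (∑ l : Ix n → Fin (k + 1), io (c a₀ l : K) * ∏ r : Ix n, (algebraMap Kp ℂ (y₀ (some r))) ^ (l r : ℕ)) =
        pol io (c a₀) Y₁ := rfl
    rw [h4, h3, mul_zero] at h2
    exact zero_ne_one h2
  have h5 := H Y₁ hmem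
  -- `z` is algebraic
  have h6 : ∀ a, ∃ w : Kp, algebraMap Kp ℂ w = pol io (c a) Y₁ := by
    intro a
    refine ⟨∑ l : Ix n → Fin (k + 1), cc a l * ∏ r : Ix n, y₀ (some r) ^ (l r : ℕ), ?_⟩
    rw [map_sum, pol]
    refine Finset.sum_congr rfl fun l _ => ?_
    rw [map_mul, hcc, map_prod]
    congr 1
  choose w hw using h6
  have h7 : IsAlgebraic Kp z := by
    refine ⟨∑ a : Fin (k + 1), Polynomial.C (w a) * Polynomial.X ^ (a : ℕ), ?_, ?_⟩
    · intro h
      have h8 := congrArg (fun r => Polynomial.coeff r (a₀ : ℕ)) h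
      simp only [Polynomial.finsetSum_coeff, Polynomial.coeff_C_mul_X_pow, Polynomial.coeff_zero] at h8
      rw [Finset.sum_eq_single a₀] at h8
      · rw [if_pos rfl] at h8
        apply hnz
        rw [← hw, h8, map_zero]
      · intro b _ hb
        rw [if_neg (fun h => hb (Fin.ext h.symm))]
      · intro h; exact absurd (Finset.mem_univ _) h
    · rw [map_sum, ← h5]
      refine Finset.sum_congr rfl fun a _ => ?_
      rw [map_mul, Polynomial.aeval_C, hw, map_pow, Polynomial.aeval_X, mul_comm]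
  exact hz (h7.restrictScalars _)

theorem neg_torsor (F : SympFam X n) {x : X → ℂ} {Y : ∀ i, Matrix (Fin (n i)) (Fin (n i)) ℂ} {μ : ℂ}
    (h : (Y, μ) ∈ F.torsor x) : ((fun i => - Y i), μ) ∈ F.torsor x := by
  refine ⟨h.1, fun i => ?_⟩
  have h1 := h.2 i
  show (- Y i) * _ * (- Y i).transpose = _
  rw [Matrix.transpose_neg, Matrix.mul_neg, Matrix.neg_mul, Matrix.neg_mul, neg_neg]
  exact h1

theorem scale_torsor (F : SympFam X n) {x : X → ℂ} {Y : ∀ i, Matrix (Fin (n i)) (Fin (n i)) ℂ} {μ : ℂ}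
    (h : (Y, μ) ∈ F.torsor x) {r : ℂ} (hr : r ≠ 0) : ((fun i => r ^ F.w i • Y i), r ^ 2 * μ) ∈ F.torsor x := by
  refine ⟨mul_ne_zero (pow_ne_zero 2 hr) h.1, fun i => ?_⟩
  have h1 := h.2 i
  show (r ^ F.w i • Y i) * _ * (r ^ F.w i • Y i).transpose = (r ^ 2 * μ) ^ F.w i • _
  rw [Matrix.transpose_smul, Matrix.smul_mul, Matrix.smul_mul, Matrix.mul_smul, smul_smul, h1, smul_smul, mul_pow]
  congr 1
  ring

theorem pol_neg {k : ℕ} {K : Type} [Field K] [NumberField K] (io : K →+* ℂ) (c : (Ix n → Fin (k + 1)) → 𝓞 K)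
    (Y : ∀ i, Matrix (Fin (n i)) (Fin (n i)) ℂ) (ho : ∀ l, c l ≠ 0 → Odd (∑ y, (l y : ℕ))) :
    pol io c (fun i => - Y i) = - pol io c Y := by
  rw [pol, pol, ← Finset.sum_neg_distrib]
  refine Finset.sum_congr rfl fun l _ => ?_
  by_cases hc : c l = 0
  · rw [hc]
    simp
  · have h1 : ∀ y : Ix n, ((fun i => - Y i) y.1 y.2.1 y.2.2) ^ (l y : ℕ) =
        (-1) ^ (l y : ℕ) * Y y.1 y.2.1 y.2.2 ^ (l y : ℕ) := by
      intro y
      show (- Y y.1 y.2.1 y.2.2) ^ (l y : ℕ) = _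
      rw [neg_pow]
    rw [Finset.prod_congr rfl fun y _ => h1 y, Finset.prod_mul_distrib, Finset.prod_pow_eq_pow_sum, (ho l hc).neg_one_pow]
    ring

theorem pol_cont {k : ℕ} {K : Type} [Field K] [NumberField K] (io : K →+* ℂ) (c : (Ix n → Fin (k + 1)) → 𝓞 K)
    (Y : ℝ → ∀ i, Matrix (Fin (n i)) (Fin (n i)) ℂ) (hY : ∀ i a b, Continuous fun r => Y r i a b) :
    Continuous fun r => pol io c (Y r) := by
  unfold pol
  exact continuous_finsetSum _ fun l _ => continuous_const.mul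
    (continuous_finsetProd _ fun y _ => (hY _ _ _).pow _)

theorem good_of (F : SympFam X n) {k k' : ℕ} (hk : 2 * k + 4 ≤ k') {K : Type} [Field K] [NumberField K]
    (io : K →+* ℂ) {T : ℝ} (hT : 4 * (((Fintype.card (Ix n → Fin (k + 1)) : ℕ) : ℝ) ^ 2 + k + 2) ≤ T) (z : ℂ)
    (e : X → K) (he : (fun j => io (e j)) ∈ F.U)
    (hG : F.Generic k' K io (fun a : Fin k' => z ^ (a : ℕ)) T (fun j => io (e j))) :
    Good F k K io T z (fun j => io (e j)) := by
  classical
  set N : ℝ := ((Fintype.card (Ix n → Fin (k + 1)) : ℕ) : ℝ) with hN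
  set x : X → ℂ := fun j => io (e j) with hx
  have hN1 : 1 ≤ N := by
    have : 0 < Fintype.card (Ix n → Fin (k + 1)) := Fintype.card_pos
    rw [hN]
    exact_mod_cast this
  have hk0 : (0 : ℝ) ≤ k := Nat.cast_nonneg k
  have hT1 : 1 ≤ T := by nlinarith [sq_nonneg N]
  have hT0 : 0 < T := by linarith
  have hN2 : N ≤ N ^ 2 := by nlinarith
  have hpk : T * T ^ k ≤ T ^ k' := by
    rw [← pow_succ']
    exact pow_le_pow_right₀ hT1 (by omega)
  have hpk0 : 0 < T ^ k := by positivity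
  have b1 : ((Fintype.card (Option (Ix n → Fin (k + 1))) : ℕ) : ℝ) * T ^ k ≤ T ^ k' := by
    rw [Fintype.card_option]
    push_cast
    refine le_trans (mul_le_mul_of_nonneg_right ?_ hpk0.le) hpk
    nlinarith
  have b3 : ((Fintype.card (Option ((Ix n → Fin (k + 1)) × (Ix n → Fin (k + 1)))) : ℕ) : ℝ) *
      (4 * (T ^ k * T ^ k)) ≤ T ^ k' := by
    rw [Fintype.card_option, Fintype.card_prod]
    push_cast
    have h1 : T * (T ^ k * T ^ k) ≤ T ^ k' := by
      rw [← pow_add, ← pow_succ']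
      exact pow_le_pow_right₀ hT1 (by omega)
    refine le_trans ?_ h1
    have h2 : 0 ≤ T ^ k * T ^ k := by positivity
    have h3 : (N * N + 1) * 4 ≤ T := by nlinarith
    calc (N * N + 1) * (4 * (T ^ k * T ^ k)) = (N * N + 1) * 4 * (T ^ k * T ^ k) := by ring
      _ ≤ T * (T ^ k * T ^ k) := mul_le_mul_of_nonneg_right h3 h2
  have b4 : ((Fintype.card (Fin (k + 1) × (Ix n → Fin (k + 1))) : ℕ) : ℝ) * T ^ k ≤ T ^ k' := by
    rw [Fintype.card_prod, Fintype.card_fin]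
    push_cast
    have h1 : T * (T * T ^ k) ≤ T ^ k' := by
      rw [← pow_succ', ← pow_succ']
      exact pow_le_pow_right₀ hT1 (by omega)
    refine le_trans ?_ h1
    rw [← mul_assoc]
    refine mul_le_mul_of_nonneg_right ?_ hpk0.le
    exact mul_le_mul (by nlinarith) (by nlinarith) (by linarith) hT0.le
  have hP : ((fun i => F.P i x), tpi) ∈ F.torsor x := F.mem he
  have P1 : ∀ (q : 𝓞 K) (c : (Ix n → Fin (k + 1)) → 𝓞 K), Bd k T q → (∀ l, Bd k T (c l)) →
      io (q : K) * z = pol io c (fun i => F.P i x) →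
        ∀ Y, (Y, tpi) ∈ F.torsor x → io (q : K) * z = pol io c Y := by
    intro q c hq hc h Y hY
    obtain ⟨c', hc', hv⟩ := rel1 (n := n) (k' := k') (by omega) (by omega) io hT1 b1 q c hq hc z
    have h1 := (hG c' hc').1 (by rw [hv, h, sub_self]) Y hY
    rw [hv, sub_eq_zero] at h1
    exact h1
  refine ⟨P1, ?_, ?_, ?_⟩
  · intro hz q c hq0 hq hc ho h
    have h1 := P1 q c hq hc h _ (neg_torsor F hP)
    rw [pol_neg io c _ ho, ← h] at h1
    have h2 : io (q : K) * z = 0 := by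
      linear_combination h1 / 2
    rcases mul_eq_zero.1 h2 with h3 | h3
    · rw [map_eq_zero] at h3
      exact hq0 (by exact_mod_cast h3)
    · exact hz h3
  · intro q c hq0 hq hc h
    obtain ⟨c', hc', hv⟩ := rel3 (n := n) (k' := k') (by omega) (by omega) io hT1 b3 q c hq hc
    have hpi : (Real.pi : ℂ) ≠ 0 := by exact_mod_cast Real.pi_ne_zero
    have h0 : poly (fun l a => io (c' l a : K)) (fun a => tpi ^ (a : ℕ)) (fun i => F.P i x) = 0 := by
      rw [hv, ← h, tpi]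
      field_simp
      have hI : Complex.I ^ 2 = -1 := Complex.I_sq
      linear_combination (4 * io (q : K) ^ 2) * hI
    have h1 := (hG c' hc').2 h0
    set g : ℝ → ℂ := fun r => 4 * io (q : K) ^ 2 + ((r : ℂ) ^ 2 * tpi) ^ 2 *
      pol io c (fun i => (r : ℂ) ^ F.w i • F.P i x) ^ 2 with hg
    have hgc : Continuous g := by
      refine continuous_const.add (Continuous.mul ?_ (Continuous.pow ?_ 2))
      · exact ((Complex.continuous_ofReal.pow 2).mul continuous_const).pow 2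
      · refine pol_cont io c _ fun i a b => ?_
        show Continuous fun r : ℝ => (r : ℂ) ^ F.w i * F.P i x a b
        exact (Complex.continuous_ofReal.pow _).mul continuous_const
    have hg0 : ∀ r : ℝ, r ≠ 0 → g r = 0 := by
      intro r hr
      have h2 := h1 _ (scale_torsor F hP (r := (r : ℂ)) (by exact_mod_cast hr))
      rw [hv] at h2
      exact h2
    have h2 : g = fun _ => 0 := by
      refine Continuous.ext_on (dense_compl_singleton (0 : ℝ)) hgc continuous_const ?_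
      intro r hr
      exact hg0 r hr
    have h3 : g 0 = 0 := by rw [h2]
    rw [hg] at h3
    simp only [Complex.ofReal_zero] at h3
    rw [zero_pow two_ne_zero, zero_mul, zero_pow two_ne_zero, zero_mul, add_zero] at h3
    have h4 : io (q : K) = 0 := by
      rcases mul_eq_zero.1 h3 with h5 | h5
      · norm_num at h5
      · exact pow_eq_zero_iff two_ne_zero |>.1 h5
    rw [map_eq_zero] at h4
    exact hq0 (by exact_mod_cast h4)
  · intro hz c hc h a₀
    obtain ⟨c', hc', hv⟩ := rel4 (n := n) (k' := k') (by omega) io hT1 b4 c hc z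
    refine transc F io e he hz c (fun Y hY => ?_) a₀
    have h1 := (hG c' hc').1 (by rw [hv, h]) Y hY
    rw [hv] at h1
    exact h1

/-- **Numbers and periods in small balls.** -/
theorem ballPC [Nonempty X] (F : SympFam X n) (k : ℕ) (η : ℝ) (hη : 0 < η) : ∃ (C : ℕ) (T₀ : ℝ),
    ∀ (K : Type) [Field K] [NumberField K], Module.finrank ℚ K ≤ k → ∀ (io : K →+* ℂ) (z : ℂ) (T : ℝ), T₀ ≤ T →
      ∀ t₀ : X → ℂ, Cov C C {t | ‖t - t₀‖ ≤ T ^ (-η) ∧ ∃ e : X → K, (∀ j, Y120.HtLe K T (e j)) ∧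
        (t = fun j => io (e j)) ∧ t ∈ InnerM F.U k ∧ ¬ Good F k K io T z t} := by
  classical
  rcases Nat.eq_zero_or_pos k with hk | hk
  · refine ⟨0, 0, ?_⟩
    intro K _ _ hK
    have h1 : 0 < Module.finrank ℚ K := Module.finrank_pos
    omega
  obtain ⟨D, C, T₀, -, H⟩ := R349.MVB.sympB F (2 * k + 4) η hη
  refine ⟨D + C, max T₀ (4 * (((Fintype.card (Ix n → Fin (k + 1)) : ℕ) : ℝ) ^ 2 + k + 2)),
    fun K _ _ hK io z T hT t₀ => ?_⟩
  refine (H K (by omega) io (fun a => z ^ (a : ℕ)) T ((le_max_left _ _).trans hT) t₀).mono (by omega) (by omega) ?_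
  rintro t ⟨h1, e, h2, rfl, h3, h4⟩
  have hin : InnerM F.U k ⊆ InnerM F.U (2 * k + 4) := by
    intro y hy
    refine ⟨hy.1.trans (by push_cast; linarith [(Nat.cast_nonneg k : (0 : ℝ) ≤ k)]),
      (Metric.ball_subset_ball ?_).trans hy.2⟩
    refine inv_anti₀ (by exact_mod_cast hk) (by push_cast; linarith [(Nat.cast_nonneg k : (0 : ℝ) ≤ k)])
  refine ⟨⟨e, ⟨h2, hin h3, fun hG => h4 ?_⟩, rfl⟩, h1⟩
  exact good_of F le_rfl io ((le_max_right _ _).trans hT) z e (innerM_sub _ hk h3) hG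

end Pool.Agent.R349.PC
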