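import Pool.Agent.R349.PerConst
import Pool.Agent.H327R2.SC.ExpLat

set_option autoImplicit false

namespace Pool.Agent.R349.PC

open Pool.Agent.H327R2.SC

theorem alg_mem {z : ℂ} (hz : IsAlgebraic (IntermediateField.adjoin ℚ {(Real.pi : ℂ)}) z) :
    z ∈ MM.closure {(Real.pi : ℂ)} := by
  rw [mem_cl]
  exact IntermediateField.isAlgebraic_adjoin_iff.1 hz

theorem two_exp {α β : ℂ} (hα : IsAlgebraic ℚ α) (hβ : IsAlgebraic ℚ β) (h : LinearIndependent ℚ ![α, β]) :
    Transcendental (IntermediateField.adjoin ℚ {(Real.pi : ℂ)}) (Complex.exp α) ∨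
    Transcendental (IntermediateField.adjoin ℚ {(Real.pi : ℂ)}) (Complex.exp β) := by
  by_contra hcon
  rw [not_or, Transcendental, Transcendental, not_not, not_not] at hcon
  have h1 : AlgebraicIndependent ℚ (fun i => Complex.exp (![α, β] i)) := by
    refine lw_algInd _ (fun i => ?_) h
    fin_cases i
    · exact hα
    · exact hβ
  have h2 : MM.Indep (Set.range fun i => Complex.exp (![α, β] i)) := by
    rw [AlgebraicIndependent.matroid_indep_iff]
    exact h1.to_subtype_range
  have h3 : rk (Set.range fun i => Complex.exp (![α, β] i)) ≤ rk {(Real.pi : ℂ)} := by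
    refine rk_le_of_subset_cl ?_
    rintro _ ⟨i, rfl⟩
    fin_cases i
    · exact alg_mem hcon.1
    · exact alg_mem hcon.2
  have h4 : rk {(Real.pi : ℂ)} ≤ 1 := (MM.eRk_le_encard _).trans (by rw [Set.encard_singleton])
  have h5 : rk (Set.range fun i => Complex.exp (![α, β] i)) = 2 := by
    rw [rk, h2.eRk_eq_encard, ← Set.image_univ, h1.injective.encard_image, Set.encard_univ]
    simp
  rw [h5] at h3
  have h6 := h3.trans h4
  exact absurd h6 (by decide)

end Pool.Agent.R349.PC
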