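import Pool.Agent.R349.Sect

/-!
# Sections of powers of abelian schemes and algebraic subgroups of the fibres: small balls
-/

set_option autoImplicit false
set_option linter.unusedSectionVars false

open NumberField Filter

namespace Pool.Agent.R349.MVB

open Pool.Agent.Y890.MV Pool.Agent.Y890.VH
open Pool.Agent.Y124 (Cov)

section Mat

variable {G H R : Type} [Fintype G] [DecidableEq G] [Fintype H] [DecidableEq H] [Fintype R] [DecidableEq R]

/-- the matrices whose columns span the space of the conditions -/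
noncomputable def AP : G → ((R × H) ⊕ Unit) → (R × G) → MvPolynomial (G × (H ⊕ R)) ℂ := fun _ m e =>
  Sum.elim (fun kj : R × H => if kj.1 = e.1 then MvPolynomial.X (e.2, Sum.inl kj.2) else 0)
    (fun _ : Unit => MvPolynomial.X (e.2, Sum.inr e.1)) m

/-- the vectors of the conditions -/
noncomputable def WP : G → ((R × H × H) ⊕ H) → ((R × H) ⊕ Unit) → MvPolynomial (G × (H ⊕ R)) ℂ := fun ρ h m =>
  Sum.elim
    (fun kij : R × H × H => Sum.elim
      (fun kj : R × H => if kj.1 = kij.1 then (if kj.2 = kij.2.2 then MvPolynomial.X (ρ, Sum.inl kij.2.1) else 0) else 0)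
      (fun _ : Unit => 0) m)
    (fun i : H => Sum.elim (fun _ : R × H => 0) (fun _ : Unit => MvPolynomial.X (ρ, Sum.inl i)) m) h

/-- the condition on the matrices `M κ` and the vector `m` -/
def Alg (y : G × (H ⊕ R) → ℂ) (M : R → H → H → ℂ) (m : H → ℂ) : Prop :=
  ∀ ρ, ∃ Φ : R → G → ℂ, (∀ κ j, ∑ i, M κ i j * y (ρ, Sum.inl i) = ∑ ρ', Φ κ ρ' * y (ρ', Sum.inl j)) ∧
    ∑ i, m i * y (ρ, Sum.inl i) = ∑ κ, ∑ ρ', Φ κ ρ' * y (ρ', Sum.inr κ)

theorem vecW_inl (y : G × (H ⊕ R) → ℂ) (c : ((R × H × H) ⊕ H) → ℂ) (ρ : G) (κ : R) (j : H) :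
    ∑ h, c h * MvPolynomial.eval y (WP ρ h (Sum.inl (κ, j))) = ∑ i, c (Sum.inl (κ, i, j)) * y (ρ, Sum.inl i) := by
  classical
  rw [Fintype.sum_sum_type]
  have e1 : ∑ i : H, c (Sum.inr i) * MvPolynomial.eval y (WP (R := R) ρ (Sum.inr i) (Sum.inl (κ, j))) = 0 := by
    refine Finset.sum_eq_zero fun i _ => ?_
    show c (Sum.inr i) * MvPolynomial.eval y 0 = 0
    rw [map_zero, mul_zero]
  rw [e1, add_zero, Fintype.sum_prod_type, Finset.sum_eq_single κ]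
  · rw [Fintype.sum_prod_type]
    refine Finset.sum_congr rfl fun i _ => ?_
    rw [Finset.sum_eq_single j]
    · show c (Sum.inl (κ, i, j)) * MvPolynomial.eval y (if κ = κ then (if j = j then MvPolynomial.X (ρ, Sum.inl i) else 0)
        else 0) = _
      rw [if_pos rfl, if_pos rfl, MvPolynomial.eval_X]
    · intro j' _ hj'
      show c (Sum.inl (κ, i, j')) * MvPolynomial.eval y (if κ = κ then (if j = j' then MvPolynomial.X (ρ, Sum.inl i) else 0)
        else 0) = _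
      rw [if_pos rfl, if_neg (Ne.symm hj'), map_zero, mul_zero]
    · intro h; exact absurd (Finset.mem_univ _) h
  · intro κ' _ hκ'
    refine Finset.sum_eq_zero fun ij _ => ?_
    show c (Sum.inl (κ', ij)) * MvPolynomial.eval y (if κ = κ' then (if j = ij.2 then MvPolynomial.X (ρ, Sum.inl ij.1)
      else 0) else 0) = _
    rw [if_neg (Ne.symm hκ'), map_zero, mul_zero]
  · intro h; exact absurd (Finset.mem_univ _) h

theorem vecW_inr (y : G × (H ⊕ R) → ℂ) (c : ((R × H × H) ⊕ H) → ℂ) (ρ : G) (u : Unit) :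
    ∑ h, c h * MvPolynomial.eval y (WP (R := R) ρ h (Sum.inr u)) = ∑ i, c (Sum.inr i) * y (ρ, Sum.inl i) := by
  classical
  rw [Fintype.sum_sum_type]
  have e1 : ∑ i : R × H × H, c (Sum.inl i) * MvPolynomial.eval y (WP (R := R) ρ (Sum.inl i) (Sum.inr u)) = 0 := by
    refine Finset.sum_eq_zero fun i _ => ?_
    show c (Sum.inl i) * MvPolynomial.eval y 0 = 0
    rw [map_zero, mul_zero]
  rw [e1, zero_add]
  refine Finset.sum_congr rfl fun i _ => ?_
  show c (Sum.inr i) * MvPolynomial.eval y (MvPolynomial.X (ρ, Sum.inl i)) = _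
  rw [MvPolynomial.eval_X]

theorem vecA_inl (y : G × (H ⊕ R) → ℂ) (Φ : R × G → ℂ) (ρ : G) (κ : R) (j : H) :
    ∑ e, Φ e * MvPolynomial.eval y (AP ρ (Sum.inl (κ, j)) e) = ∑ ρ', Φ (κ, ρ') * y (ρ', Sum.inl j) := by
  classical
  rw [Fintype.sum_prod_type, Finset.sum_eq_single κ]
  · refine Finset.sum_congr rfl fun ρ' _ => ?_
    show Φ (κ, ρ') * MvPolynomial.eval y (if κ = κ then MvPolynomial.X (ρ', Sum.inl j) else 0) = _
    rw [if_pos rfl, MvPolynomial.eval_X]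
  · intro κ' _ hκ'
    refine Finset.sum_eq_zero fun ρ' _ => ?_
    show Φ (κ', ρ') * MvPolynomial.eval y (if κ = κ' then MvPolynomial.X (ρ', Sum.inl j) else 0) = _
    rw [if_neg (Ne.symm hκ'), map_zero, mul_zero]
  · intro h; exact absurd (Finset.mem_univ _) h

theorem vecA_inr (y : G × (H ⊕ R) → ℂ) (Φ : R × G → ℂ) (ρ : G) (u : Unit) :
    ∑ e, Φ e * MvPolynomial.eval y (AP (H := H) ρ (Sum.inr u) e) = ∑ κ, ∑ ρ', Φ (κ, ρ') * y (ρ', Sum.inr κ) := by
  classical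
  rw [Fintype.sum_prod_type]
  refine Finset.sum_congr rfl fun κ _ => Finset.sum_congr rfl fun ρ' _ => ?_
  show Φ (κ, ρ') * MvPolynomial.eval y (MvPolynomial.X (ρ', Sum.inr κ)) = _
  rw [MvPolynomial.eval_X]

theorem inc_iff_alg (y : G × (H ⊕ R) → ℂ) (c : ((R × H × H) ⊕ H) → ℂ) :
    Inc (AP (H := H) (R := R)) WP y c ↔ Alg y (fun κ i j => c (Sum.inl (κ, i, j))) (fun i => c (Sum.inr i)) := by
  classical
  refine forall_congr' fun ρ => ?_
  rw [cols, Submodule.mem_span_range_iff_exists_fun]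
  constructor
  · rintro ⟨Φ, hΦ⟩
    refine ⟨fun κ ρ' => Φ (κ, ρ'), fun κ j => ?_, ?_⟩
    · have h1 := congrFun hΦ (Sum.inl (κ, j))
      rw [Finset.sum_apply] at h1
      simp only [Pi.smul_apply, smul_eq_mul] at h1
      rw [vecA_inl y Φ ρ κ j, vecW_inl y c ρ κ j] at h1
      exact h1.symm
    · have h1 := congrFun hΦ (Sum.inr ())
      rw [Finset.sum_apply] at h1
      simp only [Pi.smul_apply, smul_eq_mul] at h1
      rw [vecA_inr y Φ ρ (), vecW_inr y c ρ ()] at h1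
      exact h1.symm
  · rintro ⟨Φ, h1, h2⟩
    refine ⟨fun e => Φ e.1 e.2, ?_⟩
    funext m
    rw [Finset.sum_apply]
    simp only [Pi.smul_apply, smul_eq_mul]
    rcases m with ⟨κ, j⟩ | u
    · rw [vecA_inl y (fun e => Φ e.1 e.2) ρ κ j, vecW_inl y c ρ κ j]
      exact (h1 κ j).symm
    · rw [vecA_inr y (fun e => Φ e.1 e.2) ρ u, vecW_inr y c ρ u]
      exact h2.symm

/-- the transformation of the columns -/
noncomputable def Lg (γ : Matrix H H ℚ × Matrix H R ℚ) : (((R × H) ⊕ Unit) → ℂ) →ₗ[ℂ] (((R × H) ⊕ Unit) → ℂ) where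
  toFun v := Sum.elim (fun kj => ∑ i, v (Sum.inl (kj.1, i)) * (γ.1 i kj.2 : ℂ))
    (fun u => v (Sum.inr u) + ∑ κ, ∑ i, v (Sum.inl (κ, i)) * (γ.2 i κ : ℂ))
  map_add' v w := by
    funext m
    rcases m with kj | u
    · simp only [Sum.elim_inl, Pi.add_apply, add_mul, Finset.sum_add_distrib]
    · simp only [Sum.elim_inr, Pi.add_apply, add_mul, Finset.sum_add_distrib]
      ring
  map_smul' a v := by
    funext m
    rcases m with kj | u
    · simp only [Sum.elim_inl, Pi.smul_apply, smul_eq_mul, RingHom.id_apply, Finset.mul_sum, mul_assoc]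
    · simp only [Sum.elim_inr, Pi.smul_apply, smul_eq_mul, RingHom.id_apply, Finset.mul_sum, mul_assoc, mul_add]

theorem Lg_inj (γ : Matrix H H ℚ × Matrix H R ℚ) (h : γ.1.det ≠ 0) : Function.Injective (Lg (R := R) γ) := by
  classical
  rw [← LinearMap.ker_eq_bot, LinearMap.ker_eq_bot']
  intro v hv
  have hd : (γ.1.map (fun q : ℚ => (q : ℂ))).det ≠ 0 := by
    have h1 : (γ.1.map (fun q : ℚ => (q : ℂ))).det = ((γ.1.det : ℚ) : ℂ) :=
      ((algebraMap ℚ ℂ).map_det γ.1).symm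
    rw [h1]
    exact_mod_cast h
  have h1 : ∀ κ, (fun i => v (Sum.inl (κ, i))) = 0 := by
    intro κ
    refine Matrix.eq_zero_of_vecMul_eq_zero hd ?_
    funext j
    have h2 := congrFun hv (Sum.inl (κ, j))
    exact h2
  funext m
  rcases m with ⟨κ, i⟩ | u
  · exact congrFun (h1 κ) i
  · have h2 := congrFun hv (Sum.inr u)
    have h3 : v (Sum.inr u) + ∑ κ, ∑ i, v (Sum.inl (κ, i)) * (γ.2 i κ : ℂ) = 0 := h2
    have h4 : ∑ κ, ∑ i, v (Sum.inl (κ, i)) * (γ.2 i κ : ℂ) = 0 :=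
      Finset.sum_eq_zero fun κ _ => Finset.sum_eq_zero fun i _ => by
        have h5 : v (Sum.inl (κ, i)) = 0 := congrFun (h1 κ) i
        rw [h5, zero_mul]
    rw [h4, add_zero] at h3
    exact h3

theorem cols_AP (γ : Matrix H H ℚ × Matrix H R ℚ) (y : G × (H ⊕ R) → ℂ) (ρ : G) :
    cols (fun m e => MvPolynomial.eval (actS γ y) (AP ρ m e)) =
      (cols fun m e => MvPolynomial.eval y (AP (H := H) (R := R) ρ m e)).map (Lg γ) := by
  classical
  rw [cols, cols, Submodule.map_span, ← Set.range_comp]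
  congr 2
  funext e
  funext m
  rcases m with ⟨κ, j⟩ | u
  · show MvPolynomial.eval (actS γ y) (if κ = e.1 then MvPolynomial.X (e.2, Sum.inl j) else 0) =
      ∑ i, MvPolynomial.eval y (if κ = e.1 then MvPolynomial.X (e.2, Sum.inl i) else 0) * (γ.1 i j : ℂ)
    by_cases hk : κ = e.1
    · simp only [if_pos hk, MvPolynomial.eval_X]
      rfl
    · simp only [if_neg hk, map_zero, zero_mul, Finset.sum_const_zero]
  · show MvPolynomial.eval (actS γ y) (MvPolynomial.X (e.2, Sum.inr e.1)) =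
      MvPolynomial.eval y (MvPolynomial.X (e.2, Sum.inr e.1)) +
        ∑ κ, ∑ i, MvPolynomial.eval y (if κ = e.1 then MvPolynomial.X (e.2, Sum.inl i) else 0) * (γ.2 i κ : ℂ)
    rw [Finset.sum_eq_single e.1]
    · simp only [if_pos, MvPolynomial.eval_X]
      rfl
    · intro κ _ hκ
      simp only [if_neg hκ, map_zero, zero_mul, Finset.sum_const_zero]
    · intro h; exact absurd (Finset.mem_univ _) h

theorem rk_AP (γ : Matrix H H ℚ × Matrix H R ℚ) (h : γ.1.det ≠ 0) (y : G × (H ⊕ R) → ℂ) (ρ : G) :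
    Module.finrank ℂ (cols fun m e => MvPolynomial.eval (actS γ y) (AP ρ m e)) =
      Module.finrank ℂ (cols fun m e => MvPolynomial.eval y (AP (H := H) (R := R) ρ m e)) := by
  rw [cols_AP]
  exact (Submodule.equivMapOfInjective _ (Lg_inj γ h) _).finrank_eq.symm

end Mat

/-- the matrix of the periods at `x` -/
def Sect.om {X G H R : Type} [Fintype X] [Fintype H] [Fintype R] (S : Sect X G H R) (x : X → ℂ) : Matrix G H ℂ :=
  Matrix.of fun ρ j => S.ω ρ j x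

/-- An abelian scheme with sections with large monodromy: the columns of the matrices of the periods generate `ℂ ^ G` over
the real numbers, the matrices `γ.1` of the monodromy are invertible, and an integral matrix which for all `γ` is the
matrix of a complex endomorphism for the periods `ω(x) γ.1` is a scalar matrix. -/
structure Pk (X G H R : Type) [Fintype X] [Fintype G] [Fintype H] [DecidableEq H] [Fintype R] extends Sect X G H R where
  det : ∀ γ ∈ Γ, γ.1.det ≠ 0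
  full : ∀ x ∈ U, ∀ v : G → ℂ, ∃ u : H → ℝ, ∀ ρ, ∑ j, (u j : ℂ) * ω ρ j x = v ρ
  scal : ∀ x ∈ U, ∀ M : Matrix H H ℤ, (∀ γ ∈ Γ, ∃ Φ : Matrix G G ℂ, ∀ ρ j,
    ∑ i, (∑ i', ω ρ i' x * (γ.1 i' i : ℂ)) * (M i j : ℂ) = ∑ ρ', Φ ρ ρ' * ∑ i', ω ρ' i' x * (γ.1 i' j : ℂ)) →
      ∃ a : ℤ, M = a • (1 : Matrix H H ℤ)

variable {X G H R : Type} [Fintype X] [DecidableEq X] [Nonempty X] [Fintype G] [DecidableEq G] [Fintype H]
  [DecidableEq H] [Fintype R] [DecidableEq R]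

/-- the points over `K` of height at most `T` in `InnerM U k` at which the point `(σ κ (s))` of the power of the fibre is in
the kernel of a nonzero homomorphism `φ` to the fibre: `φ κ` is the endomorphism of `ℂ ^ G / Lat` given by the complex
matrix `Φ κ`, and by the integral matrix `M κ` on the lattice, with entries at most `T ^ k` -/
def Pk.Sub (S : Pk X G H R) (k : ℕ) (K : Type) [Field K] [NumberField K] (io : K →+* ℂ) (T : ℝ) : Set (X → K) :=
  {s | (∀ j, Y120.HtLe K T (s j)) ∧ (fun j => io (s j)) ∈ InnerM S.U k ∧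
    ∃ (M : R → Matrix H H ℤ) (Φ : R → Matrix G G ℂ), M ≠ 0 ∧ (∀ κ i j, |(M κ i j : ℝ)| ≤ T ^ k) ∧
      (∀ κ, Φ κ * S.om (fun j => io (s j)) = S.om (fun j => io (s j)) * (M κ).map (fun z : ℤ => (z : ℂ))) ∧
      ∑ κ, (Φ κ).mulVec (fun ρ => S.l ρ κ fun j => io (s j)) ∈ S.Lat fun j => io (s j)}

theorem mem_Lat (S : Sect X G H R) (x : X → ℂ) (v : G → ℂ) (h : v ∈ S.Lat x) :
    ∃ m : H → ℤ, ∀ ρ, v ρ = ∑ j, (m j : ℂ) * S.ω ρ j x := by
  classical
  rw [Sect.Lat, Submodule.mem_span_range_iff_exists_fun] at h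
  obtain ⟨m, hm⟩ := h
  refine ⟨m, fun ρ => ?_⟩
  have h2 := congrFun hm ρ
  rw [Finset.sum_apply] at h2
  rw [← h2]
  refine Finset.sum_congr rfl fun j _ => ?_
  rw [Pi.smul_apply, zsmul_eq_mul]

/-- the lattice vectors have coefficients of polynomial size -/
theorem Pk.size (S : Pk X G H R) (k : ℕ) (hk : 0 < k) : ∃ T₀ : ℝ, 2 ≤ T₀ ∧ ∀ T : ℝ, T₀ ≤ T →
    ∀ x ∈ InnerM S.U k, ∀ (M : R → Matrix H H ℤ) (Φ : R → Matrix G G ℂ) (m : H → ℤ),
      (∀ κ i j, |(M κ i j : ℝ)| ≤ T ^ k) →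
      (∀ κ, Φ κ * S.om x = S.om x * (M κ).map (fun z : ℤ => (z : ℂ))) →
      (∀ ρ, (∑ κ, (Φ κ).mulVec (fun ρ => S.l ρ κ x)) ρ = ∑ j, (m j : ℂ) * S.ω ρ j x) →
        ∀ j, |(m j : ℝ)| ≤ T ^ (k + 1) := by
  classical
  obtain ⟨δ, hδ, h1⟩ := S.low (InnerM S.U k) (innerM_compact _ _) (innerM_sub _ hk)
  obtain ⟨N, hN, h2⟩ := S.high (InnerM S.U k) (innerM_compact _ _) (innerM_sub _ hk)
  set A : ℝ := ((Fintype.card R : ℕ) : ℝ) * (((Fintype.card H : ℕ) : ℝ) * (N / δ)) with hA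
  refine ⟨max 2 A, le_max_left _ _, fun T hT x hx M Φ m hM hΦ hm j => ?_⟩
  have hT2 : 2 ≤ T := (le_max_left _ _).trans hT
  have hT3 : A ≤ T := (le_max_right _ _).trans hT
  have hTk : 0 ≤ T ^ k := by positivity
  have hxU := innerM_sub _ hk hx
  choose u hu using fun κ => S.full x hxU (fun ρ => S.l ρ κ x)
  have hub : ∀ κ j, |u κ j| ≤ N / δ := by
    intro κ j
    have h3 := h1 x hx (u κ)
    have h4 : (fun ρ => ∑ j, (u κ j : ℂ) * S.ω ρ j x) = fun ρ => S.l ρ κ x := funext fun ρ => hu κ ρ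
    rw [h4] at h3
    have h5 : ‖fun ρ => S.l ρ κ x‖ ≤ N := (pi_norm_le_iff_of_nonneg hN).2 fun ρ => h2 x hx ρ κ
    have h6 : |u κ j| ≤ ‖u κ‖ := norm_le_pi_norm (u κ) j
    rw [le_div_iff₀ hδ]
    calc |u κ j| * δ ≤ ‖u κ‖ * δ := mul_le_mul_of_nonneg_right h6 hδ.le
      _ = δ * ‖u κ‖ := mul_comm _ _
      _ ≤ N := h3.trans h5
  -- the real vector
  have h7 : (fun j => (m j : ℝ) - ∑ κ, ∑ i, (M κ j i : ℝ) * u κ i) = 0 := by
    refine S.lattice x hxU _ fun ρ => ?_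
    have h8 := hm ρ
    rw [Finset.sum_apply] at h8
    have h9 : ∀ κ, (Φ κ).mulVec (fun ρ => S.l ρ κ x) ρ = ∑ j, (∑ i, (M κ j i : ℂ) * (u κ i : ℂ)) * S.ω ρ j x := by
      intro κ
      have e1 : (fun ρ => S.l ρ κ x) = (S.om x).mulVec (fun j => (u κ j : ℂ)) := by
        funext ρ'
        rw [← hu κ ρ', Matrix.mulVec, dotProduct]
        exact Finset.sum_congr rfl fun j _ => mul_comm _ _
      rw [e1, Matrix.mulVec_mulVec, hΦ κ, ← Matrix.mulVec_mulVec, Matrix.mulVec, dotProduct]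
      refine Finset.sum_congr rfl fun j _ => ?_
      rw [mul_comm]
      rfl
    rw [Finset.sum_congr rfl fun κ _ => h9 κ] at h8
    have e2 : ∑ j, ((((m j : ℝ) - ∑ κ, ∑ i, (M κ j i : ℝ) * u κ i : ℝ)) : ℂ) * S.ω ρ j x =
        ∑ j, (m j : ℂ) * S.ω ρ j x - ∑ κ, ∑ j, (∑ i, (M κ j i : ℂ) * (u κ i : ℂ)) * S.ω ρ j x := by
      rw [Finset.sum_comm (f := fun κ j => (∑ i, (M κ j i : ℂ) * (u κ i : ℂ)) * S.ω ρ j x), ← Finset.sum_sub_distrib]
      refine Finset.sum_congr rfl fun j _ => ?_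
      rw [← Finset.sum_mul, ← sub_mul]
      push_cast
      rfl
    rw [e2, h8, sub_self]
  have h10 : (m j : ℝ) = ∑ κ, ∑ i, (M κ j i : ℝ) * u κ i := by
    have := congrFun h7 j
    simp only [Pi.zero_apply] at this
    linarith
  rw [h10]
  have h11 : |∑ κ, ∑ i, (M κ j i : ℝ) * u κ i| ≤ ∑ _κ : R, ∑ _i : H, T ^ k * (N / δ) := by
    refine (Finset.abs_sum_le_sum_abs _ _).trans (Finset.sum_le_sum fun κ _ => ?_)
    refine (Finset.abs_sum_le_sum_abs _ _).trans (Finset.sum_le_sum fun i _ => ?_)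
    rw [abs_mul]
    exact mul_le_mul (hM κ j i) (hub κ i) (abs_nonneg _) hTk
  refine h11.trans ?_
  rw [Finset.sum_const, Finset.sum_const, Finset.card_univ, Finset.card_univ, nsmul_eq_mul, nsmul_eq_mul]
  calc ((Fintype.card R : ℕ) : ℝ) * (((Fintype.card H : ℕ) : ℝ) * (T ^ k * (N / δ))) = A * T ^ k := by rw [hA]; ring
    _ ≤ T * T ^ k := mul_le_mul_of_nonneg_right hT3 hTk
    _ = T ^ (k + 1) := by ring

/-- the cocycle -/
theorem Sect.coc (S : Sect X G H R) {x : X → ℂ} (hx : x ∈ S.U) (a : R → ℤ) (m : H → ℤ)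
    (h0 : ∀ ρ, ∑ κ, (a κ : ℂ) * S.l ρ κ x = ∑ j, (m j : ℂ) * S.ω ρ j x)
    (hT : ∀ γ ∈ S.Γ, ∀ ρ, ∑ κ, (a κ : ℂ) * (S.l ρ κ x + ∑ i, S.ω ρ i x * (γ.2 i κ : ℂ)) =
      ∑ j, (m j : ℂ) * ∑ i, S.ω ρ i x * (γ.1 i j : ℂ)) : a = 0 := by
  classical
  have key : ∀ γ ∈ S.Γ, ∀ j, (∑ κ, γ.2 j κ * (a κ : ℚ)) - ((∑ i, γ.1 j i * (m i : ℚ)) - (m j : ℚ)) = 0 := by
    intro γ hγ j
    have h3 : (fun j => (((∑ κ, γ.2 j κ * (a κ : ℚ)) - ((∑ i, γ.1 j i * (m i : ℚ)) - (m j : ℚ)) : ℚ) : ℝ)) = 0 := by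
      refine S.lattice x hx _ fun ρ => ?_
      have h1 := hT γ hγ ρ
      have h2 := h0 ρ
      have f1 : ∑ κ, (a κ : ℂ) * (S.l ρ κ x + ∑ i, S.ω ρ i x * (γ.2 i κ : ℂ)) =
          ∑ κ, (a κ : ℂ) * S.l ρ κ x + ∑ j, S.ω ρ j x * ∑ κ, (γ.2 j κ : ℂ) * (a κ : ℂ) := by
        have e3 : ∀ κ, (a κ : ℂ) * (S.l ρ κ x + ∑ i, S.ω ρ i x * (γ.2 i κ : ℂ)) =
            (a κ : ℂ) * S.l ρ κ x + ∑ i, S.ω ρ i x * ((γ.2 i κ : ℂ) * (a κ : ℂ)) := by
          intro κ
          rw [mul_add, Finset.mul_sum]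
          congr 1
          exact Finset.sum_congr rfl fun i _ => by ring
        rw [Finset.sum_congr rfl fun κ _ => e3 κ, Finset.sum_add_distrib, Finset.sum_comm]
        congr 1
        exact Finset.sum_congr rfl fun i _ => by rw [Finset.mul_sum]
      have f2 : ∑ j, (m j : ℂ) * ∑ i, S.ω ρ i x * (γ.1 i j : ℂ) =
          ∑ j, S.ω ρ j x * ∑ i, (γ.1 j i : ℂ) * (m i : ℂ) := by
        have e3 : ∀ j, (m j : ℂ) * ∑ i, S.ω ρ i x * (γ.1 i j : ℂ) = ∑ i, S.ω ρ i x * ((γ.1 i j : ℂ) * (m j : ℂ)) := by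
          intro j
          rw [Finset.mul_sum]
          exact Finset.sum_congr rfl fun i _ => by ring
        rw [Finset.sum_congr rfl fun j _ => e3 j, Finset.sum_comm]
        exact Finset.sum_congr rfl fun i _ => by rw [Finset.mul_sum]
      rw [f1, f2] at h1
      have f3 : ∑ j, (((((∑ κ, γ.2 j κ * (a κ : ℚ)) - ((∑ i, γ.1 j i * (m i : ℚ)) - (m j : ℚ)) : ℚ) : ℝ)) : ℂ) *
          S.ω ρ j x =
          ∑ j, S.ω ρ j x * (∑ κ, (γ.2 j κ : ℂ) * (a κ : ℂ)) - ∑ j, S.ω ρ j x * (∑ i, (γ.1 j i : ℂ) * (m i : ℂ)) +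
          ∑ j, (m j : ℂ) * S.ω ρ j x := by
        rw [← Finset.sum_sub_distrib, ← Finset.sum_add_distrib]
        refine Finset.sum_congr rfl fun j _ => ?_
        push_cast
        ring
      rw [f3]
      linear_combination h1 - h2
    have h4 := congrFun h3 j
    simp only [Pi.zero_apply] at h4
    exact_mod_cast h4
  have h5 := S.indep (fun κ => (a κ : ℚ)) (fun j => (m j : ℚ)) (fun γ hγ j => sub_eq_zero.1 (key γ hγ j))
  funext κ
  have h8 := congrFun h5 κ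
  simp only [Pi.zero_apply] at h8
  exact_mod_cast h8

/-- a complex matrix which acts on the lattice as a scalar -/
theorem Pk.scalar (S : Pk X G H R) {x : X → ℂ} (hx : x ∈ S.U) (φ : G → ℂ) (a : ℂ) (ρ : G)
    (h : ∀ j, a * S.ω ρ j x = ∑ ρ', φ ρ' * S.ω ρ' j x) (v : G → ℂ) : ∑ ρ', φ ρ' * v ρ' = a * v ρ := by
  classical
  obtain ⟨u, hu⟩ := S.full x hx v
  have h1 : ∀ ρ', φ ρ' * v ρ' = ∑ j, (u j : ℂ) * (φ ρ' * S.ω ρ' j x) := by
    intro ρ'
    rw [← hu ρ', Finset.mul_sum]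
    exact Finset.sum_congr rfl fun j _ => by ring
  rw [Finset.sum_congr rfl fun ρ' _ => h1 ρ', Finset.sum_comm, ← hu ρ, Finset.mul_sum]
  refine Finset.sum_congr rfl fun j _ => ?_
  rw [← Finset.mul_sum, ← h j]
  ring

/-- **Algebraic subgroups of the powers of the fibres in small balls.** -/
theorem Pk.ball (S : Pk X G H R) (k : ℕ) (η : ℝ) (hη : 0 < η) : ∃ (C : ℕ) (T₀ : ℝ),
    ∀ (K : Type) [Field K] [NumberField K], Module.finrank ℚ K ≤ k → ∀ (io : K →+* ℂ) (T : ℝ), T₀ ≤ T →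
      ∀ t₀ : X → ℂ, Cov C C {t | ‖t - t₀‖ ≤ T ^ (-η) ∧ ∃ s ∈ S.Sub k K io T, t = fun j => io (s j)} := by
  classical
  rcases Nat.eq_zero_or_pos k with hk | hk
  · refine ⟨0, 0, ?_⟩
    intro K _ _ hK
    have h1 : 0 < Module.finrank ℚ K := Module.finrank_pos
    omega
  obtain ⟨T₁, hT₁, hsize⟩ := S.size k hk
  obtain ⟨D, C, T₀, hT₀, H0⟩ := excIB S.conn S.isOpen S.nonempty S.toSect.an S.reg (InnerM S.U k)
    (innerM_compact _ _) (innerM_sub _ hk) (AP (H := H) (R := R)) WP {g | ∃ γ ∈ S.Γ, g = actS γ} (by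
      rintro _ ⟨γ, hγ, rfl⟩ p hp x hx
      exact S.mon γ hγ p hp x hx) (by
      rintro _ ⟨γ, hγ, rfl⟩ x _ q
      exact rk_AP γ (S.det γ hγ) _ q) k ((k + 1 : ℕ) : ℝ) η (by positivity) hη
  refine ⟨D + C, max T₀ T₁, fun K _ _ hK io T hT t₀ => ?_⟩
  have hTT := (le_max_left _ _).trans hT
  have hT2 : 2 ≤ T := hT₀.trans hTT
  refine (H0 K hK io T hTT t₀).mono (by omega) (by omega) ?_
  rintro t ⟨h1, s, ⟨h2, h3, M, Φ, hM0, hM, hΦ, hL⟩, rfl⟩
  set x : X → ℂ := fun j => io (s j) with hx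
  have hxU : x ∈ S.U := innerM_sub _ hk h3
  obtain ⟨m, hm⟩ := mem_Lat S.toSect x _ hL
  have hms := hsize T ((le_max_right _ _).trans hT) x h3 M Φ m hM hΦ hm
  have eM : ∀ κ i j, io (((M κ i j : 𝓞 K) : 𝓞 K) : K) = (M κ i j : ℂ) := by
    intro κ i j
    have e1 : (((M κ i j : 𝓞 K) : 𝓞 K) : K) = (M κ i j : K) := rfl
    rw [e1, map_intCast]
  have em : ∀ i, io (((m i : 𝓞 K) : 𝓞 K) : K) = (m i : ℂ) := by
    intro i
    have e1 : (((m i : 𝓞 K) : 𝓞 K) : K) = (m i : K) := rfl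
    rw [e1, map_intCast]
  have hΦ' : ∀ κ ρ j, ∑ i, (M κ i j : ℂ) * S.ω ρ i x = ∑ ρ', Φ κ ρ ρ' * S.ω ρ' j x := by
    intro κ ρ j
    have h4 := congrFun (congrFun (hΦ κ) ρ) j
    rw [Matrix.mul_apply, Matrix.mul_apply] at h4
    refine Eq.trans ?_ h4.symm
    refine Finset.sum_congr rfl fun i _ => ?_
    rw [mul_comm]
    rfl
  have hm' : ∀ ρ, ∑ i, (m i : ℂ) * S.ω ρ i x = ∑ κ, ∑ ρ', Φ κ ρ ρ' * S.l ρ' κ x := by
    intro ρ
    rw [← hm ρ, Finset.sum_apply]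
    rfl
  set c : ((R × H × H) ⊕ H) → 𝓞 K := Sum.elim (fun kij => (M kij.1 kij.2.1 kij.2.2 : 𝓞 K)) (fun i => (m i : 𝓞 K))
    with hc
  refine ⟨⟨s, ⟨h2, h3, c, ?_, ?_, ?_⟩, rfl⟩, h1⟩
  · rintro (kij | i) φ
    · show ‖φ (((M kij.1 kij.2.1 kij.2.2 : 𝓞 K) : 𝓞 K) : K)‖ ≤ _
      have e1 : (((M kij.1 kij.2.1 kij.2.2 : 𝓞 K) : 𝓞 K) : K) = (M kij.1 kij.2.1 kij.2.2 : K) := rfl
      rw [e1, map_intCast, ← Complex.ofReal_intCast, Complex.norm_real, Real.norm_eq_abs, Real.rpow_natCast]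
      exact (hM _ _ _).trans (pow_le_pow_right₀ (by linarith) (by omega))
    · show ‖φ (((m i : 𝓞 K) : 𝓞 K) : K)‖ ≤ _
      have e1 : (((m i : 𝓞 K) : 𝓞 K) : K) = (m i : K) := rfl
      rw [e1, map_intCast, ← Complex.ofReal_intCast, Complex.norm_real, Real.norm_eq_abs, Real.rpow_natCast]
      exact hms i
  · refine (inc_iff_alg _ _).2 fun ρ => ⟨fun κ ρ' => Φ κ ρ ρ', fun κ j => ?_, ?_⟩
    · show ∑ i, io (((M κ i j : 𝓞 K) : 𝓞 K) : K) * S.ω ρ i x = ∑ ρ', Φ κ ρ ρ' * S.ω ρ' j x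
      rw [← hΦ' κ ρ j]
      exact Finset.sum_congr rfl fun i _ => by rw [eM]
    · show ∑ i, io (((m i : 𝓞 K) : 𝓞 K) : K) * S.ω ρ i x = ∑ κ, ∑ ρ', Φ κ ρ ρ' * S.l ρ' κ x
      rw [← hm' ρ]
      exact Finset.sum_congr rfl fun i _ => by rw [em]
  · by_contra hcon
    have hall : ∀ γ ∈ S.Γ, Alg (actS γ fun y => allf S.ω S.l y x) (fun κ i j => (M κ i j : ℂ)) (fun i => (m i : ℂ)) := by
      intro γ hγ
      have h4 : Inc (AP (H := H) (R := R)) WP (actS γ fun y => allf S.ω S.l y x) (fun i => io (c i : K)) := by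
        by_contra h5
        exact hcon ⟨_, ⟨γ, hγ, rfl⟩, h5⟩
      have h5 := (inc_iff_alg _ _).1 h4
      have e1 : (fun κ i j => io (c (Sum.inl (κ, i, j)) : K)) = fun κ i j => (M κ i j : ℂ) := by
        funext κ i j
        exact eM κ i j
      have e2 : (fun i => io (c (Sum.inr i) : K)) = fun i => (m i : ℂ) := by
        funext i
        exact em i
      rw [e1, e2] at h5
      exact h5
    have hsc : ∀ κ, ∃ a : ℤ, M κ = a • (1 : Matrix H H ℤ) := by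
      intro κ
      refine S.scal x hxU (M κ) fun γ hγ => ?_
      choose Ψ hΨ using hall γ hγ
      refine ⟨Matrix.of fun ρ ρ' => Ψ ρ κ ρ', fun ρ j => ?_⟩
      have h4 := (hΨ ρ).1 κ j
      refine Eq.trans (Finset.sum_congr rfl fun i _ => ?_) h4
      show (∑ i', S.ω ρ i' x * (γ.1 i' i : ℂ)) * (M κ i j : ℂ) = (M κ i j : ℂ) * ∑ i', S.ω ρ i' x * (γ.1 i' i : ℂ)
      rw [mul_comm]
    choose a ha using hsc
    have haM : ∀ κ i j, (M κ i j : ℂ) = if i = j then (a κ : ℂ) else 0 := by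
      intro κ i j
      rw [ha κ, Matrix.smul_apply, Matrix.one_apply]
      split_ifs <;> simp
    have hsum : ∀ κ j (w : H → ℂ), ∑ i, (M κ i j : ℂ) * w i = (a κ : ℂ) * w j := by
      intro κ j w
      rw [Finset.sum_eq_single j]
      · rw [haM, if_pos rfl]
      · intro i _ hi
        rw [haM, if_neg hi, zero_mul]
      · intro h; exact absurd (Finset.mem_univ _) h
    have ha0 : a = 0 := by
      refine S.toSect.coc hxU a m (fun ρ => ?_) (fun γ hγ ρ => ?_)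
      · rw [hm' ρ]
        refine Finset.sum_congr rfl fun κ _ => ?_
        exact (S.scalar hxU (fun ρ' => Φ κ ρ ρ') (a κ) ρ (fun j => by rw [← hΦ' κ ρ j, hsum])
          (fun ρ' => S.l ρ' κ x)).symm
      · obtain ⟨Ψ, h4, h5⟩ := hall γ hγ ρ
        have hd : (γ.1.map (fun q : ℚ => (q : ℂ))).det ≠ 0 := by
          have h6 : (γ.1.map (fun q : ℚ => (q : ℂ))).det = ((γ.1.det : ℚ) : ℂ) :=
            ((algebraMap ℚ ℂ).map_det γ.1).symm
          rw [h6]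
          exact_mod_cast S.det γ hγ
        have h6 : ∀ κ j, (a κ : ℂ) * S.ω ρ j x = ∑ ρ', Ψ κ ρ' * S.ω ρ' j x := by
          intro κ
          have h7 : (fun j => (a κ : ℂ) * S.ω ρ j x - ∑ ρ', Ψ κ ρ' * S.ω ρ' j x) = 0 := by
            refine Matrix.eq_zero_of_vecMul_eq_zero hd ?_
            funext j
            have h8 := h4 κ j
            rw [hsum κ j (fun i => actS γ (fun y => allf S.ω S.l y x) (ρ, Sum.inl i))] at h8
            have h9 : (a κ : ℂ) * ∑ i, S.ω ρ i x * (γ.1 i j : ℂ) =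
                ∑ ρ', Ψ κ ρ' * ∑ i, S.ω ρ' i x * (γ.1 i j : ℂ) := h8
            show ∑ i, ((a κ : ℂ) * S.ω ρ i x - ∑ ρ', Ψ κ ρ' * S.ω ρ' i x) * (γ.1 i j : ℂ) = 0
            have e1 : ∑ ρ', Ψ κ ρ' * ∑ i, S.ω ρ' i x * (γ.1 i j : ℂ) =
                ∑ i, (∑ ρ', Ψ κ ρ' * S.ω ρ' i x) * (γ.1 i j : ℂ) := by
              simp only [Finset.mul_sum, Finset.sum_mul]
              rw [Finset.sum_comm]
              exact Finset.sum_congr rfl fun i _ => Finset.sum_congr rfl fun ρ' _ => by ring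
            rw [e1, Finset.mul_sum, ← sub_eq_zero, ← Finset.sum_sub_distrib] at h9
            rw [← h9]
            exact Finset.sum_congr rfl fun i _ => by ring
          intro j
          exact sub_eq_zero.1 (congrFun h7 j)
        have h7 : ∑ i, (m i : ℂ) * ∑ i', S.ω ρ i' x * (γ.1 i' i : ℂ) =
            ∑ κ, ∑ ρ', Ψ κ ρ' * (S.l ρ' κ x + ∑ i, S.ω ρ' i x * (γ.2 i κ : ℂ)) := h5
        rw [h7]
        refine Finset.sum_congr rfl fun κ _ => ?_
        exact (S.scalar hxU (fun ρ' => Ψ κ ρ') (a κ) ρ (h6 κ)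
          (fun ρ' => S.l ρ' κ x + ∑ i, S.ω ρ' i x * (γ.2 i κ : ℂ))).symm
    apply hM0
    funext κ
    rw [ha κ, ha0]
    simp

end Pool.Agent.R349.MVB
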