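import Mathlib
import Pool.Agent.TH818.AP.LiInd
import Pool.Agent.TH818.AP.LiLoc
import Pool.Agent.Y771.RP.Rel
import Pool.Agent.R349.ExpLog

/-!
# The polylogarithms are algebraically independent near every point of the unit disc
-/

set_option autoImplicit false

open Filter Topology Set MvPolynomial

noncomputable section

namespace Pool.Agent.R349.Semi

open Pool.Agent.Y124 (LocInd)
open Pool.Agent.Y771.RP (locInd_of ind_of_real mv_of_exp)

/-- the polylogarithm `Li_k` -/
def LiC (k : ℕ) (z : ℂ) : ℂ := ∑' n : ℕ, z ^ (n + 1) / ((n : ℂ) + 1) ^ k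

/-- `log z`, `Li_1(z)`, `Li_2(z)`, … -/
def plC (k : ℕ) (z : ℂ) : ℂ := if k = 0 then Complex.log z else LiC k z

/-- the unit disc without `(-1, 0]` -/
def Dd : Set ℂ := Metric.ball 0 1 ∩ Complex.slitPlane

theorem Dd_open : IsOpen Dd := Metric.isOpen_ball.inter Complex.isOpen_slitPlane

theorem half_mem : (((1 / 2 : ℝ)) : ℂ) ∈ Dd := by
  refine ⟨?_, Complex.ofReal_mem_slitPlane.2 (by norm_num)⟩
  rw [mem_ball_zero_iff, Complex.norm_real]
  norm_num

theorem Dd_conn : IsPreconnected Dd := by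
  have h1 : StarConvex ℝ (((1 / 2 : ℝ)) : ℂ) Dd :=
    ((convex_ball (0 : ℂ) 1).starConvex half_mem.1).inter
      (Complex.starConvex_ofReal_slitPlane (by norm_num))
  exact (h1.isPathConnected half_mem).isConnected.isPreconnected

theorem LiC_an (k : ℕ) {z : ℂ} (hz : ‖z‖ < 1) : AnalyticAt ℂ (LiC k) z := by
  obtain ⟨ρ, h1, h2⟩ := exists_between hz
  have hρ : 0 ≤ ρ := (norm_nonneg z).trans h1.le
  have hd : DifferentiableOn ℂ (LiC k) (Metric.ball 0 ρ) := by
    refine Complex.differentiableOn_tsum_of_summable_norm (u := fun n : ℕ => ρ ^ (n + 1)) ?_ ?_ Metric.isOpen_ball ?_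
    · exact (summable_nat_add_iff 1).2 (summable_geometric_of_lt_one hρ h2)
    · intro n
      exact ((differentiable_id.pow (n + 1)).div_const _).differentiableOn
    · intro n w hw
      rw [mem_ball_zero_iff] at hw
      have h3 : (1 : ℝ) ≤ ‖((n : ℂ) + 1) ^ k‖ := by
        have h4 : ((n : ℂ) + 1) = ((n + 1 : ℕ) : ℂ) := by push_cast; ring
        rw [h4, norm_pow, Complex.norm_natCast]
        exact one_le_pow₀ (by exact_mod_cast Nat.succ_le_succ (Nat.zero_le n))
      rw [norm_div, norm_pow]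
      exact (div_le_self (by positivity) h3).trans (pow_le_pow_left₀ (norm_nonneg _) hw.le _)
  exact hd.analyticAt (Metric.isOpen_ball.mem_nhds (mem_ball_zero_iff.2 h1))

theorem plC_an (k : ℕ) : AnalyticOnNhd ℂ (plC k) Dd := by
  intro z hz
  by_cases hk : k = 0
  · have : plC k = Complex.log := by
      funext t
      simp [plC, hk]
    rw [this]
    exact log_an z hz.2
  · have : plC k = LiC k := by
      funext t
      simp [plC, hk]
    rw [this]
    exact LiC_an k (mem_ball_zero_iff.1 hz.1)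

theorem plC_real (k : ℕ) {t : ℝ} (ht : 0 < t) : plC k (t : ℂ) = ((Pool.Agent.TH818.AP.pl k t : ℝ) : ℂ) := by
  unfold plC Pool.Agent.TH818.AP.pl
  split_ifs
  · rw [Complex.ofReal_log ht.le]
  · unfold LiC Pool.Agent.TH818.AP.Li
    rw [Complex.ofReal_tsum]
    refine tsum_congr fun n => ?_
    push_cast
    ring

/-- **Polylogarithms**: `z, log z, Li_1(z), …, Li_w(z)` are algebraically independent near every point of the domain -/
theorem plC_locInd (w : ℕ) : ∀ t ∈ Dd, LocInd (fun k : Fin (w + 1) => plC (k : ℕ)) t := by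
  refine locInd_of (fun k : Fin (w + 1) => plC (k : ℕ)) Dd Dd_conn (fun k t ht => plC_an k t ht) fun P hP => ?_
  refine ind_of_real (fun k : Fin (w + 1) => plC (k : ℕ)) (fun k t => Pool.Agent.TH818.AP.pl (k : ℕ) t)
    (Icc (1 / 3) (1 / 2)) ?_ ?_ P ?_
  · intro y t ht
    exact plC_real _ (by linarith [ht.1])
  · intro Q hQ
    refine mv_of_exp (fun (k : Fin (w + 1)) t => Pool.Agent.TH818.AP.pl (k : ℕ) t) (Icc (1 / 3) (1 / 2))
      (fun d p hp => ?_) Q hQ
    exact Pool.Agent.TH818.AP.liInd_of Pool.Agent.TH818.AP.liAn Pool.Agent.TH818.AP.liLoc w d (1 / 3) (1 / 2)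
      (by norm_num) (by norm_num) (by norm_num) p hp
  · intro t ht
    refine hP _ ⟨?_, Complex.ofReal_mem_slitPlane.2 (by linarith [ht.1])⟩
    rw [mem_ball_zero_iff, Complex.norm_real, Real.norm_of_nonneg (by linarith [ht.1])]
    linarith [ht.2]

end Pool.Agent.R349.Semi
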