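import Pool.Agent.R349.Generic
import Pool.Agent.Y776.Cv.Pad

/-!
# Small discs: families of different shapes, different compact sets

The theorem `shortS` is `Pool.Agent.R349.Gen.shortG` for families of functions of different shapes on different domains.
-/

set_option autoImplicit false

open Filter Topology NumberField MvPolynomial

namespace Pool.Agent.R349

open Pool.Agent.Y120 (Charts mv yv NormRing Pt ExcN local_thmN EE0 encE encE_val mv_enc)
open Pool.Agent.Y124 (LocInd RelR exists_radius chartsC flagC flagR RelK MgR mgR MgR_succ)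

/-- a family of functions on a compact set, in small balls -/
theorem oneL_of' (g : ℕ) {σ : Type} [Fintype σ] [DecidableEq σ] (f : σ → ℂ → ℂ) (K : Set ℂ) (hK : IsCompact K)
    (han : ∀ i, ∀ t ∈ K, AnalyticAt ℂ (f i) t) (hind : ∀ t ∈ K, LocInd f t) (η : ℝ) (hη : 0 < η) :
    OneL g (fun (τ : ℂ) R T => {t : ℂ | τ ∈ K ∧ ‖t - τ‖ ≤ T ^ (-η) ∧ Pt R T t}) (fun t i => f i t) := by
  intro h _ _ d A
  obtain ⟨B, C, T2, hT2, H⟩ := ballsR g f K hK han hind h d A η hη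
  refine ⟨B, C + 1, T2, by positivity, hT2, fun T hT R hR ξ θ Y hY => ?_⟩
  rcases Y.eq_empty_or_nonempty with rfl | ⟨t₀, ht₀⟩
  · rw [Finset.card_empty, Nat.cast_zero]
    positivity
  have h1 := H T hT R hR ξ θ (hY t₀ ht₀).1.1 Y fun t ht => ⟨(hY t ht).1.2.1, (hY t ht).1.2.2, (hY t ht).2⟩
  have h2 : (Y.card : ℝ) ≤ C := by exact_mod_cast h1
  linarith

/-- The local theorem for tuples of points of a number field of bounded degree, with different compact sets. -/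
theorem mainLK {κ : Type} [Fintype κ] (m n g d : ℕ) (f : Fin n → κ → ℂ → ℂ) (L : Fin n → Set ℂ)
    (hL : ∀ j, IsCompact (L j)) (han : ∀ j y, ∀ t ∈ L j, AnalyticAt ℂ (f j y) t)
    (hind : ∀ j, ∀ t ∈ L j, LocInd (f j) t) (A η : ℝ) (hη : 0 < η) :
    ∃ B C T₀ : ℝ, 0 ≤ B ∧ 0 ≤ C ∧ 2 ≤ T₀ ∧ ∀ (F : Type) [Field F] [NumberField F], Module.finrank ℚ F ≤ m →
      ∀ (ι : F →+* ℂ) (ξ : Fin g → ℂ) (T : ℝ), T₀ ≤ T → ∀ (τ : Fin n → ℂ) (X : Fin n → Finset F),
        (∀ j, ∀ x ∈ X j, τ j ∈ L j ∧ ‖ι x - τ j‖ ≤ T ^ (-η) ∧ Y120.HtLe F T x) →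
        ∀ E : Finset (Fin n → F), (∀ t ∈ E, (∀ j, t j ∈ X j) ∧
          ∃ P : MvPolynomial (Fin n × κ) ℂ, (∀ x, P.degreeOf x ≤ d) ∧
          (∀ s, ∃ c : Fin g → 𝓞 F, (∀ i (φ : F →+* ℂ), ‖φ (c i)‖ ≤ T ^ A) ∧ P.coeff s = ∑ i, ξ i * ι (c i)) ∧
          ∃ s₀, P.coeff s₀ ≠ 0 ∧ ‖MvPolynomial.aeval (fun x : Fin n × κ => f x.1 x.2 (ι (t x.1))) P‖ ≤
            T ^ (-B) * ‖P.coeff s₀‖) →
        (E.card : ℝ) ≤ C * MgR X := by
  classical
  have hg := fun g' : ℕ => multiL g' n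
    (fun j (τ : ℂ) R T => {t : ℂ | τ ∈ L j ∧ ‖t - τ‖ ≤ T ^ (-η) ∧ Pt R T t})
    (fun j t y => f j y t) (fun j => oneL_of' g' (f j) (L j) (hL j) (han j) (hind j) η hη) (Fin g) d A
  choose B C T2 hB hC hT2 H using hg
  refine ⟨∑ g ∈ Finset.range m, B g, ∑ g ∈ Finset.range m, C g, 2 + ∑ g ∈ Finset.range m, T2 g, ?_, ?_, ?_, ?_⟩
  · exact Finset.sum_nonneg fun g _ => hB g
  · exact Finset.sum_nonneg fun g _ => (hC g).le
  · have : 0 ≤ ∑ g ∈ Finset.range m, T2 g := Finset.sum_nonneg fun g _ => by linarith [hT2 g]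
    linarith
  intro K _ _ hm io ξ T hT τ X hX E hE
  set g' := Y120.gK K with hg'
  have hgm : g' ∈ Finset.range m := Finset.mem_range.2 (Y124.gK_lt K hm)
  have hTT : T2 g' ≤ T := by
    have h1 := Finset.single_le_sum (f := T2) (fun g _ => by linarith [hT2 g]) hgm
    linarith
  have hBB : B g' ≤ ∑ g ∈ Finset.range m, B g := Finset.single_le_sum (f := B) (fun g _ => hB g) hgm
  have hCC : C g' ≤ ∑ g ∈ Finset.range m, C g := Finset.single_le_sum (f := C) (fun g _ => (hC g).le) hgm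
  have hT1 : 1 ≤ T := by linarith [hT2 g']
  set Y : Finset (Fin n → ℂ) := E.image fun t j => io (t j) with hY
  have hYc : Y.card = E.card := by
    rw [hY, Finset.card_image_of_injective]
    intro t t' htt
    funext j
    exact io.injective (congrFun htt j)
  have h1 := H g' T hTT (Y120.RK K io) (Y120.RK_norm K io) ξ τ (fun j => (X j).image io) (by
    intro j x hx
    obtain ⟨y, hy, rfl⟩ := Finset.mem_image.1 hx
    obtain ⟨h0, h1, h2⟩ := hX j y hy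
    exact ⟨h0, h1, Y120.Pt_of_HtLe K io h2⟩) Y (by
    intro y hy
    obtain ⟨t, ht, rfl⟩ := Finset.mem_image.1 hy
    rw [Fintype.mem_piFinset]
    intro j
    exact Finset.mem_image_of_mem _ ((hE t ht).1 j)) (by
    intro y hy
    obtain ⟨t, ht, rfl⟩ := Finset.mem_image.1 hy
    refine Y124.RelR_mono (Real.rpow_le_rpow_of_exponent_le hT1 (neg_le_neg hBB)) ?_
    refine Y124.RelR_of_RelK K io ξ _ _ _ ?_
    obtain ⟨h1, P, hPd, hPc, s₀, hs₀, hs⟩ := hE t ht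
    exact Y124.relK_of_poly' K io ξ (fun j t y => f j y t) (fun j => io (t j)) _ _ P hPd hPc s₀ hs₀ hs)
  have h2 : MgR (fun j => (X j).image io) = MgR X := by
    unfold Pool.Agent.Y124.MgR
    refine Finset.sum_congr rfl fun j _ => Finset.prod_congr rfl fun i _ => ?_
    rw [Finset.card_image_of_injective _ io.injective]
  rw [h2, hYc] at h1
  refine h1.trans ?_
  have hM : 0 ≤ MgR X :=
    Finset.sum_nonneg fun j _ => Finset.prod_nonneg fun i _ => by split_ifs <;> positivity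
  exact mul_le_mul_of_nonneg_right hCC hM

/-- The local theorem for families of different shapes. -/
theorem mainLS (m n g d : ℕ) {κ : Fin n → Type} [∀ j, Fintype (κ j)] {U : Fin n → Set ℂ}
    (hU : ∀ j, IsOpen (U j)) (hc : ∀ j, IsPreconnected (U j)) {y : ∀ j, κ j → ℂ → ℂ}
    (hy : ∀ j i, AnalyticOnNhd ℂ (y j i) (U j)) (hl : ∀ j, ∀ t ∈ U j, LocInd (y j) t)
    {K : Fin n → Set ℂ} (hK : ∀ j, IsCompact (K j)) (hKU : ∀ j, K j ⊆ U j) (A η : ℝ) (hη : 0 < η) :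
    ∃ B C T₀ : ℝ, 0 ≤ B ∧ 0 ≤ C ∧ 2 ≤ T₀ ∧ ∀ (F : Type) [Field F] [NumberField F], Module.finrank ℚ F ≤ m →
      ∀ (ι : F →+* ℂ) (ξ : Fin g → ℂ) (T : ℝ), T₀ ≤ T → ∀ (τ : Fin n → ℂ) (X : Fin n → Finset F),
        (∀ j, ∀ x ∈ X j, τ j ∈ K j ∧ ‖ι x - τ j‖ ≤ T ^ (-η) ∧ Y120.HtLe F T x) →
        ∀ E : Finset (Fin n → F), (∀ t ∈ E, (∀ j, t j ∈ X j) ∧
          ∃ P : MvPolynomial (Σ j, κ j) ℂ, (∀ x, P.degreeOf x ≤ d) ∧
          (∀ s, ∃ c : Fin g → 𝓞 F, (∀ i (φ : F →+* ℂ), ‖φ (c i)‖ ≤ T ^ A) ∧ P.coeff s = ∑ i, ξ i * ι (c i)) ∧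
          ∃ s₀, P.coeff s₀ ≠ 0 ∧ ‖MvPolynomial.aeval (fun x : Σ j, κ j => y x.1 x.2 (ι (t x.1))) P‖ ≤
            T ^ (-B) * ‖P.coeff s₀‖) →
        (E.card : ℝ) ≤ C * MgR X := by
  classical
  set NN : ℕ := ∑ j, Fintype.card (κ j) with hNN
  have hle : ∀ j, Fintype.card (κ j) ≤ NN := fun j =>
    Finset.single_le_sum (f := fun j => Fintype.card (κ j)) (fun _ _ => Nat.zero_le _)
      (Finset.mem_univ j)
  choose w hwa hwl using fun j =>
    Y776.Cv.exists_pad (hU j) (hc j) (hy j) (hl j) (NN - Fintype.card (κ j))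
  have hφ : ∀ j, Nonempty (κ j ⊕ Fin (NN - Fintype.card (κ j)) ≃ Fin NN) := fun j =>
    ⟨Fintype.equivFinOfCardEq (by
      rw [Fintype.card_sum, Fintype.card_fin]
      have := hle j
      omega)⟩
  have φ : ∀ j, κ j ⊕ Fin (NN - Fintype.card (κ j)) ≃ Fin NN := fun j => (hφ j).some
  set y' : Fin n → Fin NN → ℂ → ℂ := fun j k => Sum.elim (y j) (w j) ((φ j).symm k) with hy'
  obtain ⟨B, C, T₀, hB, hC, hT₀, H⟩ := mainLK m n g d y' K hK (fun j k t ht => by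
      rcases h1 : (φ j).symm k with i | i
      · simp only [hy', h1]
        exact hy j i t (hKU j ht)
      · simp only [hy', h1]
        exact hwa j i t (hKU j ht))
    (fun j t ht => Y776.Cv.LocInd.comp_inj (hwl j t (hKU j ht)) (φ j).symm.injective) A η hη
  set f : (Σ j, κ j) → Fin n × Fin NN := fun x => (x.1, φ x.1 (Sum.inl x.2)) with hf
  have hfi : Function.Injective f := by
    rintro ⟨j, a⟩ ⟨j', b⟩ hab
    obtain ⟨h1, h2⟩ := Prod.ext_iff.1 hab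
    change j = j' at h1
    subst h1
    exact congrArg (Sigma.mk j) (Sum.inl_injective ((φ j).injective h2))
  refine ⟨B, C, T₀, hB, hC, hT₀, fun F _ _ hm io ξ T hT τ X hX E hE =>
    H F hm io ξ T hT τ X hX E fun t ht => ?_⟩
  obtain ⟨h1, P, hPd, hPc, s₀, hs₀, hs⟩ := hE t ht
  refine ⟨h1, rename f P, fun x => ?_, fun s => ?_, s₀.mapDomain f, ?_, ?_⟩
  · rw [degreeOf_le_iff]
    intro v hv
    rw [support_rename_of_injective hfi, Finset.mem_image] at hv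
    obtain ⟨v', hv', rfl⟩ := hv
    by_cases hx : x ∈ Set.range f
    · obtain ⟨x', rfl⟩ := hx
      rw [Finsupp.mapDomain_apply hfi]
      exact degreeOf_le_iff.1 (hPd x') v' hv'
    · rw [Finsupp.mapDomain_of_notMem_range _ _ hx]
      exact Nat.zero_le _
  · by_cases hx : ∃ v, Finsupp.mapDomain f v = s
    · obtain ⟨v, rfl⟩ := hx
      rw [coeff_rename_mapDomain f hfi]
      exact hPc v
    · refine ⟨fun _ => 0, fun i φ => ?_, ?_⟩
      · simp only [map_zero, norm_zero]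
        exact Real.rpow_nonneg (by linarith) _
      · rw [coeff_rename_eq_zero f P s (fun u hu => absurd ⟨u, hu⟩ hx)]
        simp
  · rw [coeff_rename_mapDomain f hfi]
    exact hs₀
  · rw [coeff_rename_mapDomain f hfi, aeval_rename]
    refine le_trans (le_of_eq ?_) hs
    congr 2
    apply MvPolynomial.algHom_ext
    rintro ⟨j, k⟩
    rw [aeval_X, aeval_X]
    change y' j (φ j (Sum.inl k)) (io (t j)) = y j k (io (t j))
    simp only [hy', Equiv.symm_apply_apply, Sum.elim_inl]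

namespace Gen

/-- Let the functions `y j k` be analytic on the connected open sets `U_j` and such that for each `j` the identity and the
functions `y j k` are algebraically independent near each point of `U_j`; let `K_j` be a compact subset of `U_j`. For all
`m`, `g`, `d`, `A`, `δ > 0` there are `B`, `C`, `T₀` such that for every number field `F` of degree at most `m` with
embedding `ι`, all complex `ξ_1, …, ξ_g`, all `T ≥ T₀` and all finite sets `X_j` of elements of `F` of height at most `T`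
whose images are in `K_j` and at mutual distances at most `T ^ (-δ)`: at most `C ∑_j ∏_(i ≠ j) |X_i|` tuples of `∏ X_j`
are bad; if all `|X_j| > C` there is a good tuple. -/
theorem shortS (m n g d : ℕ) {κ : Fin n → Type} [∀ j, Fintype (κ j)] {U : Fin n → Set ℂ}
    (hU : ∀ j, IsOpen (U j)) (hc : ∀ j, IsPreconnected (U j)) (y : ∀ j, κ j → ℂ → ℂ)
    (hy : ∀ j i, AnalyticOnNhd ℂ (y j i) (U j)) (hl : ∀ j, ∀ t ∈ U j, LocInd (y j) t)
    (K : Fin n → Set ℂ) (hK : ∀ j, IsCompact (K j)) (hKU : ∀ j, K j ⊆ U j) (A δ : ℝ) (hδ : 0 < δ) :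
    ∃ (B : ℝ) (C : ℕ) (T₀ : ℝ), ∀ (F : Type) [Field F] [NumberField F], Module.finrank ℚ F ≤ m →
      ∀ (ι : F →+* ℂ) (ξ : Fin g → ℂ) (T : ℝ), T₀ ≤ T → ∀ X : Fin n → Finset F,
        (∀ j, ∀ x ∈ X j, ι x ∈ K j ∧ ∃ a b : 𝓞 F, b ≠ 0 ∧ (∀ φ : F →+* ℂ, ‖φ a‖ ≤ T ∧ ‖φ b‖ ≤ T) ∧ x = a / b) →
        (∀ j, ∀ x ∈ X j, ∀ y ∈ X j, ‖ι x - ι y‖ ≤ T ^ (-δ)) →
        (({t : Fin n → F | (∀ j, t j ∈ X j) ∧
          ¬ GoodG F ι ξ d (T ^ A) (T ^ (-B)) (fun z : Σ j, κ j => y z.1 z.2 (ι (t z.1)))}.ncard : ℝ) ≤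
          C * ∑ j, ∏ i ∈ Finset.univ.erase j, ((X i).card : ℝ)) ∧
        ((∀ j, C < (X j).card) → ∃ t : Fin n → F, (∀ j, t j ∈ X j) ∧
          GoodG F ι ξ d (T ^ A) (T ^ (-B)) (fun z : Σ j, κ j => y z.1 z.2 (ι (t z.1)))) := by
  classical
  obtain ⟨B, C, T₀, hB, hC, hT₀, H⟩ := mainLS m n (g + (d + 1)) d hU hc hy hl hK hKU A δ hδ
  refine ⟨B, (n + 1) * ⌈C⌉₊, max T₀ 2, fun F _ _ hF ι ξ T hT X hX hXd => ?_⟩
  have hTT₀ : T₀ ≤ T := (le_max_left _ _).trans hT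
  have hT2 : 2 ≤ T := (le_max_right _ _).trans hT
  have hTp : 0 < T := by linarith
  have hτ : ∀ j, ∃ τ : ℂ, ∀ x ∈ X j, τ ∈ K j ∧ ‖ι x - τ‖ ≤ T ^ (-δ) := by
    intro j
    rcases (X j).eq_empty_or_nonempty with h | ⟨y, hy⟩
    · refine ⟨0, fun x hx => ?_⟩
      rw [h] at hx
      exact absurd hx (Finset.notMem_empty x)
    · exact ⟨ι y, fun x hx => ⟨(hX j y hy).1, hXd j x hx y hy⟩⟩
  choose τ hτ' using hτ
  set Bad : Finset (Fin n → F) := (Fintype.piFinset X).filter fun t =>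
    ¬ GoodG F ι ξ d (T ^ A) (T ^ (-B)) (fun z : Σ j, κ j => y z.1 z.2 (ι (t z.1))) with hBad
  have hBadS : {t : Fin n → F | (∀ j, t j ∈ X j) ∧
      ¬ GoodG F ι ξ d (T ^ A) (T ^ (-B)) (fun z : Σ j, κ j => y z.1 z.2 (ι (t z.1)))} =
      (Bad : Set (Fin n → F)) := by
    ext a
    simp only [hBad, Finset.coe_filter, Fintype.mem_piFinset, Set.mem_ofPred_eq]
  have hbad : ∀ t : Fin n → F,
      ¬ GoodG F ι ξ d (T ^ A) (T ^ (-B)) (fun z : Σ j, κ j => y z.1 z.2 (ι (t z.1))) →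
      ∃ P : MvPolynomial (Σ j, κ j) ℂ, AdmG F ι
          (Fin.append ξ fun k : Fin (d + 1) => (Real.pi : ℂ) ^ (k : ℕ)) d (T ^ A) P ∧ ∃ s,
          ‖aeval (fun z : Σ j, κ j => y z.1 z.2 (ι (t z.1))) P‖ < T ^ (-B) * ‖P.coeff s‖ := by
    intro t hab
    by_contra hcon
    apply hab
    refine goodG_of_key F ι ξ d (T ^ A) (T ^ (-B)) (by positivity) (by positivity) _ fun P hP s => ?_
    by_contra hlt
    exact hcon ⟨P, hP, s, not_le.1 hlt⟩
  have hcount : (Bad.card : ℝ) ≤ C * MgR X := by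
    refine H F hF ι (Fin.append ξ fun k : Fin (d + 1) => (Real.pi : ℂ) ^ (k : ℕ)) T hTT₀ τ X ?_ Bad ?_
    · intro j x hx
      obtain ⟨-, a, b, hb, hab, hx'⟩ := hX j x hx
      exact ⟨(hτ' j x hx).1, (hτ' j x hx).2, a, b, hb, Y120.house_le F hTp.le fun φ => (hab φ).1,
        Y120.house_le F hTp.le fun φ => (hab φ).2, hx'⟩
    · intro t ht
      rw [hBad, Finset.mem_filter, Fintype.mem_piFinset] at ht
      obtain ⟨htX, hab⟩ := ht
      refine ⟨htX, ?_⟩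
      obtain ⟨P, ⟨hP1, hP2⟩, s, hs⟩ := hbad t hab
      refine ⟨P, hP1, hP2, s, ?_, hs.le⟩
      intro h0
      rw [h0, norm_zero, mul_zero] at hs
      exact absurd hs (not_lt.2 (norm_nonneg _))
  have hM0 : 0 ≤ MgR X :=
    Finset.sum_nonneg fun j _ => Finset.prod_nonneg fun i _ => by split_ifs <;> positivity
  have hCle : C ≤ (((n + 1) * ⌈C⌉₊ : ℕ) : ℝ) := by
    have h1 : C ≤ ⌈C⌉₊ := Nat.le_ceil C
    have h2 : (0 : ℝ) ≤ ⌈C⌉₊ := Nat.cast_nonneg _
    push_cast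
    nlinarith [Nat.cast_nonneg (α := ℝ) n]
  refine ⟨?_, fun hXc => ?_⟩
  · rw [hBadS, Set.ncard_coe_finset, ← MgR_eq]
    exact hcount.trans (mul_le_mul_of_nonneg_right hCle hM0)
  · by_contra hcon
    push Not at hcon
    have h1 : Bad = Fintype.piFinset X := by
      rw [hBad, Finset.filter_true_of_mem]
      intro a ha
      exact hcon a (Fintype.mem_piFinset.1 ha)
    rw [h1, Fintype.card_piFinset, MgR_eq] at hcount
    push_cast at hcount
    have hpos : ∀ j, (0 : ℝ) < (X j).card := fun j => by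
      have := hXc j
      exact_mod_cast (by omega : 0 < (X j).card)
    have hprod : (0 : ℝ) < ∏ j, ((X j).card : ℝ) := Finset.prod_pos fun j _ => hpos j
    have h2 : ∀ j, ((n + 1 : ℕ) : ℝ) * (C * ∏ i ∈ Finset.univ.erase j, ((X i).card : ℝ)) ≤ ∏ j, ((X j).card : ℝ) := by
      intro j
      rw [← Finset.mul_prod_erase Finset.univ _ (Finset.mem_univ j), ← mul_assoc]
      refine mul_le_mul_of_nonneg_right ?_ (Finset.prod_nonneg fun _ _ => Nat.cast_nonneg _)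
      have h3 : (((n + 1) * ⌈C⌉₊ : ℕ) : ℝ) ≤ (X j).card := by exact_mod_cast (hXc j).le
      have h4 : C ≤ ⌈C⌉₊ := Nat.le_ceil C
      have h5 : (0 : ℝ) ≤ ((n + 1 : ℕ) : ℝ) := Nat.cast_nonneg _
      calc ((n + 1 : ℕ) : ℝ) * C ≤ ((n + 1 : ℕ) : ℝ) * ⌈C⌉₊ := mul_le_mul_of_nonneg_left h4 h5
        _ = (((n + 1) * ⌈C⌉₊ : ℕ) : ℝ) := by push_cast; ring
        _ ≤ _ := h3
    have h3 : ((n + 1 : ℕ) : ℝ) * (C * ∑ j, ∏ i ∈ Finset.univ.erase j, ((X i).card : ℝ)) ≤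
        n * ∏ j, ((X j).card : ℝ) := by
      rw [Finset.mul_sum, Finset.mul_sum]
      refine (Finset.sum_le_sum fun j _ => h2 j).trans (le_of_eq ?_)
      rw [Finset.sum_const, Finset.card_univ, Fintype.card_fin, nsmul_eq_mul]
    have h4 : ((n + 1 : ℕ) : ℝ) * ∏ j, ((X j).card : ℝ) ≤ n * ∏ j, ((X j).card : ℝ) :=
      (mul_le_mul_of_nonneg_left hcount (Nat.cast_nonneg _)).trans h3
    push_cast at h4
    nlinarith

end Gen

end Pool.Agent.R349
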