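import Mathlib
import Pool.Agent.R349.Short2
import Pool.Agent.R349.Affine

/-!
# Small discs, uniformly in affine changes of the numbers
-/

set_option autoImplicit false

open MvPolynomial NumberField

namespace Pool.Agent.R349.Gen

open Pool.Agent.Y124 (LocInd)

theorem AdmG.mono {σ : Type} {g d : ℕ} {F : Type} [Field F] [NumberField F] {ι : F →+* ℂ} {ξ : Fin g → ℂ} {H H' : ℝ}
    (h : H ≤ H') {P : MvPolynomial σ ℂ} (hP : AdmG F ι ξ d H P) : AdmG F ι ξ d H' P := by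
  refine ⟨hP.1, fun s => ?_⟩
  obtain ⟨c, hc1, hc2⟩ := hP.2 s
  exact ⟨c, fun i φ => (hc1 i φ).trans h, hc2⟩

/-- The goodness of `α v + β` follows from that of `v`. -/
theorem good_aff {σ : Type} [Fintype σ] [DecidableEq σ] {g d : ℕ} (F : Type) [Field F] [NumberField F] (ι : F →+* ℂ)
    (ξ : Fin g → ℂ) {T A A₂ B₀ : ℝ} (hT : 1 ≤ T) (hA₂ : 0 ≤ A₂)
    (hT1 : ((2 : ℝ) ^ d) ^ Fintype.card σ ≤ T)
    (hT2 : ((d : ℝ) + 1) ^ Fintype.card σ * (2 ^ d) ^ Fintype.card σ ≤ T)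
    {α β : σ → ℂ} (hα : ∀ k, α k ≠ 0) (hα' : ∀ k, ‖(α k)⁻¹‖ ≤ T ^ A₂)
    (hβ : ∀ k, ‖β k * (α k)⁻¹‖ ≤ T ^ A₂) (v : σ → ℂ)
    (h : GoodG F ι (xi' d α β (Fin.append ξ fun k : Fin (d + 1) => (Real.pi : ℂ) ^ (k : ℕ))) d (T ^ (A + 1))
      (T ^ (-B₀)) v) :
    GoodG F ι ξ d (T ^ A) (T ^ (-(B₀ + (A₂ * (2 * (d * Fintype.card σ)) + 1)))) (fun k => α k * v k + β k) := by
  classical
  have hTp : 0 < T := by linarith
  refine goodG_of_key F ι ξ d (T ^ A) _ (by positivity) (by positivity) _ fun P hP s => ?_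
  have hR : (1 : ℝ) ≤ T ^ A₂ := Real.one_le_rpow hT hA₂
  have h1 := key_aff F ι (Fin.append ξ fun k : Fin (d + 1) => (Real.pi : ℂ) ^ (k : ℕ)) (H := T ^ A)
    (R := T ^ A₂) (ε := T ^ (-B₀)) (by positivity) hR (by positivity) hα hα' hβ v (fun P' hP' s' => by
      refine h.1 P' (hP'.mono ?_) s'
      rw [Real.rpow_add hTp, Real.rpow_one, mul_comm]
      exact mul_le_mul_of_nonneg_left hT1 (by positivity)) P hP s
  have h2 : (((T ^ A₂) ^ d * (T ^ A₂) ^ d) ^ Fintype.card σ : ℝ) = T ^ (A₂ * (2 * (d * Fintype.card σ))) := by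
    rw [← pow_add, ← pow_mul, ← Real.rpow_natCast, ← Real.rpow_mul hTp.le]
    congr 1
    push_cast
    ring
  have h3 : ((2 ^ d * ((T ^ A₂) ^ d * (T ^ A₂) ^ d)) ^ Fintype.card σ : ℝ) =
      (2 ^ d) ^ Fintype.card σ * T ^ (A₂ * (2 * (d * Fintype.card σ))) := by
    rw [mul_pow, h2]
  rw [h3] at h1
  have h4 : T ^ (-(B₀ + (A₂ * (2 * (d * Fintype.card σ)) + 1))) =
      T ^ (-B₀) * (T ^ (A₂ * (2 * (d * Fintype.card σ))))⁻¹ * T⁻¹ := by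
    rw [← Real.rpow_neg hTp.le, ← Real.rpow_neg_one T, ← Real.rpow_add hTp, ← Real.rpow_add hTp]
    congr 1
    ring
  rw [h4]
  set V := ‖aeval (fun k => α k * v k + β k) P‖ with hV
  have hV0 : 0 ≤ V := norm_nonneg _
  set W := T ^ (A₂ * (2 * (d * Fintype.card σ))) with hW
  have hWp : 0 < W := by positivity
  calc T ^ (-B₀) * W⁻¹ * T⁻¹ * ‖P.coeff s‖ = W⁻¹ * T⁻¹ * (T ^ (-B₀) * ‖P.coeff s‖) := by ring
    _ ≤ W⁻¹ * T⁻¹ * ((d + 1) ^ Fintype.card σ * ((2 ^ d) ^ Fintype.card σ * W) * V) :=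
        mul_le_mul_of_nonneg_left h1 (by positivity)
    _ = T⁻¹ * (((d : ℝ) + 1) ^ Fintype.card σ * (2 ^ d) ^ Fintype.card σ) * V := by
        field_simp
    _ ≤ T⁻¹ * T * V := by
        refine mul_le_mul_of_nonneg_right (mul_le_mul_of_nonneg_left hT2 (by positivity)) hV0
    _ = V := by rw [inv_mul_cancel₀ hTp.ne', one_mul]

/-- **Small discs, uniformly in affine changes.** -/
theorem shortAff (m n g d : ℕ) {κ : Fin n → Type} [∀ j, Fintype (κ j)] {U : Fin n → Set ℂ}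
    (hU : ∀ j, IsOpen (U j)) (hc : ∀ j, IsPreconnected (U j)) (y : ∀ j, κ j → ℂ → ℂ)
    (hy : ∀ j i, AnalyticOnNhd ℂ (y j i) (U j)) (hl : ∀ j, ∀ t ∈ U j, LocInd (y j) t)
    (K : Fin n → Set ℂ) (hK : ∀ j, IsCompact (K j)) (hKU : ∀ j, K j ⊆ U j) (A A₂ δ : ℝ) (hA₂ : 0 ≤ A₂) (hδ : 0 < δ) :
    ∃ (B : ℝ) (C : ℕ) (T₀ : ℝ), ∀ (F : Type) [Field F] [NumberField F], Module.finrank ℚ F ≤ m →
      ∀ (ι : F →+* ℂ) (ξ : Fin g → ℂ) (T : ℝ), T₀ ≤ T →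
      ∀ α β : (Σ j, κ j) → ℂ, (∀ k, α k ≠ 0) → (∀ k, ‖(α k)⁻¹‖ ≤ T ^ A₂) → (∀ k, ‖β k * (α k)⁻¹‖ ≤ T ^ A₂) →
      ∀ X : Fin n → Finset F,
        (∀ j, ∀ x ∈ X j, ι x ∈ K j ∧ ∃ a b : 𝓞 F, b ≠ 0 ∧ (∀ φ : F →+* ℂ, ‖φ a‖ ≤ T ∧ ‖φ b‖ ≤ T) ∧ x = a / b) →
        (∀ j, ∀ x ∈ X j, ∀ y ∈ X j, ‖ι x - ι y‖ ≤ T ^ (-δ)) →
        (({t : Fin n → F | (∀ j, t j ∈ X j) ∧ ¬ GoodG F ι ξ d (T ^ A) (T ^ (-B))
          (fun z : Σ j, κ j => α z * y z.1 z.2 (ι (t z.1)) + β z)}.ncard : ℝ) ≤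
          C * ∑ j, ∏ i ∈ Finset.univ.erase j, ((X i).card : ℝ)) ∧
        ((∀ j, C < (X j).card) → ∃ t : Fin n → F, (∀ j, t j ∈ X j) ∧ GoodG F ι ξ d (T ^ A) (T ^ (-B))
          (fun z : Σ j, κ j => α z * y z.1 z.2 (ι (t z.1)) + β z)) := by
  classical
  set N := Fintype.card (Σ j, κ j) with hN
  obtain ⟨B₀, C, T₀, H⟩ := shortS m n (Fintype.card (Fin (g + (d + 1)) × ((Σ j, κ j) → Fin (d + 1)) ×
    ((Σ j, κ j) → Fin (d + 1)))) d hU hc y hy hl K hK hKU (A + 1) δ hδ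
  refine ⟨B₀ + (A₂ * (2 * (d * N)) + 1), C, max (max T₀ 1) (((d : ℝ) + 1) ^ N * (2 ^ d) ^ N),
    fun F _ _ hF ι ξ T hT α β hα hα' hβ X hX hXd => ?_⟩
  have hTT₀ : T₀ ≤ T := (le_max_left _ _).trans ((le_max_left _ _).trans hT)
  have hT1 : 1 ≤ T := (le_max_right _ _).trans ((le_max_left _ _).trans hT)
  have hT2 : ((d : ℝ) + 1) ^ N * (2 ^ d) ^ N ≤ T := (le_max_right _ _).trans hT
  have hT3 : ((2 : ℝ) ^ d) ^ N ≤ T := by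
    refine le_trans ?_ hT2
    have h1 : (1 : ℝ) ≤ ((d : ℝ) + 1) ^ N := one_le_pow₀ (by
      have := Nat.cast_nonneg (α := ℝ) d
      linarith)
    have h2 : (0 : ℝ) ≤ (2 ^ d) ^ N := by positivity
    nlinarith
  obtain ⟨H1, H2⟩ := H F hF ι (xi' d α β (Fin.append ξ fun k : Fin (d + 1) => (Real.pi : ℂ) ^ (k : ℕ))) T hTT₀ X hX hXd
  have hgood : ∀ t : Fin n → F, GoodG F ι (xi' d α β (Fin.append ξ fun k : Fin (d + 1) => (Real.pi : ℂ) ^ (k : ℕ))) d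
      (T ^ (A + 1)) (T ^ (-B₀)) (fun z : Σ j, κ j => y z.1 z.2 (ι (t z.1))) →
      GoodG F ι ξ d (T ^ A) (T ^ (-(B₀ + (A₂ * (2 * (d * N)) + 1))))
        (fun z : Σ j, κ j => α z * y z.1 z.2 (ι (t z.1)) + β z) :=
    fun t ht => good_aff F ι ξ hT1 hA₂ hT3 hT2 hα hα' hβ _ ht
  refine ⟨le_trans ?_ H1, fun hXc => ?_⟩
  · have hfin : {t : Fin n → F | (∀ j, t j ∈ X j) ∧ ¬ GoodG F ι
        (xi' d α β (Fin.append ξ fun k : Fin (d + 1) => (Real.pi : ℂ) ^ (k : ℕ))) d (T ^ (A + 1)) (T ^ (-B₀))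
        (fun z : Σ j, κ j => y z.1 z.2 (ι (t z.1)))}.Finite := by
      refine Set.Finite.subset (Fintype.piFinset X).finite_toSet fun t ht => ?_
      rw [Finset.mem_coe, Fintype.mem_piFinset]
      exact ht.1
    have hsub : {t : Fin n → F | (∀ j, t j ∈ X j) ∧ ¬ GoodG F ι ξ d (T ^ A)
        (T ^ (-(B₀ + (A₂ * (2 * (d * N)) + 1)))) (fun z : Σ j, κ j => α z * y z.1 z.2 (ι (t z.1)) + β z)} ⊆
        {t : Fin n → F | (∀ j, t j ∈ X j) ∧ ¬ GoodG F ι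
        (xi' d α β (Fin.append ξ fun k : Fin (d + 1) => (Real.pi : ℂ) ^ (k : ℕ))) d (T ^ (A + 1)) (T ^ (-B₀))
        (fun z : Σ j, κ j => y z.1 z.2 (ι (t z.1)))} := by
      intro t ht
      exact ⟨ht.1, fun h => ht.2 (hgood t h)⟩
    have hle := Set.ncard_le_ncard hsub hfin
    exact_mod_cast hle
  · obtain ⟨t, ht1, ht2⟩ := H2 hXc
    exact ⟨t, ht1, hgood t ht2⟩

end Pool.Agent.R349.Gen
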