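import Mathlib
import Pool.Agent.R349.ExpLog
import Pool.Agent.R349.ShortAff

/-!
# Logarithms and powers, uniformly in large intervals
-/

set_option autoImplicit false

open Filter Topology Set MvPolynomial NumberField
open scoped PeriodPair

noncomputable section

namespace Pool.Agent.R349.Semi

open Pool.Agent.Y776.Cv
open Pool.Agent.Y776.Fam (IndC)
open Pool.Agent.Y124 (LocInd)
open Pool.Agent.Y685 (clo mem_clo_iff subset_clo base_clo clo_le)

/-- no nontrivial integral relation between `1` and the `c_k` -/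
def Free1 {r : ℕ} (c : Fin r → ℂ) : Prop :=
  ∀ (m : Fin r → ℤ) (m₀ : ℤ), (m₀ : ℂ) + ∑ k, (m k : ℂ) * c k = 0 → m = 0

theorem pow_ind {r : ℕ} {c : Fin r → ℂ} (hc : Free1 c) :
    IndC Complex.slitPlane (Fin.cons Complex.log (fun k z => c k * Complex.log z) : Fin (r + 1) → ℂ → ℂ) := by
  intro m b hm
  have h1 : ∀ z ∈ Complex.slitPlane, ((m 0 : ℂ) + ∑ k : Fin r, (m k.succ : ℂ) * c k) * Complex.log z = b := by
    intro z hz
    rw [← hm z hz, Fin.sum_univ_succ, add_mul, Finset.sum_mul]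
    congr 1
    refine Finset.sum_congr rfl fun k _ => ?_
    change _ = (m k.succ : ℂ) * (c k * Complex.log z)
    ring
  have h2 := h1 1 Complex.one_mem_slitPlane
  rw [Complex.log_one, mul_zero] at h2
  have h3 := h1 (Complex.exp 1) (by
      rw [← Complex.ofReal_one, ← Complex.ofReal_exp]
      exact Complex.ofReal_mem_slitPlane.2 (Real.exp_pos 1))
  rw [Complex.log_exp (by simp [Real.pi_pos]) (by simp [Real.pi_pos.le]), mul_one, ← h2] at h3
  have h4 := hc (fun k => m k.succ) (m 0) h3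
  have h5 : (m 0 : ℂ) = 0 := by
    have h6 : ∑ k : Fin r, (m k.succ : ℂ) * c k = 0 := by
      refine Finset.sum_eq_zero fun k _ => ?_
      have := congrFun h4 k
      simp only [Pi.zero_apply] at this
      rw [this]
      simp
    rw [h6, add_zero] at h3
    exact h3
  funext i
  refine Fin.cases ?_ (fun k => ?_) i
  · exact_mod_cast h5
  · exact congrFun h4 k

theorem pow_locInd {r : ℕ} {c : Fin r → ℂ} (hc : Free1 c) : ∀ t ∈ Complex.slitPlane,
    LocInd (Fin.cons Complex.log (fun k z => Complex.exp (c k * Complex.log z)) : Fin (r + 1) → ℂ → ℂ) t := by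
  refine logexp (e := fun k z => c k * Complex.log z) (fun k z hz => analyticAt_const.mul (log_an z hz)) (pow_ind hc)
    (G := Set.range c) (Set.countable_range c) ?_
  intro F hG z hz htr i
  exact mul_mem (base_clo (hG ⟨i, rfl⟩)) (subset_clo (Set.mem_insert_of_mem _ ⟨0, rfl⟩))

/-- `log x` and the powers `x ^ {c_k}` -/
def pval {r : ℕ} (c : Fin r → ℂ) (x : ℂ) : Option (Fin r) → ℂ
  | none => Complex.log x
  | some k => Complex.exp (c k * Complex.log x)

theorem pval_an {r : ℕ} (c : Fin r → ℂ) (k : Option (Fin r)) :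
    AnalyticOnNhd ℂ (fun z => pval c z k) Complex.slitPlane := by
  intro z hz
  rcases k with _ | k
  · exact log_an z hz
  · exact (analyticAt_const.mul (log_an z hz)).cexp

theorem pval_locInd {r : ℕ} {c : Fin r → ℂ} (hc : Free1 c) (t : ℂ) (ht : t ∈ Complex.slitPlane) :
    LocInd (fun (k : Option (Fin r)) z => pval c z k) t := by
  have h := pow_locInd hc t ht
  have hinj : Function.Injective (fun o : Option (Fin r) => (o.elim 0 Fin.succ : Fin (r + 1))) := by
    rintro (_ | i) (_ | j) h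
    · rfl
    · exact absurd h.symm (Fin.succ_ne_zero j)
    · exact absurd h (Fin.succ_ne_zero i)
    · exact congrArg some (Fin.succ_injective _ h)
  have h2 := LocInd.comp_inj h hinj
  have h3 : (fun (k : Option (Fin r)) => (Fin.cons Complex.log (fun k z => Complex.exp (c k * Complex.log z)) :
      Fin (r + 1) → ℂ → ℂ) (k.elim 0 Fin.succ)) = fun (k : Option (Fin r)) z => pval c z k := by
    funext k z
    rcases k with _ | k <;> rfl
  rw [h3] at h2
  exact h2

/-- the behaviour of the numbers under multiplication of `x` by `M` -/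
theorem pval_mul {r : ℕ} (c : Fin r → ℂ) {M : ℝ} (hM : 0 < M) {x : ℂ} (hx : x ≠ 0) (k : Option (Fin r)) :
    pval c (M * x) k = k.elim 1 (fun k => Complex.exp (c k * (Real.log M : ℝ))) * pval c x k +
      k.elim ((Real.log M : ℝ) : ℂ) (fun _ => 0) := by
  rcases k with _ | k
  · change Complex.log (M * x) = 1 * Complex.log x + ((Real.log M : ℝ) : ℂ)
    rw [Complex.log_ofReal_mul hM hx]
    ring
  · change Complex.exp (c k * Complex.log (M * x)) =
      Complex.exp (c k * (Real.log M : ℝ)) * Complex.exp (c k * Complex.log x) + 0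
    rw [Complex.log_ofReal_mul hM hx, ← Complex.exp_add, add_zero]
    congr 1
    ring

/-- **Logarithms and powers at algebraic numbers in large small discs.** -/
theorem powers {r : ℕ} {c : Fin r → ℂ} (hc : Free1 c) (n : ℕ) (K : Set ℂ) (hK : IsCompact K)
    (hKs : K ⊆ Complex.slitPlane) (m g d : ℕ) (A δ : ℝ) (hδ : 0 < δ) :
    ∃ (B : ℝ) (C : ℕ) (T₀ : ℝ), ∀ (F : Type) [Field F] [NumberField F], Module.finrank ℚ F ≤ m →
      ∀ (ι : F →+* ℂ) (ξ : Fin g → ℂ) (T : ℝ), T₀ ≤ T →
      ∀ M : Fin n → ℕ, (∀ j, 1 ≤ M j ∧ (M j : ℝ) ≤ T ^ A) → ∀ X : Fin n → Finset F,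
        (∀ j, ∀ x ∈ X j, ι (x / M j) ∈ K ∧
          ∃ a b : 𝓞 F, b ≠ 0 ∧ (∀ φ : F →+* ℂ, ‖φ a‖ ≤ T ∧ ‖φ b‖ ≤ T) ∧ x / M j = a / b) →
        (∀ j, ∀ x ∈ X j, ∀ y ∈ X j, ‖ι x - ι y‖ ≤ M j * T ^ (-δ)) →
        (({x : Fin n → F | (∀ j, x j ∈ X j) ∧ ¬ Gen.GoodG F ι ξ d (T ^ A) (T ^ (-B))
          (fun k : Σ _ : Fin n, Option (Fin r) => pval c (ι (x k.1)) k.2)}.ncard : ℝ) ≤
          C * ∑ j, ∏ i ∈ Finset.univ.erase j, ((X i).card : ℝ)) ∧
        ((∀ j, C < (X j).card) → ∃ x : Fin n → F, (∀ j, x j ∈ X j) ∧ Gen.GoodG F ι ξ d (T ^ A) (T ^ (-B))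
          (fun k : Σ _ : Fin n, Option (Fin r) => pval c (ι (x k.1)) k.2)) := by
  classical
  set A₂ : ℝ := |A| * ∑ k, ‖c k‖ + |A| with hA₂
  have hS0 : 0 ≤ ∑ k, ‖c k‖ := Finset.sum_nonneg fun _ _ => norm_nonneg _
  have hA₂0 : 0 ≤ A₂ := by positivity
  obtain ⟨B, C, T₀, H⟩ := Gen.shortAff m n g d (κ := fun _ : Fin n => Option (Fin r))
    (U := fun _ => Complex.slitPlane) (fun _ => Complex.isOpen_slitPlane) (fun _ => slit_conn)
    (fun _ k z => pval c z k) (fun _ k => pval_an c k) (fun _ t ht => pval_locInd hc t ht)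
    (fun _ => K) (fun _ => hK) (fun _ => hKs) A A₂ δ hA₂0 hδ
  refine ⟨B, C, max T₀ 1, fun F _ _ hF ι ξ T hT M hM X hX hXd => ?_⟩
  have hTT₀ : T₀ ≤ T := (le_max_left _ _).trans hT
  have hT1 : 1 ≤ T := (le_max_right _ _).trans hT
  have hTp : 0 < T := by linarith
  have hM1 : ∀ j, (1 : ℝ) ≤ M j := fun j => by exact_mod_cast (hM j).1
  have hMp : ∀ j, (0 : ℝ) < M j := fun j => by linarith [hM1 j]
  have hMF : ∀ j, (M j : F) ≠ 0 := fun j => by
    have : M j ≠ 0 := by have := (hM j).1; omega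
    exact_mod_cast this
  have hMC : ∀ j, (M j : ℂ) ≠ 0 := fun j => by
    have : M j ≠ 0 := by have := (hM j).1; omega
    exact_mod_cast this
  have hlog0 : ∀ j, 0 ≤ Real.log (M j) := fun j => Real.log_nonneg (hM1 j)
  have hlogA : ∀ j, Real.log (M j) ≤ |A| * Real.log T := by
    intro j
    have h1 : Real.log (M j) ≤ Real.log (T ^ A) := Real.log_le_log (hMp j) (hM j).2
    rw [Real.log_rpow hTp] at h1
    exact h1.trans (mul_le_mul_of_nonneg_right (le_abs_self A) (Real.log_nonneg hT1))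
  set α : (Σ _ : Fin n, Option (Fin r)) → ℂ := fun z =>
    z.2.elim 1 (fun k => Complex.exp (c k * (Real.log (M z.1) : ℝ))) with hα
  set β : (Σ _ : Fin n, Option (Fin r)) → ℂ := fun z => z.2.elim ((Real.log (M z.1) : ℝ) : ℂ) (fun _ => 0) with hβ
  have hα0 : ∀ z, α z ≠ 0 := by
    rintro ⟨j, _ | k⟩
    · exact one_ne_zero
    · exact Complex.exp_ne_zero _
  have hT2 : (1 : ℝ) ≤ T ^ A₂ := Real.one_le_rpow hT1 hA₂0
  have hα' : ∀ z, ‖(α z)⁻¹‖ ≤ T ^ A₂ := by
    rintro ⟨j, _ | k⟩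
    · change ‖(1 : ℂ)⁻¹‖ ≤ _
      rw [inv_one, norm_one]
      exact hT2
    · change ‖(Complex.exp (c k * (Real.log (M j) : ℝ)))⁻¹‖ ≤ _
      rw [← Complex.exp_neg, Complex.norm_exp, Real.rpow_def_of_pos hTp]
      apply Real.exp_le_exp.2
      have h1 : (-(c k * ((Real.log (M j) : ℝ) : ℂ))).re ≤ ‖c k‖ * Real.log (M j) := by
        refine (Complex.re_le_norm _).trans (le_of_eq ?_)
        rw [norm_neg, norm_mul, Complex.norm_real, Real.norm_of_nonneg (hlog0 j)]
      have h2 : ‖c k‖ ≤ ∑ k, ‖c k‖ := Finset.single_le_sum (fun _ _ => norm_nonneg _) (Finset.mem_univ k)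
      have h3 : ‖c k‖ * Real.log (M j) ≤ (∑ k, ‖c k‖) * (|A| * Real.log T) :=
        mul_le_mul h2 (hlogA j) (hlog0 j) hS0
      have h4 : 0 ≤ |A| * Real.log T := mul_nonneg (abs_nonneg A) (Real.log_nonneg hT1)
      rw [hA₂]
      nlinarith
  have hβ' : ∀ z, ‖β z * (α z)⁻¹‖ ≤ T ^ A₂ := by
    rintro ⟨j, _ | k⟩
    · change ‖((Real.log (M j) : ℝ) : ℂ) * (1 : ℂ)⁻¹‖ ≤ _
      rw [inv_one, mul_one, Complex.norm_real, Real.norm_of_nonneg (hlog0 j)]
      have h1 : Real.log (M j) ≤ M j := (Real.log_le_sub_one_of_pos (hMp j)).trans (by linarith)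
      refine h1.trans ((hM j).2.trans ?_)
      refine Real.rpow_le_rpow_of_exponent_le hT1 ((le_abs_self A).trans ?_)
      rw [hA₂]
      have : 0 ≤ |A| * ∑ k, ‖c k‖ := by positivity
      linarith
    · change ‖(0 : ℂ) * _‖ ≤ _
      rw [zero_mul, norm_zero]
      linarith
  obtain ⟨H1, H2⟩ := H F hF ι ξ T hTT₀ α β hα0 hα' hβ' (fun j => (X j).image fun x => x / M j) (by
      intro j x hx
      rw [Finset.mem_image] at hx
      obtain ⟨y, hy, rfl⟩ := hx
      exact hX j y hy) (by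
      intro j x hx y hy
      rw [Finset.mem_image] at hx hy
      obtain ⟨x', hx', rfl⟩ := hx
      obtain ⟨y', hy', rfl⟩ := hy
      rw [map_div₀, map_div₀, map_natCast, ← sub_div, norm_div, Complex.norm_natCast, div_le_iff₀ (hMp j), mul_comm]
      exact hXd j x' hx' y' hy')
  have hcard : ∀ j, ((X j).image fun x => x / (M j : F)).card = (X j).card := fun j =>
    Finset.card_image_of_injective _ fun x y h => by
      have h1 : x / (M j : F) = y / M j := h
      rwa [div_left_inj' (hMF j)] at h1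
  simp only [hcard] at H1 H2
  have hval : ∀ x : Fin n → F, (∀ j, x j ∈ X j) → (fun k : Σ _ : Fin n, Option (Fin r) => pval c (ι (x k.1)) k.2) =
      fun z : Σ _ : Fin n, Option (Fin r) => α z * pval c (ι (x z.1 / M z.1)) z.2 + β z := by
    intro x hx
    funext z
    have h1 : ι (x z.1) = ((M z.1 : ℝ) : ℂ) * ι (x z.1 / M z.1) := by
      rw [map_div₀, map_natCast]
      push_cast
      rw [mul_div_cancel₀ _ (hMC z.1)]
    have h2 : ι (x z.1 / M z.1) ≠ 0 := Complex.slitPlane_ne_zero (hKs (hX z.1 _ (hx z.1)).1)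
    conv_lhs => rw [h1]
    rw [pval_mul c (hMp z.1) h2]
  refine ⟨le_trans ?_ H1, fun hXc => ?_⟩
  · have hfin : {t : Fin n → F | (∀ j, t j ∈ (X j).image fun x => x / (M j : F)) ∧ ¬ Gen.GoodG F ι ξ d (T ^ A) (T ^ (-B))
        (fun z : Σ _ : Fin n, Option (Fin r) => α z * pval c (ι (t z.1)) z.2 + β z)}.Finite := by
      refine Set.Finite.subset (Fintype.piFinset fun j => (X j).image fun x => x / (M j : F)).finite_toSet
        fun t ht => ?_
      rw [Finset.mem_coe, Fintype.mem_piFinset]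
      exact ht.1
    have hle := Set.ncard_le_ncard_of_injOn (s := {x : Fin n → F | (∀ j, x j ∈ X j) ∧
      ¬ Gen.GoodG F ι ξ d (T ^ A) (T ^ (-B))
          (fun k : Σ _ : Fin n, Option (Fin r) => pval c (ι (x k.1)) k.2)})
      (fun x j => x j / (M j : F)) (by
        intro x hx
        refine ⟨fun j => Finset.mem_image_of_mem _ (hx.1 j), ?_⟩
        have h1 := hx.2
        rw [hval x hx.1] at h1
        exact h1) (by
        intro x _ y _ h
        funext j
        have h1 : x j / (M j : F) = y j / M j := congrFun h j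
        rwa [div_left_inj' (hMF j)] at h1) hfin
    exact_mod_cast hle
  · obtain ⟨t, ht1, ht2⟩ := H2 hXc
    refine ⟨fun j => t j * M j, ?_, ?_⟩
    · intro j
      obtain ⟨x, hx, hxt⟩ := Finset.mem_image.1 (ht1 j)
      have : t j * M j = x := by
        rw [← hxt, div_mul_cancel₀ _ (hMF j)]
      change t j * M j ∈ X j
      rw [this]
      exact hx
    · rw [hval (fun j => t j * M j) (by
        intro j
        obtain ⟨x, hx, hxt⟩ := Finset.mem_image.1 (ht1 j)
        have : t j * M j = x := by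
          rw [← hxt, div_mul_cancel₀ _ (hMF j)]
        change t j * M j ∈ X j
        rw [this]
        exact hx)]
      have h3 : ∀ z : Σ _ : Fin n, Option (Fin r), t z.1 * (M z.1 : F) / M z.1 = t z.1 := fun z =>
        mul_div_cancel_right₀ _ (hMF z.1)
      simp only [h3]
      exact ht2

end Pool.Agent.R349.Semi
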