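import Pool.Agent.R349.SNMorse

/-!
Cancellation, right Ore property and the permutability congruence of a supernilpotent semigroup.
Problem MP_d3d931_al.
-/

namespace Pool.Agent.R349.SN

open WithOne

section core
variable {S : Type*} [Semigroup S] {n : ℕ}

theorem val_all (C p : WithOne S) : ∀ l : List (WithOne S), l ≠ [] → (∀ z ∈ l, z = p) →
    ∃ q, val C l = q * (p * C) := by
  intro l
  induction l with
  | nil => intro h; exact absurd rfl h
  | cons a l ih =>
    intro _ hz
    have ha := hz a List.mem_cons_self
    subst ha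
    by_cases hl : l = []
    · subst hl
      exact ⟨C, by rw [val_cons, val_nil, mul_assoc]⟩
    · obtain ⟨q, hq⟩ := ih hl (fun z hz' => hz z (List.mem_cons_of_mem _ hz'))
      exact ⟨C * a * q, by rw [val_cons, hq]; simp only [mul_assoc]⟩

/-- Left cancellation behind long words. -/
theorem LC (h : TC (n + 1) S) {l : WithOne S} (hl : LL (n + 1) l) (p : WithOne S) {x y : S}
    (e : p * l * (x : WithOne S) = p * l * (y : WithOne S)) :
    l * (x : WithOne S) = l * (y : WithOne S) := by
  set ts : List (Option (Fin (n + 1)) × (Bool → Option (WithOne S))) :=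
    (List.finRange (n + 1)).map (fun i => (some i, fun b => if b = true then none else some p))
    with hts
  have hlen : ts.length = n + 1 := by simp [hts]
  have hA := ins' l ts (by intro h0; rw [h0] at hlen; simp at hlen) (by rw [hlen]; exact hl)
  have hval : ∀ (ε : Fin (n + 1) → Bool) (j : Bool),
      ts.filterMap (fun t => t.2 (bit t.1 ε j)) =
      (List.finRange (n + 1)).filterMap (fun i => if ε i = true then none else some p) := by
    intro ε j
    rw [hts, List.filterMap_map]
    rfl
  have hrow := (hA.mul' (Adm.col x y)).tc h ?_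
  · have h1 : ∀ j, ts.filterMap (fun t => t.2 (bit t.1 (fun _ => true) j)) = [] := by
      intro j
      rw [hval]
      simp
    simpa [h1, val_nil] using hrow
  · intro ε hε
    rw [hval, hval]
    obtain ⟨q, hq⟩ := val_all l p
      ((List.finRange (n + 1)).filterMap (fun i => if ε i = true then none else some p)) (by
        obtain ⟨i, hi⟩ := Function.ne_iff.1 hε
        have hi' : ε i = false := by simpa using hi
        apply List.ne_nil_of_mem (a := p)
        rw [List.mem_filterMap]
        exact ⟨i, List.mem_finRange i, by simp [hi']⟩) (by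
        intro z hz
        rw [List.mem_filterMap] at hz
        obtain ⟨i, -, hi⟩ := hz
        split_ifs at hi
        simpa using hi.symm)
    rw [hq]
    simp only [if_true, Bool.false_eq_true, if_false]
    rw [mul_assoc q, mul_assoc q, e]

/-- The canonical antiisomorphism. -/
def opW : WithOne S → WithOne Sᵐᵒᵖ :=
  WithOne.recOneCoe 1 (fun s => ((MulOpposite.op s : Sᵐᵒᵖ) : WithOne Sᵐᵒᵖ))

omit [Semigroup S] in
theorem opW_coe (s : S) : opW (s : WithOne S) = ((MulOpposite.op s : Sᵐᵒᵖ) : WithOne Sᵐᵒᵖ) := rfl

theorem opW_mul (a b : WithOne S) : opW (a * b) = opW b * opW a := by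
  induction a using WithOne.recOneCoe with
  | one => rw [one_mul]; exact (mul_one _).symm
  | coe a =>
    induction b using WithOne.recOneCoe with
    | one => rw [mul_one]; exact (one_mul _).symm
    | coe b => rfl

omit [Semigroup S] in
theorem opW_inj : Function.Injective (opW (S := S)) := by
  intro a b hab
  induction a using WithOne.recOneCoe with
  | one =>
    induction b using WithOne.recOneCoe with
    | one => rfl
    | coe b => exact absurd hab.symm WithOne.coe_ne_one
  | coe a =>
    induction b using WithOne.recOneCoe with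
    | one => exact absurd hab WithOne.coe_ne_one
    | coe b => exact congrArg _ (MulOpposite.op_injective (WithOne.coe_injective hab))

theorem LL_opW {k : ℕ} : ∀ {p : WithOne S}, LL k p → LL k (opW p) := by
  induction k with
  | zero => intro p _; trivial
  | succ k ih =>
    rintro p ⟨s, p', hp', rfl⟩
    rw [opW_mul]
    exact LL_mul_coe _ (ih hp')

/-- Right cancellation in front of long words. -/
theorem RC (h : TC (n + 1) S) {l : WithOne S} (hl : LL (n + 1) l) (p : WithOne S) {x y : S}
    (e : (x : WithOne S) * l * p = (y : WithOne S) * l * p) :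
    (x : WithOne S) * l = (y : WithOne S) * l := by
  apply opW_inj
  have e' := congrArg opW e
  rw [opW_mul, opW_mul, opW_mul, opW_mul, ← mul_assoc, ← mul_assoc] at e'
  rw [opW_mul, opW_mul]
  exact LC (TC_op h) (LL_opW hl) _ e'

theorem RC' (h : TC (n + 1) S) {l : WithOne S} (hl : LL (n + 1) l) (p : WithOne S)
    {x y : WithOne S} (hx : LL 1 x) (hy : LL 1 y) (e : x * l * p = y * l * p) :
    x * l = y * l := by
  obtain ⟨x, rfl⟩ := LL_coe hx
  obtain ⟨y, rfl⟩ := LL_coe hy
  exact RC h hl p e

theorem LC' (h : TC (n + 1) S) {l : WithOne S} (hl : LL (n + 1) l) (p : WithOne S)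
    {x y : WithOne S} (hx : LL 1 x) (hy : LL 1 y) (e : p * l * x = p * l * y) :
    l * x = l * y := by
  obtain ⟨x, rfl⟩ := LL_coe hx
  obtain ⟨y, rfl⟩ := LL_coe hy
  exact LC h hl p e

/-- The Thue-Morse identity in context. -/
theorem morse_id (h : TC (n + 1) S) : ∃ (N : ℕ) (V : List Bool),
    List.Perm (false :: V) ((false :: V).map not) ∧
    ∀ C : WithOne S, LL N C → ∀ f : Bool → WithOne S,
      val C ((false :: V).map f) = val C (((false :: V).map not).map f) := by
  obtain ⟨ops, h1, h2, ⟨V, h3⟩, h4⟩ := morse n
  refine ⟨ops.length, V, ?_, ?_⟩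
  · rw [← h3, ← h2]
    exact h4
  · intro C hC f
    set ts : List (Option (Fin (n + 1)) × (Bool → Option (WithOne S))) :=
      ops.map (fun o => (o.1, fun b => if b = o.2.1 then some (f o.2.2) else none)) with hts
    have hval : ∀ (ε : Fin (n + 1) → Bool) (j : Bool),
        ts.filterMap (fun t => t.2 (bit t.1 ε j)) = (word ops ε j).map f := by
      intro ε j
      rw [hts, List.filterMap_map, word, List.map_filterMap]
      apply List.filterMap_congr
      intro o _
      dsimp only [Function.comp]
      split_ifs <;> rfl
    have hne : ts ≠ [] := by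
      intro h0
      have := hval (fun _ => true) false
      rw [h0, h3] at this
      simp at this
    have hA := ins' C ts hne (by rw [hts, List.length_map]; exact hC)
    have hrow := hA.tc h ?_
    · rw [hval, hval, h2, h3] at hrow
      exact hrow
    · intro ε hε
      rw [hval, hval, h1 ε hε]

theorem LL_val {k : ℕ} {C : WithOne S} (hC : LL k C) (l : List (WithOne S)) : LL k (val C l) :=
  LL_lmul _ hC

/-- The right Ore property in context. -/
theorem ore (h : TC (n + 1) S) {l : WithOne S} (hl : LL (n + 1) l) (a b : WithOne S) :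
    ∃ s t : WithOne S, LL (n + 1) s ∧ LL (n + 1) t ∧ l * a * s = l * b * t := by
  obtain ⟨N, V, -, hV⟩ := morse_id h
  set M := N + n + 1 with hM
  set C := l ^ (M + 1) with hCdef
  have hC : LL (M + 1) C := LL_pow (LL_mono (by omega) hl) _
  have e := hV C (LL_mono (by omega) hC) (fun x => if x = true then b else a)
  rw [List.map_cons, List.map_cons, List.map_cons, val_cons, val_cons] at e
  have hCl : C = l ^ M * l := pow_succ _ _
  refine ⟨_, _, LL_mono (by omega) (LL_val hC (V.map (fun x => if x = true then b else a))),
    LL_mono (by omega) (LL_val hC ((V.map not).map (fun x => if x = true then b else a))), ?_⟩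
  rw [mul_assoc, mul_assoc]
  apply LC' h hl (l ^ M)
  · exact LL_lmul _ (LL_mono (by omega) (LL_val hC _))
  · exact LL_lmul _ (LL_mono (by omega) (LL_val hC _))
  · rw [← hCl]
    simpa only [mul_assoc, Bool.false_eq_true, if_false, Bool.not_false, if_true] using e

/-- The permutability relation. -/
def Zr (n : ℕ) (x y : S) : Prop := ∀ (p q : WithOne S) (m : S), LL (n + 1) p → LL (n + 1) q →
  p * ((x : WithOne S) * ((m : WithOne S) * ((y : WithOne S) * q))) =
  p * ((y : WithOne S) * ((m : WithOne S) * ((x : WithOne S) * q)))

theorem Zr.symm {x y : S} (h : Zr n x y) : Zr n y x := fun p q m hp hq => (h p q m hp hq).symm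

theorem Zr.trans (hTC : TC (n + 1) S) {x y z : S} (h : Zr n x y) (h' : Zr n y z) : Zr n x z := by
  intro p q m hp hq
  obtain ⟨q', rfl⟩ := LL_coe hq
  have e1 := h' (p * ((x : WithOne S) * (m : WithOne S))) (q' : WithOne S) q'
    (LL_rmul _ hp) hq
  have e2 := h p ((q' : WithOne S) * ((z : WithOne S) * (q' : WithOne S))) m hp
    (LL_rmul _ hq)
  have e3 := h' p (q' : WithOne S) (m * x * q') hp hq
  have key : ((p * ((x : WithOne S) * ((m : WithOne S) * (z : WithOne S)))) * (q' : WithOne S)) *
      ((y : WithOne S) * (q' : WithOne S)) =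
      ((p * ((z : WithOne S) * ((m : WithOne S) * (x : WithOne S)))) * (q' : WithOne S)) *
      ((y : WithOne S) * (q' : WithOne S)) := by
    simp only [WithOne.coe_mul, mul_assoc] at e1 e2 e3 ⊢
    rw [← e1, e2, e3]
  have := RC' hTC hq _ (LL_mono (by omega) (LL_rmul _ hp)) (LL_mono (by omega) (LL_rmul _ hp)) key
  simpa only [mul_assoc] using this

theorem Zr.rmul {x y : S} (h : Zr n x y) (z : S) : Zr n (x * z) (y * z) := by
  intro p q m hp hq
  have e := h p ((z : WithOne S) * q) (z * m) hp (LL_lmul _ hq)
  simp only [WithOne.coe_mul, mul_assoc] at e ⊢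
  exact e

theorem Zr.lmul {x y : S} (h : Zr n x y) (z : S) : Zr n (z * x) (z * y) := by
  intro p q m hp hq
  have e := h (p * (z : WithOne S)) q (m * z) (LL_rmul _ hp) hq
  simp only [WithOne.coe_mul, mul_assoc] at e ⊢
  exact e

/-- The permutability congruence. -/
def Zc (hTC : TC (n + 1) S) : Con S where
  r := Zr n
  iseqv := ⟨fun _ _ _ _ _ _ => rfl, fun h => h.symm, fun h h' => h.trans hTC h'⟩
  mul' := fun h h' => (h.rmul _).trans hTC (h'.lmul _)

/-- Words with general separators. -/
def zw (f : Bool → S) : (ℕ → WithOne S) → List Bool → WithOne S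
  | _, [] => 1
  | sep, x :: l => sep 0 * (f x : WithOne S) * zw f (fun i => sep (i + 1)) l

theorem zw_perm {f : Bool → S} (hf : Zr n (f false) (f true)) {l l' : List Bool}
    (hp : l.Perm l') : ∀ (sep : ℕ → WithOne S) (p q : WithOne S), (∀ i, LL 1 (sep i)) →
      LL (n + 1) p → LL (n + 1) q → p * zw f sep l * q = p * zw f sep l' * q := by
  induction hp with
  | nil => intro sep p q _ _ _; rfl
  | cons x _ ih =>
    intro sep p q hs hp hq
    have := ih (fun i => sep (i + 1)) (p * (sep 0 * (f x : WithOne S))) q (fun i => hs _)
      (LL_rmul _ hp) hq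
    simpa only [zw, mul_assoc] using this
  | swap x y l =>
    intro sep p q hs hp hq
    have hswap : ∀ (p q : WithOne S) (m : S), LL (n + 1) p → LL (n + 1) q →
        p * ((f x : WithOne S) * ((m : WithOne S) * ((f y : WithOne S) * q))) =
        p * ((f y : WithOne S) * ((m : WithOne S) * ((f x : WithOne S) * q))) := by
      cases x <;> cases y
      · intro p q m _ _; rfl
      · exact hf
      · exact hf.symm
      · intro p q m _ _; rfl
    obtain ⟨m, hm⟩ := LL_coe (hs 1)
    have := hswap (p * sep 0) (zw f (fun i => sep (i + 2)) l * q) m (LL_rmul _ hp)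
      (LL_lmul _ hq)
    rw [← hm] at this
    simp only [zw, mul_assoc] at this ⊢
    exact this.symm
  | trans _ _ ih ih' =>
    intro sep p q hs hp hq
    exact (ih sep p q hs hp hq).trans (ih' sep p q hs hp hq)

theorem zw_append (f : Bool → S) (c : Bool) : ∀ (l : List Bool) (sep : ℕ → WithOne S),
    zw f sep (l ++ [c]) = zw f sep l * (sep l.length * (f c : WithOne S)) := by
  intro l
  induction l with
  | nil => intro sep; simp [zw]
  | cons x l ih =>
    intro sep
    simp only [List.cons_append, zw, ih, List.length_cons, mul_assoc]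

theorem zw_const (f : Bool → S) (C : WithOne S) : ∀ (l : List Bool) (sep : ℕ → WithOne S),
    (∀ i, i < l.length → sep i = C) →
    zw f sep l = (l.map (fun x => C * (f x : WithOne S))).prod := by
  intro l
  induction l with
  | nil => intro sep _; simp [zw]
  | cons x l ih =>
    intro sep hs
    rw [zw, ih _ (fun i hi => hs (i + 1) (by simpa using hi)), hs 0 (by simp)]
    simp [mul_assoc]

theorem val_append (C : WithOne S) (f : Bool → WithOne S) (l : List Bool) (c : Bool) :
    val C ((l ++ [c]).map f) = (l.map (fun x => C * f x)).prod * (C * (f c * C)) := by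
  simp [val, List.prod_append, mul_assoc, Function.comp_def]

end core

end Pool.Agent.R349.SN
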