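import Pool.Agent.R349.SNCore

/-!
The commutator of `n + 1` total congruences lies below the permutability congruence.
Problem MP_d3d931_al.
-/

namespace Pool.Agent.R349.SN

open WithOne

section cube
variable {S : Type*} [Semigroup S] {n : ℕ}

theorem emb_adm {x : Mat n S} (hx : x ∈ MM (S := S) (fun _ : Fin n => ⊤) ⊤) (c : Bool) :
    Adm (n := n + 1) (fun ε j => ((x (fun i => ε i.succ) (xor c j) : S) : WithOne S)) := by
  induction hx using Subsemigroup.closure_induction with
  | mem x hx =>
    rcases hx with ⟨i, a, b, -, rfl⟩ | ⟨a, b, -, rfl⟩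
    · have := Adm.dir i.succ a b
      convert this using 3
      exact apply_ite (fun s : S => (s : WithOne S)) _ _ _
    · cases c
      · have := Adm.col (n := n + 1) a b
        convert this using 3
        simp only [Bool.false_xor]
        split_ifs <;> rfl
      · have := Adm.col (n := n + 1) b a
        convert this using 3
        rename_i j
        cases j <;> simp
  | mul x y hx hy ihx ihy => exact ihx.mul' ihy

theorem pre_adm {x : Mat n S} (hx : x ∈ MM (S := S) (fun _ : Fin n => ⊤) ⊤) (C : S) :
    ∀ (U : List Bool) (A : Mat (n + 1) (WithOne S)), Adm A → Adm (fun ε j => A ε j *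
      (U.map (fun u => (C : WithOne S) * ((x (fun i => ε i.succ) (xor u j) : S) : WithOne S))).prod)
      := by
  intro U
  induction U with
  | nil => intro A hA; simpa using hA
  | cons u U ih =>
    intro A hA
    have := ih _ (hA.mul' ((Adm.const C).mul' (emb_adm hx u)))
    simpa only [List.map_cons, List.prod_cons, mul_assoc] using this

theorem coord_if {i : Fin n} (a b : WithOne S) (ha : LL 1 a) (hb : LL 1 b) :
    Adm (fun ε _ => if ε i = true then b else a) := by
  obtain ⟨a, rfl⟩ := LL_coe ha
  obtain ⟨b, rfl⟩ := LL_coe hb
  exact Adm.dir i a b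

theorem cube1 (h : TC (n + 1) S) {x : Mat n S} (hx : x ∈ MM (S := S) (fun _ : Fin n => ⊤) ⊤)
    (hrow : ∀ ε : Fin n → Bool, ε ≠ (fun _ => true) → Zr n (x ε false) (x ε true)) :
    ∃ (X Y : WithOne S) (c : Bool), LL (n + 1) X ∧ LL (n + 1) Y ∧
      ∀ (m : S) (q : WithOne S), LL (n + 1) q →
        X * ((m : WithOne S) * ((x (fun _ => true) c : WithOne S) * q)) =
        Y * ((m : WithOne S) * ((x (fun _ => true) (!c) : WithOne S) * q)) := by
  obtain ⟨N, V, hperm, hV⟩ := morse_id h
  obtain ⟨C, hC⟩ := LL_coe (LL_pow (LL_one (x (fun _ => true) false)) (N + n + 1))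
  have hCl : LL (N + n + 1) (C : WithOne S) := by
    rw [← hC]; exact LL_pow (LL_one _) _
  have hCl1 : LL (n + 1) (C : WithOne S) := LL_mono (by omega) hCl
  obtain ⟨U0, c, hU⟩ : ∃ U0 c, false :: V = U0 ++ [c] :=
    ⟨_, _, (List.dropLast_append_getLast (l := false :: V) (by simp)).symm⟩
  rw [hU] at hperm hV
  set f : Bool → S := x (fun _ => true) with hf
  refine ⟨(C : WithOne S) * (U0.map (fun u => (C : WithOne S) * (f u : WithOne S))).prod,
    (C : WithOne S) * (U0.map (fun u => (C : WithOne S) * (f (!u) : WithOne S))).prod, c,
    LL_rmul _ hCl1, LL_rmul _ hCl1, ?_⟩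
  intro m q hq
  have hq1 : LL 1 q := LL_mono (by omega) hq
  have hA := (((pre_adm hx C U0 _ (Adm.const C)).mul'
    (coord_if (i := 0) (C : WithOne S) (m : WithOne S) (LL_one C) (LL_one m))).mul'
    (emb_adm hx c)).mul'
    (coord_if (i := 0) (C : WithOne S) q (LL_one C) hq1)
  have hfin := hA.tc h ?_
  · simpa only [if_true, Bool.xor_false, Bool.xor_true, mul_assoc] using hfin
  · intro ε hε
    by_cases ht : (fun i : Fin n => ε i.succ) = (fun _ => true)
    · have h0 : ε 0 = false := by
        by_contra h0
        apply hε
        funext i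
        refine Fin.cases (by simpa using h0) (fun i => ?_) i
        exact congrFun ht i
      have e := hV (C : WithOne S) (LL_mono (by omega) hCl) (fun b => (f b : WithOne S))
      rw [List.map_map, val_append, val_append] at e
      simp only [ht, h0, Bool.xor_false, Bool.xor_true, Bool.false_eq_true, if_false, mul_assoc]
      simp only [Function.comp] at e
      rw [← hf, e]
    · have hz := hrow _ ht
      set g : Bool → S := x (fun i : Fin n => ε i.succ) with hg
      have key : ∀ M Q : WithOne S, LL 1 M → LL (n + 1) Q →
          (C : WithOne S) * (U0.map (fun u => (C : WithOne S) * (g u : WithOne S))).prod *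
            M * (g c : WithOne S) * Q =
          (C : WithOne S) * (U0.map (fun u => (C : WithOne S) * (g (!u) : WithOne S))).prod *
            M * (g (!c) : WithOne S) * Q := by
        intro M Q hM hQ
        set sep : ℕ → WithOne S := fun i => if i < U0.length then (C : WithOne S) else M
          with hsep
        have hs : ∀ i, LL 1 (sep i) := by
          intro i; rw [hsep]; dsimp only; split_ifs
          · exact LL_one C
          · exact hM
        have e := zw_perm hz hperm sep (C : WithOne S) Q hs hCl1 hQ
        rw [List.map_append, List.map_cons, List.map_nil, zw_append, zw_append,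
          zw_const g (C : WithOne S) U0 sep (by intro i hi; simp [hsep, hi]),
          zw_const g (C : WithOne S) (U0.map not) sep (by
            intro i hi; rw [List.length_map] at hi; simp [hsep, hi]),
          List.length_map, List.map_map] at e
        have hsl : sep U0.length = M := by simp [hsep]
        rw [hsl] at e
        simpa only [mul_assoc, Function.comp_def] using e
      by_cases h0 : ε 0 = true
      · simpa only [h0, if_true, Bool.xor_false, Bool.xor_true] using
          key m q (LL_one m) hq
      · simpa only [h0, Bool.false_eq_true, if_false, Bool.xor_false, Bool.xor_true] using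
          key C C (LL_one C) hCl1

theorem cube1' (h : TC (n + 1) S) {x : Mat n S} (hx : x ∈ MM (S := S) (fun _ : Fin n => ⊤) ⊤)
    (hrow : ∀ ε : Fin n → Bool, ε ≠ (fun _ => true) → Zr n (x ε false) (x ε true)) :
    ∃ Y : WithOne S, LL (n + 1) Y ∧
      ∀ (m m' : S) (q : WithOne S), LL (n + 1) q →
        Y * ((m : WithOne S) * ((x (fun _ => true) false : WithOne S) *
          ((m' : WithOne S) * ((x (fun _ => true) true : WithOne S) * q)))) =
        Y * ((m : WithOne S) * ((x (fun _ => true) true : WithOne S) *
          ((m' : WithOne S) * ((x (fun _ => true) false : WithOne S) * q)))) := by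
  obtain ⟨X, Y, c, -, hY, e⟩ := cube1 h hx hrow
  refine ⟨Y, hY, ?_⟩
  intro m m' q hq
  set v := x (fun _ => true) false with hv
  set w := x (fun _ => true) true with hw
  cases c
  · -- X m v q = Y m w q
    simp only [Bool.not_false] at e
    have e1 := e m ((m' : WithOne S) * ((v : WithOne S) * q)) (LL_lmul _ (LL_lmul _ hq))
    have e2 := e (m * v * m') q hq
    simp only [WithOne.coe_mul, mul_assoc] at e1 e2
    exact e2.symm.trans e1
  · simp only [Bool.not_true] at e
    have e1 := e m ((m' : WithOne S) * ((w : WithOne S) * q)) (LL_lmul _ (LL_lmul _ hq))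
    have e2 := e (m * w * m') q hq
    simp only [WithOne.coe_mul, mul_assoc] at e1 e2
    exact e1.symm.trans e2

theorem cube2 (h : TC (n + 1) S) {x : Mat n S} (hx : x ∈ MM (S := S) (fun _ : Fin n => ⊤) ⊤)
    (hrow : ∀ ε : Fin n → Bool, ε ≠ (fun _ => true) → Zr n (x ε false) (x ε true)) :
    Zr n (x (fun _ => true) false) (x (fun _ => true) true) := by
  obtain ⟨Y, hY, e⟩ := cube1' h hx hrow
  intro p q m hp hq
  have hYm : LL (n + 1) (Y * (m : WithOne S)) := LL_rmul _ hY
  obtain ⟨q, rfl⟩ := LL_coe hq
  have hA := ((((coord_if (i := (0 : Fin (n + 1))) (Y * (m : WithOne S)) p (LL_mono (by omega) hYm)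
    (LL_mono (by omega) hp)).mul' (emb_adm hx false)).mul' (Adm.const m)).mul'
    (emb_adm hx true)).mul' (Adm.const q)
  have hfin := hA.tc h ?_
  · simpa only [if_true, Bool.xor_false, Bool.xor_true, mul_assoc, Bool.not_true,
      Bool.not_false] using hfin
  · intro ε hε
    by_cases ht : (fun i : Fin n => ε i.succ) = (fun _ => true)
    · have h0 : ε 0 = false := by
        by_contra h0
        apply hε
        funext i
        refine Fin.cases (by simpa using h0) (fun i => ?_) i
        exact congrFun ht i
      have e1 := e m m (q : WithOne S) hq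
      simpa only [ht, h0, Bool.false_eq_true, if_false, Bool.xor_false, Bool.xor_true,
        Bool.not_true, Bool.not_false, mul_assoc] using e1
    · have hz := hrow _ ht
      by_cases h0 : ε 0 = true
      · simpa only [h0, if_true, Bool.xor_false, Bool.xor_true,
          Bool.not_true, Bool.not_false, mul_assoc] using hz p q m hp hq
      · simpa only [h0, Bool.false_eq_true, if_false, Bool.xor_false, Bool.xor_true,
          Bool.not_true, Bool.not_false, mul_assoc] using hz (Y * (m : WithOne S)) q m hYm hq

theorem comm_le_Zc (h : TC (n + 1) S) : comm (S := S) (fun _ : Fin n => ⊤) ⊤ ≤ Zc h := by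
  apply comm_le
  intro x hx hrow
  exact cube2 h hx hrow

end cube

end Pool.Agent.R349.SN
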