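import Mathlib

/-!
Higher commutators of semigroups (basic definitions and functoriality).
Problem MP_d3d931_al.
-/

namespace Pool.Agent.R349.SN

/-- Matrices with rows indexed by `Fin m → Bool` and two columns (indexed by `Bool`). -/
abbrev Mat (m : ℕ) (S : Type*) := (Fin m → Bool) → Bool → S

section defs
variable {S : Type*} [Semigroup S]

/-- The generating matrices. -/
def gens {m : ℕ} (α : Fin m → Con S) (β : Con S) : Set (Mat m S) :=
  {x | ∃ (i : Fin m) (a b : S), α i a b ∧ x = fun ε _ => if ε i = true then b else a} ∪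
  {x | ∃ a b : S, β a b ∧ x = fun _ j => if j = true then b else a}

/-- The set of matrices `M(α_1, …, α_m, β)`. -/
def MM {m : ℕ} (α : Fin m → Con S) (β : Con S) : Subsemigroup (Mat m S) :=
  Subsemigroup.closure (gens α β)

/-- The term condition for a congruence `δ`, relative to a set of matrices. -/
def TermCond {m : ℕ} (X : Set (Mat m S)) (δ : Con S) : Prop :=
  ∀ x ∈ X, (∀ ε : Fin m → Bool, ε ≠ (fun _ => true) → δ (x ε false) (x ε true)) →
    δ (x (fun _ => true) false) (x (fun _ => true) true)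

/-- `Cen α β δ`: the congruence `δ` satisfies the term condition for `M(α_1, …, α_m, β)`. -/
def Cen {m : ℕ} (α : Fin m → Con S) (β δ : Con S) : Prop :=
  TermCond (MM α β : Set (Mat m S)) δ

/-- The higher commutator `[α_1, …, α_m, β]`. -/
def comm {m : ℕ} (α : Fin m → Con S) (β : Con S) : Con S := sInf {δ | Cen α β δ}

/-- `d`-supernilpotence: the commutator of `d + 1` copies of the total congruence is trivial. -/
def Supernilpotent (S : Type*) [Semigroup S] (d : ℕ) : Prop :=
  comm (S := S) (fun _ : Fin d => ⊤) ⊤ = ⊥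

/-- `[1, [1, …, [1, 1] … ]]` with `d + 1` copies of the total congruence. -/
def leftS (S : Type*) [Semigroup S] : ℕ → Con S
  | 0 => ⊤
  | d + 1 => comm (fun _ : Fin 1 => ⊤) (leftS S d)

/-- `[ … [[1, 1], 1], …, 1]` with `d + 1` copies of the total congruence. -/
def rightS (S : Type*) [Semigroup S] : ℕ → Con S
  | 0 => ⊤
  | d + 1 => comm (fun _ : Fin 1 => rightS S d) ⊤

theorem comm_iff {m : ℕ} (α : Fin m → Con S) (β : Con S) (x y : S) :
    comm α β x y ↔ ∀ δ : Con S, Cen α β δ → δ x y := Iff.rfl

theorem cen_comm {m : ℕ} (α : Fin m → Con S) (β : Con S) : Cen α β (comm α β) := by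
  intro x hx h
  rw [comm_iff]
  intro δ hδ
  exact hδ x hx (fun ε hε => (comm_iff α β _ _).1 (h ε hε) δ hδ)

theorem comm_le {m : ℕ} {α : Fin m → Con S} {β δ : Con S} (h : Cen α β δ) : comm α β ≤ δ :=
  fun {x y} hxy => (comm_iff α β x y).1 hxy δ h

end defs

section maps
variable {S T : Type*} [Semigroup S] [Semigroup T]

/-- homomorphism or antihomomorphism -/
def IsHA (f : S → T) : Prop :=
  (∀ x y, f (x * y) = f x * f y) ∨ (∀ x y, f (x * y) = f y * f x)

theorem MM_map {f : S → T} (hf : IsHA f) {m : ℕ} {α : Fin m → Con S} {β : Con S}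
    {α' : Fin m → Con T} {β' : Con T} (hα : ∀ i x y, α i x y → α' i (f x) (f y))
    (hβ : ∀ x y, β x y → β' (f x) (f y)) {x : Mat m S} (hx : x ∈ MM α β) :
    (fun ε j => f (x ε j)) ∈ MM α' β' := by
  induction hx using Subsemigroup.closure_induction with
  | mem x hx =>
    apply Subsemigroup.subset_closure
    rcases hx with ⟨i, a, b, hab, rfl⟩ | ⟨a, b, hab, rfl⟩
    · left
      exact ⟨i, f a, f b, hα i _ _ hab, by funext ε j; dsimp only; split_ifs <;> rfl⟩
    · right
      exact ⟨f a, f b, hβ _ _ hab, by funext ε j; dsimp only; split_ifs <;> rfl⟩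
  | mul x y hx hy ihx ihy =>
    rcases hf with hf | hf
    · have := (MM α' β').mul_mem ihx ihy
      convert this using 1
      funext ε j
      exact hf _ _
    · have := (MM α' β').mul_mem ihy ihx
      convert this using 1
      funext ε j
      exact hf _ _

theorem comm_map {f : S → T} (hf : IsHA f) {m : ℕ} {α : Fin m → Con S} {β : Con S}
    {α' : Fin m → Con T} {β' : Con T} (hα : ∀ i x y, α i x y → α' i (f x) (f y))
    (hβ : ∀ x y, β x y → β' (f x) (f y)) {x y : S} (h : comm α β x y) :
    comm α' β' (f x) (f y) := by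
  let δ : Con S :=
    { r := fun x y => comm α' β' (f x) (f y)
      iseqv := ⟨fun _ => (comm α' β').refl _, fun h => (comm α' β').symm h,
        fun h h' => (comm α' β').trans h h'⟩
      mul' := by
        intro a b c d hab hcd
        rcases hf with hf | hf
        · rw [hf, hf]; exact (comm α' β').mul hab hcd
        · rw [hf, hf]; exact (comm α' β').mul hcd hab }
  refine (comm_iff α β x y).1 h δ ?_
  intro z hz hrow
  exact cen_comm α' β' _ (MM_map hf hα hβ hz) hrow

theorem leftS_map {f : S → T} (hf : IsHA f) (d : ℕ) :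
    ∀ x y, leftS S d x y → leftS T d (f x) (f y) := by
  induction d with
  | zero => intro x y _; exact trivial
  | succ d ih => intro x y h; exact comm_map hf (fun _ _ _ _ => trivial) ih h

theorem rightS_map {f : S → T} (hf : IsHA f) (d : ℕ) :
    ∀ x y, rightS S d x y → rightS T d (f x) (f y) := by
  induction d with
  | zero => intro x y _; exact trivial
  | succ d ih => intro x y h; exact comm_map hf (fun _ => ih) (fun _ _ _ => trivial) h

theorem comm_mono {m : ℕ} {α α' : Fin m → Con S} {β β' : Con S} (hα : ∀ i, α i ≤ α' i)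
    (hβ : β ≤ β') : comm α β ≤ comm α' β' := by
  intro x y h
  exact comm_map (f := id) (Or.inl fun _ _ => rfl) (fun i x y hxy => hα i hxy)
    (fun x y hxy => hβ hxy) h

/-- One step of the left series. -/
theorem leftS_step {d : ℕ} {β δ : Con S} (h : leftS S d ≤ β)
    (hc : Cen (fun _ : Fin 1 => ⊤) β δ) : leftS S (d + 1) ≤ δ :=
  (comm_mono (fun _ => le_refl _) h).trans (comm_le hc)

theorem rightS_step {d : ℕ} {β δ : Con S} (h : rightS S d ≤ β)
    (hc : Cen (fun _ : Fin 1 => β) ⊤ δ) : rightS S (d + 1) ≤ δ :=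
  (comm_mono (fun _ => h) (le_refl _)).trans (comm_le hc)

end maps

/-- The term condition for the trivial congruence. -/
def TC (n : ℕ) (S : Type*) [Semigroup S] : Prop :=
  ∀ x ∈ MM (S := S) (fun _ : Fin n => ⊤) ⊤,
    (∀ ε : Fin n → Bool, ε ≠ (fun _ => true) → x ε false = x ε true) →
    x (fun _ => true) false = x (fun _ => true) true

theorem supernilpotent_iff {S : Type*} [Semigroup S] (n : ℕ) : Supernilpotent S n ↔ TC n S := by
  constructor
  · intro h x hx hrow
    have hc := cen_comm (S := S) (fun _ : Fin n => ⊤) ⊤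
    rw [Supernilpotent] at h
    rw [h] at hc
    exact hc x hx hrow
  · intro h
    rw [Supernilpotent, eq_bot_iff]
    apply comm_le
    intro x hx hrow
    exact h x hx hrow

theorem TC_op {S : Type*} [Semigroup S] {n : ℕ} (h : TC n S) : TC n Sᵐᵒᵖ := by
  intro x hx hrow
  have hf : IsHA (MulOpposite.unop : Sᵐᵒᵖ → S) := Or.inr fun _ _ => rfl
  have := h _ (MM_map hf (α' := fun _ => ⊤) (β' := ⊤) (fun _ _ _ _ => trivial)
    (fun _ _ _ => trivial) hx) (fun ε hε => congrArg MulOpposite.unop (hrow ε hε))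
  exact MulOpposite.unop_injective this

/-- The quotient by the `(k+1)`-ary commutator is `k`-supernilpotent. -/
theorem TC_quot {S : Type*} [Semigroup S] (k : ℕ) :
    TC k (comm (S := S) (fun _ : Fin k => ⊤) ⊤).Quotient := by
  set θ := comm (S := S) (fun _ : Fin k => ⊤) ⊤ with hθ
  intro x hx hrow
  have key : ∃ y ∈ MM (S := S) (fun _ : Fin k => ⊤) ⊤, ∀ ε j, x ε j = (y ε j : θ.Quotient) := by
    clear hrow
    induction hx using Subsemigroup.closure_induction with
    | mem x hx =>
      rcases hx with ⟨i, a, b, hab, rfl⟩ | ⟨a, b, hab, rfl⟩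
      · obtain ⟨a, rfl⟩ := Quot.exists_rep a
        obtain ⟨b, rfl⟩ := Quot.exists_rep b
        refine ⟨_, Subsemigroup.subset_closure (Or.inl ⟨i, a, b, trivial, rfl⟩), ?_⟩
        intro ε j; exact (apply_ite (fun s : S => (s : θ.Quotient)) _ _ _).symm
      · obtain ⟨a, rfl⟩ := Quot.exists_rep a
        obtain ⟨b, rfl⟩ := Quot.exists_rep b
        refine ⟨_, Subsemigroup.subset_closure (Or.inr ⟨a, b, trivial, rfl⟩), ?_⟩
        intro ε j; exact (apply_ite (fun s : S => (s : θ.Quotient)) _ _ _).symm
    | mul x y hx hy ihx ihy =>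
      obtain ⟨x', hx', e⟩ := ihx
      obtain ⟨y', hy', e'⟩ := ihy
      refine ⟨x' * y', (MM _ _).mul_mem hx' hy', ?_⟩
      intro ε j
      show x ε j * y ε j = _
      rw [e, e']
      rfl
  obtain ⟨y, hy, e⟩ := key
  rw [e, e]
  refine (Con.eq θ).2 (cen_comm (S := S) (fun _ : Fin k => ⊤) ⊤ y hy ?_)
  intro ε hε
  have := hrow ε hε
  rw [e, e] at this
  exact (Con.eq θ).1 this

end Pool.Agent.R349.SN
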