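import Pool.Agent.R349.SNSteps

/-!
Supernilpotent semigroups are left and right nilpotent.
Problem MP_d3d931_al.
-/

namespace Pool.Agent.R349.SN

open WithOne

section dagger
variable {S : Type*} [Semigroup S] {n : ℕ}

theorem LL_ofFn {k : ℕ} : ∀ {p : WithOne S}, LL k p → ∃ (f : Fin k → S) (d' : WithOne S),
    p = (List.ofFn (fun i => (f i : WithOne S))).prod * d' := by
  induction k with
  | zero => intro p _; exact ⟨Fin.elim0, p, by simp⟩
  | succ k ih =>
    rintro p ⟨s, p', hp', rfl⟩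
    obtain ⟨f, d', rfl⟩ := ih hp'
    exact ⟨Fin.cons s f, d', by simp [List.ofFn_succ, mul_assoc]⟩

/-- Products with spoilers. -/
def pf (s : WithOne S → WithOne S) (ε : Fin (n + 1) → Bool) :
    WithOne S → List (Fin (n + 1) × S) → WithOne S
  | _, [] => 1
  | D, (i, d) :: l => (if ε i = true then (d : WithOne S) else
      (d : WithOne S) * s (D * (d : WithOne S))) * pf s ε (D * (d : WithOne S)) l

theorem pf_adm (s : WithOne S → WithOne S) : ∀ (l : List (Fin (n + 1) × S)) (D : WithOne S)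
    (A : Mat (n + 1) (WithOne S)), Adm A → Adm (fun ε j => A ε j * pf s ε D l) := by
  intro l
  induction l with
  | nil => intro D A hA; simpa [pf] using hA
  | cons t l ih =>
    obtain ⟨i, d⟩ := t
    intro D A hA
    have := ih (D * (d : WithOne S)) _ (hA.mul' (coord_if (i := i)
      ((d : WithOne S) * s (D * (d : WithOne S))) (d : WithOne S)
      (LL_rmul _ (LL_one d)) (LL_one d)))
    simpa only [pf, mul_assoc] using this

theorem pf_top (s : WithOne S → WithOne S) : ∀ (l : List (Fin (n + 1) × S)) (D : WithOne S),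
    pf s (fun _ => true) D l = (l.map (fun t => (t.2 : WithOne S))).prod := by
  intro l
  induction l with
  | nil => intro D; rfl
  | cons t l ih =>
    obtain ⟨i, d⟩ := t
    intro D
    simp [pf, ih]

theorem pf_row (s : WithOne S → WithOne S) (x y : WithOne S)
    (hs : ∀ D, x * (D * s D) = y * (D * s D)) (ε : Fin (n + 1) → Bool) :
    ∀ (l : List (Fin (n + 1) × S)) (D : WithOne S), (∃ t ∈ l, ε t.1 = false) →
      x * (D * pf s ε D l) = y * (D * pf s ε D l) := by
  intro l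
  induction l with
  | nil => rintro D ⟨t, ht, -⟩; simp at ht
  | cons t l ih =>
    obtain ⟨i, d⟩ := t
    rintro D ⟨t, ht, hε⟩
    by_cases hi : ε i = true
    · have hmem : ∃ t ∈ l, ε t.1 = false := by
        rcases List.mem_cons.1 ht with rfl | h
        · rw [hi] at hε; exact absurd hε (by simp)
        · exact ⟨t, h, hε⟩
      have := ih (D * (d : WithOne S)) hmem
      simpa only [pf, hi, if_true, mul_assoc] using this
    · have e := hs (D * (d : WithOne S))
      have e2 := congrArg (fun z => z * pf s ε (D * (d : WithOne S)) l) e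
      simpa only [pf, hi, if_false, mul_assoc, Bool.false_eq_true] using e2

theorem dagger (h : TC (n + 1) S) {x y : WithOne S} (hx : LL (n + 1) x) (hy : LL (n + 1) y)
    (hk : ∀ p q : WithOne S, LL (n + 1) p → LL (n + 1) q → p * (x * q) = p * (y * q))
    {ρ : WithOne S} (e : x * ρ = y * ρ) {d : WithOne S} (hd : LL (n + 1) d) :
    x * d = y * d := by
  have hex : ∀ D : WithOne S, ∃ s : WithOne S, x * (D * s) = y * (D * s) := by
    intro D
    obtain ⟨s, t, hs, ht, est⟩ := ore h hx D ρ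
    refine ⟨s, ?_⟩
    have e1 : y * (D * s) = y * (ρ * t) := by
      apply LC' h hy x (LL_lmul _ (LL_mono (by omega) hs)) (LL_lmul _ (LL_mono (by omega) ht))
      rw [mul_assoc, mul_assoc, ← hk x _ hx (LL_lmul _ hs), ← hk x _ hx (LL_lmul _ ht)]
      rw [← mul_assoc x D s, est, mul_assoc]
    rw [e1, ← mul_assoc, est, ← mul_assoc, e]
  choose s hs using hex
  obtain ⟨f, d', rfl⟩ := LL_ofFn hd
  obtain ⟨x, rfl⟩ := LL_coe hx
  obtain ⟨y, rfl⟩ := LL_coe hy
  have hA := pf_adm (n := n) s (List.ofFn (fun i => (i, f i))) 1 _ (Adm.col x y)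
  have hfin := hA.tc h ?_
  · simp only [if_true, Bool.false_eq_true, if_false, pf_top, List.map_ofFn,
      Function.comp_def] at hfin
    rw [← mul_assoc, hfin, mul_assoc]
  · intro ε hε
    obtain ⟨i, hi⟩ := Function.ne_iff.1 hε
    have hi' : ε i = false := by simpa using hi
    have := pf_row s (x : WithOne S) (y : WithOne S) hs ε (List.ofFn (fun i => (i, f i))) 1
      ⟨(i, f i), by rw [List.mem_ofFn]; exact ⟨i, rfl⟩, hi'⟩
    simpa only [one_mul, if_true, Bool.false_eq_true, if_false] using this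

/-- The congruences `δ_a`. -/
def Dc (S : Type*) [Semigroup S] (n a : ℕ) : Con S where
  r x y := Hc S n (n + 1) x y ∧ ∀ p r : WithOne S, LL a p → LL (n + 1) r →
    p * ((x : WithOne S) * r) = p * ((y : WithOne S) * r)
  iseqv := ⟨fun x => ⟨(Hc S n (n + 1)).refl x, fun _ _ _ _ => rfl⟩,
    fun h => ⟨(Hc S n (n + 1)).symm h.1, fun p r hp hr => (h.2 p r hp hr).symm⟩,
    fun h h' => ⟨(Hc S n (n + 1)).trans h.1 h'.1,
      fun p r hp hr => (h.2 p r hp hr).trans (h'.2 p r hp hr)⟩⟩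
  mul' := by
    intro w x y z h h'
    refine ⟨(Hc S n (n + 1)).mul h.1 h'.1, ?_⟩
    intro p r hp hr
    have e1 := h.2 p ((y : WithOne S) * r) hp (LL_lmul _ hr)
    have e2 := h'.2 (p * (x : WithOne S)) r (LL_rmul _ hp) hr
    simp only [WithOne.coe_mul, mul_assoc] at e1 e2 ⊢
    rw [e1, e2]

theorem cen_D_left (h : TC (n + 1) S) (a : ℕ) :
    Cen (fun _ : Fin 1 => ⊤) (Dc S n (a + 1)) (Dc S n a) := by
  apply cen_bin (S := S) (fun x00 x01 x10 x11 : S =>
    Dc S n (a + 1) x00 x01 ∧ Dc S n (a + 1) x10 x11 ∧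
    ((∀ p r : WithOne S, LL a p → LL (n + 1) r →
        p * ((x00 : WithOne S) * r) = p * ((x01 : WithOne S) * r) ∧
        p * ((x10 : WithOne S) * r) = p * ((x11 : WithOne S) * r)) ∨
     (∃ x1 y1 : S, Dc S n (a + 1) x1 y1 ∧ ∃ ρ0 ρ1 : WithOne S,
        ∀ p r : WithOne S, LL a p → LL (n + 1) r →
        p * ((x00 : WithOne S) * r) = p * ((x1 : WithOne S) * (ρ0 * r)) ∧
        p * ((x01 : WithOne S) * r) = p * ((y1 : WithOne S) * (ρ0 * r)) ∧
        p * ((x10 : WithOne S) * r) = p * ((x1 : WithOne S) * (ρ1 * r)) ∧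
        p * ((x11 : WithOne S) * r) = p * ((y1 : WithOne S) * (ρ1 * r)))))
  · intro x y _
    exact ⟨Con.refl _ _, Con.refl _ _, Or.inl fun p r _ _ => ⟨rfl, rfl⟩⟩
  · intro x y hxy
    refine ⟨hxy, hxy, Or.inr ⟨x, y, hxy, 1, 1, fun p r _ _ => ?_⟩⟩
    simp
  · rintro x00 x01 x10 x11 z00 z01 z10 z11 ⟨h0, h1, hx⟩ ⟨k0, k1, -⟩
    refine ⟨Con.mul _ h0 k0, Con.mul _ h1 k1, ?_⟩
    rcases hx with hx | ⟨x1, y1, hxy, ρ0, ρ1, hx⟩
    · left
      intro p r hp hr
      have e1 := (hx p ((z00 : WithOne S) * r) hp (LL_lmul _ hr)).1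
      have e2 := k0.2 (p * (x01 : WithOne S)) r (LL_mul_coe _ hp) hr
      have e3 := (hx p ((z10 : WithOne S) * r) hp (LL_lmul _ hr)).2
      have e4 := k1.2 (p * (x11 : WithOne S)) r (LL_mul_coe _ hp) hr
      simp only [WithOne.coe_mul, mul_assoc] at e1 e2 e3 e4 ⊢
      exact ⟨e1.trans e2, e3.trans e4⟩
    · right
      refine ⟨x1, y1, hxy, ρ0 * (z00 : WithOne S), ρ1 * (z10 : WithOne S), ?_⟩
      intro p r hp hr
      have e1 := (hx p ((z00 : WithOne S) * r) hp (LL_lmul _ hr)).1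
      have e2 := (hx p ((z01 : WithOne S) * r) hp (LL_lmul _ hr)).2.1
      have e3 := (hx p ((z10 : WithOne S) * r) hp (LL_lmul _ hr)).2.2.1
      have e4 := (hx p ((z11 : WithOne S) * r) hp (LL_lmul _ hr)).2.2.2
      have e5 := k0.2 (p * (y1 : WithOne S) * ρ0) r (LL_rmul _ (LL_mul_coe _ hp)) hr
      have e6 := k1.2 (p * (y1 : WithOne S) * ρ1) r (LL_rmul _ (LL_mul_coe _ hp)) hr
      simp only [WithOne.coe_mul, mul_assoc] at e1 e2 e3 e4 e5 e6 ⊢
      exact ⟨e1, e2.trans e5.symm, e3, e4.trans e6.symm⟩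
  · rintro x00 x01 x10 x11 ⟨h0, h1, hx⟩ hd
    refine ⟨h1.1, ?_⟩
    intro p r hp hr
    rcases hx with hx | ⟨x1, y1, hxy, ρ0, ρ1, hx⟩
    · exact (hx p r hp hr).2
    · obtain ⟨e0, e1, e2, e3⟩ := hx p r hp hr
      rcases hxy.1.2 with rfl | ⟨l1, l2⟩
      · rw [e2, e3]
      · rw [e2, e3, ← mul_assoc p (x1 : WithOne S), ← mul_assoc p (y1 : WithOne S)]
        apply dagger h (LL_lmul p l1) (LL_lmul p l2) (ρ := ρ0 * r)
        · intro P q hP hq
          have := hxy.1.1 (P * p) q (LL_rmul _ hP) hq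
          simpa only [mul_assoc] using this
        · have := hd.2 p r hp hr
          rw [e0, e1] at this
          simpa only [mul_assoc] using this
        · exact LL_lmul _ hr

theorem cen_D_right (h : TC (n + 1) S) (a : ℕ) :
    Cen (fun _ : Fin 1 => Dc S n (a + 1)) ⊤ (Dc S n a) := by
  apply cen_bin (S := S) (fun x00 x01 x10 x11 : S =>
    Dc S n (a + 1) x00 x10 ∧ Dc S n (a + 1) x01 x11 ∧
    ((∀ p r : WithOne S, LL a p → LL (n + 1) r →
        p * ((x00 : WithOne S) * r) = p * ((x10 : WithOne S) * r) ∧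
        p * ((x01 : WithOne S) * r) = p * ((x11 : WithOne S) * r)) ∨
     (∃ x1 y1 : S, Dc S n (a + 1) x1 y1 ∧ ∃ ρ0 ρ1 : WithOne S,
        ∀ p r : WithOne S, LL a p → LL (n + 1) r →
        p * ((x00 : WithOne S) * r) = p * ((x1 : WithOne S) * (ρ0 * r)) ∧
        p * ((x10 : WithOne S) * r) = p * ((y1 : WithOne S) * (ρ0 * r)) ∧
        p * ((x01 : WithOne S) * r) = p * ((x1 : WithOne S) * (ρ1 * r)) ∧
        p * ((x11 : WithOne S) * r) = p * ((y1 : WithOne S) * (ρ1 * r)))))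
  · intro x y hxy
    refine ⟨hxy, hxy, Or.inr ⟨x, y, hxy, 1, 1, fun p r _ _ => ?_⟩⟩
    simp
  · intro x y _
    exact ⟨Con.refl _ _, Con.refl _ _, Or.inl fun p r _ _ => ⟨rfl, rfl⟩⟩
  · rintro x00 x01 x10 x11 z00 z01 z10 z11 ⟨h0, h1, hx⟩ ⟨k0, k1, -⟩
    refine ⟨Con.mul _ h0 k0, Con.mul _ h1 k1, ?_⟩
    rcases hx with hx | ⟨x1, y1, hxy, ρ0, ρ1, hx⟩
    · left
      intro p r hp hr
      have e1 := (hx p ((z00 : WithOne S) * r) hp (LL_lmul _ hr)).1
      have e2 := k0.2 (p * (x10 : WithOne S)) r (LL_mul_coe _ hp) hr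
      have e3 := (hx p ((z01 : WithOne S) * r) hp (LL_lmul _ hr)).2
      have e4 := k1.2 (p * (x11 : WithOne S)) r (LL_mul_coe _ hp) hr
      simp only [WithOne.coe_mul, mul_assoc] at e1 e2 e3 e4 ⊢
      exact ⟨e1.trans e2, e3.trans e4⟩
    · right
      refine ⟨x1, y1, hxy, ρ0 * (z00 : WithOne S), ρ1 * (z01 : WithOne S), ?_⟩
      intro p r hp hr
      have e1 := (hx p ((z00 : WithOne S) * r) hp (LL_lmul _ hr)).1
      have e2 := (hx p ((z10 : WithOne S) * r) hp (LL_lmul _ hr)).2.1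
      have e3 := (hx p ((z01 : WithOne S) * r) hp (LL_lmul _ hr)).2.2.1
      have e4 := (hx p ((z11 : WithOne S) * r) hp (LL_lmul _ hr)).2.2.2
      have e5 := k0.2 (p * (y1 : WithOne S) * ρ0) r (LL_rmul _ (LL_mul_coe _ hp)) hr
      have e6 := k1.2 (p * (y1 : WithOne S) * ρ1) r (LL_rmul _ (LL_mul_coe _ hp)) hr
      simp only [WithOne.coe_mul, mul_assoc] at e1 e2 e3 e4 e5 e6 ⊢
      exact ⟨e1, e2.trans e5.symm, e3, e4.trans e6.symm⟩
  · rintro x00 x01 x10 x11 ⟨h0, h1, hx⟩ hd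
    refine ⟨Con.trans _ (Con.symm _ h0.1) (Con.trans _ hd.1 h1.1), ?_⟩
    intro p r hp hr
    have ed := hd.2 p r hp hr
    rcases hx with hx | ⟨x1, y1, hxy, ρ0, ρ1, hx⟩
    · obtain ⟨e1, e2⟩ := hx p r hp hr
      rw [← e1, ← e2, ed]
    · obtain ⟨e0, e1, e2, e3⟩ := hx p r hp hr
      rcases hxy.1.2 with rfl | ⟨l1, l2⟩
      · rw [e1, e3, ← e0, ← e2, ed]
      · rw [e1, e3, ← mul_assoc p (y1 : WithOne S), ← mul_assoc p (y1 : WithOne S)]
        apply LC' h (LL_lmul p l2) (y1 : WithOne S) (LL_lmul _ (LL_mono (by omega) hr))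
          (LL_lmul _ (LL_mono (by omega) hr))
        have k1 := hxy.1.1 ((y1 : WithOne S) * p) (ρ0 * r) (LL_rmul _ l2) (LL_lmul _ hr)
        have k2 := hxy.1.1 ((y1 : WithOne S) * p) (ρ1 * r) (LL_rmul _ l2) (LL_lmul _ hr)
        rw [e0, e2] at ed
        have ed' := congrArg (fun z => (y1 : WithOne S) * z) ed
        simp only [mul_assoc] at k1 k2 ed' ⊢
        rw [← k1, ← k2, ed']

theorem left_D (h : TC (n + 1) S) (hZ : ∃ d, leftS S d ≤ Zc h) :
    ∃ d, leftS S d ≤ Dc S n 0 := by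
  obtain ⟨d, hd⟩ := hZ
  have h1 : leftS S (d + 1) ≤ kap S n := leftS_step hd (cen_kap_left h)
  have h2 : ∀ j, ∃ d, leftS S d ≤ Hc S n j := by
    intro j
    induction j with
    | zero => exact ⟨_, fun {x y} hxy => ⟨h1 hxy, Or.inr ⟨trivial, trivial⟩⟩⟩
    | succ j ih =>
      obtain ⟨d, hd⟩ := ih
      exact ⟨_, leftS_step hd (genL (Hc_r j) (Hc_l j))⟩
  have h3 : ∀ a, (∃ d, leftS S d ≤ Dc S n a) → ∃ d, leftS S d ≤ Dc S n 0 := by
    intro a
    induction a with
    | zero => exact id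
    | succ a ih =>
      rintro ⟨d, hd⟩
      exact ih ⟨_, leftS_step hd (cen_D_left h a)⟩
  obtain ⟨d, hd⟩ := h2 (n + 1)
  exact h3 (n + 1) ⟨d, fun {x y} hxy => ⟨hd hxy, fun p r hp hr => (hd hxy).1 p r hp hr⟩⟩

theorem right_D (h : TC (n + 1) S) (hZ : ∃ d, rightS S d ≤ Zc h) :
    ∃ d, rightS S d ≤ Dc S n 0 := by
  obtain ⟨d, hd⟩ := hZ
  have h1 : rightS S (d + 1) ≤ kap S n := rightS_step hd (cen_kap_right h)
  have h2 : ∀ j, ∃ d, rightS S d ≤ Hc S n j := by
    intro j
    induction j with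
    | zero => exact ⟨_, fun {x y} hxy => ⟨h1 hxy, Or.inr ⟨trivial, trivial⟩⟩⟩
    | succ j ih =>
      obtain ⟨d, hd⟩ := ih
      exact ⟨_, rightS_step hd (genR (Hc_r j) (Hc_l j))⟩
  have h3 : ∀ a, (∃ d, rightS S d ≤ Dc S n a) → ∃ d, rightS S d ≤ Dc S n 0 := by
    intro a
    induction a with
    | zero => exact id
    | succ a ih =>
      rintro ⟨d, hd⟩
      exact ih ⟨_, rightS_step hd (cen_D_right h a)⟩
  obtain ⟨d, hd⟩ := h2 (n + 1)
  exact h3 (n + 1) ⟨d, fun {x y} hxy => ⟨hd hxy, fun p r hp hr => (hd hxy).1 p r hp hr⟩⟩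

/-- The final chain of congruences. -/
def Gc (S : Type*) [Semigroup S] (n j : ℕ) : Con S where
  r x y := ∀ (a b : ℕ) (p q : WithOne S), LL a p → LL b q → 2 * n + 1 ≤ a + b + j →
    p * ((x : WithOne S) * q) = p * ((y : WithOne S) * q)
  iseqv := ⟨fun _ _ _ _ _ _ _ _ => rfl, fun h a b p q hp hq hab => (h a b p q hp hq hab).symm,
    fun h h' a b p q hp hq hab => (h a b p q hp hq hab).trans (h' a b p q hp hq hab)⟩
  mul' := by
    intro w x y z h h' a b p q hp hq hab
    have e1 := h a b p ((y : WithOne S) * q) hp (LL_lmul _ hq) hab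
    have e2 := h' a b (p * (x : WithOne S)) q (LL_rmul _ hp) hq hab
    simp only [WithOne.coe_mul, mul_assoc] at e1 e2 ⊢
    rw [e1, e2]

theorem Gc_r (j : ℕ) (x y z : S) (h : Gc S n j x y) : Gc S n (j + 1) (x * z) (y * z) := by
  intro a b p q hp hq hab
  have e1 := h a (b + 1) p ((z : WithOne S) * q) hp (LL_coe_mul _ hq) (by omega)
  simpa only [WithOne.coe_mul, mul_assoc] using e1

theorem Gc_l (j : ℕ) (x y z : S) (h : Gc S n j x y) : Gc S n (j + 1) (z * x) (z * y) := by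
  intro a b p q hp hq hab
  have e1 := h (a + 1) b (p * (z : WithOne S)) q (LL_mul_coe _ hp) hq (by omega)
  simpa only [WithOne.coe_mul, mul_assoc] using e1

theorem Gc_top : Gc S n (2 * n + 1) ≤ ⊥ := by
  intro x y h
  have e := h 0 0 1 1 trivial trivial (by omega)
  simp only [one_mul, mul_one] at e
  exact WithOne.coe_injective e

theorem Gc_zero {x y : S} (h1 : ∀ r : WithOne S, LL (n + 1) r → (x : WithOne S) * r = y * r)
    (h2 : ∀ r : WithOne S, LL (n + 1) r → r * (x : WithOne S) = r * y) : Gc S n 0 x y := by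
  intro a b p q hp hq hab
  by_cases ha : n + 1 ≤ a
  · rw [← mul_assoc, ← mul_assoc, h2 p (LL_mono ha hp)]
  · rw [h1 q (LL_mono (by omega) hq)]

theorem leftS_anti {d e : ℕ} (hde : d ≤ e) : leftS S e ≤ leftS S d := by
  have step : ∀ d, leftS S (d + 1) ≤ leftS S d := by
    intro d
    induction d with
    | zero => exact le_top
    | succ d ih => exact comm_mono (fun _ => le_refl _) ih
  induction hde with
  | refl => exact le_refl _
  | step _ ih => exact (step _).trans ih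

theorem rightS_anti {d e : ℕ} (hde : d ≤ e) : rightS S e ≤ rightS S d := by
  have step : ∀ d, rightS S (d + 1) ≤ rightS S d := by
    intro d
    induction d with
    | zero => exact le_top
    | succ d ih => exact comm_mono (fun _ => ih) (le_refl _)
  induction hde with
  | refl => exact le_refl _
  | step _ ih => exact (step _).trans ih

theorem Dc_zero {x y : S} (h : Dc S n 0 x y) (r : WithOne S) (hr : LL (n + 1) r) :
    (x : WithOne S) * r = y * r := by
  simpa only [one_mul] using h.2 1 r trivial hr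

theorem Dc_zero_op {x y : S} (h : Dc Sᵐᵒᵖ n 0 (MulOpposite.op x) (MulOpposite.op y))
    (r : WithOne S) (hr : LL (n + 1) r) : r * (x : WithOne S) = r * y := by
  apply opW_inj
  rw [opW_mul, opW_mul]
  exact Dc_zero h _ (LL_opW hr)

theorem leftS_quot (θ : Con S) (d : ℕ) (hd : leftS θ.Quotient d = ⊥) : leftS S d ≤ θ := by
  intro x y hxy
  have e := leftS_map (S := S) (T := θ.Quotient) (f := fun s => (s : θ.Quotient))
    (Or.inl fun _ _ => rfl) d x y hxy
  rw [hd] at e
  exact (Con.eq θ).1 e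

theorem rightS_quot (θ : Con S) (d : ℕ) (hd : rightS θ.Quotient d = ⊥) : rightS S d ≤ θ := by
  intro x y hxy
  have e := rightS_map (S := S) (T := θ.Quotient) (f := fun s => (s : θ.Quotient))
    (Or.inl fun _ _ => rfl) d x y hxy
  rw [hd] at e
  exact (Con.eq θ).1 e

end dagger

universe u

/-- Supernilpotent semigroups are left and right nilpotent. -/
theorem main_tc (n : ℕ) : ∀ (S : Type u) [Semigroup S], TC n S →
    (∃ d, leftS S d = ⊥) ∧ (∃ d, rightS S d = ⊥) := by
  induction n with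
  | zero =>
    intro S _ h
    have hs : ∀ a b : S, a = b := by
      intro a b
      have := h (fun _ j => if j = true then b else a)
        (Subsemigroup.subset_closure (Or.inr ⟨a, b, trivial, rfl⟩))
        (fun ε hε => absurd (Subsingleton.elim _ _) hε)
      simpa using this
    have ht : (⊤ : Con S) = ⊥ := by
      rw [eq_bot_iff]
      intro a b _
      exact hs a b
    exact ⟨⟨0, ht⟩, ⟨0, ht⟩⟩
  | succ n ih =>
    intro S _ h
    -- the series reach the permutability congruence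
    have hL : ∀ (T : Type u) [Semigroup T] (hT : TC (n + 1) T), ∃ d, leftS T d ≤ Zc hT := by
      intro T _ hT
      obtain ⟨⟨d, hd⟩, -⟩ := ih _ (TC_quot (S := T) n)
      exact ⟨d, (leftS_quot _ d hd).trans (comm_le_Zc hT)⟩
    have hR : ∀ (T : Type u) [Semigroup T] (hT : TC (n + 1) T), ∃ d, rightS T d ≤ Zc hT := by
      intro T _ hT
      obtain ⟨-, d, hd⟩ := ih _ (TC_quot (S := T) n)
      exact ⟨d, (rightS_quot _ d hd).trans (comm_le_Zc hT)⟩
    have hop : IsHA (MulOpposite.op : S → Sᵐᵒᵖ) := Or.inr fun _ _ => rfl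
    constructor
    · obtain ⟨d1, hd1⟩ := left_D h (hL S h)
      obtain ⟨d2, hd2⟩ := left_D (TC_op h) (hL Sᵐᵒᵖ (TC_op h))
      have h0 : leftS S (max d1 d2) ≤ Gc S n 0 := by
        intro x y hxy
        have e1 := hd1 (leftS_anti (le_max_left d1 d2) hxy)
        have e4 : leftS S d2 x y := leftS_anti (le_max_right d1 d2) hxy
        have e3 : leftS Sᵐᵒᵖ d2 (MulOpposite.op x) (MulOpposite.op y) :=
          leftS_map hop d2 x y e4
        have e2 := hd2 e3
        exact Gc_zero (Dc_zero e1) (Dc_zero_op e2)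
      have hj : ∀ j, ∃ d, leftS S d ≤ Gc S n j := by
        intro j
        induction j with
        | zero => exact ⟨_, h0⟩
        | succ j ih' =>
          obtain ⟨d, hd⟩ := ih'
          exact ⟨_, leftS_step hd (genL (Gc_r j) (Gc_l j))⟩
      obtain ⟨d, hd⟩ := hj (2 * n + 1)
      exact ⟨d, eq_bot_iff.2 (hd.trans Gc_top)⟩
    · obtain ⟨d1, hd1⟩ := right_D h (hR S h)
      obtain ⟨d2, hd2⟩ := right_D (TC_op h) (hR Sᵐᵒᵖ (TC_op h))
      have h0 : rightS S (max d1 d2) ≤ Gc S n 0 := by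
        intro x y hxy
        have e1 := hd1 (rightS_anti (le_max_left d1 d2) hxy)
        have e4 : rightS S d2 x y := rightS_anti (le_max_right d1 d2) hxy
        have e3 : rightS Sᵐᵒᵖ d2 (MulOpposite.op x) (MulOpposite.op y) :=
          rightS_map hop d2 x y e4
        have e2 := hd2 e3
        exact Gc_zero (Dc_zero e1) (Dc_zero_op e2)
      have hj : ∀ j, ∃ d, rightS S d ≤ Gc S n j := by
        intro j
        induction j with
        | zero => exact ⟨_, h0⟩
        | succ j ih' =>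
          obtain ⟨d, hd⟩ := ih'
          exact ⟨_, rightS_step hd (genR (Gc_r j) (Gc_l j))⟩
      obtain ⟨d, hd⟩ := hj (2 * n + 1)
      exact ⟨d, eq_bot_iff.2 (hd.trans Gc_top)⟩

theorem main (S : Type u) [Semigroup S] (h : ∃ n, Supernilpotent S n) :
    (∃ d, leftS S d = ⊥) ∧ (∃ d, rightS S d = ⊥) := by
  obtain ⟨n, hn⟩ := h
  exact main_tc n S ((supernilpotent_iff n).1 hn)

end Pool.Agent.R349.SN
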