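import Pool.Agent.R349.SNDefs

/-!
Long words, admissible functions, the insertion lemma and the Thue-Morse words.
Problem MP_d3d931_al.
-/

namespace Pool.Agent.R349.SN

open WithOne

section long
variable {S : Type*} [Semigroup S]

/-- `LL k p`: `p` is a product of `k` elements of `S` and an element of `S¹`. -/
def LL : ℕ → WithOne S → Prop
  | 0, _ => True
  | k + 1, p => ∃ (s : S) (p' : WithOne S), LL k p' ∧ p = (s : WithOne S) * p'

theorem LL_succ {k : ℕ} : ∀ {p : WithOne S}, LL (k + 1) p → LL k p := by
  induction k with
  | zero => intro p _; trivial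
  | succ k ih =>
    rintro p ⟨s, p', hp', rfl⟩
    exact ⟨s, p', ih hp', rfl⟩

theorem LL_mono {a b : ℕ} (hab : a ≤ b) {p : WithOne S} (h : LL b p) : LL a p := by
  induction hab with
  | refl => exact h
  | step _ ih => exact ih (LL_succ h)

theorem LL_lmul {b : ℕ} (p : WithOne S) {q : WithOne S} (h : LL b q) : LL b (p * q) := by
  induction p using WithOne.recOneCoe with
  | one => simpa using h
  | coe s => exact LL_succ ⟨s, q, h, rfl⟩

theorem LL_mul {a b : ℕ} : ∀ {p q : WithOne S}, LL a p → LL b q → LL (a + b) (p * q) := by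
  induction a with
  | zero => intro p q _ hq; rw [Nat.zero_add]; exact LL_lmul p hq
  | succ a ih =>
    rintro p q ⟨s, p', hp', rfl⟩ hq
    rw [Nat.add_right_comm]
    exact ⟨s, p' * q, ih hp' hq, mul_assoc _ _ _⟩

theorem LL_rmul {a : ℕ} {p : WithOne S} (q : WithOne S) (h : LL a p) : LL a (p * q) :=
  LL_mul (b := 0) h trivial

theorem LL_one (s : S) : LL 1 (s : WithOne S) := ⟨s, 1, trivial, (mul_one _).symm⟩

theorem LL_coe_mul {b : ℕ} (s : S) {q : WithOne S} (h : LL b q) :
    LL (b + 1) ((s : WithOne S) * q) := ⟨s, q, h, rfl⟩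

theorem LL_mul_coe {b : ℕ} (s : S) {q : WithOne S} (h : LL b q) :
    LL (b + 1) (q * (s : WithOne S)) := LL_mul h (LL_one s)

theorem LL_coe {k : ℕ} {p : WithOne S} (h : LL (k + 1) p) : ∃ s : S, p = (s : WithOne S) := by
  obtain ⟨s, p', _, rfl⟩ := h
  induction p' using WithOne.recOneCoe with
  | one => exact ⟨s, mul_one _⟩
  | coe t => exact ⟨s * t, rfl⟩

theorem LL_pow {p : WithOne S} (h : LL 1 p) (k : ℕ) : LL k (p ^ k) := by
  induction k with
  | zero => trivial
  | succ k ih => rw [pow_succ]; exact LL_mul ih h

end long

section adm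
variable {S : Type*} [Semigroup S] {n : ℕ}

/-- Functions coming from `M(1, …, 1)`. -/
def Adm (X : Mat n (WithOne S)) : Prop :=
  ∃ x ∈ MM (S := S) (fun _ : Fin n => ⊤) ⊤, X = fun ε j => ((x ε j : S) : WithOne S)

theorem Adm.mul {X Y : Mat n (WithOne S)} (hX : Adm X) (hY : Adm Y) : Adm (X * Y) := by
  obtain ⟨x, hx, rfl⟩ := hX
  obtain ⟨y, hy, rfl⟩ := hY
  exact ⟨x * y, (MM _ _).mul_mem hx hy, rfl⟩

theorem Adm.mul' {X Y : Mat n (WithOne S)} (hX : Adm X) (hY : Adm Y) :
    Adm (fun ε j => X ε j * Y ε j) := hX.mul hY

theorem Adm.dir (i : Fin n) (a b : S) :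
    Adm (fun ε _ => if ε i = true then (b : WithOne S) else (a : WithOne S)) := by
  refine ⟨_, Subsemigroup.subset_closure (Or.inl ⟨i, a, b, trivial, rfl⟩), ?_⟩
  funext ε j
  split_ifs <;> rfl

theorem Adm.col (a b : S) :
    Adm (n := n) (fun _ j => if j = true then (b : WithOne S) else (a : WithOne S)) := by
  refine ⟨_, Subsemigroup.subset_closure (Or.inr ⟨a, b, trivial, rfl⟩), ?_⟩
  funext ε j
  split_ifs <;> rfl

theorem Adm.const (a : S) : Adm (n := n) (fun _ _ => (a : WithOne S)) := by
  have := Adm.col (n := n) a a
  convert this using 3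
  split_ifs <;> rfl

/-- The bit of a coordinate (`none` is the column). -/
def bit (c : Option (Fin n)) (ε : Fin n → Bool) (j : Bool) : Bool :=
  match c with
  | none => j
  | some i => ε i

theorem Adm.coord (c : Option (Fin n)) (a b : S) :
    Adm (fun ε j => if bit c ε j = true then (b : WithOne S) else (a : WithOne S)) := by
  cases c with
  | none => exact Adm.col a b
  | some i => exact Adm.dir i a b

theorem Adm.tc (h : TC n S) {X : Mat n (WithOne S)} (hX : Adm X)
    (hrow : ∀ ε : Fin n → Bool, ε ≠ (fun _ => true) → X ε false = X ε true) :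
    X (fun _ => true) false = X (fun _ => true) true := by
  obtain ⟨x, hx, rfl⟩ := hX
  have := h x hx (fun ε hε => WithOne.coe_injective (hrow ε hε))
  exact congrArg _ this

/-- The word `C x₁ C x₂ C … x_k C`. -/
def val (C : WithOne S) (l : List (WithOne S)) : WithOne S := (l.map (fun x => C * x)).prod * C

theorem val_nil (C : WithOne S) : val C [] = C := by simp [val]

theorem val_cons (C x : WithOne S) (l : List (WithOne S)) : val C (x :: l) = C * x * val C l := by
  simp [val, mul_assoc]

/-- The insertion lemma. -/
theorem ins (C : WithOne S) (ts : List (Option (Fin n) × (Bool → Option (WithOne S)))) :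
    ∀ D E : WithOne S, C = D * E → LL ts.length E →
      ∃ Y : Mat n (WithOne S), (Adm Y ∨ (ts = [] ∧ Y = 1)) ∧
        ∀ ε j, D * Y ε j = val C (ts.filterMap (fun t => t.2 (bit t.1 ε j))) := by
  induction ts with
  | nil =>
    intro D E hC _
    induction E using WithOne.recOneCoe with
    | one => exact ⟨1, Or.inr ⟨rfl, rfl⟩, fun ε j => by simp [val_nil, hC]⟩
    | coe e => exact ⟨_, Or.inl (Adm.const e), fun ε j => by simp [val_nil, hC]⟩
  | cons t ts ih =>
    rintro D E hC ⟨s, E', hE', rfl⟩
    obtain ⟨Y', hY', hY⟩ := ih (D * (s : WithOne S)) E' (by rw [hC, mul_assoc]) hE'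
    -- the values of the new factor
    have hg : ∀ b : Bool, ∃ g : S, (g : WithOne S) = match t.2 b with
        | none => (s : WithOne S)
        | some x => (s : WithOne S) * (E' * x * D * (s : WithOne S)) := by
      intro b
      cases t.2 b with
      | none => exact ⟨s, rfl⟩
      | some x =>
        obtain ⟨g, hg⟩ := LL_coe (k := 0) (LL_rmul (E' * x * D * (s : WithOne S)) (LL_one s))
        exact ⟨g, hg.symm⟩
    obtain ⟨g0, hg0⟩ := hg false
    obtain ⟨g1, hg1⟩ := hg true
    have hG := Adm.coord t.1 g0 g1
    refine ⟨_, Or.inl (?_ : Adm (fun ε j =>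
      (if bit t.1 ε j = true then (g1 : WithOne S) else (g0 : WithOne S)) * Y' ε j)), ?_⟩
    · rcases hY' with hY' | ⟨-, rfl⟩
      · exact hG.mul' hY'
      · simpa using hG
    · intro ε j
      have hgb : (if bit t.1 ε j = true then (g1 : WithOne S) else (g0 : WithOne S)) =
          match t.2 (bit t.1 ε j) with
          | none => (s : WithOne S)
          | some x => (s : WithOne S) * (E' * x * D * (s : WithOne S)) := by
        cases bit t.1 ε j
        · simpa using hg0
        · simpa using hg1
      rw [hgb, List.filterMap_cons]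
      cases t.2 (bit t.1 ε j) with
      | none =>
        dsimp only
        rw [← hY ε j, mul_assoc]
      | some x =>
        dsimp only
        rw [val_cons, ← hY ε j, hC]
        simp only [mul_assoc]

theorem ins' (C : WithOne S) (ts : List (Option (Fin n) × (Bool → Option (WithOne S))))
    (hne : ts ≠ []) (hC : LL ts.length C) :
    Adm (fun ε j => val C (ts.filterMap (fun t => t.2 (bit t.1 ε j)))) := by
  obtain ⟨Y, hY, h⟩ := ins C ts 1 C (one_mul _).symm hC
  rcases hY with hY | ⟨h0, -⟩
  · convert hY using 1
    funext ε j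
    rw [← h, one_mul]
  · exact absurd h0 hne

end adm

section morse

/-- The word of an operation list. -/
def word {n : ℕ} (ops : List (Option (Fin n) × Bool × Bool)) (ε : Fin n → Bool) (j : Bool) :
    List Bool :=
  ops.filterMap (fun o => if bit o.1 ε j = o.2.1 then some o.2.2 else none)

/-- One step of the Thue-Morse construction. -/
def lift {n : ℕ} : Bool → List (Option (Fin n) × Bool × Bool) →
    List (Option (Fin (n + 1)) × Bool × Bool)
  | _, [] => []
  | φ, (d, ph, x) :: l => (if φ = x then [] else [(some 0, false, φ)]) ++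
      ((d.map Fin.succ, ph, x) :: (d.map Fin.succ, ph, !x) :: lift x l)

/-- The Thue-Morse substitution. -/
def mu (l : List Bool) : List Bool := l.flatMap (fun x => [x, !x])

/-- Alternating words. -/
def alt : Bool → ℕ → List Bool
  | _, 0 => []
  | φ, k + 1 => φ :: alt (!φ) k

/-- Number of switches. -/
def sw {n : ℕ} : Bool → List (Option (Fin n) × Bool × Bool) → ℕ
  | _, [] => 0
  | φ, (_, _, x) :: l => (if φ = x then 0 else 1) + sw x l

theorem bit_succ {n : ℕ} (d : Option (Fin n)) (ε : Fin (n + 1) → Bool) (j : Bool) :
    bit (d.map Fin.succ) ε j = bit d (fun i => ε i.succ) j := by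
  cases d <;> rfl

theorem word_nil {n : ℕ} (ε : Fin n → Bool) (j : Bool) :
    word ([] : List (Option (Fin n) × Bool × Bool)) ε j = [] := rfl

theorem word_cons {n : ℕ} (d : Option (Fin n)) (ph x : Bool)
    (l : List (Option (Fin n) × Bool × Bool)) (ε : Fin n → Bool) (j : Bool) :
    word ((d, ph, x) :: l) ε j = (if bit d ε j = ph then [x] else []) ++ word l ε j := by
  unfold word
  rw [List.filterMap_cons]
  dsimp only
  split_ifs <;> rfl

theorem mu_cons (x : Bool) (l : List Bool) : mu (x :: l) = x :: (!x) :: mu l := rfl

theorem lift_true {n : ℕ} (ops : List (Option (Fin n) × Bool × Bool)) (ε : Fin (n + 1) → Bool)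
    (j : Bool) (h0 : ε 0 = true) : ∀ φ, word (lift φ ops) ε j =
      mu (word ops (fun i => ε i.succ) j) := by
  induction ops with
  | nil => intro φ; rfl
  | cons o l ih =>
    obtain ⟨d, ph, x⟩ := o
    intro φ
    have ih' := ih x
    have h1 : word ((d.map Fin.succ, ph, x) :: (d.map Fin.succ, ph, !x) :: lift x l) ε j =
        mu (word ((d, ph, x) :: l) (fun i => ε i.succ) j) := by
      rw [word_cons, word_cons, word_cons, bit_succ, ih']
      by_cases hb : bit d (fun i => ε i.succ) j = ph
      · simp [hb, mu_cons]
      · simp [hb]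
    by_cases hφ : φ = x
    · simp only [lift, hφ, if_true, List.nil_append]
      exact h1
    · simp only [lift, hφ, if_false, List.cons_append, List.nil_append]
      rw [word_cons, h1]
      simp [bit, h0]

theorem lift_false {n : ℕ} (ops : List (Option (Fin n) × Bool × Bool)) (ε : Fin (n + 1) → Bool)
    (j : Bool) (h0 : ε 0 = false) : ∀ φ, word (lift φ ops) ε j =
      alt φ (sw φ ops + 2 * (word ops (fun i => ε i.succ) j).length) := by
  induction ops with
  | nil => intro φ; rfl
  | cons o l ih =>
    obtain ⟨d, ph, x⟩ := o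
    intro φ
    have ih' := ih x
    have h1 : word ((d.map Fin.succ, ph, x) :: (d.map Fin.succ, ph, !x) :: lift x l) ε j =
        alt x (sw x l + 2 * (word ((d, ph, x) :: l) (fun i => ε i.succ) j).length) := by
      rw [word_cons, word_cons, word_cons, bit_succ, ih']
      by_cases hb : bit d (fun i => ε i.succ) j = ph
      · simp only [hb, if_true, List.cons_append, List.nil_append, List.length_cons]
        rw [show sw x l + 2 * ((word l (fun i => ε i.succ) j).length + 1) =
          sw x l + 2 * (word l (fun i => ε i.succ) j).length + 1 + 1 by ring]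
        simp [alt]
      · simp [hb]
    by_cases hφ : φ = x
    · simp only [lift, hφ, if_true, List.nil_append, sw, zero_add]
      exact h1
    · have hφ'' : (!φ) = x := by cases φ <;> cases x <;> simp_all
      simp only [lift, hφ, if_false, List.cons_append, List.nil_append, sw]
      rw [word_cons, h1]
      rw [show 1 + sw x l + 2 * (word ((d, ph, x) :: l) (fun i => ε i.succ) j).length =
        sw x l + 2 * (word ((d, ph, x) :: l) (fun i => ε i.succ) j).length + 1 by ring]
      simp [bit, h0, alt, hφ'']

theorem mu_not (l : List Bool) : mu (l.map not) = (mu l).map not := by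
  induction l with
  | nil => rfl
  | cons a l ih => simp only [mu, List.map_cons, List.flatMap_cons] at *; simp [ih]

theorem mu_perm (l : List Bool) : List.Perm (mu l) (mu (l.map not)) := by
  induction l with
  | nil => exact List.Perm.refl _
  | cons a l ih =>
    simp only [mu, List.map_cons, List.flatMap_cons] at *
    cases a
    · simpa using (List.Perm.swap true false _).trans ((ih.cons false).cons true)
    · simpa using (List.Perm.swap false true _).trans ((ih.cons true).cons false)

theorem morse (n : ℕ) : ∃ ops : List (Option (Fin (n + 1)) × Bool × Bool),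
    (∀ ε : Fin (n + 1) → Bool, ε ≠ (fun _ => true) → word ops ε false = word ops ε true) ∧
    word ops (fun _ => true) true = (word ops (fun _ => true) false).map not ∧
    (∃ V, word ops (fun _ => true) false = false :: V) ∧
    List.Perm (word ops (fun _ => true) false) (word ops (fun _ => true) true) := by
  induction n with
  | zero =>
    refine ⟨[(none, false, false), (some 0, true, true), (none, true, false)], ?_, ?_, ?_, ?_⟩
    · intro ε hε
      have h0 : ε 0 = false := by
        by_contra h
        apply hε
        funext i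
        rw [Fin.fin_one_eq_zero i]
        simpa using h
      simp [word, bit, h0]
    · simp [word, bit]
    · exact ⟨[true], by simp [word, bit]⟩
    · simp only [word, bit]
      exact List.Perm.swap _ _ _
  | succ n ih =>
    obtain ⟨ops, h1, h2, ⟨V, h3⟩, h4⟩ := ih
    refine ⟨lift false ops, ?_, ?_, ?_, ?_⟩
    · intro ε hε
      by_cases h0 : ε 0 = true
      · rw [lift_true _ _ _ h0, lift_true _ _ _ h0, h1]
        intro h
        apply hε
        funext i
        refine Fin.cases h0 (fun i => ?_) i
        exact congrFun h i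
      · have h0 : ε 0 = false := by simpa using h0
        rw [lift_false _ _ _ h0, lift_false _ _ _ h0]
        by_cases hε' : (fun i : Fin (n + 1) => ε i.succ) = (fun _ => true)
        · rw [hε', h2, List.length_map]
        · rw [h1 _ hε']
    · rw [lift_true _ _ _ rfl, lift_true _ _ _ rfl, h2, mu_not]
    · rw [lift_true _ _ _ rfl, h3]
      exact ⟨true :: mu V, rfl⟩
    · rw [lift_true _ _ _ rfl, lift_true _ _ _ rfl, h2]
      exact mu_perm _

end morse

end Pool.Agent.R349.SN
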