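import Pool.Agent.R349.SNCube

/-!
The binary commutator steps.
Problem MP_d3d931_al.
-/

namespace Pool.Agent.R349.SN

open WithOne

section bin
variable {S : Type*} [Semigroup S]

/-- Induction principle for binary term conditions. -/
theorem cen_bin {α β δ : Con S} (P : S → S → S → S → Prop)
    (hdir : ∀ a b, α a b → P a a b b) (hcol : ∀ a b, β a b → P a b a b)
    (hmul : ∀ a b c d a' b' c' d', P a b c d → P a' b' c' d' →
      P (a * a') (b * b') (c * c') (d * d'))
    (hfin : ∀ a b c d, P a b c d → δ a b → δ c d) : Cen (fun _ : Fin 1 => α) β δ := by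
  intro x hx hrow
  have key : P (x (fun _ => false) false) (x (fun _ => false) true) (x (fun _ => true) false)
      (x (fun _ => true) true) := by
    clear hrow
    induction hx using Subsemigroup.closure_induction with
    | mem x hx =>
      rcases hx with ⟨i, a, b, hab, rfl⟩ | ⟨a, b, hab, rfl⟩
      · simpa using hdir a b hab
      · simpa using hcol a b hab
    | mul x y hx hy ihx ihy => exact hmul _ _ _ _ _ _ _ _ ihx ihy
  refine hfin _ _ _ _ key (hrow _ ?_)
  intro h
  have := congrFun h 0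
  simp at this

/-- If multiplying by elements moves `α` into `β`, then `[1, α] ≤ β`. -/
theorem genL {α β : Con S} (hr : ∀ x y z, α x y → β (x * z) (y * z))
    (hl : ∀ x y z, α x y → β (z * x) (z * y)) : Cen (fun _ : Fin 1 => ⊤) α β := by
  apply cen_bin (fun a b c d => (a = c ∧ b = d ∧ α a b) ∨ (β a b ∧ β c d))
  · intro a b _; exact Or.inr ⟨β.refl a, β.refl b⟩
  · intro a b h; exact Or.inl ⟨rfl, rfl, h⟩
  · rintro a b c d a' b' c' d' h h'
    right
    rcases h with ⟨rfl, rfl, h⟩ | ⟨h1, h2⟩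
    · rcases h' with ⟨rfl, rfl, h'⟩ | ⟨h1', h2'⟩
      · exact ⟨β.trans (hr _ _ _ h) (hl _ _ _ h'), β.trans (hr _ _ _ h) (hl _ _ _ h')⟩
      · exact ⟨β.trans (hr _ _ _ h) (β.mul (β.refl _) h1'),
          β.trans (hr _ _ _ h) (β.mul (β.refl _) h2')⟩
    · rcases h' with ⟨rfl, rfl, h'⟩ | ⟨h1', h2'⟩
      · exact ⟨β.trans (hl _ _ _ h') (β.mul h1 (β.refl _)),
          β.trans (hl _ _ _ h') (β.mul h2 (β.refl _))⟩
      · exact ⟨β.mul h1 h1', β.mul h2 h2'⟩
  · rintro a b c d (⟨rfl, rfl, -⟩ | ⟨-, h⟩) h0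
    · exact h0
    · exact h

theorem genR {α β : Con S} (hr : ∀ x y z, α x y → β (x * z) (y * z))
    (hl : ∀ x y z, α x y → β (z * x) (z * y)) : Cen (fun _ : Fin 1 => α) ⊤ β := by
  apply cen_bin (fun a b c d => (a = b ∧ c = d ∧ α a c) ∨ (β a c ∧ β b d))
  · intro a b h; exact Or.inl ⟨rfl, rfl, h⟩
  · intro a b _; exact Or.inr ⟨β.refl a, β.refl b⟩
  · rintro a b c d a' b' c' d' h h'
    right
    rcases h with ⟨rfl, rfl, h⟩ | ⟨h1, h2⟩
    · rcases h' with ⟨rfl, rfl, h'⟩ | ⟨h1', h2'⟩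
      · exact ⟨β.trans (hr _ _ _ h) (hl _ _ _ h'), β.trans (hr _ _ _ h) (hl _ _ _ h')⟩
      · exact ⟨β.trans (hr _ _ _ h) (β.mul (β.refl _) h1'),
          β.trans (hr _ _ _ h) (β.mul (β.refl _) h2')⟩
    · rcases h' with ⟨rfl, rfl, h'⟩ | ⟨h1', h2'⟩
      · exact ⟨β.trans (hl _ _ _ h') (β.mul h1 (β.refl _)),
          β.trans (hl _ _ _ h') (β.mul h2 (β.refl _))⟩
      · exact ⟨β.mul h1 h1', β.mul h2 h2'⟩
  · rintro a b c d (⟨-, rfl, -⟩ | ⟨h1, h2⟩) h0
    · exact β.refl _
    · exact β.trans (β.symm h1) (β.trans h0 h2)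

end bin

section steps
variable {S : Type*} [Semigroup S] {n : ℕ}

/-- Equality between long words on both sides. -/
def kap (S : Type*) [Semigroup S] (n : ℕ) : Con S where
  r x y := ∀ p q : WithOne S, LL (n + 1) p → LL (n + 1) q →
    p * ((x : WithOne S) * q) = p * ((y : WithOne S) * q)
  iseqv := ⟨fun _ _ _ _ _ => rfl, fun h p q hp hq => (h p q hp hq).symm,
    fun h h' p q hp hq => (h p q hp hq).trans (h' p q hp hq)⟩
  mul' := by
    intro w x y z h h' p q hp hq
    have e1 := h p ((y : WithOne S) * q) hp (LL_lmul _ hq)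
    have e2 := h' (p * (x : WithOne S)) q (LL_rmul _ hp) hq
    simp only [WithOne.coe_mul, mul_assoc] at e1 e2 ⊢
    rw [e1, e2]

theorem kap_iff {x y : S} : kap S n x y ↔ ∀ p q : WithOne S, LL (n + 1) p → LL (n + 1) q →
    p * ((x : WithOne S) * q) = p * ((y : WithOne S) * q) := Iff.rfl

theorem exists_long (s : S) (k : ℕ) : ∃ C : S, LL k (C : WithOne S) := by
  obtain ⟨C, hC⟩ := LL_coe (LL_pow (LL_one s) (k + 1))
  exact ⟨C, by rw [← hC]; exact LL_mono (Nat.le_succ _) (LL_pow (LL_one _) _)⟩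

theorem cen_kap_left (h : TC (n + 1) S) : Cen (fun _ : Fin 1 => ⊤) (Zc h) (kap S n) := by
  apply cen_bin (S := S) (fun a b c d : S => ∀ (p q : WithOne S) (m : S), LL (n + 1) p → LL (n + 1) q →
    p * ((c : WithOne S) * ((m : WithOne S) * ((b : WithOne S) * q))) =
    p * ((d : WithOne S) * ((m : WithOne S) * ((a : WithOne S) * q))))
  · intro a b _ p q m _ _; rfl
  · intro a b hab p q m hp hq; exact hab p q m hp hq
  · intro a b c d a' b' c' d' h1 h2 p q m hp hq
    have e1 := h1 p ((b' : WithOne S) * q) (c' * m) hp (LL_lmul _ hq)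
    have e2 := h2 (p * (d : WithOne S)) q (m * a) (LL_rmul _ hp) hq
    simp only [WithOne.coe_mul, mul_assoc] at e1 e2 ⊢
    rw [e1, e2]
  · intro a b c d hP hab p q hp hq
    obtain ⟨q, rfl⟩ := LL_coe hq
    have e1 := hP p (q : WithOne S) q hp hq
    have e2 := hab (p * ((c : WithOne S) * (q : WithOne S))) (q : WithOne S) (LL_rmul _ hp) hq
    have key : (p * (c : WithOne S)) * (q : WithOne S) * ((a : WithOne S) * (q : WithOne S)) =
        (p * (d : WithOne S)) * (q : WithOne S) * ((a : WithOne S) * (q : WithOne S)) := by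
      simp only [mul_assoc] at e1 e2 ⊢
      rw [e2, e1]
    have := RC' h hq _ (LL_mono (by omega) (LL_rmul _ hp)) (LL_mono (by omega) (LL_rmul _ hp)) key
    simpa only [mul_assoc] using this

theorem cen_kap_right (h : TC (n + 1) S) : Cen (fun _ : Fin 1 => Zc h) ⊤ (kap S n) := by
  apply cen_bin (S := S) (fun a b c d : S => (∀ (p q : WithOne S) (m : S), LL (n + 1) p → LL (n + 1) q →
    p * ((c : WithOne S) * ((m : WithOne S) * ((b : WithOne S) * q))) =
    p * ((a : WithOne S) * ((m : WithOne S) * ((d : WithOne S) * q)))) ∧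
    (∀ (p q : WithOne S) (m : S), LL (n + 1) p → LL (n + 1) q →
    p * ((b : WithOne S) * ((m : WithOne S) * ((d : WithOne S) * q))) =
    p * ((d : WithOne S) * ((m : WithOne S) * ((b : WithOne S) * q)))))
  · intro a b hab
    refine ⟨fun p q m hp hq => (hab p q m hp hq).symm, fun p q m hp hq => hab p q m hp hq⟩
  · intro a b _
    exact ⟨fun p q m _ _ => rfl, fun p q m _ _ => rfl⟩
  · rintro a b c d a' b' c' d' ⟨h1, h3⟩ ⟨h2, h4⟩
    refine ⟨?_, ?_⟩
    · intro p q m hp hq
      have e1 := h1 p ((b' : WithOne S) * q) (c' * m) hp (LL_lmul _ hq)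
      have e2 := h2 (p * (a : WithOne S)) q (m * d) (LL_rmul _ hp) hq
      simp only [WithOne.coe_mul, mul_assoc] at e1 e2 ⊢
      rw [e1, e2]
    · intro p q m hp hq
      have e1 := h3 p ((d' : WithOne S) * q) (b' * m) hp (LL_lmul _ hq)
      have e2 := h4 (p * (d : WithOne S)) q (m * b) (LL_rmul _ hp) hq
      simp only [WithOne.coe_mul, mul_assoc] at e1 e2 ⊢
      rw [e1, e2]
  · rintro a b c d ⟨h1, h2⟩ hab p q hp hq
    obtain ⟨q, rfl⟩ := LL_coe hq
    have e1 := h1 p (q : WithOne S) q hp hq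
    have e2 := hab p ((q : WithOne S) * ((d : WithOne S) * (q : WithOne S))) hp (LL_rmul _ hq)
    have e3 := h2 p (q : WithOne S) q hp hq
    have key : (p * (c : WithOne S)) * (q : WithOne S) * ((b : WithOne S) * (q : WithOne S)) =
        (p * (d : WithOne S)) * (q : WithOne S) * ((b : WithOne S) * (q : WithOne S)) := by
      simp only [mul_assoc] at e1 e2 e3 ⊢
      rw [e1, e2, e3]
    have := RC' h hq _ (LL_mono (by omega) (LL_rmul _ hp)) (LL_mono (by omega) (LL_rmul _ hp)) key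
    simpa only [mul_assoc] using this

/-- `kap`, with equality unless both elements are products of `j` elements. -/
def Hc (S : Type*) [Semigroup S] (n j : ℕ) : Con S where
  r x y := kap S n x y ∧ (x = y ∨ (LL j (x : WithOne S) ∧ LL j (y : WithOne S)))
  iseqv := ⟨fun x => ⟨(kap S n).refl x, Or.inl rfl⟩,
    fun h => ⟨(kap S n).symm h.1, h.2.elim (fun e => Or.inl e.symm) (fun e => Or.inr e.symm)⟩,
    fun {x y z} h h' => ⟨(kap S n).trans h.1 h'.1, by
      rcases h.2 with rfl | h2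
      · exact h'.2
      · rcases h'.2 with rfl | h2'
        · exact Or.inr h2
        · exact Or.inr ⟨h2.1, h2'.2⟩⟩⟩
  mul' := by
    intro w x y z h h'
    refine ⟨(kap S n).mul h.1 h'.1, ?_⟩
    rcases h.2 with rfl | h2
    · rcases h'.2 with rfl | h2'
      · exact Or.inl rfl
      · exact Or.inr ⟨LL_lmul (w : WithOne S) h2'.1, LL_lmul (w : WithOne S) h2'.2⟩
    · exact Or.inr ⟨LL_rmul (y : WithOne S) h2.1, LL_rmul (z : WithOne S) h2.2⟩

theorem Hc_r (j : ℕ) (x y z : S) (h : Hc S n j x y) : Hc S n (j + 1) (x * z) (y * z) :=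
  ⟨(kap S n).mul h.1 ((kap S n).refl z), h.2.elim (fun e => Or.inl (by rw [e]))
    (fun e => Or.inr ⟨LL_mul_coe z e.1, LL_mul_coe z e.2⟩)⟩

theorem Hc_l (j : ℕ) (x y z : S) (h : Hc S n j x y) : Hc S n (j + 1) (z * x) (z * y) :=
  ⟨(kap S n).mul ((kap S n).refl z) h.1, h.2.elim (fun e => Or.inl (by rw [e]))
    (fun e => Or.inr ⟨LL_coe_mul z e.1, LL_coe_mul z e.2⟩)⟩

end steps

end Pool.Agent.R349.SN
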