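import Pool.Agent.R349.MVBall5

/-!
# Sections of abelian schemes: small relations in small balls
-/

set_option autoImplicit false
set_option linter.unusedSectionVars false

open NumberField Filter

namespace Pool.Agent.R349.MVB

open Pool.Agent.Y890.MV Pool.Agent.Y890.VH
open Pool.Agent.Y890.SP (Qbar)
open Pool.Agent.Y124 (Cov)

section

variable {X G H R : Type} [Fintype X] [Fintype H] [Fintype R]

/-- the periods and the logarithms together -/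
def allf (ω : G → H → (X → ℂ) → ℂ) (l : G → R → (X → ℂ) → ℂ) (y : G × (H ⊕ R)) (x : X → ℂ) : ℂ :=
  Sum.elim (fun j => ω y.1 j x) (fun k => l y.1 k x) y.2

/-- the action of the monodromy: the periods `ω` go to `ω γ.1` and the logarithms `l` to `l + ω γ.2` -/
noncomputable def actS (γ : Matrix H H ℚ × Matrix H R ℚ) (Y : G × (H ⊕ R) → ℂ) (y : G × (H ⊕ R)) : ℂ :=
  Sum.elim (fun j => ∑ i, Y (y.1, Sum.inl i) * (γ.1 i j : ℂ))
    (fun k => Y (y.1, Sum.inr k) + ∑ i, Y (y.1, Sum.inl i) * (γ.2 i k : ℂ)) y.2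

end

/-- Analytic data of an abelian scheme over an open set `U` of the space with coordinates indexed by `X` and of sections
indexed by `R`. The columns of `ω` are the periods of a basis of the differentials (indexed by `G`), for a basis of the
homology (indexed by `H`), the columns of `l` are the logarithms of the sections: the section `k` is the class of the
vector `l · k x` modulo the lattice generated by the vectors `ω · j x`. The set `Γ` is a set of pairs of rational matrices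
(the monodromy), which act by `ω ↦ ω γ.1`, `l ↦ l + ω γ.2`. -/
structure Sect (X G H R : Type) [Fintype X] [Fintype H] [Fintype R] where
  U : Set (X → ℂ)
  isOpen : IsOpen U
  conn : IsPreconnected U
  nonempty : U.Nonempty
  ω : G → H → (X → ℂ) → ℂ
  l : G → R → (X → ℂ) → ℂ
  an_ω : ∀ ρ j, AnalyticOnNhd ℂ (ω ρ j) U
  an_l : ∀ ρ k, AnalyticOnNhd ℂ (l ρ k) U
  lattice : ∀ x ∈ U, ∀ v : H → ℝ, (∀ ρ, ∑ j, (v j : ℂ) * ω ρ j x = 0) → v = 0
  reg : RegularM U (allf ω l)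
  Γ : Set (Matrix H H ℚ × Matrix H R ℚ)
  mon : ∀ γ ∈ Γ, ∀ p : MvPolynomial (G × (H ⊕ R)) (MvPolynomial X ℂ), (∀ x ∈ U, evM (allf ω l) x p = 0) →
    ∀ x ∈ U, evX x (actS γ fun y => allf ω l y x) p = 0
  indep : ∀ (a : R → ℚ) (m : H → ℚ), (∀ γ ∈ Γ, ∀ j, ∑ k, γ.2 j k * a k = (∑ i, γ.1 j i * m i) - m j) → a = 0

variable {X G H R : Type} [Fintype X] [DecidableEq X] [Nonempty X] [Fintype G] [DecidableEq G] [Fintype H]
  [DecidableEq H] [Fintype R] [DecidableEq R]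

/-- the points over `K` of height at most `T` in `InnerM U k` at which some integral combination of the sections, with
coefficients at most `T ^ k` which are not all `0`, vanishes -/
def Sect.Dep (S : Sect X G H R) (k : ℕ) (K : Type) [Field K] [NumberField K] (io : K →+* ℂ) (T : ℝ) : Set (X → K) :=
  {s | (∀ j, Y120.HtLe K T (s j)) ∧ (fun j => io (s j)) ∈ InnerM S.U k ∧ ∃ (a : R → ℤ) (m : H → ℤ), a ≠ 0 ∧
    (∀ κ, |(a κ : ℝ)| ≤ T ^ k) ∧
    ∀ ρ, ∑ κ, (a κ : ℂ) * S.l ρ κ (fun j => io (s j)) = ∑ j, (m j : ℂ) * S.ω ρ j (fun j => io (s j))}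

theorem Sect.an (S : Sect X G H R) (y : G × (H ⊕ R)) : AnalyticOnNhd ℂ (allf S.ω S.l y) S.U := by
  obtain ⟨ρ, j | k⟩ := y
  · exact S.an_ω ρ j
  · exact S.an_l ρ k

/-- a lower bound for the lattice vectors on a compact set -/
theorem Sect.low (S : Sect X G H R) (L : Set (X → ℂ)) (hL : IsCompact L) (hLU : L ⊆ S.U) :
    ∃ δ : ℝ, 0 < δ ∧ ∀ x ∈ L, ∀ v : H → ℝ, δ * ‖v‖ ≤ ‖fun ρ => ∑ j, (v j : ℂ) * S.ω ρ j x‖ := by
  classical
  set Ks : Set ((X → ℂ) × (H → ℝ)) := L ×ˢ Metric.sphere 0 1 with hKs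
  have hKc : IsCompact Ks := hL.prod (isCompact_sphere _ _)
  set φ : (X → ℂ) × (H → ℝ) → ℝ := fun p => ‖fun ρ => ∑ j, (p.2 j : ℂ) * S.ω ρ j p.1‖ with hφ
  have hφc : ContinuousOn φ Ks := by
    refine ContinuousOn.norm (continuousOn_pi.2 fun ρ => continuousOn_finsetSum _ fun j _ => ?_)
    refine ContinuousOn.mul ?_ ?_
    · exact (Complex.continuous_ofReal.comp ((continuous_apply j).comp continuous_snd)).continuousOn
    · exact (S.an_ω ρ j).continuousOn.comp continuous_fst.continuousOn fun p hp => hLU hp.1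
  have hpos : ∀ p ∈ Ks, 0 < φ p := by
    intro p hp
    refine lt_of_le_of_ne (norm_nonneg _) fun h => ?_
    have h1 : (fun ρ => ∑ j, (p.2 j : ℂ) * S.ω ρ j p.1) = 0 := norm_eq_zero.1 h.symm
    have h2 := S.lattice p.1 (hLU hp.1) p.2 (fun ρ => congrFun h1 ρ)
    have h3 := hp.2
    rw [h2, mem_sphere_zero_iff_norm, norm_zero] at h3
    exact zero_ne_one h3
  have hscale : ∀ δ : ℝ, 0 < δ → (∀ p ∈ Ks, δ ≤ φ p) → ∀ x ∈ L, ∀ v : H → ℝ,
      δ * ‖v‖ ≤ ‖fun ρ => ∑ j, (v j : ℂ) * S.ω ρ j x‖ := by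
    intro δ hδ h x hx v
    rcases eq_or_ne v 0 with rfl | hv
    · rw [norm_zero, mul_zero]
      exact norm_nonneg _
    have hv0 : 0 < ‖v‖ := norm_pos_iff.2 hv
    have h1 := h (x, (‖v‖)⁻¹ • v) ⟨hx, by
      rw [mem_sphere_zero_iff_norm, norm_smul, norm_inv, norm_norm, inv_mul_cancel₀ hv0.ne']⟩
    have h2 : (fun ρ => ∑ j, (((‖v‖)⁻¹ • v) j : ℂ) * S.ω ρ j x) =
        ((‖v‖ : ℂ)⁻¹) • fun ρ => ∑ j, (v j : ℂ) * S.ω ρ j x := by
      funext ρ
      rw [Pi.smul_apply, smul_eq_mul, Finset.mul_sum]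
      refine Finset.sum_congr rfl fun j _ => ?_
      rw [Pi.smul_apply, smul_eq_mul]
      push_cast
      ring
    have h3 : φ (x, (‖v‖)⁻¹ • v) = (‖v‖)⁻¹ * ‖fun ρ => ∑ j, (v j : ℂ) * S.ω ρ j x‖ := by
      show ‖fun ρ => ∑ j, (((‖v‖)⁻¹ • v) j : ℂ) * S.ω ρ j x‖ = _
      rw [h2, norm_smul, norm_inv, Complex.norm_real, norm_norm]
    rw [h3] at h1
    rw [← le_div_iff₀ hv0, div_eq_inv_mul]
    exact h1
  rcases Ks.eq_empty_or_nonempty with h0 | h0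
  · refine ⟨1, one_pos, hscale 1 one_pos ?_⟩
    rw [h0]
    intro p hp
    exact absurd hp (Set.notMem_empty p)
  · obtain ⟨p, hp, hmin⟩ := hKc.exists_isMinOn h0 hφc
    exact ⟨φ p, hpos p hp, hscale _ (hpos p hp) fun q hq => hmin hq⟩

/-- an upper bound for the logarithms on a compact set -/
theorem Sect.high (S : Sect X G H R) (L : Set (X → ℂ)) (hL : IsCompact L) (hLU : L ⊆ S.U) :
    ∃ M : ℝ, 0 ≤ M ∧ ∀ x ∈ L, ∀ ρ κ, ‖S.l ρ κ x‖ ≤ M := by
  classical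
  have h1 : ∀ ρ κ, ∃ M : ℝ, ∀ x ∈ L, ‖S.l ρ κ x‖ ≤ M := fun ρ κ =>
    hL.exists_bound_of_continuousOn ((S.an_l ρ κ).continuousOn.mono hLU)
  choose M hM using h1
  refine ⟨∑ ρ, ∑ κ, |M ρ κ|, Finset.sum_nonneg fun _ _ => Finset.sum_nonneg fun _ _ => abs_nonneg _,
    fun x hx ρ κ => (hM ρ κ x hx).trans ((le_abs_self _).trans ?_)⟩
  exact (Finset.single_le_sum (f := fun κ => |M ρ κ|) (fun _ _ => abs_nonneg _) (Finset.mem_univ κ)).trans
    (Finset.single_le_sum (f := fun ρ => ∑ κ, |M ρ κ|) (fun _ _ => Finset.sum_nonneg fun _ _ => abs_nonneg _)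
      (Finset.mem_univ ρ))

/-- relations which hold on `U` and the monodromy -/
theorem Sect.no_gen (S : Sect X G H R) (P : H ⊕ R → MvPolynomial X ℂ)
    (hP : ∀ x ∈ S.U, ∀ ρ, ∑ i, MvPolynomial.eval x (P i) * allf S.ω S.l (ρ, i) x = 0) {x : X → ℂ} (hx : x ∈ S.U)
    (a : R → ℤ) (m : H → ℤ) (ha : ∀ κ, MvPolynomial.eval x (P (Sum.inr κ)) = a κ)
    (hm : ∀ j, MvPolynomial.eval x (P (Sum.inl j)) = -(m j : ℂ)) : a = 0 := by
  classical
  -- the relation and its transforms at `x`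
  have h0 : ∀ ρ, ∑ j, S.ω ρ j x * (-(m j : ℂ)) + ∑ κ, S.l ρ κ x * (a κ : ℂ) = 0 := by
    intro ρ
    have h1 := hP x hx ρ
    rw [Fintype.sum_sum_type] at h1
    rw [← h1]
    congr 1
    · refine Finset.sum_congr rfl fun j _ => ?_
      rw [hm, mul_comm]
      rfl
    · refine Finset.sum_congr rfl fun κ _ => ?_
      rw [ha, mul_comm]
      rfl
  have hT : ∀ γ ∈ S.Γ, ∀ ρ, ∑ j, S.ω ρ j x * (∑ i, (γ.1 j i : ℂ) * (-(m i : ℂ))) +
      ∑ j, S.ω ρ j x * (∑ κ, (γ.2 j κ : ℂ) * (a κ : ℂ)) + ∑ κ, S.l ρ κ x * (a κ : ℂ) = 0 := by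
    intro γ hγ ρ
    set p : MvPolynomial (G × (H ⊕ R)) (MvPolynomial X ℂ) := ∑ i, MvPolynomial.C (P i) * MvPolynomial.X (ρ, i) with hp
    have hev : ∀ (z : X → ℂ) (Y : G × (H ⊕ R) → ℂ), evX z Y p = ∑ i, MvPolynomial.eval z (P i) * Y (ρ, i) := by
      intro z Y
      rw [hp, evX, ← MvPolynomial.coe_eval₂Hom, map_sum]
      refine Finset.sum_congr rfl fun i _ => ?_
      rw [map_mul, MvPolynomial.coe_eval₂Hom, MvPolynomial.eval₂_C, MvPolynomial.eval₂_X]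
    have h1 := S.mon γ hγ p (fun z hz => by rw [evM_eq, hev]; exact hP z hz ρ) x hx
    rw [hev, Fintype.sum_sum_type] at h1
    have e1 : ∑ j : H, MvPolynomial.eval x (P (Sum.inl j)) * actS γ (fun y => allf S.ω S.l y x) (ρ, Sum.inl j) =
        ∑ j, S.ω ρ j x * (∑ i, (γ.1 j i : ℂ) * (-(m i : ℂ))) := by
      have e2 : ∀ j : H, MvPolynomial.eval x (P (Sum.inl j)) * actS γ (fun y => allf S.ω S.l y x) (ρ, Sum.inl j) =
          ∑ i, S.ω ρ i x * ((γ.1 i j : ℂ) * (-(m j : ℂ))) := by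
        intro j
        rw [hm]
        show -(m j : ℂ) * (∑ i, S.ω ρ i x * (γ.1 i j : ℂ)) = _
        rw [Finset.mul_sum]
        exact Finset.sum_congr rfl fun i _ => by ring
      rw [Finset.sum_congr rfl fun j _ => e2 j, Finset.sum_comm]
      exact Finset.sum_congr rfl fun i _ => by rw [Finset.mul_sum]
    have e3 : ∑ κ : R, MvPolynomial.eval x (P (Sum.inr κ)) * actS γ (fun y => allf S.ω S.l y x) (ρ, Sum.inr κ) =
        ∑ j, S.ω ρ j x * (∑ κ, (γ.2 j κ : ℂ) * (a κ : ℂ)) + ∑ κ, S.l ρ κ x * (a κ : ℂ) := by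
      have e2 : ∀ κ : R, MvPolynomial.eval x (P (Sum.inr κ)) * actS γ (fun y => allf S.ω S.l y x) (ρ, Sum.inr κ) =
          ∑ j, S.ω ρ j x * ((γ.2 j κ : ℂ) * (a κ : ℂ)) + S.l ρ κ x * (a κ : ℂ) := by
        intro κ
        rw [ha]
        show (a κ : ℂ) * (S.l ρ κ x + ∑ i, S.ω ρ i x * (γ.2 i κ : ℂ)) = _
        rw [mul_add, Finset.mul_sum, add_comm]
        congr 1
        · exact Finset.sum_congr rfl fun i _ => by ring
        · ring
      rw [Finset.sum_congr rfl fun κ _ => e2 κ, Finset.sum_add_distrib, Finset.sum_comm]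
      congr 1
      exact Finset.sum_congr rfl fun i _ => by rw [Finset.mul_sum]
    rw [e1, e3, ← add_assoc] at h1
    exact h1
  -- the vectors
  refine (funext fun κ => ?_ : a = 0)
  have key : ∀ γ ∈ S.Γ, ∀ j, (∑ κ, γ.2 j κ * (a κ : ℚ)) - ((∑ i, γ.1 j i * (m i : ℚ)) - (m j : ℚ)) = 0 := by
    intro γ hγ j
    have h3 : (fun j => (((∑ κ, γ.2 j κ * (a κ : ℚ)) - ((∑ i, γ.1 j i * (m i : ℚ)) - (m j : ℚ)) : ℚ) : ℝ)) = 0 := by
      refine S.lattice x hx _ fun ρ => ?_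
      have h1 := hT γ hγ ρ
      have h2 := h0 ρ
      have e1 : ∑ j, (((((∑ κ, γ.2 j κ * (a κ : ℚ)) - ((∑ i, γ.1 j i * (m i : ℚ)) - (m j : ℚ)) : ℚ) : ℝ)) : ℂ) *
          S.ω ρ j x =
          ∑ j, S.ω ρ j x * (∑ i, (γ.1 j i : ℂ) * (-(m i : ℂ))) - ∑ j, S.ω ρ j x * (-(m j : ℂ)) +
          ∑ j, S.ω ρ j x * (∑ κ, (γ.2 j κ : ℂ) * (a κ : ℂ)) := by
        rw [← Finset.sum_sub_distrib, ← Finset.sum_add_distrib]
        refine Finset.sum_congr rfl fun j _ => ?_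
        have e2 : ∑ i, (γ.1 j i : ℂ) * (-(m i : ℂ)) = - ∑ i, (γ.1 j i : ℂ) * (m i : ℂ) := by
          rw [← Finset.sum_neg_distrib]
          exact Finset.sum_congr rfl fun i _ => by ring
        rw [e2]
        push_cast
        ring
      rw [e1]
      linear_combination h1 - h2
    have h4 := congrFun h3 j
    simp only [Pi.zero_apply] at h4
    exact_mod_cast h4
  have h5 := S.indep (fun κ => (a κ : ℚ)) (fun j => (m j : ℚ)) (fun γ hγ j => sub_eq_zero.1 (key γ hγ j))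
  have h8 := congrFun h5 κ
  simp only [Pi.zero_apply] at h8
  exact_mod_cast h8

/-- the integral relations have coefficients of polynomial size -/
theorem Sect.size (S : Sect X G H R) (k : ℕ) (hk : 0 < k) : ∃ T₀ : ℝ, 2 ≤ T₀ ∧ ∀ T : ℝ, T₀ ≤ T →
    ∀ x ∈ InnerM S.U k, ∀ (a : R → ℤ) (m : H → ℤ), (∀ κ, |(a κ : ℝ)| ≤ T ^ k) →
      (∀ ρ, ∑ κ, (a κ : ℂ) * S.l ρ κ x = ∑ j, (m j : ℂ) * S.ω ρ j x) → ∀ j, |(m j : ℝ)| ≤ T ^ (k + 1) := by
  classical
  obtain ⟨δ, hδ, h1⟩ := S.low (InnerM S.U k) (innerM_compact _ _) (innerM_sub _ hk)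
  obtain ⟨M, hM, h2⟩ := S.high (InnerM S.U k) (innerM_compact _ _) (innerM_sub _ hk)
  refine ⟨max 2 (((Fintype.card R : ℕ) : ℝ) * M / δ), le_max_left _ _, fun T hT x hx a m ha h j => ?_⟩
  have hT2 : 2 ≤ T := (le_max_left _ _).trans hT
  have hT3 : ((Fintype.card R : ℕ) : ℝ) * M / δ ≤ T := (le_max_right _ _).trans hT
  have hTk : 0 ≤ T ^ k := by positivity
  have h3 := h1 x hx (fun j => (m j : ℝ))
  have h4 : (fun ρ => ∑ j, (((m j : ℝ)) : ℂ) * S.ω ρ j x) = fun ρ => ∑ κ, (a κ : ℂ) * S.l ρ κ x := by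
    funext ρ
    rw [h ρ]
    push_cast
    rfl
  rw [h4] at h3
  have h5 : ‖fun ρ => ∑ κ, (a κ : ℂ) * S.l ρ κ x‖ ≤ ((Fintype.card R : ℕ) : ℝ) * (T ^ k * M) := by
    refine (pi_norm_le_iff_of_nonneg (by positivity)).2 fun ρ => ?_
    refine (norm_sum_le _ _).trans ?_
    have h6 : ∀ κ ∈ (Finset.univ : Finset R), ‖(a κ : ℂ) * S.l ρ κ x‖ ≤ T ^ k * M := by
      intro κ _
      rw [norm_mul]
      have h7 : ‖(a κ : ℂ)‖ = |(a κ : ℝ)| := by
        rw [← Complex.ofReal_intCast, Complex.norm_real, Real.norm_eq_abs]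
      rw [h7]
      exact mul_le_mul (ha κ) (h2 x hx ρ κ) (norm_nonneg _) hTk
    refine (Finset.sum_le_sum h6).trans ?_
    rw [Finset.sum_const, Finset.card_univ, nsmul_eq_mul]
  have h8 : |(m j : ℝ)| ≤ ‖fun j => (m j : ℝ)‖ := norm_le_pi_norm (fun j => (m j : ℝ)) j
  have h9 : δ * |(m j : ℝ)| ≤ ((Fintype.card R : ℕ) : ℝ) * (T ^ k * M) :=
    (mul_le_mul_of_nonneg_left h8 hδ.le).trans (h3.trans h5)
  have h10 : |(m j : ℝ)| ≤ ((Fintype.card R : ℕ) : ℝ) * M / δ * T ^ k := by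
    rw [div_mul_eq_mul_div, le_div_iff₀ hδ]
    linarith
  calc |(m j : ℝ)| ≤ ((Fintype.card R : ℕ) : ℝ) * M / δ * T ^ k := h10
    _ ≤ T * T ^ k := mul_le_mul_of_nonneg_right hT3 hTk
    _ = T ^ (k + 1) := by ring

/-- **Relations between sections in small balls.** -/
theorem Sect.ball (S : Sect X G H R) (k : ℕ) (η : ℝ) (hη : 0 < η) : ∃ (C : ℕ) (T₀ : ℝ),
    ∀ (K : Type) [Field K] [NumberField K], Module.finrank ℚ K ≤ k → ∀ (io : K →+* ℂ) (T : ℝ), T₀ ≤ T →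
      ∀ t₀ : X → ℂ, Cov C C {t | ‖t - t₀‖ ≤ T ^ (-η) ∧ ∃ s ∈ S.Dep k K io T, t = fun j => io (s j)} := by
  classical
  rcases Nat.eq_zero_or_pos k with hk | hk
  · refine ⟨0, 0, ?_⟩
    intro K _ _ hK
    have h1 : 0 < Module.finrank ℚ K := Module.finrank_pos
    omega
  obtain ⟨T₁, hT₁, hsize⟩ := S.size k hk
  obtain ⟨D, C, T₀, hT₀, H0⟩ := excPB S.conn S.isOpen S.nonempty S.an S.reg (InnerM S.U k) (innerM_compact _ _)
    (innerM_sub _ hk) (fun (ρ : G) (i : H ⊕ R) => MvPolynomial.X (ρ, i)) k ((k + 1 : ℕ) : ℝ) η hη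
  refine ⟨D + C, max T₀ T₁, fun K _ _ hK io T hT t₀ => ?_⟩
  have hTT := (le_max_left _ _).trans hT
  have hT2 : 2 ≤ T := hT₀.trans hTT
  refine (H0 K hK io T hTT t₀).mono (by omega) (by omega) ?_
  rintro t ⟨h1, s, ⟨h2, h3, a, m, ha0, ha, hrel⟩, rfl⟩
  refine ⟨⟨s, ⟨h2, h3, fun i => Sum.elim (fun j => -(m j : 𝓞 K)) (fun κ => (a κ : 𝓞 K)) i, ?_, ?_, ?_⟩, rfl⟩, h1⟩
  · have hm := hsize T ((le_max_right _ _).trans hT) _ h3 a m ha hrel
    rintro (j | κ) φ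
    · show ‖φ ((-(m j : 𝓞 K) : 𝓞 K) : K)‖ ≤ _
      have e1 : ((-(m j : 𝓞 K) : 𝓞 K) : K) = -(m j : K) := by push_cast; rfl
      rw [e1, map_neg, norm_neg, map_intCast, ← Complex.ofReal_intCast, Complex.norm_real, Real.norm_eq_abs,
        Real.rpow_natCast]
      exact hm j
    · show ‖φ (((a κ : 𝓞 K) : 𝓞 K) : K)‖ ≤ _
      have e1 : (((a κ : 𝓞 K) : 𝓞 K) : K) = (a κ : K) := by rfl
      rw [e1, map_intCast, ← Complex.ofReal_intCast, Complex.norm_real, Real.norm_eq_abs,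
        Real.rpow_natCast]
      exact (ha κ).trans (pow_le_pow_right₀ (by linarith) (by omega))
  · intro ρ
    rw [Fintype.sum_sum_type]
    have e1 : ∀ j : H, io ((-(m j : 𝓞 K) : 𝓞 K) : K) = -(m j : ℂ) := by
      intro j
      have e1 : ((-(m j : 𝓞 K) : 𝓞 K) : K) = -(m j : K) := by push_cast; rfl
      rw [e1, map_neg, map_intCast]
    have e2 : ∀ κ : R, io (((a κ : 𝓞 K) : 𝓞 K) : K) = (a κ : ℂ) := by
      intro κ
      have e1 : (((a κ : 𝓞 K) : 𝓞 K) : K) = (a κ : K) := by rfl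
      rw [e1, map_intCast]
    have h5 := hrel ρ
    have e3 : ∑ j : H, io ((Sum.elim (fun j => -(m j : 𝓞 K)) (fun κ => (a κ : 𝓞 K)) (Sum.inl j) : 𝓞 K) : K) *
        MvPolynomial.eval (fun y => allf S.ω S.l y fun j => io (s j)) (MvPolynomial.X (ρ, (Sum.inl j : H ⊕ R))) =
        - ∑ j, (m j : ℂ) * S.ω ρ j (fun j => io (s j)) := by
      rw [← Finset.sum_neg_distrib]
      refine Finset.sum_congr rfl fun j _ => ?_
      rw [MvPolynomial.eval_X]
      show io ((-(m j : 𝓞 K) : 𝓞 K) : K) * S.ω ρ j (fun j => io (s j)) = _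
      rw [e1]
      ring
    have e4 : ∑ κ : R, io ((Sum.elim (fun j => -(m j : 𝓞 K)) (fun κ => (a κ : 𝓞 K)) (Sum.inr κ) : 𝓞 K) : K) *
        MvPolynomial.eval (fun y => allf S.ω S.l y fun j => io (s j)) (MvPolynomial.X (ρ, (Sum.inr κ : H ⊕ R))) =
        ∑ κ, (a κ : ℂ) * S.l ρ κ (fun j => io (s j)) := by
      refine Finset.sum_congr rfl fun κ _ => ?_
      rw [MvPolynomial.eval_X]
      show io (((a κ : 𝓞 K) : 𝓞 K) : K) * S.l ρ κ (fun j => io (s j)) = _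
      rw [e2]
    rw [e3, e4, h5]
    ring
  · rintro ⟨P, hP1, hP2⟩
    refine ha0 (S.no_gen P (fun x hx ρ => ?_) (innerM_sub _ hk h3) a m (fun κ => ?_) (fun j => ?_))
    · have h6 := hP2 x hx ρ
      simp only [MvPolynomial.eval_X] at h6
      exact h6
    · rw [hP1]
      show io (((a κ : 𝓞 K) : 𝓞 K) : K) = _
      have e1 : (((a κ : 𝓞 K) : 𝓞 K) : K) = (a κ : K) := by rfl
      rw [e1, map_intCast]
    · rw [hP1]
      show io ((-(m j : 𝓞 K) : 𝓞 K) : K) = _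
      have e1 : ((-(m j : 𝓞 K) : 𝓞 K) : K) = -(m j : K) := by push_cast; rfl
      rw [e1, map_neg, map_intCast]

/-- the lattice of the periods at `x` -/
def Sect.Lat (S : Sect X G H R) (x : X → ℂ) : Submodule ℤ (G → ℂ) :=
  Submodule.span ℤ (Set.range fun j ρ => S.ω ρ j x)

/-- the value of the section `κ` at `x`, a point of the torus `ℂ ^ G / Lat x` -/
def Sect.val (S : Sect X G H R) (κ : R) (x : X → ℂ) : (G → ℂ) ⧸ S.Lat x :=
  Submodule.Quotient.mk fun ρ => S.l ρ κ x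

theorem Sect.val_eq (S : Sect X G H R) (x : X → ℂ) (a : R → ℤ) (h : ∑ κ, a κ • S.val κ x = 0) :
    ∃ m : H → ℤ, ∀ ρ, ∑ κ, (a κ : ℂ) * S.l ρ κ x = ∑ j, (m j : ℂ) * S.ω ρ j x := by
  classical
  have h1 : ∑ κ, a κ • S.val κ x = Submodule.Quotient.mk (∑ κ, a κ • fun ρ => S.l ρ κ x) := by
    rw [← Submodule.mkQ_apply, map_sum]
    refine Finset.sum_congr rfl fun κ _ => ?_
    rw [map_smul]
    rfl
  rw [h1, Submodule.Quotient.mk_eq_zero, Sect.Lat, Submodule.mem_span_range_iff_exists_fun] at h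
  obtain ⟨m, hm⟩ := h
  refine ⟨m, fun ρ => ?_⟩
  have h2 := congrFun hm ρ
  rw [Finset.sum_apply, Finset.sum_apply] at h2
  have e1 : ∀ j, (m j • fun ρ => S.ω ρ j x) ρ = (m j : ℂ) * S.ω ρ j x := by
    intro j
    rw [Pi.smul_apply, zsmul_eq_mul]
  have e2 : ∀ κ, (a κ • fun ρ => S.l ρ κ x) ρ = (a κ : ℂ) * S.l ρ κ x := by
    intro κ
    rw [Pi.smul_apply, zsmul_eq_mul]
  rw [Finset.sum_congr rfl fun j _ => e1 j, Finset.sum_congr rfl fun κ _ => e2 κ] at h2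
  exact h2.symm

/-- **Torsion values of the combinations of the sections in small balls.** -/
theorem Sect.tors (S : Sect X G H R) (k : ℕ) (η : ℝ) (hη : 0 < η) : ∃ (C : ℕ) (T₀ : ℝ),
    ∀ (K : Type) [Field K] [NumberField K], Module.finrank ℚ K ≤ k → ∀ (io : K →+* ℂ) (T : ℝ), T₀ ≤ T →
      ∀ t₀ : X → ℂ, Cov C C {t | ‖t - t₀‖ ≤ T ^ (-η) ∧ ∃ s : X → K, (∀ j, Y120.HtLe K T (s j)) ∧
        (t = fun j => io (s j)) ∧ t ∈ InnerM S.U k ∧ ∃ a : R → ℤ, a ≠ 0 ∧ (∀ κ, |(a κ : ℝ)| ≤ T ^ k) ∧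
          0 < addOrderOf (∑ κ, a κ • S.val κ t) ∧ (addOrderOf (∑ κ, a κ • S.val κ t) : ℝ) ≤ T ^ k} := by
  classical
  rcases Nat.eq_zero_or_pos k with hk | hk
  · refine ⟨0, 0, ?_⟩
    intro K _ _ hK
    have h1 : 0 < Module.finrank ℚ K := Module.finrank_pos
    omega
  obtain ⟨C, T₀, H0⟩ := S.ball (2 * k) η hη
  refine ⟨C, max T₀ 2, fun K _ _ hK io T hT t₀ => ?_⟩
  have hT2 : 2 ≤ T := (le_max_right _ _).trans hT
  refine (H0 K (by omega) io T ((le_max_left _ _).trans hT) t₀).mono le_rfl le_rfl ?_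
  rintro t ⟨h1, s, h2, rfl, h3, a, ha0, ha, hpos, hle⟩
  set N := addOrderOf (∑ κ, a κ • S.val κ fun j => io (s j)) with hN
  have hNa : ∑ κ, (fun κ => (N : ℤ) * a κ) κ • S.val κ (fun j => io (s j)) = 0 := by
    have h4 : N • (∑ κ, a κ • S.val κ fun j => io (s j)) = 0 := addOrderOf_nsmul_eq_zero _
    rw [← natCast_zsmul, Finset.smul_sum] at h4
    rw [← h4]
    exact Finset.sum_congr rfl fun κ _ => by rw [mul_smul]
  obtain ⟨m, hm⟩ := S.val_eq _ _ hNa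
  have hin : InnerM S.U k ⊆ InnerM S.U (2 * k) := by
    intro y hy
    refine ⟨hy.1.trans (by push_cast; linarith [(Nat.cast_nonneg k : (0 : ℝ) ≤ k)]),
      (Metric.ball_subset_ball ?_).trans hy.2⟩
    refine inv_anti₀ (by exact_mod_cast hk) (by push_cast; linarith [(Nat.cast_nonneg k : (0 : ℝ) ≤ k)])
  refine ⟨h1, s, ⟨h2, hin h3, fun κ => (N : ℤ) * a κ, m, ?_, fun κ => ?_, hm⟩, rfl⟩
  · intro h5
    apply ha0
    funext κ
    have h6 := congrFun h5 κ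
    simp only [Pi.zero_apply, mul_eq_zero, Nat.cast_eq_zero] at h6
    rcases h6 with h7 | h7
    · exact absurd h7 hpos.ne'
    · exact h7
  · push_cast
    rw [abs_mul, Nat.abs_cast, two_mul, pow_add]
    exact mul_le_mul hle (ha κ) (abs_nonneg _) (by positivity)

end Pool.Agent.R349.MVB
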