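import Mathlib

/-!
# Algebraic independence of solutions of first order difference equations
-/

set_option autoImplicit false

open Polynomial

namespace Pool.Agent.R349

open scoped Classical in
/-- the number of the roots of `p` in `w + ℤ L` -/
noncomputable def cls (w L : ℂ) (p : Polynomial ℂ) : ℕ := p.roots.countP (fun z => ∃ k : ℤ, z = w + k * L)

theorem cls_mul (w L : ℂ) {p q : Polynomial ℂ} (hp : p ≠ 0) (hq : q ≠ 0) : cls w L (p * q) = cls w L p + cls w L q := by
  classical
  unfold cls
  rw [roots_mul (mul_ne_zero hp hq), Multiset.countP_add]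

theorem cls_one (w L : ℂ) : cls w L 1 = 0 := by
  simp [cls]

theorem cls_pow (w L : ℂ) {p : Polynomial ℂ} (hp : p ≠ 0) (n : ℕ) : cls w L (p ^ n) = n * cls w L p := by
  induction n with
  | zero => simp [cls_one]
  | succ n ih => rw [pow_succ, cls_mul w L (pow_ne_zero n hp) hp, ih]; ring

theorem cls_prod (w L : ℂ) {κ : Type} (R : κ → Polynomial ℂ) (hR : ∀ i, R i ≠ 0) (s : Finset κ) (e : κ → ℕ) :
    cls w L (∏ i ∈ s, R i ^ e i) = ∑ i ∈ s, e i * cls w L (R i) := by
  classical
  induction s using Finset.induction_on with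
  | empty => simp [cls_one]
  | insert a s ha ih =>
    rw [Finset.prod_insert ha, Finset.sum_insert ha, cls_mul w L (pow_ne_zero _ (hR a))
      (Finset.prod_ne_zero_iff.2 fun i _ => pow_ne_zero _ (hR i)), cls_pow w L (hR a), ih]

theorem cls_shift (w L : ℂ) (p : Polynomial ℂ) : cls w L (p.comp (X + C L)) = cls w L p := by
  classical
  have h1 := map_roots_comp_C_mul_X_add_C p 1 L isUnit_one
  rw [map_one, one_mul] at h1
  unfold cls
  rw [← h1, Multiset.countP_map, Multiset.countP_eq_card_filter]
  congr 1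
  refine Multiset.filter_congr fun x _ => ?_
  constructor
  · rintro ⟨k, hk⟩
    exact ⟨k + 1, by rw [hk]; push_cast; ring⟩
  · rintro ⟨k, hk⟩
    refine ⟨k - 1, ?_⟩
    push_cast
    linear_combination hk

theorem cls_pos (w L : ℂ) {p : Polynomial ℂ} (hp : p ≠ 0) (k : ℤ) (h : p.eval (w + k * L) = 0) : 0 < cls w L p := by
  classical
  unfold cls
  rw [Multiset.countP_pos]
  exact ⟨_, (mem_roots hp).2 h, k, rfl⟩

theorem cls_zero (w L : ℂ) {p : Polynomial ℂ} (h : ∀ k : ℤ, p.eval (w + k * L) ≠ 0) : cls w L p = 0 := by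
  classical
  unfold cls
  rw [Multiset.countP_eq_zero]
  rintro z hz ⟨k, rfl⟩
  exact h k (isRoot_of_mem_roots hz)

theorem comp_ne_zero (L : ℂ) {p : Polynomial ℂ} (hp : p ≠ 0) : p.comp (X + C L) ≠ 0 := by
  intro h
  exact hp (comp_X_add_C_eq_zero_iff.1 h)

/-- Functions with `f_i(t + L) = R_i(t) f_i(t)` are algebraically independent over the rational functions, if for all different
exponents `e`, `e'` there is an index `i` with `e_i ≠ e'_i` and a class modulo `ℤ L` which contains a zero of `R_i`, but
no zero of the other `R_j` with `e_j ≠ e'_j`. -/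
theorem shift_ind {κ : Type} [Fintype κ] [DecidableEq κ] (f : κ → ℂ → ℂ) (Ω : Set ℂ) (hinf : Ω.Infinite) (L : ℂ)
    (hL : ∀ t ∈ Ω, t + L ∈ Ω) (hne : ∀ i, ∀ t ∈ Ω, f i t ≠ 0) (R : κ → Polynomial ℂ) (hR : ∀ i, R i ≠ 0)
    (hf : ∀ i, ∀ t ∈ Ω, f i (t + L) = (R i).eval t * f i t)
    (hcond : ∀ e e' : κ → ℕ, e ≠ e' → ∃ i w, e i ≠ e' i ∧ cls w L (R i) ≠ 0 ∧
      ∀ j, j ≠ i → e j ≠ e' j → cls w L (R j) = 0) :
    ∀ P : MvPolynomial κ (Polynomial ℂ), (∀ t ∈ Ω, P.eval₂ (evalRingHom t) (fun i => f i t) = 0) → P = 0 := by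
  classical
  have key : ∀ (e e' : κ → ℕ) (p p' : Polynomial ℂ), p ≠ 0 → p' ≠ 0 →
      p * p'.comp (X + C L) * ∏ i, R i ^ e' i = p' * p.comp (X + C L) * ∏ i, R i ^ e i → e = e' := by
    intro e e' p p' hp hp' h
    by_contra hee
    obtain ⟨i, w, hi, hw, hj⟩ := hcond e e' hee
    have hprod : ∀ e : κ → ℕ, ∏ i, R i ^ e i ≠ 0 := fun e =>
      Finset.prod_ne_zero_iff.2 fun i _ => pow_ne_zero _ (hR i)
    have h1 := congrArg (cls w L) h
    rw [cls_mul w L (mul_ne_zero hp (comp_ne_zero L hp')) (hprod e'), cls_mul w L hp (comp_ne_zero L hp'),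
      cls_mul w L (mul_ne_zero hp' (comp_ne_zero L hp)) (hprod e), cls_mul w L hp' (comp_ne_zero L hp),
      cls_shift, cls_shift, cls_prod w L R hR, cls_prod w L R hR] at h1
    have h2 : ∑ j, e' j * cls w L (R j) = ∑ j, e j * cls w L (R j) := by omega
    rw [← Finset.add_sum_erase _ _ (Finset.mem_univ i), ← Finset.add_sum_erase _ _ (Finset.mem_univ i)] at h2
    have h3 : ∑ j ∈ Finset.univ.erase i, e' j * cls w L (R j) = ∑ j ∈ Finset.univ.erase i, e j * cls w L (R j) := by
      refine Finset.sum_congr rfl fun j hj' => ?_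
      by_cases hjj : e j = e' j
      · rw [hjj]
      · rw [hj j (Finset.ne_of_mem_erase hj') hjj, mul_zero, mul_zero]
    rw [h3] at h2
    have h4 : e' i * cls w L (R i) = e i * cls w L (R i) := by omega
    exact hi (Nat.eq_of_mul_eq_mul_right (Nat.pos_of_ne_zero hw) h4).symm
  suffices H : ∀ N : ℕ, ∀ P : MvPolynomial κ (Polynomial ℂ), P.support.card ≤ N →
      (∀ t ∈ Ω, P.eval₂ (evalRingHom t) (fun i => f i t) = 0) → P = 0 by
    intro P hP
    exact H _ P le_rfl hP
  intro N
  induction N with
  | zero =>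
    intro P hc _
    have h1 : P.support = ∅ := Finset.card_eq_zero.1 (Nat.le_zero.1 hc)
    exact MvPolynomial.support_eq_empty.1 h1
  | succ N ih =>
    intro P hc hP
    by_contra hP0
    obtain ⟨e0, he0⟩ := MvPolynomial.support_nonempty.2 hP0
    have hp0 : P.coeff e0 ≠ 0 := MvPolynomial.mem_support_iff.1 he0
    let c : (κ →₀ ℕ) → Polynomial ℂ := fun e =>
      (P.coeff e0).comp (X + C L) * (∏ i, R i ^ e0 i) * P.coeff e -
        P.coeff e0 * (P.coeff e).comp (X + C L) * ∏ i, R i ^ e i
    let P' : MvPolynomial κ (Polynomial ℂ) := ∑ e ∈ P.support, MvPolynomial.monomial e (c e)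
    have hcoeff : ∀ e, P'.coeff e = c e := by
      intro e
      simp only [P']
      rw [MvPolynomial.coeff_sum]
      simp only [MvPolynomial.coeff_monomial]
      rw [Finset.sum_ite_eq' P.support e]
      split_ifs with h
      · rfl
      · rw [MvPolynomial.notMem_support_iff] at h
        simp only [c, h, mul_zero, zero_comp, zero_mul, sub_zero]
    have hsub : P'.support ⊆ P.support.erase e0 := by
      intro e he
      rw [MvPolynomial.mem_support_iff, hcoeff] at he
      rw [Finset.mem_erase]
      constructor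
      · rintro rfl
        apply he
        simp only [c]
        ring
      · rw [MvPolynomial.mem_support_iff]
        intro h
        apply he
        simp only [c, h, mul_zero, zero_comp, zero_mul, sub_zero]
    have hcard : P'.support.card ≤ N := by
      have h1 := Finset.card_le_card hsub
      rw [Finset.card_erase_of_mem he0] at h1
      omega
    have hev : ∀ t ∈ Ω, P'.eval₂ (evalRingHom t) (fun i => f i t) = 0 := by
      intro t ht
      have h1 := hP t ht
      have h2 := hP (t + L) (hL t ht)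
      rw [MvPolynomial.eval₂_eq'] at h1 h2
      simp only [P']
      rw [MvPolynomial.eval₂_sum]
      have h3 : ∀ e ∈ P.support, MvPolynomial.eval₂ (evalRingHom t) (fun i => f i t) (MvPolynomial.monomial e (c e)) =
          ((P.coeff e0).comp (X + C L) * (∏ i, R i ^ e0 i)).eval t *
            ((evalRingHom t) (P.coeff e) * ∏ i, f i t ^ e i) -
          (P.coeff e0).eval t * ((evalRingHom (t + L)) (P.coeff e) * ∏ i, f i (t + L) ^ e i) := by
        intro e _
        rw [MvPolynomial.eval₂_monomial, Finsupp.prod_fintype _ _ (fun _ => pow_zero _)]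
        have h4 : ∏ i, f i (t + L) ^ e i = (∏ i, R i ^ e i).eval t * ∏ i, f i t ^ e i := by
          rw [eval_prod, ← Finset.prod_mul_distrib]
          refine Finset.prod_congr rfl fun i _ => ?_
          rw [hf i t ht, mul_pow, eval_pow]
        rw [h4]
        simp only [c, coe_evalRingHom, eval_sub, eval_mul, eval_comp, eval_add, eval_X, eval_C]
        ring
      rw [Finset.sum_congr rfl h3, Finset.sum_sub_distrib, ← Finset.mul_sum, ← Finset.mul_sum, h1, h2]
      ring
    have hP'0 := ih P' hcard hev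
    have hall : ∀ e ∈ P.support, e = e0 := by
      intro e he
      have h1 : c e = 0 := by rw [← hcoeff, hP'0, MvPolynomial.coeff_zero]
      have h2 := key e e0 (P.coeff e) (P.coeff e0) (MvPolynomial.mem_support_iff.1 he) hp0 (by
        simp only [c] at h1
        linear_combination h1)
      exact DFunLike.coe_injective h2
    have hsup : P.support = {e0} := by
      ext e
      rw [Finset.mem_singleton]
      exact ⟨hall e, fun h => h ▸ he0⟩
    apply hp0
    refine Polynomial.eq_of_infinite_eval_eq _ _ (hinf.mono fun t ht => ?_)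
    have h1 := hP t ht
    rw [MvPolynomial.eval₂_eq', hsup, Finset.sum_singleton] at h1
    change (P.coeff e0).eval t = (0 : Polynomial ℂ).eval t
    rw [eval_zero]
    rcases mul_eq_zero.1 h1 with h2 | h2
    · exact h2
    · exact absurd h2 (Finset.prod_ne_zero_iff.2 fun i _ => pow_ne_zero _ (hne i t ht))

end Pool.Agent.R349
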