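import Pool.Agent.R349.Shift

/-!
# Algebraic independence of solutions of first order difference equations with rational coefficients
-/

set_option autoImplicit false

open Polynomial

namespace Pool.Agent.R349

/-- Functions with `S_i(t) f_i(t + L) = R_i(t) f_i(t)` are algebraically independent over the rational functions, if for all
different exponents `e`, `e'` there is an index `i` with `e_i ≠ e'_i` and a class modulo `ℤ L` in which `R_i` and `S_i` have
different numbers of zeros, while `R_j` and `S_j` have the same numbers for the other `j` with `e_j ≠ e'_j`. -/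
theorem shift_ind2 {κ : Type} [Fintype κ] [DecidableEq κ] (f : κ → ℂ → ℂ) (Ω : Set ℂ) (hinf : Ω.Infinite) (L : ℂ)
    (hL : ∀ t ∈ Ω, t + L ∈ Ω) (hne : ∀ i, ∀ t ∈ Ω, f i t ≠ 0) (R S : κ → Polynomial ℂ) (hR : ∀ i, R i ≠ 0)
    (hS : ∀ i, S i ≠ 0) (hf : ∀ i, ∀ t ∈ Ω, (S i).eval t * f i (t + L) = (R i).eval t * f i t)
    (hcond : ∀ e e' : κ → ℕ, e ≠ e' → ∃ i w, e i ≠ e' i ∧ cls w L (R i) ≠ cls w L (S i) ∧
      ∀ j, j ≠ i → e j ≠ e' j → cls w L (R j) = cls w L (S j)) :
    ∀ P : MvPolynomial κ (Polynomial ℂ), (∀ t ∈ Ω, P.eval₂ (evalRingHom t) (fun i => f i t) = 0) → P = 0 := by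
  classical
  have key : ∀ (N e e' : κ → ℕ) (p p' : Polynomial ℂ), (∀ i, e i ≤ N i) → (∀ i, e' i ≤ N i) → p ≠ 0 → p' ≠ 0 →
      p * p'.comp (X + C L) * ((∏ i, R i ^ e' i) * ∏ i, S i ^ (N i - e' i)) =
        p' * p.comp (X + C L) * ((∏ i, R i ^ e i) * ∏ i, S i ^ (N i - e i)) → e = e' := by
    intro N e e' p p' heN heN' hp hp' h
    by_contra hee
    obtain ⟨i, w, hi, hw, hj⟩ := hcond e e' hee
    have hprod : ∀ e : κ → ℕ, ∏ i, R i ^ e i ≠ 0 := fun e =>
      Finset.prod_ne_zero_iff.2 fun i _ => pow_ne_zero _ (hR i)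
    have hprodS : ∀ e : κ → ℕ, ∏ i, S i ^ e i ≠ 0 := fun e =>
      Finset.prod_ne_zero_iff.2 fun i _ => pow_ne_zero _ (hS i)
    have h1 := congrArg (cls w L) h
    rw [cls_mul w L (mul_ne_zero hp (comp_ne_zero L hp')) (mul_ne_zero (hprod e') (hprodS _)),
      cls_mul w L hp (comp_ne_zero L hp'), cls_mul w L (hprod e') (hprodS _),
      cls_mul w L (mul_ne_zero hp' (comp_ne_zero L hp)) (mul_ne_zero (hprod e) (hprodS _)),
      cls_mul w L hp' (comp_ne_zero L hp), cls_mul w L (hprod e) (hprodS _),
      cls_shift, cls_shift, cls_prod w L R hR, cls_prod w L R hR, cls_prod w L S hS, cls_prod w L S hS,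
      ← Finset.sum_add_distrib, ← Finset.sum_add_distrib] at h1
    have h2 : ∑ j, (e' j * cls w L (R j) + (N j - e' j) * cls w L (S j)) =
        ∑ j, (e j * cls w L (R j) + (N j - e j) * cls w L (S j)) := by omega
    rw [← Finset.add_sum_erase _ _ (Finset.mem_univ i), ← Finset.add_sum_erase _ _ (Finset.mem_univ i)] at h2
    have h3 : ∑ j ∈ Finset.univ.erase i, (e' j * cls w L (R j) + (N j - e' j) * cls w L (S j)) =
        ∑ j ∈ Finset.univ.erase i, (e j * cls w L (R j) + (N j - e j) * cls w L (S j)) := by
      refine Finset.sum_congr rfl fun j hj' => ?_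
      by_cases hjj : e j = e' j
      · rw [hjj]
      · rw [hj j (Finset.ne_of_mem_erase hj') hjj, ← add_mul, ← add_mul, Nat.add_sub_cancel' (heN' j),
          Nat.add_sub_cancel' (heN j)]
    rw [h3] at h2
    have h4 : e' i * cls w L (R i) + (N i - e' i) * cls w L (S i) =
        e i * cls w L (R i) + (N i - e i) * cls w L (S i) := by omega
    have h5 : ((e' i : ℤ) - e i) * ((cls w L (R i) : ℤ) - cls w L (S i)) = 0 := by
      have h6 : ((e' i * cls w L (R i) + (N i - e' i) * cls w L (S i) : ℕ) : ℤ) =
        ((e i * cls w L (R i) + (N i - e i) * cls w L (S i) : ℕ) : ℤ) := by exact_mod_cast h4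
      push_cast [Nat.cast_sub (heN' i), Nat.cast_sub (heN i)] at h6
      linear_combination h6
    rcases mul_eq_zero.1 h5 with h6 | h6
    · exact hi (by omega)
    · exact hw (by omega)
  suffices H : ∀ M : ℕ, ∀ P : MvPolynomial κ (Polynomial ℂ), P.support.card ≤ M →
      (∀ t ∈ Ω, P.eval₂ (evalRingHom t) (fun i => f i t) = 0) → P = 0 by
    intro P hP
    exact H _ P le_rfl hP
  intro M
  induction M with
  | zero =>
    intro P hc _
    have h1 : P.support = ∅ := Finset.card_eq_zero.1 (Nat.le_zero.1 hc)
    exact MvPolynomial.support_eq_empty.1 h1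
  | succ M ih =>
    intro P hc hP
    by_contra hP0
    obtain ⟨e0, he0⟩ := MvPolynomial.support_nonempty.2 hP0
    have hp0 : P.coeff e0 ≠ 0 := MvPolynomial.mem_support_iff.1 he0
    let N : κ → ℕ := fun i => P.degreeOf i
    have hN : ∀ e ∈ P.support, ∀ i, e i ≤ N i := fun e he i => MvPolynomial.monomial_le_degreeOf i he
    let c : (κ →₀ ℕ) → Polynomial ℂ := fun e =>
      (P.coeff e0).comp (X + C L) * ((∏ i, R i ^ e0 i) * ∏ i, S i ^ (N i - e0 i)) * P.coeff e -
        P.coeff e0 * (P.coeff e).comp (X + C L) * ((∏ i, R i ^ e i) * ∏ i, S i ^ (N i - e i))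
    let P' : MvPolynomial κ (Polynomial ℂ) := ∑ e ∈ P.support, MvPolynomial.monomial e (c e)
    have hcoeff : ∀ e, P'.coeff e = c e := by
      intro e
      simp only [P']
      rw [MvPolynomial.coeff_sum]
      simp only [MvPolynomial.coeff_monomial]
      rw [Finset.sum_ite_eq' P.support e]
      split_ifs with h
      · rfl
      · rw [MvPolynomial.notMem_support_iff] at h
        simp only [c, h, mul_zero, zero_comp, zero_mul, sub_zero]
    have hsub : P'.support ⊆ P.support.erase e0 := by
      intro e he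
      rw [MvPolynomial.mem_support_iff, hcoeff] at he
      rw [Finset.mem_erase]
      constructor
      · rintro rfl
        apply he
        simp only [c]
        ring
      · rw [MvPolynomial.mem_support_iff]
        intro h
        apply he
        simp only [c, h, mul_zero, zero_comp, zero_mul, sub_zero]
    have hcard : P'.support.card ≤ M := by
      have h1 := Finset.card_le_card hsub
      rw [Finset.card_erase_of_mem he0] at h1
      omega
    have hev : ∀ t ∈ Ω, P'.eval₂ (evalRingHom t) (fun i => f i t) = 0 := by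
      intro t ht
      have h1 := hP t ht
      have h2 := hP (t + L) (hL t ht)
      rw [MvPolynomial.eval₂_eq'] at h1 h2
      simp only [P']
      rw [MvPolynomial.eval₂_sum]
      have h3 : ∀ e ∈ P.support, MvPolynomial.eval₂ (evalRingHom t) (fun i => f i t) (MvPolynomial.monomial e (c e)) =
          ((P.coeff e0).comp (X + C L) * ((∏ i, R i ^ e0 i) * ∏ i, S i ^ (N i - e0 i))).eval t *
            ((evalRingHom t) (P.coeff e) * ∏ i, f i t ^ e i) -
          ((P.coeff e0).eval t * (∏ i, S i ^ N i).eval t) *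
            ((evalRingHom (t + L)) (P.coeff e) * ∏ i, f i (t + L) ^ e i) := by
        intro e he
        rw [MvPolynomial.eval₂_monomial, Finsupp.prod_fintype _ _ (fun _ => pow_zero _)]
        have h4 : (∏ i, S i ^ N i).eval t * ∏ i, f i (t + L) ^ e i =
            ((∏ i, R i ^ e i) * ∏ i, S i ^ (N i - e i)).eval t * ∏ i, f i t ^ e i := by
          rw [eval_mul, eval_prod, eval_prod, eval_prod, ← Finset.prod_mul_distrib, ← Finset.prod_mul_distrib,
            ← Finset.prod_mul_distrib]
          refine Finset.prod_congr rfl fun i _ => ?_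
          have h5 : (S i).eval t ^ N i = (S i).eval t ^ e i * (S i).eval t ^ (N i - e i) := by
            rw [← pow_add, Nat.add_sub_cancel' (hN e he i)]
          rw [eval_pow, eval_pow, eval_pow, h5]
          have h6 : ((S i).eval t * f i (t + L)) ^ e i = ((R i).eval t * f i t) ^ e i := by rw [hf i t ht]
          rw [mul_pow, mul_pow] at h6
          linear_combination (eval t (S i)) ^ (N i - e i) * h6
        simp only [c, coe_evalRingHom, eval_sub, eval_mul, eval_comp, eval_add, eval_X, eval_C] at h4 ⊢
        linear_combination (eval t (P.coeff e0) * eval (t + L) (P.coeff e)) * h4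
      rw [Finset.sum_congr rfl h3, Finset.sum_sub_distrib, ← Finset.mul_sum, ← Finset.mul_sum, h1, h2]
      ring
    have hP'0 := ih P' hcard hev
    have hall : ∀ e ∈ P.support, e = e0 := by
      intro e he
      have h1 : c e = 0 := by rw [← hcoeff, hP'0, MvPolynomial.coeff_zero]
      have h2 := key N e e0 (P.coeff e) (P.coeff e0) (hN e he) (hN e0 he0) (MvPolynomial.mem_support_iff.1 he) hp0 (by
        simp only [c] at h1
        linear_combination h1)
      exact DFunLike.coe_injective h2
    have hsup : P.support = {e0} := by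
      ext e
      rw [Finset.mem_singleton]
      exact ⟨hall e, fun h => h ▸ he0⟩
    apply hp0
    refine Polynomial.eq_of_infinite_eval_eq _ _ (hinf.mono fun t ht => ?_)
    have h1 := hP t ht
    rw [MvPolynomial.eval₂_eq', hsup, Finset.sum_singleton] at h1
    change (P.coeff e0).eval t = (0 : Polynomial ℂ).eval t
    rw [eval_zero]
    rcases mul_eq_zero.1 h1 with h2 | h2
    · exact h2
    · exact absurd h2 (Finset.prod_ne_zero_iff.2 fun i _ => pow_ne_zero _ (hne i t ht))

end Pool.Agent.R349
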